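import Pool.Agent.Slope.Spec

set_option autoImplicit false

/-!
# Module A: arithmetic soundness of the hub graph
-/

namespace Pool.Agent.Slope

lemma Arith_plucker (a b c d : ℝ × ℝ) : cr a b * cr c d - cr b d * cr a c = cr a d * cr c b := by
  simp only [cr]; ring

lemma Arith_cr_sub (a b c : ℝ × ℝ) : cr a (b - c) = cr a b - cr a c := by
  simp only [cr, Prod.fst_sub, Prod.snd_sub]; ring

lemma Arith_cr_sub' (a b c : ℝ × ℝ) : cr (b - c) a = cr b a - cr c a := by
  simp only [cr, Prod.fst_sub, Prod.snd_sub]; ring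

/-- a vector with vanishing cross products with two non-parallel vectors vanishes -/
lemma Arith_zero {u v w : ℝ × ℝ} (huv : cr u v ≠ 0) (h1 : cr u w = 0) (h2 : cr w v = 0) :
    w = 0 := by
  simp only [cr] at *
  have e1 : (u.1 * v.2 - u.2 * v.1) * w.1 = 0 := by linear_combination u.1 * h2 + v.1 * h1
  have e2 : (u.1 * v.2 - u.2 * v.1) * w.2 = 0 := by linear_combination u.2 * h2 + v.2 * h1
  ext
  · exact (mul_eq_zero.1 e1).resolve_left huv
  · exact (mul_eq_zero.1 e2).resolve_left huv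

/-- Coordinate form of a weak realization. -/
lemma Arith_coord (n : ℕ) (L : List LE) (h : HubWeak (2 * n + 2) L) :
    ∃ (σ X Y : ℕ → ℝ), (∀ a, 1 ≤ a → a ≤ 2 * n → σ a ≠ 0) ∧
      (∀ a b, 1 ≤ a → a ≤ 2 * n → 1 ≤ b → b ≤ 2 * n → a ≠ b → σ a ≠ σ b) ∧
      ∀ x ∈ L, (x.2.2 = 0 → Y x.1 = Y x.2.1) ∧ (x.2.2 = 2 * n + 1 → X x.1 = X x.2.1) ∧
        (1 ≤ x.2.2 → x.2.2 ≤ 2 * n → Y x.2.1 - Y x.1 = σ x.2.2 * (X x.2.1 - X x.1) ∧
          X x.2.1 - X x.1 ≠ 0) := by
  obtain ⟨D, H, hD, hL⟩ := h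
  have hb : cr (D 0) (D (2 * n + 1)) ≠ 0 := hD _ _ (by omega) (by omega) (by omega)
  have hX : ∀ a, 1 ≤ a → a ≤ 2 * n → cr (D a) (D (2 * n + 1)) ≠ 0 :=
    fun a h1 h2 => hD _ _ (by omega) (by omega) (by omega)
  have hY : ∀ a, 1 ≤ a → a ≤ 2 * n → cr (D 0) (D a) ≠ 0 :=
    fun a h1 h2 => hD _ _ (by omega) (by omega) (by omega)
  refine ⟨fun a => cr (D 0) (D a) / cr (D a) (D (2 * n + 1)), fun h => cr (H h) (D (2 * n + 1)),
    fun h => cr (D 0) (H h), ?_, ?_, ?_⟩
  · intro a h1 h2
    exact div_ne_zero (hY a h1 h2) (hX a h1 h2)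
  · intro a b h1 h2 h3 h4 hab heq
    rw [div_eq_div_iff (hX a h1 h2) (hX b h3 h4)] at heq
    have hp : cr (D 0) (D a) * cr (D b) (D (2 * n + 1)) - cr (D 0) (D b) * cr (D a) (D (2 * n + 1))
        = cr (D 0) (D (2 * n + 1)) * cr (D b) (D a) := by
      simp only [cr]; ring
    have : cr (D b) (D a) = 0 := by
      have h0 : cr (D 0) (D (2 * n + 1)) * cr (D b) (D a) = 0 := by rw [← hp, heq, sub_self]
      exact (mul_eq_zero.1 h0).resolve_left hb
    exact hD b a (by omega) (by omega) (Ne.symm hab) this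
  · intro x hx
    obtain ⟨hne, hpar⟩ := hL x hx
    refine ⟨?_, ?_, ?_⟩
    · intro h0
      rw [h0, Arith_cr_sub] at hpar
      exact (sub_eq_zero.1 hpar).symm
    · intro h0
      rw [h0, Arith_cr_sub] at hpar
      have e : ∀ u v : ℝ × ℝ, cr u v = - cr v u := by intro u v; simp only [cr]; ring
      have h1 := sub_eq_zero.1 hpar
      show cr (H x.1) (D (2 * n + 1)) = cr (H x.2.1) (D (2 * n + 1))
      rw [e (H x.1), e (H x.2.1), h1]
    · intro h1 h2
      have hXa := hX _ h1 h2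
      have hYa := hY _ h1 h2
      have hp : cr (D 0) (H x.2.1 - H x.1) * cr (D x.2.2) (D (2 * n + 1)) -
          cr (D 0) (D x.2.2) * cr (H x.2.1 - H x.1) (D (2 * n + 1))
          = cr (D 0) (D (2 * n + 1)) * cr (D x.2.2) (H x.2.1 - H x.1) := by
        simp only [cr]; ring
      rw [hpar, mul_zero, sub_eq_zero] at hp
      constructor
      · show cr (D 0) (H x.2.1) - cr (D 0) (H x.1) = _ * (cr (H x.2.1) _ - cr (H x.1) _)
        rw [← Arith_cr_sub, ← Arith_cr_sub']
        rw [div_mul_eq_mul_div, eq_div_iff hXa, hp]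
      · intro h0
        change cr (H x.2.1) _ - cr (H x.1) _ = 0 at h0
        rw [← Arith_cr_sub'] at h0
        rw [h0, mul_zero] at hp
        have h3 : cr (D 0) (H x.2.1 - H x.1) = 0 := (mul_eq_zero.1 hp).resolve_right hXa
        have h4 := Arith_zero hb h3 h0
        exact hne (sub_eq_zero.1 h4).symm

/-- The algebra of the gadgets: soundness. -/
theorem hubWeak_sound (n : ℕ) (cs : List Cn) (hwf : ∀ c ∈ cs, Cn.WF n c)
    (h : HubWeak (2 * n + 2) (hubEdges n cs)) :
    ∃ y : ℕ → ℝ, (∀ i < n, y i ≠ 0) ∧ ∀ c ∈ cs, Cn.Holds y c := by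
  obtain ⟨σ, X, Y, hσ, hσ2, hL⟩ := Arith_coord n _ h
  refine ⟨fun v => σ (2 * v + 2) / σ (2 * v + 1), ?_, ?_⟩
  · intro i hi
    exact div_ne_zero (hσ _ (by omega) (by omega)) (hσ _ (by omega) (by omega))
  · intro c hc
    obtain ⟨b, hb, hcb⟩ := List.getElem_of_mem hc
    have hmem : ∀ x ∈ compEdges n b c, (x.2.2 = 0 → Y x.1 = Y x.2.1) ∧
        (x.2.2 = 2 * n + 1 → X x.1 = X x.2.1) ∧
        (1 ≤ x.2.2 → x.2.2 ≤ 2 * n → Y x.2.1 - Y x.1 = σ x.2.2 * (X x.2.1 - X x.1) ∧
          X x.2.1 - X x.1 ≠ 0) := by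
      intro x hx
      apply hL
      rw [hubEdges, List.mem_flatMap]
      refine ⟨b, List.mem_range.2 hb, ?_⟩
      rw [List.getD_eq_getElem _ _ hb, hcb]
      exact hx
    have hw := hwf c hc
    clear hL hcb hb hc hwf h
    obtain ⟨k, i, l⟩ := c
    unfold Cn.Holds
    unfold Cn.WF at hw
    unfold compEdges at hmem
    by_cases hk0 : k = 0
    · simp only [hk0, if_true] at hw hmem ⊢
      obtain ⟨hil, hln⟩ := hw
      have e1 := (hmem (8 * b, 8 * b + 1, 2 * i + 1) (by simp)).2.2 (by simp) (by simp; omega)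
      have e2 := (hmem (8 * b, 8 * b + 2, 2 * i + 2) (by simp)).2.2 (by simp) (by simp; omega)
      have e3 := (hmem (8 * b, 8 * b + 5, 2 * l + 1) (by simp)).2.2 (by simp) (by simp; omega)
      have e4 := (hmem (8 * b, 8 * b + 6, 2 * l + 2) (by simp)).2.2 (by simp) (by simp; omega)
      have e5 := (hmem (8 * b + 1, 8 * b + 2, 2 * n + 1) (by simp)).2.1 rfl
      have e6 := (hmem (8 * b + 5, 8 * b + 1, 0) (by simp)).1 rfl
      have e7 := (hmem (8 * b + 5, 8 * b + 6, 2 * n + 1) (by simp)).2.1 rfl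
      have e8 := (hmem (8 * b + 6, 8 * b + 2, 0) (by simp)).1 rfl
      simp only at e1 e2 e3 e4 e5 e6 e7 e8
      have q1 := hσ (2 * i + 1) (by omega) (by omega)
      have q2 := hσ (2 * l + 1) (by omega) (by omega)
      rw [div_eq_div_iff q1 q2]
      obtain ⟨a1, b1⟩ := e1
      obtain ⟨a2, b2⟩ := e2
      obtain ⟨a3, b3⟩ := e3
      obtain ⟨a4, b4⟩ := e4
      rw [← e5] at a2
      rw [← e7] at a4
      have f1 : σ (2 * l + 1) * (X (8 * b + 5) - X (8 * b)) =
        σ (2 * i + 1) * (X (8 * b + 1) - X (8 * b)) := by linear_combination a1 - a3 + e6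
      have f2 : σ (2 * l + 2) * (X (8 * b + 5) - X (8 * b)) =
        σ (2 * i + 2) * (X (8 * b + 1) - X (8 * b)) := by linear_combination a2 - a4 + e8
      have f3 : (X (8 * b + 1) - X (8 * b)) * (σ (2 * i + 2) * σ (2 * l + 1) -
          σ (2 * l + 2) * σ (2 * i + 1)) * (X (8 * b + 5) - X (8 * b)) = 0 := by
        linear_combination (-σ (2 * l + 1) * (X (8 * b + 5) - X (8 * b))) * f2 + (σ (2 * l + 2) * (X (8 * b + 5) - X (8 * b))) * f1
      have f4 := (mul_eq_zero.1 f3).resolve_right b3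
      have f5 := (mul_eq_zero.1 f4).resolve_left b1
      linarith
    · by_cases hk1 : k = 1
      · subst hk1
        simp only [one_ne_zero, if_false, if_true] at hw hmem ⊢
        obtain ⟨a1, b1⟩ := (hmem (8 * b, 8 * b + 1, 2 * i + 1) (by simp)).2.2 (by simp)
          (by simp; omega)
        obtain ⟨a2, b2⟩ := (hmem (8 * b, 8 * b + 2, 2 * i + 2) (by simp)).2.2 (by simp)
          (by simp; omega)
        obtain ⟨a3, b3⟩ := (hmem (8 * b, 8 * b + 3, 2 * i + 3) (by simp)).2.2 (by simp)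
          (by simp; omega)
        obtain ⟨a4, b4⟩ := (hmem (8 * b, 8 * b + 4, 2 * i + 4) (by simp)).2.2 (by simp)
          (by simp; omega)
        obtain ⟨a5, b5⟩ := (hmem (8 * b, 8 * b + 5, 2 * i + 5) (by simp)).2.2 (by simp)
          (by simp; omega)
        obtain ⟨a6, b6⟩ := (hmem (8 * b, 8 * b + 6, 2 * i + 6) (by simp)).2.2 (by simp)
          (by simp; omega)
        have c1 := (hmem (8 * b + 1, 8 * b + 2, 2 * n + 1) (by simp)).2.1 rfl
        have c2 := (hmem (8 * b + 5, 8 * b + 3, 0) (by simp)).1 rfl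
        have c3 := (hmem (8 * b + 3, 8 * b + 4, 2 * n + 1) (by simp)).2.1 rfl
        have c4 := (hmem (8 * b + 3, 8 * b + 1, 0) (by simp)).1 rfl
        have c5 := (hmem (8 * b + 5, 8 * b + 6, 2 * n + 1) (by simp)).2.1 rfl
        have c6 := (hmem (8 * b + 6, 8 * b + 7, 0) (by simp)).1 rfl
        obtain ⟨d1, -⟩ := (hmem (8 * b + 2, 8 * b + 7, 2 * i + 4) (by simp)).2.2 (by simp)
          (by simp; omega)
        obtain ⟨d2, -⟩ := (hmem (8 * b + 4, 8 * b + 7, 2 * i + 2) (by simp)).2.2 (by simp)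
          (by simp; omega)
        simp only at a1 a2 a3 a4 a5 a6 b1 b2 b3 b4 b5 b6 c1 c2 c3 c4 c5 c6 d1 d2
        have q1 := hσ (2 * i + 1) (by omega) (by omega)
        have q2 := hσ (2 * i + 3) (by omega) (by omega)
        have q3 := hσ (2 * i + 5) (by omega) (by omega)
        have hne := hσ2 (2 * i + 2) (2 * i + 4) (by omega) (by omega) (by omega) (by omega)
          (by omega)
        have hi1 : 2 * (i + 1) + 2 = 2 * i + 4 := by ring
        have hi2 : 2 * (i + 1) + 1 = 2 * i + 3 := by ring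
        have hi3 : 2 * (i + 2) + 2 = 2 * i + 6 := by ring
        have hi4 : 2 * (i + 2) + 1 = 2 * i + 5 := by ring
        rw [hi1, hi2, hi3, hi4]
        generalize σ (2 * i + 1) = p1 at *
        generalize σ (2 * i + 2) = m1 at *
        generalize σ (2 * i + 3) = p2 at *
        generalize σ (2 * i + 4) = m2 at *
        generalize σ (2 * i + 5) = p3 at *
        generalize σ (2 * i + 6) = m3 at *
        rw [← c1] at a2 d1
        rw [← c3] at a4 d2
        rw [← c5] at a6
        generalize hw1 : X (8 * b + 1) - X (8 * b) = w1 at *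
        generalize hw2 : X (8 * b + 3) - X (8 * b) = w2 at *
        generalize hw3 : X (8 * b + 5) - X (8 * b) = w3 at *
        have g1 : p1 * w1 = p3 * w3 := by linarith
        have g2 : p2 * w2 = p3 * w3 := by linarith
        have g3 : (m2 - m1) * (X (8 * b + 7) - X (8 * b) - w1 - w2) = 0 := by
          have t1 : X (8 * b + 7) - X (8 * b + 1) = X (8 * b + 7) - X (8 * b) - w1 := by
            rw [← hw1]; ring
          have t2 : X (8 * b + 7) - X (8 * b + 3) = X (8 * b + 7) - X (8 * b) - w2 := by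
            rw [← hw2]; ring
          rw [t1] at d1
          rw [t2] at d2
          linear_combination a4 - a2 + d2 - d1
        have g4 : X (8 * b + 7) - X (8 * b) - w1 - w2 = 0 :=
          (mul_eq_zero.1 g3).resolve_left (sub_ne_zero.2 (Ne.symm hne))
        have t1 : X (8 * b + 7) - X (8 * b + 1) = w2 := by
          rw [← hw1] at g4; linarith
        rw [t1] at d1
        have g5 : m3 * w3 = m1 * w1 + m2 * w2 := by linarith
        have r0 : p3 * w3 ≠ 0 := mul_ne_zero q3 b5
        have z1 : m1 / p1 = m1 * w1 / (p3 * w3) := by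
          rw [← g1, mul_div_mul_right _ _ b1]
        have z2 : m2 / p2 = m2 * w2 / (p3 * w3) := by
          rw [← g2, mul_div_mul_right _ _ b3]
        have z3 : m3 / p3 = m3 * w3 / (p3 * w3) := by
          rw [mul_div_mul_right _ _ b5]
        rw [z1, z2, z3, g5, add_div]
      · simp only [hk0, hk1, if_false] at hw hmem ⊢
        obtain ⟨a1, b1⟩ := (hmem (8 * b, 8 * b + 1, 2 * i + 1) (by simp)).2.2 (by simp)
          (by simp; omega)
        obtain ⟨a2, b2⟩ := (hmem (8 * b, 8 * b + 2, 2 * i + 2) (by simp)).2.2 (by simp)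
          (by simp; omega)
        obtain ⟨a3, b3⟩ := (hmem (8 * b, 8 * b + 3, 2 * i + 3) (by simp)).2.2 (by simp)
          (by simp; omega)
        obtain ⟨a4, b4⟩ := (hmem (8 * b, 8 * b + 4, 2 * i + 4) (by simp)).2.2 (by simp)
          (by simp; omega)
        obtain ⟨a5, b5⟩ := (hmem (8 * b, 8 * b + 5, 2 * i + 5) (by simp)).2.2 (by simp)
          (by simp; omega)
        obtain ⟨a6, b6⟩ := (hmem (8 * b, 8 * b + 6, 2 * i + 6) (by simp)).2.2 (by simp)
          (by simp; omega)
        have c1 := (hmem (8 * b + 1, 8 * b + 2, 2 * n + 1) (by simp)).2.1 rfl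
        have c2 := (hmem (8 * b + 5, 8 * b + 1, 0) (by simp)).1 rfl
        have c3 := (hmem (8 * b + 3, 8 * b + 4, 2 * n + 1) (by simp)).2.1 rfl
        have c4 := (hmem (8 * b + 3, 8 * b + 2, 0) (by simp)).1 rfl
        have c5 := (hmem (8 * b + 5, 8 * b + 6, 2 * n + 1) (by simp)).2.1 rfl
        have c6 := (hmem (8 * b + 6, 8 * b + 4, 0) (by simp)).1 rfl
        simp only at a1 a2 a3 a4 a5 a6 b1 b2 b3 b4 b5 b6 c1 c2 c3 c4 c5 c6
        have q1 := hσ (2 * i + 1) (by omega) (by omega)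
        have q2 := hσ (2 * i + 3) (by omega) (by omega)
        have q3 := hσ (2 * i + 5) (by omega) (by omega)
        have hi1 : 2 * (i + 1) + 2 = 2 * i + 4 := by ring
        have hi2 : 2 * (i + 1) + 1 = 2 * i + 3 := by ring
        have hi3 : 2 * (i + 2) + 2 = 2 * i + 6 := by ring
        have hi4 : 2 * (i + 2) + 1 = 2 * i + 5 := by ring
        rw [hi1, hi2, hi3, hi4]
        generalize σ (2 * i + 1) = p1 at *
        generalize σ (2 * i + 2) = m1 at *
        generalize σ (2 * i + 3) = p2 at *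
        generalize σ (2 * i + 4) = m2 at *
        generalize σ (2 * i + 5) = p3 at *
        generalize σ (2 * i + 6) = m3 at *
        rw [← c1] at a2
        rw [← c3] at a4
        rw [← c5] at a6
        generalize X (8 * b + 1) - X (8 * b) = w1 at *
        generalize X (8 * b + 3) - X (8 * b) = w2 at *
        generalize X (8 * b + 5) - X (8 * b) = w3 at *
        have g1 : p1 * w1 = p3 * w3 := by linarith
        have g2 : p2 * w2 = m1 * w1 := by linarith
        have g3 : m3 * w3 = m2 * w2 := by linarith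
        have z3 : m3 / p3 = m2 * w2 / (p1 * w1) := by
          rw [← g3, g1, mul_div_mul_right _ _ b5]
        have z2 : m2 / p2 = m2 * w2 / (m1 * w1) := by
          rw [← g2, mul_div_mul_right _ _ b3]
        have z1 : m1 / p1 = m1 * w1 / (p1 * w1) := by
          rw [mul_div_mul_right _ _ b1]
        have hm1 : m1 * w1 ≠ 0 := by
          rw [← g2]; exact mul_ne_zero q2 b3
        have hp1 : p1 * w1 ≠ 0 := mul_ne_zero q1 b1
        rw [z1, z2, z3, div_mul_div_comm, mul_comm (p1 * w1), mul_div_mul_left _ _ hm1]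

end Pool.Agent.Slope
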