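import Pool.Agent.Slope.Moves

set_option autoImplicit false

/-!
# A first configuration
-/

namespace Pool.Agent.Slope

theorem cr_decomp (a b T : ℝ × ℝ) : cr a b • T = cr T b • a + cr a T • b := by
  refine Prod.ext ?_ ?_ <;>
  simp only [cr, Prod.fst_add, Prod.snd_add, Prod.smul_fst, Prod.smul_snd, smul_eq_mul] <;> ring

theorem cr_decomp' {a b : ℝ × ℝ} (h : cr a b ≠ 0) (T : ℝ × ℝ) :
    T = (cr T b / cr a b) • a + (cr a T / cr a b) • b := by
  have h1 := cr_decomp a b T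
  calc T = (cr a b)⁻¹ • (cr a b • T) := by rw [smul_smul, inv_mul_cancel₀ h, one_smul]
    _ = (cr T b / cr a b) • a + (cr a T / cr a b) • b := by
      rw [h1, smul_add, smul_smul, smul_smul, div_eq_inv_mul, div_eq_inv_mul]

/-- Three consecutive directions of a star positively span the plane. -/
theorem Rays.tri {k : ℕ} {r : ℤ → ℝ × ℝ} (hr : Rays k r) (hk : 3 ≤ k) (T : ℝ × ℝ) (i : ℤ) :
    ∃ α β γ : ℝ, 0 < α ∧ 0 < β ∧ 0 < γ ∧
      T = α • r i + β • r (i + k + 1) + γ • r (i + 2 * (k + 1)) := by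
  have e1 : r (i + k + 1) = - r (i + 1) := by
    rw [← hr.anti]; congr 1; ring
  have e2 : r (i + 2 * (k + 1)) = r (i + 2) := by
    rw [← hr.add2 (i + 2)]; congr 1; ring
  rw [e1, e2]
  have hD : 0 < cr (r i) (r (i + 2)) := hr.pos _ _ (by omega) (by omega)
  have hx : 0 < cr (r (i + 1)) (r (i + 2)) := hr.pos _ _ (by omega) (by omega)
  have hz : 0 < cr (r i) (r (i + 1)) := hr.pos _ _ (by omega) (by omega)
  have h1 := cr_decomp' hD.ne' T
  have h2 := cr_decomp' hD.ne' (r (i + 1))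
  obtain ⟨A, hA⟩ : ∃ A, A = cr T (r (i + 2)) / cr (r i) (r (i + 2)) := ⟨_, rfl⟩
  obtain ⟨C, hC⟩ : ∃ C, C = cr (r i) T / cr (r i) (r (i + 2)) := ⟨_, rfl⟩
  obtain ⟨x, hx'⟩ : ∃ x, x = cr (r (i + 1)) (r (i + 2)) / cr (r i) (r (i + 2)) := ⟨_, rfl⟩
  obtain ⟨z, hz'⟩ : ∃ z, z = cr (r i) (r (i + 1)) / cr (r i) (r (i + 2)) := ⟨_, rfl⟩
  rw [← hA, ← hC] at h1
  rw [← hx', ← hz'] at h2
  have hx0 : 0 < x := by rw [hx']; positivity
  have hz0 : 0 < z := by rw [hz']; positivity
  have hl1 : |A| ≤ (|A| / x + |C| / z + 1) * x := by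
    have : (|A| / x + |C| / z + 1) * x = |A| + (|C| / z) * x + x := by field_simp
    rw [this]
    have : 0 ≤ (|C| / z) * x := by positivity
    linarith
  have hl2 : |C| ≤ (|A| / x + |C| / z + 1) * z := by
    have : (|A| / x + |C| / z + 1) * z = |C| + (|A| / x) * z + z := by field_simp; ring
    rw [this]
    have : 0 ≤ (|A| / x) * z := by positivity
    linarith
  have hl : 0 < |A| / x + |C| / z + 1 := by positivity
  obtain ⟨l, hl'⟩ : ∃ l, l = |A| / x + |C| / z + 1 := ⟨_, rfl⟩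
  rw [← hl'] at hl1 hl2 hl
  refine ⟨A + (l + 1) * x, l + 1, C + (l + 1) * z, ?_, by linarith, ?_, ?_⟩
  · have := neg_abs_le A
    nlinarith
  · have := neg_abs_le C
    nlinarith
  · have h3 : (l + 1) • -r (i + 1) = -((l + 1) • (x • r i + z • r (i + 2))) := by
      rw [← h2, smul_neg]
    rw [h3, smul_add, smul_smul, smul_smul]
    nth_rewrite 1 [h1]
    rw [add_smul, add_smul]
    abel

/-- The positivity conditions. -/
structure Psv (k : ℕ) (L : List LE) (r : ℤ → ℝ × ℝ) (p : Vx → ℝ × ℝ) : Prop where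
  star : ∀ t i, t ≤ L.length → i < k →
    0 < (r (RR k t i)).1 * (p (.star t (nx k i)) - p (.star t i)).1
  cone1 : ∀ t i, t ≤ L.length → i < k →
    0 < cr (r (RR k t i - 1)) (p (.star t i) - p (.part t i))
  cone2 : ∀ t i, t ≤ L.length → i < k →
    0 < cr (- r (RR k t i)) (p (.star t i) - p (.part t i))
  cl : ∀ t i e s a, Cl k L t i e s a → 0 < (r a).1 * (p (.gad e s) - p (.part t i)).1
  m1 : ∀ e, e < L.length → 0 < (p (.gad e false) - p (.hub (lab L e).1)).1
  m2 : ∀ e, e < L.length → 0 < (p (.gad e true) - p (.gad e false)).1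
  m3 : ∀ e, e < L.length → 0 < (p (.hub (lab L e).2.1) - p (.gad e true)).1

section base

variable {k : ℕ} {L : List LE} {r : ℤ → ℝ × ℝ} {H : ℕ → ℝ × ℝ}

/-- Position of the gadget vertices. -/
noncomputable def gpos (L : List LE) (H : ℕ → ℝ × ℝ) (e : ℕ) (s : Bool) : ℝ × ℝ :=
  H (lab L e).1 + (cond s (2 / 3 : ℝ) (1 / 3)) • (H (lab L e).2.1 - H (lab L e).1)

theorem exists_base (hr : Rays k r) {K : ℕ} (hk : k = 3 * K) (hk9 : 9 ≤ k)
    (hr1 : ∀ i, (r i).1 ≠ 0) (hch : Chain L)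
    (hmain : ∀ e, e < L.length → 0 < (r (6 * ln L e + 1)).1 ∧ ∃ c : ℝ, 0 < c ∧
      H (lab L e).2.1 - H (lab L e).1 = c • r (6 * ln L e + 1)) :
    ∃ p, Eqs k L r H p ∧ Psv k L r p := by
  classical
  -- positions of the clients
  have hcp : ∃ cp : ℕ → ℕ → ℝ × ℝ, ∀ t i e s a, Cl k L t i e s a →
      cp t i = gpos L H e s - r a := by
    refine ⟨fun t i => if h : ∃ x : ℕ × Bool × ℤ, Cl k L t i x.1 x.2.1 x.2.2 then
      gpos L H h.choose.1 h.choose.2.1 - r h.choose.2.2 else 0, fun t i e s a hc => ?_⟩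
    have h : ∃ x : ℕ × Bool × ℤ, Cl k L t i x.1 x.2.1 x.2.2 := ⟨(e, s, a), hc⟩
    simp only
    rw [dif_pos h]
    obtain ⟨h1, h2, h3⟩ := h.choose_spec.unique hch hc
    rw [h1, h2, h3]
  obtain ⟨cp, hcp⟩ := hcp
  -- the tips
  obtain ⟨V, hV⟩ : ∃ V : ℕ → ℕ → ℝ × ℝ, V = fun t m =>
    if ∃ e s a, Cl k L t (3 * m) e s a then
      cp t (3 * m) + (r (RR k t (3 * m) - 1) + r (RR k t (3 * m))) else 0 := ⟨_, rfl⟩
  have htri : ∀ t m, ∃ c : ℝ × ℝ × ℝ, 0 < c.1 ∧ 0 < c.2.1 ∧ 0 < c.2.2 ∧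
      V t ((m + 1) % K) - V t m = c.1 • r (RR k t (3 * m)) + c.2.1 • r (RR k t (3 * m) + k + 1) +
        c.2.2 • r (RR k t (3 * m) + 2 * (k + 1)) := by
    intro t m
    obtain ⟨α, β, γ, h1, h2, h3, h4⟩ := hr.tri (by omega) (V t ((m + 1) % K) - V t m)
      (RR k t (3 * m))
    exact ⟨(α, β, γ), h1, h2, h3, h4⟩
  choose c hc1 hc2 hc3 hc using htri
  obtain ⟨st, hst⟩ : ∃ st : ℕ → ℕ → ℝ × ℝ, st = fun t i =>
    V t (i / 3) + (if i % 3 = 0 then 0 else (c t (i / 3)).1 • r (RR k t (3 * (i / 3)))) +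
      (if i % 3 = 2 then (c t (i / 3)).2.1 • r (RR k t (3 * (i / 3)) + k + 1) else 0) := ⟨_, rfl⟩
  have hst0 : ∀ t m, st t (3 * m) = V t m := by
    intro t m
    have h1 : 3 * m / 3 = m := by omega
    have h2 : 3 * m % 3 = 0 := by omega
    rw [hst]
    simp [h1, h2]
  have hst1 : ∀ t m, st t (3 * m + 1) = V t m + (c t m).1 • r (RR k t (3 * m)) := by
    intro t m
    have h1 : (3 * m + 1) / 3 = m := by omega
    have h2 : (3 * m + 1) % 3 = 1 := by omega
    rw [hst]
    simp [h1, h2]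
  have hst2 : ∀ t m, st t (3 * m + 2) = V t m + (c t m).1 • r (RR k t (3 * m)) +
      (c t m).2.1 • r (RR k t (3 * m) + k + 1) := by
    intro t m
    have h1 : (3 * m + 2) / 3 = m := by omega
    have h2 : (3 * m + 2) % 3 = 2 := by omega
    rw [hst]
    simp [h1, h2]
  have hedge : ∀ t i, i < k → ∃ x : ℝ, 0 < x ∧ st t (nx k i) - st t i = x • r (RR k t i) := by
    intro t i hi
    obtain ⟨m, hm⟩ : ∃ m, m = i / 3 := ⟨_, rfl⟩
    rcases (by omega : i = 3 * m ∨ i = 3 * m + 1 ∨ i = 3 * m + 2) with h | h | h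
    · have h1 : nx k i = 3 * m + 1 := by
        rw [nx, h, Nat.mod_eq_of_lt (by omega)]
      refine ⟨_, hc1 t m, ?_⟩
      rw [h1, h, hst0, hst1]
      abel
    · have h1 : nx k i = 3 * m + 2 := by
        rw [nx, h, Nat.mod_eq_of_lt (by omega)]
      refine ⟨_, hc2 t m, ?_⟩
      have h2 : RR k t i = RR k t (3 * m) + k + 1 := by
        rw [h]; simp only [RR]; push_cast; ring
      rw [h1, h2, h, hst1, hst2]
      abel
    · have h1 : nx k i = 3 * ((m + 1) % K) := by
        rw [nx, h]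
        have : 3 * m + 2 + 1 = 3 * (m + 1) := by ring
        rw [this, hk, Nat.mul_mod_mul_left]
      refine ⟨_, hc3 t m, ?_⟩
      have h2 : RR k t i = RR k t (3 * m) + 2 * (k + 1) := by
        rw [h]; simp only [RR]; push_cast; ring
      have h3 := hc t m
      have h4 : V t ((m + 1) % K) = V t m + ((c t m).1 • r (RR k t (3 * m)) +
        (c t m).2.1 • r (RR k t (3 * m) + k + 1) +
        (c t m).2.2 • r (RR k t (3 * m) + 2 * (k + 1))) := by
        rw [← h3]; abel
      rw [h1, h2, h, hst0, hst2, h4]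
      abel
  obtain ⟨pt, hpt⟩ : ∃ pt : ℕ → ℕ → ℝ × ℝ, pt = fun t i =>
    if ∃ e s a, Cl k L t i e s a then cp t i else
      st t i - (r (RR k t i - 1) + r (RR k t i)) := ⟨_, rfl⟩
  have hpst : ∀ t i, st t i - pt t i = r (RR k t i - 1) + r (RR k t i) := by
    intro t i
    rw [hpt]
    simp only
    by_cases h : ∃ e s a, Cl k L t i e s a
    · rw [if_pos h]
      have h3 : i = 3 * (i / 3) := by
        obtain ⟨e, s, a, h⟩ := h
        rcases h.2.2 with h | h <;> omega
      have h4 : st t i = V t (i / 3) := by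
        conv_lhs => rw [h3]
        exact hst0 t _
      rw [h4, hV]
      simp only
      rw [← h3, if_pos h]
      abel
    · rw [if_neg h]
      abel
  refine ⟨fun z => match z with
    | .hub h => H h
    | .gad e s => gpos L H e s
    | .star t i => st t i
    | .part t i => pt t i
    | _ => 0, ⟨fun h => rfl, fun t i hi => ?_, fun t i e s a hcl => ?_, fun e s he => ?_⟩,
    ⟨fun t i ht hi => ?_, fun t i ht hi => ?_, fun t i ht hi => ?_, fun t i e s a hcl => ?_,
      fun e he => ?_, fun e he => ?_, fun e he => ?_⟩⟩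
  · simp only
    obtain ⟨x, _, hx⟩ := hedge t i hi
    rw [hx, cr_smul_right, cr_self, mul_zero]
  · simp only
    rw [hpt]
    simp only
    rw [if_pos ⟨e, s, a, hcl⟩, hcp t i e s a hcl]
    have : gpos L H e s - r a - gpos L H e s = - r a := by abel
    rw [this, cr_neg_right, cr_self, neg_zero]
  · simp only [gpos]
    obtain ⟨_, x, hx, h⟩ := hmain e he
    rw [h, add_sub_cancel_left, smul_smul, cr_smul_right, cr_self, mul_zero]
  · simp only
    obtain ⟨x, hx, h⟩ := hedge t i hi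
    rw [h, Prod.smul_fst, smul_eq_mul]
    have h1 := hr1 (RR k t i)
    have : (r (RR k t i)).1 * (x * (r (RR k t i)).1) = x * ((r (RR k t i)).1 ^ 2) := by ring
    rw [this]
    positivity
  · simp only
    rw [hpst, cr_add_right, cr_self, zero_add]
    exact hr.pos _ _ (by omega) (by omega)
  · simp only
    rw [hpst, cr_neg_left, cr_swap, neg_neg, cr_add_left, cr_self, add_zero]
    exact hr.pos _ _ (by omega) (by omega)
  · simp only
    rw [hpt]
    simp only
    rw [if_pos ⟨e, s, a, hcl⟩, hcp t i e s a hcl]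
    have : gpos L H e s - (gpos L H e s - r a) = r a := by abel
    rw [this]
    have h1 := hr1 a
    have : 0 < (r a).1 ^ 2 := by positivity
    nlinarith
  · simp only [gpos]
    obtain ⟨h0, x, hx, h⟩ := hmain e he
    rw [h, add_sub_cancel_left, smul_smul, Prod.smul_fst, smul_eq_mul]
    simp only [cond_false]
    positivity
  · simp only [gpos]
    obtain ⟨h0, x, hx, h⟩ := hmain e he
    rw [h, add_sub_add_left_eq_sub, smul_smul, smul_smul, ← sub_smul, Prod.smul_fst, smul_eq_mul]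
    simp only [cond_false, cond_true]
    have : (2 / 3 : ℝ) * x - 1 / 3 * x = x / 3 := by ring
    rw [this]
    positivity
  · simp only [gpos]
    obtain ⟨h0, x, hx, h⟩ := hmain e he
    have h1 : H (lab L e).2.1 = H (lab L e).1 + x • r (6 * ln L e + 1) := by rw [← h]; abel
    rw [h, h1, add_sub_add_left_eq_sub, smul_smul, ← sub_smul, Prod.smul_fst, smul_eq_mul]
    simp only [cond_true]
    have : x - (2 / 3 : ℝ) * x = x / 3 := by ring
    rw [this]
    positivity

end base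

end Pool.Agent.Slope
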