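import Pool.Agent.Slope.Spec

set_option autoImplicit false

/-!
# Module G: the generic bridge between graphs on `Fin n` and edge lists
-/

namespace Pool.Agent.Slope

lemma Bridge_slope_comm (p q : ℝ × ℝ) : slope p q = slope q p := by
  unfold slope
  by_cases h : p.1 = q.1
  · rw [if_pos h, if_pos h.symm]
  · rw [if_neg h, if_neg (Ne.symm h)]
    congr 1
    rw [← neg_sub p.2, ← neg_sub p.1, neg_div_neg_eq]

lemma Bridge_supp_finite {V : Type} (Es : List (V × V)) : (supp Es).Finite := by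
  have h : supp Es ⊆ ((fun e : V × V => e.1) '' {e | e ∈ Es}) ∪
      ((fun e : V × V => e.2) '' {e | e ∈ Es}) := by
    rintro w ⟨e, he, h | h⟩
    · exact Or.inl ⟨e, he, h.symm⟩
    · exact Or.inr ⟨e, he, h.symm⟩
  exact ((Es.finite_toSet.image _).union (Es.finite_toSet.image _)).subset h

/-- points of the parabola give a drawing -/
lemma Bridge_parabola {n : ℕ} (G : SimpleGraph (Fin n)) :
    IsDrawing G (fun i : Fin n => (((i : ℕ) : ℝ), ((i : ℕ) : ℝ) ^ 2)) := by
  constructor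
  · intro i j hij
    have h := (Prod.mk.inj hij).1
    exact Fin.ext (by exact_mod_cast h)
  · intro u v w huv hw
    obtain ⟨a, b, ha, hb, hab, hh⟩ := hw
    have h1 := congrArg Prod.fst hh
    have h2 := congrArg Prod.snd hh
    simp only [Prod.fst_add, Prod.snd_add, Prod.smul_fst, Prod.smul_snd, smul_eq_mul] at h1 h2
    have hne : ((u : ℕ) : ℝ) ≠ ((v : ℕ) : ℝ) := by
      intro h
      exact huv.ne (Fin.ext (by exact_mod_cast h))
    have hb' : b = 1 - a := by linarith
    have h3 : a * b * (((u : ℕ) : ℝ) - ((v : ℕ) : ℝ)) ^ 2 = 0 := by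
      rw [← h1] at h2
      subst hb'
      linear_combination h2
    have h4 : 0 < a * b * (((u : ℕ) : ℝ) - ((v : ℕ) : ℝ)) ^ 2 := by
      have := sq_pos_of_ne_zero (sub_ne_zero.2 hne)
      positivity
    linarith

theorem slopeProblem_iff {V : Type} (Es : List (V × V)) (ν : V → ℕ) (n k : ℕ)
    (hne : ∀ e ∈ Es, e.1 ≠ e.2) (hν : Set.InjOn ν (supp Es)) (hlt : ∀ v ∈ supp Es, ν v < n) :
    SlopeProblem ⟨n, Es.map fun e => (ν e.1, ν e.2), k⟩ ↔ Drawable Es k := by
  have hadj : ∀ u v : Fin n,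
      (Inst.graph ⟨n, Es.map fun e => (ν e.1, ν e.2), k⟩).Adj u v ↔
        u ≠ v ∧ ((∃ e ∈ Es, ν e.1 = u ∧ ν e.2 = v) ∨ (∃ e ∈ Es, ν e.1 = v ∧ ν e.2 = u)) := by
    intro u v
    simp only [Inst.graph, SimpleGraph.fromRel_adj, List.mem_map, Prod.mk.injEq]
  have hs1 : ∀ e ∈ Es, e.1 ∈ supp Es := fun e he => ⟨e, he, Or.inl rfl⟩
  have hs2 : ∀ e ∈ Es, e.2 ∈ supp Es := fun e he => ⟨e, he, Or.inr rfl⟩
  constructor
  · intro h
    have hne' : {m | ∃ p : Fin n → ℝ × ℝ,
        IsDrawing (Inst.graph ⟨n, Es.map fun e => (ν e.1, ν e.2), k⟩) p ∧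
        (slopes (Inst.graph ⟨n, Es.map fun e => (ν e.1, ν e.2), k⟩) p).ncard = m}.Nonempty :=
      ⟨_, _, Bridge_parabola _, rfl⟩
    obtain ⟨p, hp, hc⟩ := Nat.sInf_mem hne'
    have hk : (slopes (Inst.graph ⟨n, Es.map fun e => (ν e.1, ν e.2), k⟩) p).ncard ≤ k := by
      rw [hc]; exact h
    have hfin : (slopes (Inst.graph ⟨n, Es.map fun e => (ν e.1, ν e.2), k⟩) p).Finite := by
      have : slopes (Inst.graph ⟨n, Es.map fun e => (ν e.1, ν e.2), k⟩) p ⊆
          Set.range (fun uv : Fin n × Fin n => slope (p uv.1) (p uv.2)) := by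
        rintro s ⟨u, v, -, rfl⟩
        exact ⟨(u, v), rfl⟩
      exact (Set.finite_range _).subset this
    classical
    have hA : ∀ e, (he : e ∈ Es) → (Inst.graph ⟨n, Es.map fun e => (ν e.1, ν e.2), k⟩).Adj
        ⟨ν e.1, hlt _ (hs1 e he)⟩ ⟨ν e.2, hlt _ (hs2 e he)⟩ := by
      intro e he
      rw [hadj]
      refine ⟨?_, Or.inl ⟨e, he, rfl, rfl⟩⟩
      intro h
      exact hne e he (hν (hs1 e he) (hs2 e he) (Fin.mk.inj h))
    refine ⟨fun v => if h : ν v < n then p ⟨ν v, h⟩ else 0, ?_, ?_, hfin.toFinset, ?_, ?_⟩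
    · intro v hv w hw hvw
      simp only [dif_pos (hlt v hv), dif_pos (hlt w hw)] at hvw
      exact hν hv hw (Fin.mk.inj (hp.inj hvw))
    · intro e he w hw
      simp only [dif_pos (hlt w hw), dif_pos (hlt _ (hs1 e he)), dif_pos (hlt _ (hs2 e he))]
      exact hp.avoid _ _ _ (hA e he)
    · rw [← Set.ncard_eq_toFinset_card _ hfin]; exact hk
    · intro e he
      simp only [dif_pos (hlt _ (hs1 e he)), dif_pos (hlt _ (hs2 e he))]
      rw [Set.Finite.mem_toFinset]
      exact ⟨_, _, hA e he, rfl⟩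
  · rintro ⟨p, hinj, havoid, S, hS, hSl⟩
    classical
    obtain ⟨M, hM⟩ := ((Bridge_supp_finite Es).image fun v => (p v).1).bddAbove
    have hM' : ∀ v ∈ supp Es, (p v).1 ≤ M := fun v hv => hM ⟨v, hv, rfl⟩
    let P : Fin n → ℝ × ℝ := fun i =>
      if h : ∃ v ∈ supp Es, ν v = i then p h.choose else (M + 1 + ((i : ℕ) : ℝ), 0)
    have hP1 : ∀ v, (hv : v ∈ supp Es) → ∀ i : Fin n, ν v = i → P i = p v := by
      intro v hv i hi
      have h : ∃ v ∈ supp Es, ν v = i := ⟨v, hv, hi⟩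
      have h2 := h.choose_spec
      show dite _ _ _ = _
      rw [dif_pos h, hν h2.1 hv (h2.2.trans hi.symm)]
    have hP2 : ∀ i : Fin n, (¬ ∃ v ∈ supp Es, ν v = i) → P i = (M + 1 + ((i : ℕ) : ℝ), 0) := by
      intro i hi
      show dite _ _ _ = _
      rw [dif_neg hi]
    have hdraw : IsDrawing (Inst.graph ⟨n, Es.map fun e => (ν e.1, ν e.2), k⟩) P := by
      constructor
      · intro i j hij
        by_cases hi : ∃ v ∈ supp Es, ν v = i
        · obtain ⟨v, hv, hvi⟩ := hi
          rw [hP1 v hv i hvi] at hij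
          by_cases hj : ∃ v ∈ supp Es, ν v = j
          · obtain ⟨w, hw, hwj⟩ := hj
            rw [hP1 w hw j hwj] at hij
            apply Fin.ext
            rw [← hvi, ← hwj, hinj hv hw hij]
          · exfalso
            rw [hP2 j hj] at hij
            have h1 := hM' v hv
            rw [hij] at h1
            simp only at h1
            have : (0 : ℝ) ≤ ((j : ℕ) : ℝ) := Nat.cast_nonneg _
            linarith
        · rw [hP2 i hi] at hij
          by_cases hj : ∃ v ∈ supp Es, ν v = j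
          · exfalso
            obtain ⟨w, hw, hwj⟩ := hj
            rw [hP1 w hw j hwj] at hij
            have h1 := hM' w hw
            rw [← hij] at h1
            simp only at h1
            have : (0 : ℝ) ≤ ((i : ℕ) : ℝ) := Nat.cast_nonneg _
            linarith
          · rw [hP2 j hj] at hij
            have h1 := (Prod.mk.inj hij).1
            have h2 : ((i : ℕ) : ℝ) = ((j : ℕ) : ℝ) := by linarith
            exact Fin.ext (by exact_mod_cast h2)
      · have key : ∀ e ∈ Es, ∀ u v w : Fin n, ν e.1 = u → ν e.2 = v →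
            P w ∉ openSegment ℝ (P u) (P v) := by
          intro e he u v w hu hv
          rw [hP1 _ (hs1 e he) u hu, hP1 _ (hs2 e he) v hv]
          by_cases hw : ∃ v ∈ supp Es, ν v = w
          · obtain ⟨x, hx, hxw⟩ := hw
            rw [hP1 x hx w hxw]
            exact havoid e he x hx
          · rw [hP2 w hw]
            rintro ⟨a, b, ha, hb, hab, hh⟩
            have h1 := congrArg Prod.fst hh
            simp only [Prod.fst_add, Prod.smul_fst, smul_eq_mul] at h1
            have g1 := hM' _ (hs1 e he)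
            have g2 := hM' _ (hs2 e he)
            have : (0 : ℝ) ≤ ((w : ℕ) : ℝ) := Nat.cast_nonneg _
            have g3 : a * (p e.1).1 ≤ a * M := mul_le_mul_of_nonneg_left g1 ha.le
            have g4 : b * (p e.2).1 ≤ b * M := mul_le_mul_of_nonneg_left g2 hb.le
            have g5 : a * M + b * M = M := by rw [← add_mul, hab, one_mul]
            linarith
        intro u v w huv
        rw [hadj] at huv
        obtain ⟨-, ⟨e, he, hu, hv⟩ | ⟨e, he, hv, hu⟩⟩ := huv
        · exact key e he u v w hu hv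
        · rw [openSegment_symm]
          exact key e he v u w hv hu
    have hsub : slopes (Inst.graph ⟨n, Es.map fun e => (ν e.1, ν e.2), k⟩) P ⊆ (S : Set _) := by
      rintro s ⟨u, v, huv, rfl⟩
      rw [hadj] at huv
      obtain ⟨-, ⟨e, he, hu, hv⟩ | ⟨e, he, hv, hu⟩⟩ := huv
      · rw [hP1 _ (hs1 e he) u hu, hP1 _ (hs2 e he) v hv]
        exact hSl e he
      · rw [hP1 _ (hs1 e he) v hv, hP1 _ (hs2 e he) u hu, Bridge_slope_comm]
        exact hSl e he
    have h1 : slopeNumber (Inst.graph ⟨n, Es.map fun e => (ν e.1, ν e.2), k⟩) ≤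
        (slopes (Inst.graph ⟨n, Es.map fun e => (ν e.1, ν e.2), k⟩) P).ncard :=
      Nat.sInf_le ⟨P, hdraw, rfl⟩
    have h2 := Set.ncard_le_ncard hsub S.finite_toSet
    rw [Set.ncard_coe_finset] at h2
    exact h1.trans (h2.trans hS)

/-! ### The numbering of the vertices -/

/-- the indices of a vertex are bounded -/
def Bridge_Bnd (B : ℕ) (v : Vx) : Prop :=
  v.tup.1 < 6 ∧ v.tup.2.1 < B ∧ v.tup.2.2.1 < B ∧ v.tup.2.2.2 < B

lemma Bridge_digit {B x x' d d' : ℕ} (hd : d < B) (hd' : d' < B)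
    (h : x * B + d = x' * B + d') : x = x' ∧ d = d' := by
  have hB : 0 < B := by omega
  have h1 : (x * B + d) / B = x := by
    rw [mul_comm, Nat.mul_add_div hB, Nat.div_eq_of_lt hd, add_zero]
  have h2 : (x' * B + d') / B = x' := by
    rw [mul_comm, Nat.mul_add_div hB, Nat.div_eq_of_lt hd', add_zero]
  have h3 : x = x' := by rw [← h1, ← h2, h]
  subst h3
  exact ⟨rfl, by omega⟩

lemma Bridge_tup_inj {v w : Vx} (h : v.tup = w.tup) : v = w := by
  cases v <;> cases w <;> simp only [Vx.tup, Prod.mk.injEq] at h <;> try omega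
  · rw [h.2.1]
  · rename_i e s e' s'
    obtain ⟨-, h1, h2, -⟩ := h
    subst h1
    cases s <;> cases s' <;> simp_all
  · rw [h.2.1, h.2.2.1]
  · rw [h.2.1, h.2.2.1]
  · rw [h.2.1, h.2.2.1, h.2.2.2]
  · rw [h.2.1, h.2.2.1]

lemma Bridge_num_inj {B : ℕ} {v w : Vx} (hv : Bridge_Bnd B v) (hw : Bridge_Bnd B w)
    (h : v.num B = w.num B) : v = w := by
  obtain ⟨hv1, hv2, hv3, hv4⟩ := hv
  obtain ⟨hw1, hw2, hw3, hw4⟩ := hw
  unfold Vx.num at h
  obtain ⟨h, h4⟩ := Bridge_digit hv4 hw4 h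
  obtain ⟨h, h3⟩ := Bridge_digit hv3 hw3 h
  obtain ⟨h1, h2⟩ := Bridge_digit hv2 hw2 h
  exact Bridge_tup_inj (Prod.ext h1 (Prod.ext h2 (Prod.ext h3 h4)))

lemma Bridge_num_lt {B : ℕ} {v : Vx} (hv : Bridge_Bnd B v) : v.num B < 6 * (B * B * B) := by
  obtain ⟨hv1, hv2, hv3, hv4⟩ := hv
  unfold Vx.num
  have h1 : v.tup.1 * B + v.tup.2.1 + 1 ≤ 6 * B := by nlinarith
  have h2 : (v.tup.1 * B + v.tup.2.1) * B + v.tup.2.2.1 + 1 ≤ 6 * B * B := by nlinarith
  have h3 : ((v.tup.1 * B + v.tup.2.1) * B + v.tup.2.2.1) * B + v.tup.2.2.2 + 1 ≤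
      6 * B * B * B := by nlinarith
  have h4 : 6 * B * B * B = 6 * (B * B * B) := by ring
  omega

lemma Bridge_comp (n b : ℕ) (c : Cn) (hw : Cn.WF n c) :
    (compEdges n b c).length ≤ 14 ∧ ∀ x ∈ compEdges n b c,
      x.1 < 8 * b + 8 ∧ x.2.1 < 8 * b + 8 ∧ x.2.2 ≤ 2 * n + 1 := by
  unfold Cn.WF at hw
  unfold compEdges
  split_ifs at hw ⊢ with h1 h2
  · refine ⟨by simp, ?_⟩
    intro x hx
    simp only [List.mem_cons, List.not_mem_nil, or_false] at hx
    rcases hx with rfl | rfl | rfl | rfl | rfl | rfl | rfl | rfl <;>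
      refine ⟨?_, ?_, ?_⟩ <;> simp only <;> omega
  · refine ⟨by simp, ?_⟩
    intro x hx
    simp only [List.mem_cons, List.not_mem_nil, or_false] at hx
    rcases hx with rfl | rfl | rfl | rfl | rfl | rfl | rfl | rfl | rfl | rfl | rfl | rfl | rfl |
      rfl <;>
      refine ⟨?_, ?_, ?_⟩ <;> simp only <;> omega
  · refine ⟨by simp, ?_⟩
    intro x hx
    simp only [List.mem_cons, List.not_mem_nil, or_false] at hx
    rcases hx with rfl | rfl | rfl | rfl | rfl | rfl | rfl | rfl | rfl | rfl | rfl | rfl <;>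
      refine ⟨?_, ?_, ?_⟩ <;> simp only <;> omega

lemma Bridge_getD_mem (cs : List Cn) (b : ℕ) (hb : b < cs.length) :
    cs.getD b (0, 0, 0) ∈ cs := by
  rw [List.getD_eq_getElem _ _ hb]
  exact List.getElem_mem hb

lemma Bridge_hubEdges (n : ℕ) (cs : List Cn) (hwf : ∀ c ∈ cs, Cn.WF n c) :
    (hubEdges n cs).length ≤ 14 * cs.length ∧ ∀ x ∈ hubEdges n cs,
      x.1 < 8 * cs.length ∧ x.2.1 < 8 * cs.length ∧ x.2.2 ≤ 2 * n + 1 := by
  constructor
  · unfold hubEdges
    rw [List.length_flatMap]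
    have h := List.sum_le_card_nsmul
      ((List.range cs.length).map fun b => (compEdges n b (cs.getD b (0, 0, 0))).length) 14 (by
        intro x hx
        obtain ⟨b, hb, rfl⟩ := List.mem_map.1 hx
        exact (Bridge_comp n b _ (hwf _ (Bridge_getD_mem cs b (List.mem_range.1 hb)))).1)
    rw [List.length_map, List.length_range, smul_eq_mul] at h
    rw [mul_comm]
    exact h
  · intro x hx
    unfold hubEdges at hx
    obtain ⟨b, hb, hx⟩ := List.mem_flatMap.1 hx
    have hb' := List.mem_range.1 hb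
    obtain ⟨h1, h2, h3⟩ := (Bridge_comp n b _ (hwf _ (Bridge_getD_mem cs b hb'))).2 x hx
    refine ⟨?_, ?_, h3⟩ <;> omega

lemma Bridge_gEdges (n : ℕ) (cs : List Cn) (hwf : ∀ c ∈ cs, Cn.WF n c) :
    ∀ e ∈ gEdges (2 * n + 2) (hubEdges n cs),
      e.1 ≠ e.2 ∧ Bridge_Bnd (bnd n cs) e.1 ∧ Bridge_Bnd (bnd n cs) e.2 := by
  obtain ⟨hlen, hL⟩ := Bridge_hubEdges n cs hwf
  intro e he
  unfold gEdges at he
  generalize hubEdges n cs = L at hlen hL he
  rcases List.mem_append.1 he with he | he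
  · unfold starEdges at he
    obtain ⟨t, ht, he⟩ := List.mem_flatMap.1 he
    obtain ⟨i, hi, he⟩ := List.mem_flatMap.1 he
    rw [List.mem_range] at ht hi
    rcases List.mem_cons.1 he with rfl | he
    · have hmod : (i + 1) % (6 * (2 * n + 2) + 3) < 6 * (2 * n + 2) + 3 :=
        Nat.mod_lt _ (by omega)
      have hne : i ≠ (i + 1) % (6 * (2 * n + 2) + 3) := by
        rcases Nat.lt_or_ge (i + 1) (6 * (2 * n + 2) + 3) with h | h
        · rw [Nat.mod_eq_of_lt h]; omega
        · have : i + 1 = 6 * (2 * n + 2) + 3 := by omega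
          rw [this, Nat.mod_self]; omega
      refine ⟨?_, ?_, ?_⟩
      · intro h
        exact hne (Vx.star.inj h).2
      · refine ⟨?_, ?_, ?_, ?_⟩ <;> simp only [Vx.tup, bnd] <;> omega
      · refine ⟨?_, ?_, ?_, ?_⟩ <;> simp only [Vx.tup, bnd] <;> omega
    · obtain ⟨m, hm, he⟩ := List.mem_flatMap.1 he
      rw [List.mem_range] at hm
      simp only [List.mem_cons, List.not_mem_nil, or_false] at he
      rcases he with rfl | rfl
      · refine ⟨by simp, ?_, ?_⟩
        · refine ⟨?_, ?_, ?_, ?_⟩ <;> simp only [Vx.tup, bnd] <;> omega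
        · refine ⟨?_, ?_, ?_, ?_⟩ <;> simp only [Vx.tup, bnd] <;> omega
      · refine ⟨by simp, ?_, ?_⟩
        · refine ⟨?_, ?_, ?_, ?_⟩ <;> simp only [Vx.tup, bnd] <;> omega
        · refine ⟨?_, ?_, ?_, ?_⟩ <;> simp only [Vx.tup, bnd] <;> omega
  · obtain ⟨t, ht, he⟩ := List.mem_flatMap.1 he
    rw [List.mem_range] at ht
    have hx := hL (L.getD t (0, 0, 0)) (by
      rw [List.getD_eq_getElem _ _ ht]
      exact List.getElem_mem ht)
    generalize L.getD t (0, 0, 0) = x at hx he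
    obtain ⟨hx1, hx2, hx3⟩ := hx
    unfold gadEdges at he
    rcases List.mem_append.1 he with he | he
    · simp only [List.mem_cons, List.not_mem_nil, or_false] at he
      have hc : ∀ b : Bool, (cond b 1 0 : ℕ) ≤ 1 := by intro b; cases b <;> simp
      have hc1 := hc (side t)
      have hc2 := hc (!side t)
      have hc3 := hc (side (t + 1))
      have hc4 := hc (!side (t + 1))
      rcases he with rfl | rfl | rfl | rfl | rfl | rfl | rfl
      all_goals
        refine ⟨by simp, ?_, ?_⟩ <;>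
          refine ⟨?_, ?_, ?_, ?_⟩ <;> simp only [Vx.tup, bnd, cond_true, cond_false] <;> omega
    · obtain ⟨m, hm, he⟩ := List.mem_flatMap.1 he
      rw [List.mem_range] at hm
      simp only [List.mem_cons, List.not_mem_nil, or_false] at he
      rcases he with rfl | rfl
      all_goals
        refine ⟨by simp, ?_, ?_⟩ <;>
          refine ⟨?_, ?_, ?_, ?_⟩ <;> simp only [Vx.tup, bnd, cond_true, cond_false] <;> omega

theorem mkInst_iff (n : ℕ) (cs : List Cn) (hwf : ∀ c ∈ cs, Cn.WF n c) :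
    SlopeProblem (mkInst n cs) ↔
      Drawable (gEdges (2 * n + 2) (hubEdges n cs)) (6 * (2 * n + 2) + 3) := by
  have hg := Bridge_gEdges n cs hwf
  have hs : ∀ v ∈ supp (gEdges (2 * n + 2) (hubEdges n cs)), Bridge_Bnd (bnd n cs) v := by
    rintro v ⟨e, he, rfl | rfl⟩
    · exact (hg e he).2.1
    · exact (hg e he).2.2
  exact slopeProblem_iff (gEdges (2 * n + 2) (hubEdges n cs)) (Vx.num (bnd n cs))
    (6 * (bnd n cs * bnd n cs * bnd n cs)) (6 * (2 * n + 2) + 3) (fun e he => (hg e he).1)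
    (fun v hv w hw h => Bridge_num_inj (hs v hv) (hs w hw) h)
    (fun v hv => Bridge_num_lt (hs v hv))

end Pool.Agent.Slope
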