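import Pool.Agent.Slope.Spec

set_option autoImplicit false

/-!
# Compiling formulas of the existential theory of the reals into constraint systems

A formula in Polish notation is translated (scanning its code from left to right) into a program
for a stack machine; the program is then run, producing a constraint system.
-/

namespace Pool.Agent.Slope

/-- An item `(a, b)` of variable indices; it stands for the value `y a - y b`. -/
abbrev CItem : Type := ℕ × ℕ

/-- Instructions `(kind, argument)` of the stack machine. -/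
abbrev COp : Type := ℕ × ℕ

/-- States `(number of variables, stack, constraints)` of the stack machine. -/
abbrev CSt : Type := ℕ × List CItem × List Cn

/-- Constraints for the sum of two items. -/
def caddC (v : ℕ) (A B : CItem) : List Cn :=
  [(0, A.1, v), (0, B.1, v + 1), (1, v, 0), (0, A.2, v + 3), (0, B.2, v + 4), (1, v + 3, 0)]

/-- Constraints for the product of two items. -/
def cmulC (v : ℕ) (A B : CItem) : List Cn :=
  [(0, A.1, v), (0, B.1, v + 1), (2, v, 0), (0, A.2, v + 3), (0, B.2, v + 4), (2, v + 3, 0),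
   (0, A.1, v + 6), (0, B.2, v + 7), (2, v + 6, 0), (0, A.2, v + 9), (0, B.1, v + 10),
   (2, v + 9, 0), (0, v + 2, v + 12), (0, v + 5, v + 13), (1, v + 12, 0), (0, v + 8, v + 15),
   (0, v + 11, v + 16), (1, v + 15, 0)]

/-- One step of the stack machine. -/
def cStep (S : CSt) (o : COp) : CSt :=
  if o.1 = 0 then (S.1, (7 + 2 * o.2, 8 + 2 * o.2) :: S.2.1, S.2.2)
  else if o.1 = 1 then (S.1, (4, 0) :: S.2.1, S.2.2)
  else if o.1 = 2 then (S.1, (0, 0) :: S.2.1, S.2.2)
  else if o.1 = 3 then
    (S.1, ((S.2.1.headD (0, 0)).2, (S.2.1.headD (0, 0)).1) :: S.2.1.tail, S.2.2)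
  else if o.1 = 4 then
    (S.1 + 6, (S.1 + 2, S.1 + 5) :: S.2.1.tail.tail,
      caddC S.1 (S.2.1.headD (0, 0)) (S.2.1.tail.headD (0, 0)) ++ S.2.2)
  else if o.1 = 5 then
    (S.1 + 18, (S.1 + 14, S.1 + 17) :: S.2.1.tail.tail,
      cmulC S.1 (S.2.1.headD (0, 0)) (S.2.1.tail.headD (0, 0)) ++ S.2.2)
  else if o.1 = 6 then (S.1 + 2, (S.1, S.1 + 1) :: S.2.1, S.2.2)
  else if o.1 = 7 then (S.1, S.2.1.getD o.2 (0, 0) :: S.2.1, S.2.2)
  else (S.1, S.2.1.headD (0, 0) :: S.2.1.tail.headD (0, 0) :: S.2.1.drop (2 + o.2), S.2.2)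

/-- Running a program. -/
def cRun (S : CSt) (l : List COp) : CSt := l.foldl cStep S

/-- One step of the stack machine with real numbers on the stack; `z` is the number pushed by the
instruction `6` (guess). -/
noncomputable def sStep (x : ℕ → ℝ) (z : ℝ) (st : List ℝ) (o : COp) : List ℝ :=
  if o.1 = 0 then x o.2 :: st
  else if o.1 = 1 then 1 :: st
  else if o.1 = 2 then 0 :: st
  else if o.1 = 3 then (-(st.headD 0)) :: st.tail
  else if o.1 = 4 then (st.headD 0 + st.tail.headD 0) :: st.tail.tail
  else if o.1 = 5 then (st.headD 0 * st.tail.headD 0) :: st.tail.tail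
  else if o.1 = 6 then z :: st
  else if o.1 = 7 then st.getD o.2 0 :: st
  else st.headD 0 :: st.tail.headD 0 :: st.drop (2 + o.2)

/-- `Sem x l s s'`: the program `l` can lead from the real stack `s` to the real stack `s'`. -/
def Sem (x : ℕ → ℝ) : List COp → List ℝ → List ℝ → Prop
  | [], s, s' => s' = s
  | o :: l, s, s' => ∃ z, Sem x l (sStep x z s o) s'

theorem sem_append (x : ℕ → ℝ) (l m : List COp) : ∀ s s' : List ℝ,
    Sem x (l ++ m) s s' ↔ ∃ t, Sem x l s t ∧ Sem x m t s' := by
  induction l with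
  | nil => intro s s'; simp [Sem]
  | cons o l ih =>
    intro s s'
    simp only [List.cons_append, Sem, ih]
    constructor
    · rintro ⟨z, t, h1, h2⟩; exact ⟨t, ⟨z, h1⟩, h2⟩
    · rintro ⟨t, ⟨z, h1⟩, h2⟩; exact ⟨z, t, h1, h2⟩

/-- Value of the items on a stack. -/
noncomputable def cval (y : ℕ → ℝ) (st : List CItem) : List ℝ := st.map fun A => y A.1 - y A.2

/-- The values of the free variables. -/
noncomputable def xOf (L : ℕ) (y : ℕ → ℝ) (i : ℕ) : ℝ :=
  if i < L then y (7 + 2 * i) - y (8 + 2 * i) else 0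

/-- Invariant of the states. -/
structure CInv (L : ℕ) (S : CSt) : Prop where
  le : 7 + 2 * L ≤ S.1
  st : ∀ A ∈ S.2.1, A.1 < S.1 ∧ A.2 < S.1
  cs : ∀ c ∈ S.2.2, Cn.WF S.1 c ∧ c.1 < S.1 ∧ c.2.1 < S.1 ∧ c.2.2 < S.1

/-- The instruction refers only to the first `L` free variables. -/
def COk (L : ℕ) (o : COp) : Prop := o.1 = 0 → o.2 < L

theorem cn_wf_mono {m n : ℕ} (h : m ≤ n) {c : Cn} (hc : Cn.WF m c) : Cn.WF n c := by
  unfold Cn.WF at *
  split_ifs at * <;> omega

theorem cn_holds_congr {n : ℕ} {y y' : ℕ → ℝ} (h : ∀ i < n, y' i = y i) {c : Cn}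
    (hc : Cn.WF n c) : Cn.Holds y' c ↔ Cn.Holds y c := by
  unfold Cn.WF at hc
  unfold Cn.Holds
  split_ifs at * with h0 h1
  · rw [h _ (by omega), h _ (by omega)]
  · rw [h _ (by omega), h _ (by omega), h _ (by omega)]
  · rw [h _ (by omega), h _ (by omega), h _ (by omega)]

theorem headD_mem_or {α : Type*} (l : List α) (d : α) : l.headD d = d ∨ l.headD d ∈ l := by
  cases l <;> simp

theorem getD_mem_or {α : Type*} (l : List α) (i : ℕ) (d : α) :
    l.getD i d = d ∨ l.getD i d ∈ l := by
  rw [List.getD_eq_getElem?_getD]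
  rcases h : l[i]? with _ | a
  · left; rfl
  · right; exact List.mem_of_getElem? h

theorem CInv.head {L : ℕ} {S : CSt} (h : CInv L S) :
    (S.2.1.headD (0, 0)).1 < S.1 ∧ (S.2.1.headD (0, 0)).2 < S.1 := by
  have := h.le
  rcases headD_mem_or S.2.1 (0, 0) with h1 | h1
  · rw [h1]; constructor <;> omega
  · exact h.st _ h1

theorem CInv.head2 {L : ℕ} {S : CSt} (h : CInv L S) :
    (S.2.1.tail.headD (0, 0)).1 < S.1 ∧ (S.2.1.tail.headD (0, 0)).2 < S.1 := by
  have := h.le
  rcases headD_mem_or S.2.1.tail (0, 0) with h1 | h1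
  · rw [h1]; constructor <;> omega
  · exact h.st _ (List.mem_of_mem_tail h1)

theorem CInv.getD {L : ℕ} {S : CSt} (h : CInv L S) (i : ℕ) :
    (S.2.1.getD i (0, 0)).1 < S.1 ∧ (S.2.1.getD i (0, 0)).2 < S.1 := by
  have := h.le
  rcases getD_mem_or S.2.1 i (0, 0) with h1 | h1
  · rw [h1]; constructor <;> omega
  · exact h.st _ h1

theorem CInv.step {L : ℕ} {S : CSt} (h : CInv L S) {o : COp} (ho : COk L o) :
    CInv L (cStep S o) := by
  obtain ⟨v, st, cs⟩ := S
  obtain ⟨k, a⟩ := o
  have hle := h.le
  have hst := h.st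
  have hcs := h.cs
  have hA := h.head
  have hB := h.head2
  have hG := h.getD a
  simp only at hle hst hcs hA hB hG
  have hmono : ∀ m, v ≤ m → ∀ c ∈ cs, Cn.WF m c ∧ c.1 < m ∧ c.2.1 < m ∧ c.2.2 < m := by
    intro m hm c hc
    obtain ⟨h1, h2, h3, h4⟩ := hcs c hc
    exact ⟨cn_wf_mono hm h1, by omega, by omega, by omega⟩
  unfold cStep
  simp only
  split_ifs with h0 h1 h2 h3 h4 h5 h6 h7
  · have := ho h0
    simp only at this
    refine ⟨hle, ?_, hcs⟩
    intro A hA'
    rcases List.mem_cons.1 hA' with rfl | hA'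
    · constructor <;> simp only <;> omega
    · exact hst A hA'
  · refine ⟨hle, ?_, hcs⟩
    intro A hA'
    rcases List.mem_cons.1 hA' with rfl | hA'
    · constructor <;> simp only <;> omega
    · exact hst A hA'
  · refine ⟨hle, ?_, hcs⟩
    intro A hA'
    rcases List.mem_cons.1 hA' with rfl | hA'
    · constructor <;> simp only <;> omega
    · exact hst A hA'
  · refine ⟨hle, ?_, hcs⟩
    intro A hA'
    rcases List.mem_cons.1 hA' with rfl | hA'
    · exact ⟨hA.2, hA.1⟩
    · exact hst A (List.mem_of_mem_tail hA')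
  · refine ⟨by simp only; omega, ?_, ?_⟩
    · intro A hA'
      rcases List.mem_cons.1 hA' with rfl | hA'
      · constructor <;> simp only <;> omega
      · have := hst A (List.mem_of_mem_tail (List.mem_of_mem_tail hA'))
        constructor <;> simp only <;> omega
    · intro c hc
      rcases List.mem_append.1 hc with hc | hc
      · clear hG
        generalize st.headD (0, 0) = A at hA hc
        generalize st.tail.headD (0, 0) = B at hB hc
        simp only [caddC, List.mem_cons, List.not_mem_nil, or_false] at hc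
        rcases hc with rfl | rfl | rfl | rfl | rfl | rfl <;>
          simp only [Cn.WF] <;> norm_num <;> omega
      · exact hmono _ (by omega) c hc
  · refine ⟨by simp only; omega, ?_, ?_⟩
    · intro A hA'
      rcases List.mem_cons.1 hA' with rfl | hA'
      · constructor <;> simp only <;> omega
      · have := hst A (List.mem_of_mem_tail (List.mem_of_mem_tail hA'))
        constructor <;> simp only <;> omega
    · intro c hc
      rcases List.mem_append.1 hc with hc | hc
      · clear hG
        generalize st.headD (0, 0) = A at hA hc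
        generalize st.tail.headD (0, 0) = B at hB hc
        simp only [cmulC, List.mem_cons, List.not_mem_nil, or_false] at hc
        rcases hc with rfl | rfl | rfl | rfl | rfl | rfl | rfl | rfl | rfl | rfl | rfl | rfl |
          rfl | rfl | rfl | rfl | rfl | rfl <;>
          simp only [Cn.WF] <;> norm_num <;> omega
      · exact hmono _ (by omega) c hc
  · refine ⟨by simp only; omega, ?_, hmono _ (by omega)⟩
    intro A hA'
    rcases List.mem_cons.1 hA' with rfl | hA'
    · constructor <;> simp only <;> omega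
    · have := hst A hA'
      constructor <;> simp only <;> omega
  · refine ⟨hle, ?_, hcs⟩
    intro A hA'
    rcases List.mem_cons.1 hA' with rfl | hA'
    · exact hG
    · exact hst A hA'
  · refine ⟨hle, ?_, hcs⟩
    intro A hA'
    rcases List.mem_cons.1 hA' with rfl | hA'
    · exact hA
    rcases List.mem_cons.1 hA' with rfl | hA'
    · exact hB
    · exact hst A (List.mem_of_mem_drop hA')

theorem CInv.run {L : ℕ} (l : List COp) : ∀ {S : CSt}, CInv L S → (∀ o ∈ l, COk L o) →
    CInv L (cRun S l) := by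
  induction l with
  | nil => intro S h _; exact h
  | cons o l ih =>
    intro S h ho
    exact ih (h.step (ho o (by simp))) fun o' ho' => ho o' (by simp [ho'])

/-- Old constraints are kept. -/
theorem cStep_subset (S : CSt) (o : COp) : ∀ c ∈ S.2.2, c ∈ (cStep S o).2.2 := by
  intro c hc
  unfold cStep
  split_ifs <;> simp [hc]

theorem cRun_subset (l : List COp) : ∀ (S : CSt), ∀ c ∈ S.2.2, c ∈ (cRun S l).2.2 := by
  induction l with
  | nil => intro S c hc; exact hc
  | cons o l ih => intro S c hc; exact ih _ c (cStep_subset S o c hc)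

theorem cval_headD (y : ℕ → ℝ) (st : List CItem) :
    (cval y st).headD 0 = y (st.headD (0, 0)).1 - y (st.headD (0, 0)).2 := by
  cases st <;> simp [cval]

theorem cval_tail (y : ℕ → ℝ) (st : List CItem) : (cval y st).tail = cval y st.tail := by
  cases st <;> simp [cval]

theorem cval_drop (y : ℕ → ℝ) (st : List CItem) (n : ℕ) :
    (cval y st).drop n = cval y (st.drop n) := by
  simp [cval, List.map_drop]

theorem cval_getD (y : ℕ → ℝ) (st : List CItem) (n : ℕ) :
    (cval y st).getD n 0 = y (st.getD n (0, 0)).1 - y (st.getD n (0, 0)).2 := by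
  rw [List.getD_eq_getElem?_getD, List.getD_eq_getElem?_getD, cval, List.getElem?_map]
  cases st[n]? <;> simp

theorem cval_cons (y : ℕ → ℝ) (A : CItem) (st : List CItem) :
    cval y (A :: st) = (y A.1 - y A.2) :: cval y st := rfl

/-- Soundness of one step. -/
theorem cStep_sound {L : ℕ} {S : CSt} {o : COp} (ho : COk L o) {y : ℕ → ℝ}
    (hone : y 4 - y 0 = 1) (hy : ∀ c ∈ (cStep S o).2.2, Cn.Holds y c) :
    cval y (cStep S o).2.1 = sStep (xOf L y) (y S.1 - y (S.1 + 1)) (cval y S.2.1) o := by
  obtain ⟨v, st, cs⟩ := S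
  obtain ⟨k, a⟩ := o
  unfold cStep at hy ⊢
  unfold sStep
  simp only [cval_headD, cval_tail, cval_drop, cval_getD] at hy ⊢
  split_ifs at hy ⊢ with h0 h1 h2 h3 h4 h5 h6 h7
  · have := ho h0
    simp only at this
    rw [cval_cons, xOf, if_pos this]
  · rw [cval_cons, hone]
  · simp [cval_cons]
  · simp [cval_cons]
  · generalize st.headD (0, 0) = A at hy ⊢
    generalize st.tail.headD (0, 0) = B at hy ⊢
    simp only [caddC, List.mem_append, List.mem_cons, List.not_mem_nil, or_false] at hy
    have e1 := hy (0, A.1, v) (by simp)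
    have e2 := hy (0, B.1, v + 1) (by simp)
    have e3 := hy (1, v, 0) (by simp)
    have e4 := hy (0, A.2, v + 3) (by simp)
    have e5 := hy (0, B.2, v + 4) (by simp)
    have e6 := hy (1, v + 3, 0) (by simp)
    simp only [Cn.Holds, if_true, one_ne_zero, if_false] at e1 e2 e3 e4 e5 e6
    rw [cval_cons, ← e3, ← e6, ← e1, ← e2, ← e4, ← e5]
    congr 1
    ring
  · generalize st.headD (0, 0) = A at hy ⊢
    generalize st.tail.headD (0, 0) = B at hy ⊢
    simp only [cmulC, List.mem_append, List.mem_cons, List.not_mem_nil, or_false] at hy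
    have e1 := hy (0, A.1, v) (by simp)
    have e2 := hy (0, B.1, v + 1) (by simp)
    have e3 := hy (2, v, 0) (by simp)
    have e4 := hy (0, A.2, v + 3) (by simp)
    have e5 := hy (0, B.2, v + 4) (by simp)
    have e6 := hy (2, v + 3, 0) (by simp)
    have e7 := hy (0, A.1, v + 6) (by simp)
    have e8 := hy (0, B.2, v + 7) (by simp)
    have e9 := hy (2, v + 6, 0) (by simp)
    have e10 := hy (0, A.2, v + 9) (by simp)
    have e11 := hy (0, B.1, v + 10) (by simp)
    have e12 := hy (2, v + 9, 0) (by simp)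
    have e13 := hy (0, v + 2, v + 12) (by simp)
    have e14 := hy (0, v + 5, v + 13) (by simp)
    have e15 := hy (1, v + 12, 0) (by simp)
    have e16 := hy (0, v + 8, v + 15) (by simp)
    have e17 := hy (0, v + 11, v + 16) (by simp)
    have e18 := hy (1, v + 15, 0) (by simp)
    simp only [Cn.Holds, if_true, one_ne_zero, if_false, OfNat.ofNat_ne_zero,
      OfNat.ofNat_ne_one] at e1 e2 e3 e4 e5 e6 e7 e8 e9 e10 e11 e12 e13 e14 e15 e16 e17 e18
    rw [cval_cons]
    congr 1
    simp only
    simp only [add_assoc] at *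
    norm_num at *
    rw [← e15, ← e18, ← e13, ← e14, ← e16, ← e17, ← e3, ← e6, ← e9, ← e12, ← e1, ← e2, ← e4,
      ← e5, ← e7, ← e8, ← e10, ← e11]
    ring
  · simp [cval_cons]
  · simp [cval_cons]
  · simp [cval_cons]

/-- Soundness of a run. -/
theorem cRun_sound {L : ℕ} {y : ℕ → ℝ} (hone : y 4 - y 0 = 1) (l : List COp) : ∀ {S : CSt},
    (∀ o ∈ l, COk L o) → (∀ c ∈ (cRun S l).2.2, Cn.Holds y c) →
    Sem (xOf L y) l (cval y S.2.1) (cval y (cRun S l).2.1) := by
  induction l with
  | nil => intro S _ _; exact rfl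
  | cons o l ih =>
    intro S ho hy
    refine ⟨y S.1 - y (S.1 + 1), ?_⟩
    rw [← cStep_sound (ho o (by simp)) hone fun c hc => hy c (cRun_subset l _ c hc)]
    exact ih (fun o' ho' => ho o' (by simp [ho'])) hy

/-- Extension of an assignment by a list of values. -/
noncomputable def cext (v : ℕ) (y : ℕ → ℝ) (l : List ℝ) (i : ℕ) : ℝ :=
  if i < v then y i else l.getD (i - v) 2

theorem cext_lt {v : ℕ} (y : ℕ → ℝ) (l : List ℝ) {i : ℕ} (h : i < v) : cext v y l i = y i :=
  if_pos h

theorem cext_add (v : ℕ) (y : ℕ → ℝ) (l : List ℝ) (k : ℕ) :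
    cext v y l (v + k) = l.getD k 2 := by
  rw [cext, if_neg (by omega), Nat.add_sub_cancel_left]

theorem cext_gt {v : ℕ} {y : ℕ → ℝ} {l : List ℝ} (hy : ∀ i, 1 < y i) (hl : ∀ z ∈ l, 1 < z) :
    ∀ i, 1 < cext v y l i := by
  intro i
  unfold cext
  split_ifs
  · exact hy i
  · rcases getD_mem_or l (i - v) 2 with h | h
    · rw [h]; norm_num
    · exact hl _ h

/-- Completeness of one step. -/
theorem cStep_complete {L : ℕ} {S : CSt} {o : COp} (hS : CInv L S) {y : ℕ → ℝ}
    (hgt : ∀ i, 1 < y i) (hy : ∀ c ∈ S.2.2, Cn.Holds y c) (z : ℝ) :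
    ∃ y' : ℕ → ℝ, (∀ i < S.1, y' i = y i) ∧ (∀ i, 1 < y' i) ∧
      (∀ c ∈ (cStep S o).2.2, Cn.Holds y' c) ∧ (o.1 = 6 → y' S.1 - y' (S.1 + 1) = z) := by
  obtain ⟨v, st, cs⟩ := S
  obtain ⟨k, a⟩ := o
  have hle := hS.le
  have hcs := hS.cs
  have hA := hS.head
  have hB := hS.head2
  simp only at hle hcs hA hB hy
  unfold cStep
  simp only
  generalize st.headD (0, 0) = A at hA ⊢
  generalize st.tail.headD (0, 0) = B at hB ⊢
  have old : ∀ l : List ℝ, ∀ c ∈ cs, Cn.Holds (cext v y l) c := fun l c hc =>
    (cn_holds_congr (fun i hi => cext_lt y l hi) (hcs c hc).1).2 (hy c hc)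
  split_ifs with h0 h1 h2 h3 h4 h5 h6 h7
  · exact ⟨y, fun _ _ => rfl, hgt, hy, fun h => by omega⟩
  · exact ⟨y, fun _ _ => rfl, hgt, hy, fun h => by omega⟩
  · exact ⟨y, fun _ _ => rfl, hgt, hy, fun h => by omega⟩
  · exact ⟨y, fun _ _ => rfl, hgt, hy, fun h => by omega⟩
  · have g1 := hgt A.1
    have g2 := hgt A.2
    have g3 := hgt B.1
    have g4 := hgt B.2
    refine ⟨cext v y [y A.1, y B.1, y A.1 + y B.1, y A.2, y B.2, y A.2 + y B.2],
      fun i hi => cext_lt _ _ hi, cext_gt hgt ?_, ?_, fun h => by omega⟩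
    · intro w hw
      simp only [List.mem_cons, List.not_mem_nil, or_false] at hw
      rcases hw with rfl | rfl | rfl | rfl | rfl | rfl <;> linarith
    · intro c hc
      rcases List.mem_append.1 hc with hc | hc
      · simp only [caddC, List.mem_cons, List.not_mem_nil, or_false] at hc
        have e0 := cext_add v y [y A.1, y B.1, y A.1 + y B.1, y A.2, y B.2, y A.2 + y B.2] 0
        rw [Nat.add_zero] at e0
        rcases hc with rfl | rfl | rfl | rfl | rfl | rfl <;>
          simp only [Cn.Holds, if_true, one_ne_zero, if_false, add_assoc] <;> norm_num <;>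
          simp [cext_add, e0, cext_lt _ _ hA.1, cext_lt _ _ hA.2, cext_lt _ _ hB.1,
            cext_lt _ _ hB.2]
      · exact old _ c hc
  · have g1 := hgt A.1
    have g2 := hgt A.2
    have g3 := hgt B.1
    have g4 := hgt B.2
    have g5 : 1 < y A.1 * y B.1 := by nlinarith
    have g6 : 1 < y A.2 * y B.2 := by nlinarith
    have g7 : 1 < y A.1 * y B.2 := by nlinarith
    have g8 : 1 < y A.2 * y B.1 := by nlinarith
    refine ⟨cext v y [y A.1, y B.1, y A.1 * y B.1, y A.2, y B.2, y A.2 * y B.2,
        y A.1, y B.2, y A.1 * y B.2, y A.2, y B.1, y A.2 * y B.1,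
        y A.1 * y B.1, y A.2 * y B.2, y A.1 * y B.1 + y A.2 * y B.2,
        y A.1 * y B.2, y A.2 * y B.1, y A.1 * y B.2 + y A.2 * y B.1],
      fun i hi => cext_lt _ _ hi, cext_gt hgt ?_, ?_, fun h => by omega⟩
    · intro w hw
      simp only [List.mem_cons, List.not_mem_nil, or_false] at hw
      rcases hw with rfl | rfl | rfl | rfl | rfl | rfl | rfl | rfl | rfl | rfl | rfl | rfl |
        rfl | rfl | rfl | rfl | rfl | rfl <;> linarith
    · intro c hc
      rcases List.mem_append.1 hc with hc | hc
      · simp only [cmulC, List.mem_cons, List.not_mem_nil, or_false] at hc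
        have e0 := cext_add v y [y A.1, y B.1, y A.1 * y B.1, y A.2, y B.2, y A.2 * y B.2,
          y A.1, y B.2, y A.1 * y B.2, y A.2, y B.1, y A.2 * y B.1,
          y A.1 * y B.1, y A.2 * y B.2, y A.1 * y B.1 + y A.2 * y B.2,
          y A.1 * y B.2, y A.2 * y B.1, y A.1 * y B.2 + y A.2 * y B.1] 0
        rw [Nat.add_zero] at e0
        rcases hc with rfl | rfl | rfl | rfl | rfl | rfl | rfl | rfl | rfl | rfl | rfl | rfl |
          rfl | rfl | rfl | rfl | rfl | rfl <;>
          simp only [Cn.Holds, if_true, one_ne_zero, if_false, add_assoc] <;> norm_num <;>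
          simp [cext_add, e0, cext_lt _ _ hA.1, cext_lt _ _ hA.2, cext_lt _ _ hB.1,
            cext_lt _ _ hB.2]
      · exact old _ c hc
  · refine ⟨cext v y [max z 0 + 2, max (-z) 0 + 2], fun i hi => cext_lt _ _ hi,
      cext_gt hgt ?_, old _, fun _ => ?_⟩
    · intro w hw
      simp only [List.mem_cons, List.not_mem_nil, or_false] at hw
      rcases hw with rfl | rfl
      · have := le_max_right z 0
        linarith
      · have := le_max_right (-z) 0
        linarith
    · have e0 := cext_add v y [max z 0 + 2, max (-z) 0 + 2] 0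
      rw [Nat.add_zero] at e0
      rw [e0, cext_add]
      simp only [List.getD_cons_zero, List.getD_cons_succ]
      rcases le_total z 0 with h | h
      · rw [max_eq_right h, max_eq_left (by linarith)]; ring
      · rw [max_eq_left h, max_eq_right (by linarith)]; ring
  · exact ⟨y, fun _ _ => rfl, hgt, hy, fun h => by omega⟩
  · exact ⟨y, fun _ _ => rfl, hgt, hy, fun h => by omega⟩

theorem sStep_congr {x : ℕ → ℝ} {z z' : ℝ} {st : List ℝ} {o : COp} (h : o.1 = 6 → z = z') :
    sStep x z st o = sStep x z' st o := by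
  unfold sStep
  split_ifs with h0 h1 h2 h3 h4 h5 h6 h7
  all_goals first | rfl | rw [h h6]

theorem xOf_congr {L n : ℕ} (hn : 7 + 2 * L ≤ n) {y y' : ℕ → ℝ} (h : ∀ i < n, y' i = y i) :
    xOf L y' = xOf L y := by
  funext i
  unfold xOf
  split_ifs with hi
  · rw [h _ (by omega), h _ (by omega)]
  · rfl

theorem cval_congr {n : ℕ} {y y' : ℕ → ℝ} (h : ∀ i < n, y' i = y i) {st : List CItem}
    (hst : ∀ A ∈ st, A.1 < n ∧ A.2 < n) : cval y' st = cval y st := by
  unfold cval
  refine List.map_congr_left fun A hA => ?_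
  rw [h _ (hst A hA).1, h _ (hst A hA).2]

/-- Completeness of a run. -/
theorem cRun_complete {L : ℕ} (l : List COp) : ∀ {S : CSt} {y : ℕ → ℝ} {s' : List ℝ},
    CInv L S → (∀ o ∈ l, COk L o) → (∀ i, 1 < y i) → y 4 - y 0 = 1 →
    (∀ c ∈ S.2.2, Cn.Holds y c) → Sem (xOf L y) l (cval y S.2.1) s' →
    ∃ y' : ℕ → ℝ, (∀ i < S.1, y' i = y i) ∧ (∀ i, 1 < y' i) ∧
      (∀ c ∈ (cRun S l).2.2, Cn.Holds y' c) ∧ cval y' (cRun S l).2.1 = s' := by
  induction l with
  | nil =>
    intro S y s' _ _ hgt _ hy h
    exact ⟨y, fun _ _ => rfl, hgt, hy, h.symm⟩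
  | cons o l ih =>
    intro S y s' hS ho hgt hone hy ⟨z, h⟩
    obtain ⟨y1, a1, a2, a3, a4⟩ := cStep_complete (o := o) hS hgt hy z
    have hle := hS.le
    have hone1 : y1 4 - y1 0 = 1 := by rw [a1 4 (by omega), a1 0 (by omega), hone]
    have e1 := cStep_sound (ho o (by simp)) hone1 a3
    rw [xOf_congr hle a1, cval_congr a1 hS.st, sStep_congr (z' := z) a4] at e1
    rw [← e1, ← xOf_congr hle a1] at h
    obtain ⟨y2, b1, b2, b3, b4⟩ := ih (hS.step (ho o (by simp)))
      (fun o' ho' => ho o' (by simp [ho'])) a2 hone1 a3 h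
    have hmono : S.1 ≤ (cStep S o).1 := by
      unfold cStep
      split_ifs <;> simp
    exact ⟨y2, fun i hi => by rw [b1 i (by omega), a1 i hi], b2, b3, b4⟩

/-! ### Programs for formulas -/

/-- Program for a digit. -/
def pDig (b : Bool) : List COp := if b then [(7, 0), (4, 0), (1, 0), (4, 0)] else [(7, 0), (4, 0)]

/-- Program for a sign. -/
def pSgn (b : Bool) : List COp := if b then [(3, 0)] else []

/-- Program for an equation: from `s :: t :: r` to `s - t :: (s - t) z - 1 :: r`. -/
def pEq : List COp :=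
  [(7, 1), (3, 0), (7, 1), (4, 0), (6, 0), (7, 1), (5, 0), (1, 0), (3, 0), (4, 0), (7, 1), (8, 3)]

/-- Program for an inequality: from `s :: t :: r` to `(t - s) z ^ 2 - 1 :: s - t - w ^ 2 :: r`. -/
def pLt : List COp :=
  [(7, 0), (3, 0), (7, 2), (4, 0), (6, 0), (7, 0), (5, 0), (7, 1), (5, 0), (1, 0), (3, 0), (4, 0),
   (6, 0), (7, 0), (5, 0), (3, 0), (7, 2), (3, 0), (4, 0), (7, 1), (8, 4)]

/-- Program for a negation. -/
def pNot : List COp := [(7, 1), (8, 1)]

/-- Program for a conjunction. -/
def pAnd : List COp :=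
  [(7, 1), (7, 4), (5, 0), (7, 1), (7, 0), (5, 0), (7, 4), (7, 0), (5, 0), (4, 0), (8, 4)]

/-- Program for a disjunction. -/
def pOr : List COp :=
  [(7, 1), (7, 0), (5, 0), (7, 4), (7, 0), (5, 0), (4, 0), (7, 1), (7, 4), (5, 0), (8, 4)]

/-- Program for a polynomial. -/
def Tm.prog : Tm → List COp
  | .var i => [(0, i)]
  | .int z => [(2, 0)] ++ (Nat.bits z.natAbs).reverse.flatMap pDig ++ pSgn (decide (z < 0))
  | .add s t => t.prog ++ s.prog ++ [(4, 0)]
  | .mul s t => t.prog ++ s.prog ++ [(5, 0)]

/-- Program for a formula. -/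
def Fm.prog : Fm → List COp
  | .eq s t => t.prog ++ s.prog ++ pEq
  | .lt s t => t.prog ++ s.prog ++ pLt
  | .not p => p.prog ++ pNot
  | .and p q => q.prog ++ p.prog ++ pAnd
  | .or p q => q.prog ++ p.prog ++ pOr

theorem sem_pDig (x : ℕ → ℝ) (b : Bool) (a : ℝ) (s s' : List ℝ) :
    Sem x (pDig b) (a :: s) s' ↔ s' = (2 * a + if b then 1 else 0) :: s := by
  cases b
  · simp [pDig, Sem, sStep, two_mul]
  · simp [pDig, Sem, sStep, two_mul, add_comm]

theorem sem_pSgn (x : ℕ → ℝ) (b : Bool) (a : ℝ) (s s' : List ℝ) :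
    Sem x (pSgn b) (a :: s) s' ↔ s' = (if b then -a else a) :: s := by
  cases b
  · simp [pSgn, Sem]
  · simp [pSgn, Sem, sStep]

theorem sem_pEq (x : ℕ → ℝ) (a b : ℝ) (s s' : List ℝ) :
    Sem x pEq (a :: b :: s) s' ↔ ∃ z, s' = (a + -b) :: (-1 + (a + -b) * z) :: s := by
  simp [pEq, Sem, sStep]

theorem sem_pLt (x : ℕ → ℝ) (a b : ℝ) (s s' : List ℝ) :
    Sem x pLt (a :: b :: s) s' ↔ ∃ z w,
      s' = (-1 + (b + -a) * (z * z)) :: (-(b + -a) + -(w * w)) :: s := by
  simp [pLt, Sem, sStep]

theorem sem_pNot (x : ℕ → ℝ) (a b : ℝ) (s s' : List ℝ) :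
    Sem x pNot (a :: b :: s) s' ↔ s' = b :: a :: s := by
  simp [pNot, Sem, sStep]

theorem sem_pAnd (x : ℕ → ℝ) (a b c d : ℝ) (s s' : List ℝ) :
    Sem x pAnd (a :: b :: c :: d :: s) s' ↔ s' = (c * c + a * a) :: (d * b) :: s := by
  simp [pAnd, Sem, sStep]

theorem sem_pOr (x : ℕ → ℝ) (a b c d : ℝ) (s s' : List ℝ) :
    Sem x pOr (a :: b :: c :: d :: s) s' ↔ s' = (c * a) :: (d * d + b * b) :: s := by
  simp [pOr, Sem, sStep]

theorem sem_bits (x : ℕ → ℝ) (n : ℕ) : ∀ s s' : List ℝ,
    Sem x ([(2, 0)] ++ (Nat.bits n).reverse.flatMap pDig) s s' ↔ s' = (n : ℝ) :: s := by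
  induction n using Nat.binaryRec' with
  | zero => intro s s'; simp [Sem, sStep]
  | bit b n h ih =>
    intro s s'
    rw [Nat.bits_append_bit _ _ h, List.reverse_cons, List.flatMap_append, ← List.append_assoc,
      sem_append]
    simp only [ih, exists_eq_left]
    rw [List.flatMap_cons, List.flatMap_nil, List.append_nil, sem_pDig, Nat.bit_val]
    cases b <;> simp

theorem sem_tm (x : ℕ → ℝ) (t : Tm) : ∀ s s' : List ℝ,
    Sem x t.prog s s' ↔ s' = t.val x :: s := by
  induction t with
  | var i => intro s s'; simp [Tm.prog, Tm.val, Sem, sStep]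
  | int z =>
    intro s s'
    rw [Tm.prog, sem_append]
    simp only [sem_bits, exists_eq_left]
    rw [sem_pSgn, Tm.val]
    have : (if decide (z < 0) = true then -((z.natAbs : ℕ) : ℝ) else ((z.natAbs : ℕ) : ℝ)) = z := by
      have e : ((z.natAbs : ℕ) : ℝ) = ((|z| : ℤ) : ℝ) := by
        rw [← Int.natCast_natAbs]; simp
      rw [e]
      by_cases h : z < 0
      · simp [h, abs_of_neg h]
      · simp [h, abs_of_nonneg (not_lt.1 h)]
    rw [this]
  | add s t ihs iht =>
    intro u u'
    rw [Tm.prog, sem_append, ]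
    simp only [sem_append, iht, ihs, exists_eq_left]
    simp [Sem, sStep, Tm.val]
  | mul s t ihs iht =>
    intro u u'
    rw [Tm.prog, sem_append, ]
    simp only [sem_append, iht, ihs, exists_eq_left]
    simp [Sem, sStep, Tm.val]

theorem sem_fm_sound (x : ℕ → ℝ) (p : Fm) : ∀ s s' : List ℝ, Sem x p.prog s s' →
    ∃ a b, s' = a :: b :: s ∧ (a = 0 → p.holds x) ∧ (b = 0 → ¬ p.holds x) := by
  induction p with
  | eq t u =>
    intro s s' h
    rw [Fm.prog, sem_append] at h
    simp only [sem_append, sem_tm, exists_eq_left, sem_pEq] at h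
    obtain ⟨z, rfl⟩ := h
    refine ⟨_, _, rfl, fun h => ?_, fun h => ?_⟩
    · rw [Fm.holds]; linarith
    · rw [Fm.holds]
      intro h'
      rw [h'] at h
      norm_num at h
  | lt t u =>
    intro s s' h
    rw [Fm.prog, sem_append] at h
    simp only [sem_append, sem_tm, exists_eq_left, sem_pLt] at h
    obtain ⟨z, w, rfl⟩ := h
    refine ⟨_, _, rfl, fun h => ?_, fun h => ?_⟩
    · rw [Fm.holds]
      by_contra h'
      have h1 : (u.val x + -t.val x) ≤ 0 := by linarith
      have h2 := mul_self_nonneg z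
      nlinarith
    · rw [Fm.holds]
      have := mul_self_nonneg w
      linarith
  | not p ih =>
    intro s s' h
    rw [Fm.prog, sem_append] at h
    obtain ⟨t, h1, h2⟩ := h
    obtain ⟨a, b, rfl, h3, h4⟩ := ih _ _ h1
    rw [sem_pNot] at h2
    subst h2
    refine ⟨_, _, rfl, h4, fun h => ?_⟩
    rw [Fm.holds, not_not]
    exact h3 h
  | and p q ihp ihq =>
    intro s s' h
    rw [Fm.prog, sem_append] at h
    obtain ⟨t, h1, h2⟩ := h
    rw [sem_append] at h1
    obtain ⟨t', h1, h3⟩ := h1
    obtain ⟨c, d, rfl, hc, hd⟩ := ihq _ _ h1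
    obtain ⟨a, b, rfl, ha, hb⟩ := ihp _ _ h3
    rw [sem_pAnd] at h2
    subst h2
    refine ⟨_, _, rfl, fun h => ?_, fun h => ?_⟩
    · have h4 := mul_self_nonneg a
      have h5 := mul_self_nonneg c
      have h6 : a * a = 0 := by linarith
      have h7 : c * c = 0 := by linarith
      exact ⟨ha (mul_self_eq_zero.1 h6), hc (mul_self_eq_zero.1 h7)⟩
    · rw [Fm.holds]
      rcases mul_eq_zero.1 h with h | h
      · exact fun h' => hd h h'.2
      · exact fun h' => hb h h'.1
  | or p q ihp ihq =>
    intro s s' h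
    rw [Fm.prog, sem_append] at h
    obtain ⟨t, h1, h2⟩ := h
    rw [sem_append] at h1
    obtain ⟨t', h1, h3⟩ := h1
    obtain ⟨c, d, rfl, hc, hd⟩ := ihq _ _ h1
    obtain ⟨a, b, rfl, ha, hb⟩ := ihp _ _ h3
    rw [sem_pOr] at h2
    subst h2
    refine ⟨_, _, rfl, fun h => ?_, fun h => ?_⟩
    · rcases mul_eq_zero.1 h with h | h
      · exact Or.inr (hc h)
      · exact Or.inl (ha h)
    · have h4 := mul_self_nonneg b
      have h5 := mul_self_nonneg d
      have h6 : b * b = 0 := by linarith
      have h7 : d * d = 0 := by linarith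
      rw [Fm.holds]
      rintro (h' | h')
      · exact hb (mul_self_eq_zero.1 h6) h'
      · exact hd (mul_self_eq_zero.1 h7) h'

theorem sem_fm_complete (x : ℕ → ℝ) (p : Fm) : ∀ s : List ℝ,
    ∃ a b, Sem x p.prog s (a :: b :: s) ∧ (p.holds x → a = 0) ∧ (¬ p.holds x → b = 0) := by
  induction p with
  | eq t u =>
    intro s
    refine ⟨t.val x + -u.val x, -1 + (t.val x + -u.val x) * (t.val x + -u.val x)⁻¹, ?_,
      fun h => ?_, fun h => ?_⟩
    · rw [Fm.prog, sem_append]
      simp only [sem_append, sem_tm, exists_eq_left, sem_pEq]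
      exact ⟨_, rfl⟩
    · rw [Fm.holds] at h; linarith
    · rw [Fm.holds] at h
      have h1 : t.val x + -u.val x ≠ 0 := fun h' => h (by linarith)
      rw [mul_inv_cancel₀ h1]; norm_num
  | lt t u =>
    intro s
    refine ⟨-1 + (u.val x + -t.val x) * ((Real.sqrt (u.val x + -t.val x))⁻¹ *
        (Real.sqrt (u.val x + -t.val x))⁻¹), -(u.val x + -t.val x) +
        -(Real.sqrt (-(u.val x + -t.val x)) * Real.sqrt (-(u.val x + -t.val x))), ?_,
      fun h => ?_, fun h => ?_⟩
    · rw [Fm.prog, sem_append]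
      simp only [sem_append, sem_tm, exists_eq_left, sem_pLt]
      exact ⟨_, _, rfl⟩
    · rw [Fm.holds] at h
      have h1 : 0 < u.val x + -t.val x := by linarith
      rw [← mul_inv, Real.mul_self_sqrt h1.le, mul_inv_cancel₀ h1.ne']
      norm_num
    · rw [Fm.holds] at h
      have h1 : 0 ≤ -(u.val x + -t.val x) := by linarith
      rw [Real.mul_self_sqrt h1]
      ring
  | not p ih =>
    intro s
    obtain ⟨a, b, h1, h2, h3⟩ := ih s
    refine ⟨b, a, ?_, h3, fun h => ?_⟩
    · rw [Fm.prog, sem_append]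
      exact ⟨_, h1, (sem_pNot _ _ _ _ _).2 rfl⟩
    · rw [Fm.holds, not_not] at h
      exact h2 h
  | and p q ihp ihq =>
    intro s
    obtain ⟨c, d, h1, hc, hd⟩ := ihq s
    obtain ⟨a, b, h2, ha, hb⟩ := ihp (c :: d :: s)
    refine ⟨c * c + a * a, d * b, ?_, fun h => ?_, fun h => ?_⟩
    · rw [Fm.prog, sem_append]
      exact ⟨_, (sem_append _ _ _ _ _).2 ⟨_, h1, h2⟩, (sem_pAnd _ _ _ _ _ _ _).2 rfl⟩
    · rw [ha h.1, hc h.2]; ring
    · rw [Fm.holds, not_and_or] at h
      rcases h with h | h
      · rw [hb h]; ring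
      · rw [hd h]; ring
  | or p q ihp ihq =>
    intro s
    obtain ⟨c, d, h1, hc, hd⟩ := ihq s
    obtain ⟨a, b, h2, ha, hb⟩ := ihp (c :: d :: s)
    refine ⟨c * a, d * d + b * b, ?_, fun h => ?_, fun h => ?_⟩
    · rw [Fm.prog, sem_append]
      exact ⟨_, (sem_append _ _ _ _ _).2 ⟨_, h1, h2⟩, (sem_pOr _ _ _ _ _ _ _).2 rfl⟩
    · rcases h with h | h
      · rw [ha h]; ring
      · rw [hc h]; ring
    · rw [Fm.holds, not_or] at h
      rw [hb h.1, hd h.2]; ring

/-! ### Scanning the code of a formula -/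

/-- The automaton reading the code: for the mode `m` and the next bit `b`, entry `2 m + b` is the
next mode together with the program emitted. -/
def scanTab : List (ℕ × List COp) :=
  [(1, []), (2, []),                      -- 0: start of a token
   (3, []), (4, []),                      -- 1: f
   (5, []), (6, []),                      -- 2: t
   (8, []), (9, []),                      -- 3: ff
   (0, [(4, 0)]), (0, [(5, 0)]),          -- 4: ft
   (0, pEq), (0, pLt),                    -- 5: tf
   (7, []), (0, pOr),                     -- 6: tt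
   (0, pNot), (0, pAnd),                  -- 7: ttf
   (0, []), (8, []),                      -- 8: the index of a variable
   (10, pSgn false), (10, pSgn true),     -- 9: the sign of a number
   (0, [(2, 0)]), (11, []),               -- 10: end of a number or further digits
   (10, pDig false), (10, pDig true)]     -- 11: digit

/-- The state of the scanner is `(mode, counter, program)`. -/
def scanStep (s : ℕ × ℕ × List COp) (b : Bool) : ℕ × ℕ × List COp :=
  ((scanTab.getD (2 * s.1 + if b = true then 1 else 0) (0, [])).1,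
    if s.1 = 8 ∧ b = true then s.2.1 + 1 else 0,
    if s.1 = 8 ∧ b = false then (0, s.2.1) :: s.2.2
    else (scanTab.getD (2 * s.1 + if b = true then 1 else 0) (0, [])).2 ++ s.2.2)

/-- The program for a word. -/
def scan (w : List Bool) : List COp := (w.foldl scanStep (0, 0, [])).2.2

theorem scan_unary (i : ℕ) : ∀ (c : ℕ) (ops : List COp),
    (unary i).foldl scanStep (8, c, ops) = (0, 0, (0, c + i) :: ops) := by
  induction i with
  | zero => intro c ops; simp [unary, scanStep, scanTab]
  | succ i ih =>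
    intro c ops
    have e : unary (i + 1) = true :: unary i := by simp [unary, List.replicate_succ]
    rw [e, List.foldl_cons]
    have : scanStep (8, c, ops) true = (8, c + 1, ops) := by simp [scanStep, scanTab]
    rw [this, ih]
    congr 4
    omega

theorem scan_binary (l : List Bool) : ∀ ops : List COp,
    (l.flatMap (fun b => [true, b]) ++ [false]).foldl scanStep (10, 0, ops) =
      (0, 0, [(2, 0)] ++ l.reverse.flatMap pDig ++ ops) := by
  induction l with
  | nil => intro ops; simp [scanStep, scanTab]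
  | cons b l ih =>
    intro ops
    rw [List.flatMap_cons, List.append_assoc, List.foldl_append]
    have : List.foldl scanStep (10, 0, ops) [true, b] = (10, 0, pDig b ++ ops) := by
      cases b <;> simp [scanStep, scanTab]
    rw [this, ih, List.reverse_cons, List.flatMap_append, List.flatMap_cons, List.flatMap_nil]
    simp

theorem scan_tm (t : Tm) : ∀ ops : List COp,
    t.enc.foldl scanStep (0, 0, ops) = (0, 0, t.prog ++ ops) := by
  induction t with
  | var i =>
    intro ops
    rw [Tm.enc, List.foldl_append]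
    have : List.foldl scanStep (0, 0, ops) [false, false, false] = (8, 0, ops) := by
      simp [scanStep, scanTab]
    rw [this, scan_unary]
    simp [Tm.prog]
  | int z =>
    intro ops
    rw [Tm.enc, List.foldl_append]
    have : List.foldl scanStep (0, 0, ops) [false, false, true] = (9, 0, ops) := by
      simp [scanStep, scanTab]
    rw [this, List.foldl_cons]
    have : scanStep (9, 0, ops) (decide (z < 0)) = (10, 0, pSgn (decide (z < 0)) ++ ops) := by
      cases decide (z < 0) <;> simp [scanStep, scanTab]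
    rw [this, binary, scan_binary]
    simp [Tm.prog]
  | add s t ihs iht =>
    intro ops
    rw [Tm.enc, List.foldl_append, List.foldl_append]
    have : List.foldl scanStep (0, 0, ops) [false, true, false] = (0, 0, (4, 0) :: ops) := by
      simp [scanStep, scanTab]
    rw [this, ihs, iht]
    simp [Tm.prog]
  | mul s t ihs iht =>
    intro ops
    rw [Tm.enc, List.foldl_append, List.foldl_append]
    have : List.foldl scanStep (0, 0, ops) [false, true, true] = (0, 0, (5, 0) :: ops) := by
      simp [scanStep, scanTab]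
    rw [this, ihs, iht]
    simp [Tm.prog]

theorem scan_fm (p : Fm) : ∀ ops : List COp,
    p.enc.foldl scanStep (0, 0, ops) = (0, 0, p.prog ++ ops) := by
  induction p with
  | eq s t =>
    intro ops
    rw [Fm.enc, List.foldl_append, List.foldl_append]
    have : List.foldl scanStep (0, 0, ops) [true, false, false] = (0, 0, pEq ++ ops) := by
      simp [scanStep, scanTab]
    rw [this, scan_tm, scan_tm]
    simp [Fm.prog]
  | lt s t =>
    intro ops
    rw [Fm.enc, List.foldl_append, List.foldl_append]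
    have : List.foldl scanStep (0, 0, ops) [true, false, true] = (0, 0, pLt ++ ops) := by
      simp [scanStep, scanTab]
    rw [this, scan_tm, scan_tm]
    simp [Fm.prog]
  | not p ih =>
    intro ops
    rw [Fm.enc, List.foldl_append]
    have : List.foldl scanStep (0, 0, ops) [true, true, false, false] = (0, 0, pNot ++ ops) := by
      simp [scanStep, scanTab]
    rw [this, ih]
    simp [Fm.prog]
  | and p q ihp ihq =>
    intro ops
    rw [Fm.enc, List.foldl_append, List.foldl_append]
    have : List.foldl scanStep (0, 0, ops) [true, true, false, true] = (0, 0, pAnd ++ ops) := by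
      simp [scanStep, scanTab]
    rw [this, ihp, ihq]
    simp [Fm.prog]
  | or p q ihp ihq =>
    intro ops
    rw [Fm.enc, List.foldl_append, List.foldl_append]
    have : List.foldl scanStep (0, 0, ops) [true, true, true] = (0, 0, pOr ++ ops) := by
      simp [scanStep, scanTab]
    rw [this, ihp, ihq]
    simp [Fm.prog]

theorem scan_enc (p : Fm) : scan p.enc = p.prog := by
  rw [scan, scan_fm]; simp

/-- All entries of the table refer to no variable. -/
theorem scanTab_ok : ∀ e ∈ scanTab, ∀ o ∈ e.2, o.1 ≠ 0 := by decide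

theorem scan_inv (w : List Bool) : ∀ (s : ℕ × ℕ × List COp) (L : ℕ), s.2.1 + w.length ≤ L →
    (∀ o ∈ s.2.2, COk L o) → ∀ o ∈ (w.foldl scanStep s).2.2, COk L o := by
  induction w with
  | nil => intro s L _ h; exact h
  | cons b w ih =>
    intro s L hL h
    rw [List.foldl_cons]
    rw [List.length_cons] at hL
    refine ih _ L ?_ ?_
    · simp only [scanStep]
      split_ifs <;> omega
    · intro o ho
      simp only [scanStep] at ho
      generalize (2 * s.1 + if b = true then 1 else 0) = j at ho
      split_ifs at ho with h1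
      · rcases List.mem_cons.1 ho with rfl | ho
        · intro _; simp only; omega
        · exact h o ho
      · rcases List.mem_append.1 ho with ho | ho
        · intro h0
          exfalso
          rcases getD_mem_or scanTab j (0, []) with h2 | h2
          · rw [h2] at ho; simp at ho
          · exact scanTab_ok _ h2 o ho h0
        · exact h o ho

theorem scan_ok (w : List Bool) : ∀ o ∈ scan w, COk w.length o :=
  scan_inv w (0, 0, []) w.length (by simp) (by simp)

/-! ### The compiler -/

/-- Constraints for the constants: `y 0 = y 1 = 2`, `y 2 = 4`, `y 3 = y 6 = 6`, `y 4 = y 5 = 3`. -/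
def constC : List Cn := [(0, 0, 1), (1, 0, 0), (2, 0, 0), (1, 1, 0), (0, 4, 5), (1, 4, 0), (0, 3, 6)]

/-- The final state of the machine on a word. -/
def cFinal (w : List Bool) : CSt := cRun (7 + 2 * w.length, [], constC) (scan w)

/-- The compiler. -/
def compileF (w : List Bool) : ℕ × List Cn :=
  ((cFinal w).1 + 1, (0, ((cFinal w).2.1.headD (0, 0)).1, (cFinal w).1) ::
    (0, ((cFinal w).2.1.headD (0, 0)).2, (cFinal w).1) :: (cFinal w).2.2)

theorem cInv_init (L : ℕ) : CInv L (7 + 2 * L, [], constC) := by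
  refine ⟨le_rfl, by simp, ?_⟩
  intro c hc
  simp only [constC, List.mem_cons, List.not_mem_nil, or_false] at hc
  rcases hc with rfl | rfl | rfl | rfl | rfl | rfl | rfl <;> simp only [Cn.WF] <;> norm_num <;>
    omega

theorem cInv_final (w : List Bool) : CInv w.length (cFinal w) :=
  (cInv_init w.length).run (scan w) (scan_ok w)

theorem compileF_wf (w : List Bool) : ∀ c ∈ (compileF w).2, Cn.WF (compileF w).1 c := by
  intro c hc
  have h := cInv_final w
  have h1 := h.head
  simp only [compileF, List.mem_cons] at hc ⊢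
  rcases hc with rfl | rfl | hc
  · simp only [Cn.WF, if_true]; omega
  · simp only [Cn.WF, if_true]; omega
  · exact cn_wf_mono (by omega) (h.cs c hc).1

theorem constC_sound {y : ℕ → ℝ} (h0 : y 0 ≠ 0) (h : ∀ c ∈ constC, Cn.Holds y c) :
    y 4 - y 0 = 1 := by
  have e1 := h (0, 0, 1) (by simp [constC])
  have e2 := h (1, 0, 0) (by simp [constC])
  have e3 := h (2, 0, 0) (by simp [constC])
  have e4 := h (1, 1, 0) (by simp [constC])
  have e5 := h (0, 4, 5) (by simp [constC])
  have e6 := h (1, 4, 0) (by simp [constC])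
  have e7 := h (0, 3, 6) (by simp [constC])
  simp only [Cn.Holds, if_true, one_ne_zero, if_false, OfNat.ofNat_ne_zero,
      OfNat.ofNat_ne_one] at e1 e2 e3 e4 e5 e6 e7
  norm_num at e1 e2 e3 e4 e5 e6 e7
  have h1 : y 0 * (y 0 - 2) = 0 := by rw [← e1] at e2 e3; linear_combination e3 - e2
  have h2 : y 0 = 2 := by
    rcases mul_eq_zero.1 h1 with h | h
    · exact absurd h h0
    · linarith
  linarith

theorem Tm.val_congr (t : Tm) {L : ℕ} {x x' : ℕ → ℝ} (h : ∀ i < L, x i = x' i) :
    t.enc.length ≤ L → t.val x = t.val x' := by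
  induction t with
  | var i =>
    intro hL
    simp only [Tm.enc, unary, List.length_append, List.length_cons, List.length_nil,
      List.length_replicate] at hL
    exact h i (by omega)
  | int z => intro _; rfl
  | add s t ihs iht =>
    intro hL
    simp only [Tm.enc, List.length_append] at hL
    rw [Tm.val, Tm.val, ihs (by omega), iht (by omega)]
  | mul s t ihs iht =>
    intro hL
    simp only [Tm.enc, List.length_append] at hL
    rw [Tm.val, Tm.val, ihs (by omega), iht (by omega)]

theorem Fm.holds_congr (p : Fm) {L : ℕ} {x x' : ℕ → ℝ} (h : ∀ i < L, x i = x' i) :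
    p.enc.length ≤ L → (p.holds x ↔ p.holds x') := by
  induction p with
  | eq s t =>
    intro hL
    simp only [Fm.enc, List.length_append] at hL
    rw [Fm.holds, Fm.holds, s.val_congr h (by omega), t.val_congr h (by omega)]
  | lt s t =>
    intro hL
    simp only [Fm.enc, List.length_append] at hL
    rw [Fm.holds, Fm.holds, s.val_congr h (by omega), t.val_congr h (by omega)]
  | not p ih =>
    intro hL
    simp only [Fm.enc, List.length_append] at hL
    rw [Fm.holds, Fm.holds, ih (by omega)]
  | and p q ihp ihq =>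
    intro hL
    simp only [Fm.enc, List.length_append] at hL
    rw [Fm.holds, Fm.holds, ihp (by omega), ihq (by omega)]
  | or p q ihp ihq =>
    intro hL
    simp only [Fm.enc, List.length_append] at hL
    rw [Fm.holds, Fm.holds, ihp (by omega), ihq (by omega)]

/-- The initial assignment for the values `x` of the free variables. -/
noncomputable def yInit (x : ℕ → ℝ) (i : ℕ) : ℝ :=
  if i < 7 then [2, 2, 4, 6, 3, 3, 6].getD i 2
  else if (i - 7) % 2 = 0 then max (x ((i - 7) / 2)) 0 + 2 else max (-x ((i - 7) / 2)) 0 + 2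

theorem yInit_gt (x : ℕ → ℝ) (i : ℕ) : 1 < yInit x i := by
  unfold yInit
  split_ifs with h h1
  · interval_cases i <;> norm_num
  · have := le_max_right (x ((i - 7) / 2)) 0
    linarith
  · have := le_max_right (-x ((i - 7) / 2)) 0
    linarith

theorem xOf_yInit (L : ℕ) (x : ℕ → ℝ) (i : ℕ) (hi : i < L) : x i = xOf L (yInit x) i := by
  rw [xOf, if_pos hi, yInit, yInit, if_neg (by omega), if_pos (by omega), if_neg (by omega),
    if_neg (by omega)]
  have e1 : (7 + 2 * i - 7) / 2 = i := by omega
  have e2 : (8 + 2 * i - 7) / 2 = i := by omega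
  rw [e1, e2]
  rcases le_total (x i) 0 with h | h
  · rw [max_eq_right h, max_eq_left (by linarith)]; ring
  · rw [max_eq_left h, max_eq_right (by linarith)]; ring

theorem compileF_sound (p : Fm)
    (h : ∃ y : ℕ → ℝ, (∀ i < (compileF p.enc).1, y i ≠ 0) ∧
      ∀ c ∈ (compileF p.enc).2, Cn.Holds y c) : ETR p := by
  obtain ⟨y, h1, h2⟩ := h
  have hc : ∀ c ∈ (cFinal p.enc).2.2, Cn.Holds y c := fun c hc => h2 c (by simp [compileF, hc])
  have hone : y 4 - y 0 = 1 := constC_sound (h1 0 (by simp [compileF])) fun c hc' =>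
    hc c (cRun_subset _ _ c hc')
  have h3 := cRun_sound hone (S := (7 + 2 * p.enc.length, [], constC)) (scan p.enc)
    (scan_ok p.enc) hc
  rw [scan_enc] at h3
  obtain ⟨a, b, h4, h5, _⟩ := sem_fm_sound _ p _ _ h3
  refine ⟨_, h5 ?_⟩
  have e1 := h2 (0, ((cFinal p.enc).2.1.headD (0, 0)).1, (cFinal p.enc).1) (by simp [compileF])
  have e2 := h2 (0, ((cFinal p.enc).2.1.headD (0, 0)).2, (cFinal p.enc).1) (by simp [compileF])
  simp only [Cn.Holds, if_true] at e1 e2
  have e3 := cval_headD y (cFinal p.enc).2.1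
  rw [e1, e2, sub_self, cFinal, scan_enc, h4] at e3
  exact e3

theorem compileF_complete (p : Fm) (h : ETR p) :
    ∃ y : ℕ → ℝ, (∀ i, 1 < y i) ∧ ∀ c ∈ (compileF p.enc).2, Cn.Holds y c := by
  obtain ⟨x, hx⟩ := h
  rw [p.holds_congr (fun i hi => xOf_yInit p.enc.length x i hi) le_rfl] at hx
  obtain ⟨a, b, h1, h2, _⟩ := sem_fm_complete (xOf p.enc.length (yInit x)) p []
  have h0 : ∀ c ∈ constC, Cn.Holds (yInit x) c := by
    intro c hc
    simp only [constC, List.mem_cons, List.not_mem_nil, or_false] at hc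
    rcases hc with rfl | rfl | rfl | rfl | rfl | rfl | rfl <;> simp only [Cn.Holds, yInit] <;>
      norm_num
  obtain ⟨y, g1, g2, g3, g4⟩ := cRun_complete (L := p.enc.length) p.prog
    (S := (7 + 2 * p.enc.length, [], constC)) (y := yInit x) (s' := [a, b])
    (cInv_init _) (by rw [← scan_enc]; exact scan_ok _) (yInit_gt x)
    (by simp only [yInit]; norm_num) h0 h1
  rw [← scan_enc] at g3 g4
  have hf := cInv_final p.enc
  have hh := hf.head
  have e3 := cval_headD y (cFinal p.enc).2.1
  rw [cFinal, g4, List.headD_cons, h2 hx] at e3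
  change 0 = y ((cFinal p.enc).2.1.headD (0, 0)).1 - y ((cFinal p.enc).2.1.headD (0, 0)).2 at e3
  have e0 := cext_add (cFinal p.enc).1 y [y ((cFinal p.enc).2.1.headD (0, 0)).1] 0
  rw [Nat.add_zero, List.getD_cons_zero] at e0
  refine ⟨cext (cFinal p.enc).1 y [y ((cFinal p.enc).2.1.headD (0, 0)).1],
    cext_gt g2 (by simp [g2]), ?_⟩
  intro c hc
  simp only [compileF, List.mem_cons] at hc
  rcases hc with rfl | rfl | hc
  · simp only [Cn.Holds, if_true]
    rw [e0, cext_lt _ _ hh.1]
  · simp only [Cn.Holds, if_true]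
    rw [e0, cext_lt _ _ hh.2]
    linarith
  · exact (cn_holds_congr (fun i hi => cext_lt _ _ hi) (hf.cs c hc).1).2 (g3 c hc)

/-! ### Polynomial time -/

open PT

theorem scanStep_polyTime :
    PolyTime (fun p : List Bool × ((ℕ × ℕ × List COp) × Bool) => scanStep p.2.1 p.2.2) := by
  unfold scanStep
  have h1 : PolyTime (fun p : List Bool × ((ℕ × ℕ × List COp) × Bool) =>
      scanTab.getD (2 * p.2.1.1 + if p.2.2 = true then 1 else 0) (0, [])) := by
    refine PolyTime.getD (by fun_prop) ?_ (by fun_prop)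
    exact PolyTime.natAdd (by fun_prop) (PolyTime.ite (by fun_prop) (by fun_prop) (by fun_prop))
  refine PolyTime.pair (PolyTime.fst h1) (PolyTime.pair ?_ ?_)
  · exact PolyTime.ite (by fun_prop) (by fun_prop) (by fun_prop)
  · exact PolyTime.ite (by fun_prop) (by fun_prop) (PolyTime.append (PolyTime.snd h1) (by fun_prop))

theorem scanStep_sz (s : ℕ × ℕ × List COp) (b : Bool) :
    sz (scanStep s b) ≤ sz s + (sz scanTab + 20) := by
  obtain ⟨m, c, ops⟩ := s
  have h : ∀ j, sz (scanTab.getD j (0, [])) ≤ sz scanTab + 3 := by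
    intro j
    rcases getD_mem_or scanTab j (0, []) with h2 | h2
    · rw [h2]; simp
    · have := sz_le_of_mem h2; omega
  simp only [scanStep]
  have h1 := h (2 * m + if b = true then 1 else 0)
  generalize scanTab.getD (2 * m + if b = true then 1 else 0) (0, []) = e at h1
  obtain ⟨e1, e2⟩ := e
  have h2 := sz_append_le e2 ops
  simp only [sz_prod] at h1 ⊢
  cases b
  · simp only [Bool.false_eq_true, and_false, if_false, and_true]
    split_ifs <;> simp only [sz_nat, sz_cons, sz_prod] at * <;> omega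
  · simp only [Bool.true_eq_false, and_false, if_false, and_true]
    split_ifs <;> simp only [sz_nat, sz_cons, sz_prod] at * <;> omega

theorem scan_polyTime : PolyTime scan := by
  have h := PolyTime.foldl_add (l := fun w : List Bool => w) (g := fun _ s b => scanStep s b)
    (y := fun _ => (0, 0, [])) (by fun_prop) scanStep_polyTime (by fun_prop)
    (s := fun _ => sz scanTab + 20) (by fun_prop) (fun _ b _ c => scanStep_sz c b)
  exact PolyTime.snd (PolyTime.snd h)

theorem cStep_polyTime : PolyTime (fun p : List Bool × (CSt × COp) => cStep p.2.1 p.2.2) := by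
  unfold cStep caddC cmulC
  refine PolyTime.ite (by fun_prop) (by fun_prop) ?_
  refine PolyTime.ite (by fun_prop) (by fun_prop) ?_
  refine PolyTime.ite (by fun_prop) (by fun_prop) ?_
  refine PolyTime.ite (by fun_prop) (by fun_prop) ?_
  refine PolyTime.ite (by fun_prop) (by fun_prop) ?_
  refine PolyTime.ite (by fun_prop) (by fun_prop) ?_
  refine PolyTime.ite (by fun_prop) (by fun_prop) ?_
  refine PolyTime.ite (by fun_prop) (by fun_prop) ?_
  fun_prop

theorem cStep_bounds (S : CSt) (o : COp) : (cStep S o).1 ≤ S.1 + 18 ∧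
    (cStep S o).2.1.length ≤ S.2.1.length + 2 ∧ (cStep S o).2.2.length ≤ S.2.2.length + 18 := by
  obtain ⟨v, st, cs⟩ := S
  unfold cStep caddC cmulC
  split_ifs <;> simp <;> omega

theorem cRun_bounds (l : List COp) : ∀ S : CSt, (cRun S l).1 ≤ S.1 + 18 * l.length ∧
    (cRun S l).2.1.length ≤ S.2.1.length + 2 * l.length ∧
    (cRun S l).2.2.length ≤ S.2.2.length + 18 * l.length := by
  induction l with
  | nil => intro S; simp [cRun]
  | cons o l ih =>
    intro S
    have h1 := cStep_bounds S o
    have h2 := ih (cStep S o)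
    have e : cRun S (o :: l) = cRun (cStep S o) l := rfl
    rw [e, List.length_cons]
    omega

theorem cInv_sz {L : ℕ} {S : CSt} (h : CInv L S) {V a b : ℕ} (hV : S.1 ≤ V)
    (ha : S.2.1.length ≤ a) (hb : S.2.2.length ≤ b) :
    sz S ≤ (2 * V + 1) + (a * (4 * V + 4) + 1) + (b * (6 * V + 6) + 1) + 2 := by
  obtain ⟨v, st, cs⟩ := S
  have h1 := h.st
  have h2 := h.cs
  simp only at hV ha hb h1 h2
  have h3 : sz st ≤ st.length * (4 * V + 4) + 1 := sz_le_of_forall (B := 4 * V + 3) fun A hA => by
    have := h1 A hA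
    simp only [sz_prod, sz_nat]
    omega
  have h4 : sz cs ≤ cs.length * (6 * V + 6) + 1 := sz_le_of_forall (B := 6 * V + 5) fun c hc => by
    have := h2 c hc
    simp only [sz_prod, sz_nat]
    omega
  have h5 := Nat.mul_le_mul_right (4 * V + 4) ha
  have h6 := Nat.mul_le_mul_right (6 * V + 6) hb
  simp only [sz_prod, sz_nat]
  omega

theorem cFinal_polyTime : PolyTime cFinal := by
  have hs := scan_polyTime
  have hsb := hs.pbdd
  refine PolyTime.foldl (l := scan) (g := fun _ S o => cStep S o)
    (y := fun w => (7 + 2 * w.length, [], constC)) hs cStep_polyTime (by fun_prop)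
    (s := fun w => (2 * (7 + 2 * sz w + 18 * sz (scan w)) + 1) +
      ((2 * sz (scan w)) * (4 * (7 + 2 * sz w + 18 * sz (scan w)) + 4) + 1) +
      ((7 + 18 * sz (scan w)) * (6 * (7 + 2 * sz w + 18 * sz (scan w)) + 6) + 1) + 2)
    (by fun_prop) fun w i => ?_
  have h1 : ((scan w).take i).length ≤ sz (scan w) :=
    (List.take_sublist i (scan w)).length_le.trans (length_le_sz _)
  have h2 := length_le_sz w
  have h3 := cRun_bounds ((scan w).take i) (7 + 2 * w.length, [], constC)
  have h4 : CInv w.length (cRun (7 + 2 * w.length, [], constC) ((scan w).take i)) :=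
    (cInv_init w.length).run _ fun o ho => scan_ok w o (List.mem_of_mem_take ho)
  refine cInv_sz h4 ?_ ?_ ?_
  · simp only at h3; omega
  · simp only [List.length_nil] at h3; omega
  · have : constC.length = 7 := rfl
    simp only [this] at h3; omega

theorem compileF_polyTime : PolyTime compileF := by
  have h := cFinal_polyTime
  unfold compileF
  fun_prop

/-- **Module E**: compiling formulas of the existential theory of the reals into constraint
systems. -/
theorem compile_spec : ∃ F : List Bool → ℕ × List Cn, PT.PolyTime F ∧ ∀ p : Fm,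
    (∀ c ∈ (F p.enc).2, Cn.WF (F p.enc).1 c) ∧
    (ETR p → ∃ y : ℕ → ℝ, (∀ i, 1 < y i) ∧ ∀ c ∈ (F p.enc).2, Cn.Holds y c) ∧
    ((∃ y : ℕ → ℝ, (∀ i < (F p.enc).1, y i ≠ 0) ∧ ∀ c ∈ (F p.enc).2, Cn.Holds y c) → ETR p) :=
  ⟨compileF, compileF_polyTime, fun p => ⟨compileF_wf _, compileF_complete p, compileF_sound p⟩⟩

end Pool.Agent.Slope
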