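import Pool.Agent.Slope.Verify4

set_option autoImplicit false

/-!
# Completeness: a strong realization of the hub graph gives a drawing
-/

namespace Pool.Agent.Slope

/-- Slopes `S 0 < S 1 < ...` such that `S (6 n + 1) = s n`. -/
noncomputable def interp (s : ℕ → ℝ) (j : ℕ) : ℝ :=
  if j = 0 then s 0 - 1 else
    s ((j - 1) / 6) + (s ((j - 1) / 6 + 1) - s ((j - 1) / 6)) * (((j - 1) % 6 : ℕ) / 6 : ℝ)

theorem interp_main (s : ℕ → ℝ) (n : ℕ) : interp s (6 * n + 1) = s n := by
  have h1 : (6 * n + 1 - 1) / 6 = n := by omega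
  have h2 : (6 * n + 1 - 1) % 6 = 0 := by omega
  rw [interp, if_neg (by omega), h1, h2]
  simp

theorem interp_mono {s : ℕ → ℝ} (hs : StrictMono s) : StrictMono (interp s) := by
  refine strictMono_nat_of_lt_succ fun j => ?_
  rcases Nat.eq_zero_or_pos j with rfl | hj
  · have := interp_main s 0
    simp only [mul_zero, zero_add] at this
    rw [zero_add, this]
    simp [interp]
  · obtain ⟨q, hq⟩ : ∃ q, q = (j - 1) / 6 := ⟨_, rfl⟩
    obtain ⟨ρ, hρ⟩ : ∃ ρ, ρ = (j - 1) % 6 := ⟨_, rfl⟩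
    have h1 : s q < s (q + 1) := hs (by omega)
    have h2 : s (q + 1) < s (q + 2) := hs (by omega)
    rw [interp, interp, if_neg (by omega), if_neg (by omega), ← hq, ← hρ]
    by_cases h5 : ρ = 5
    · have e1 : (j + 1 - 1) / 6 = q + 1 := by omega
      have e2 : (j + 1 - 1) % 6 = 0 := by omega
      rw [e1, e2, h5]
      push_cast
      nlinarith
    · have e1 : (j + 1 - 1) / 6 = q := by omega
      have e2 : (j + 1 - 1) % 6 = ρ + 1 := by omega
      rw [e1, e2]
      push_cast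
      have h3 : (ρ : ℝ) / 6 < ((ρ : ℝ) + 1) / 6 := by linarith
      have h4 : 0 < s (q + 1) - s q := by linarith
      have := mul_lt_mul_of_pos_left h3 h4
      linarith

theorem mkRay_cases {k : ℕ} (hk : 1 ≤ k) (d : ℕ → ℝ × ℝ) (i : ℤ) :
    ∃ j < k, mkRay k d i = d j ∨ mkRay k d i = - d j := by
  have hk0 : (0 : ℤ) < k := by omega
  have h0 := Int.emod_nonneg i hk0.ne'
  have h1 := Int.emod_lt_of_pos i hk0
  refine ⟨(i % k).toNat, by omega, ?_⟩
  rw [mkRay]
  split_ifs
  · exact Or.inl rfl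
  · exact Or.inr rfl

theorem slope_of_smul {P Q : ℝ × ℝ} {x s : ℝ} (hx : x ≠ 0) (h : Q - P = x • ((1 : ℝ), s)) :
    slope P Q = (s : WithTop ℝ) := by
  have h1 : Q.1 - P.1 = x := by
    have := congrArg Prod.fst h
    simpa using this
  have h2 : Q.2 - P.2 = x * s := by
    have := congrArg Prod.snd h
    simpa using this
  have hne : P.1 ≠ Q.1 := by
    intro h0
    rw [h0, sub_self] at h1
    exact hx h1.symm
  rw [slope, if_neg hne, h1, h2, mul_div_cancel_left₀ _ hx]

theorem drawable_of_hubStrong (N : ℕ) (hN : 1 ≤ N) (L : List LE) (hL : ∀ x ∈ L, x.2.2 < N)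
    (hch : Chain L) (hnd : L.Nodup) (h : HubStrong L) : Drawable (gEdges N L) (6 * N + 3) := by
  classical
  obtain ⟨s, H, hs, hH, hinj, hav⟩ := h
  obtain ⟨S, hS⟩ : ∃ S, S = interp s := ⟨_, rfl⟩
  have hSm : StrictMono S := hS ▸ interp_mono hs
  have hSn : ∀ n, S (6 * n + 1) = s n := by rw [hS]; exact interp_main s
  obtain ⟨r, hrdef⟩ : ∃ r, r = mkRay (6 * N + 3) (fun j => ((1 : ℝ), S j)) := ⟨_, rfl⟩
  have hr : Rays (6 * N + 3) r := by
    rw [hrdef]
    refine mkRays (by omega) fun i j hij _ => ?_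
    have := hSm hij
    simp only [cr]
    linarith
  have hcase : ∀ i : ℤ, ∃ j < 6 * N + 3, r i = ((1 : ℝ), S j) ∨ r i = -((1 : ℝ), S j) := by
    intro i
    rw [hrdef]
    exact mkRay_cases (by omega) _ i
  have hr1 : ∀ i, (r i).1 ≠ 0 := by
    intro i
    obtain ⟨j, _, h | h⟩ := hcase i
    · rw [h]; norm_num
    · rw [h]; norm_num
  have hln : ∀ e, e < L.length → ln L e < N := fun e he => hL _ (Gen.lab_mem he)
  have hmain : ∀ e, e < L.length → 0 < (r (6 * ln L e + 1)).1 ∧ ∃ c : ℝ, 0 < c ∧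
      H (lab L e).2.1 - H (lab L e).1 = c • r (6 * ln L e + 1) := by
    intro e he
    have h1 := hln e he
    have h2 : r (6 * ln L e + 1) = ((1 : ℝ), s (ln L e)) := by
      have := mkRay_nat (k := 6 * N + 3) (fun j => ((1 : ℝ), S j)) (i := 6 * ln L e + 1)
        (by omega)
      rw [← hrdef, hSn] at this
      rw [← this]
      push_cast
      rfl
    refine ⟨by rw [h2]; norm_num, ?_⟩
    obtain ⟨c, hc, h3⟩ := hH _ (Gen.lab_mem he)
    refine ⟨c, hc, ?_⟩
    rw [h3, h2]
    refine Prod.ext ?_ ?_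
    · simp
    · simp [ln]
  have hodd : Odd (6 * N + 3) := ⟨3 * N + 1, by ring⟩
  have hk9 : 9 ≤ 6 * N + 3 := by omega
  have hlt : ∀ e, e < L.length → 6 * ln L e + 3 < 6 * N + 3 := by
    intro e he
    have := hln e he
    omega
  obtain ⟨p, hE, hP, g1, g2⟩ := exists_generic (H := H) hr hodd (K := 2 * N + 1) (by ring) hk9 hr1
    hch hmain
  have g : Gen (6 * N + 3) L r H p :=
    { rays := hr
      odd := hodd
      k9 := hk9
      r1 := hr1
      chain := hch
      lt := hlt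
      main := hmain
      eqs := hE
      psv := hP
      g1 := g1
      g2 := g2
      hinj := hinj
      havoid := fun e he x hx => hav _ (Gen.lab_mem he) x hx
      nodup := hnd }
  have hV : ∀ w ∈ supp (gEdges N L), isV (6 * N + 3) L w := by
    rintro w ⟨⟨u, v⟩, he, hw⟩
    rw [mem_gEdges] at he
    obtain ⟨a, ⟨hz, hnb⟩ | ⟨hz, hnb⟩⟩ := nb_of_edge hln he
    · rcases hw with rfl | rfl
      · exact Or.inl (Or.inl hz)
      · exact isV_nb hlt hz hnb
    · rcases hw with rfl | rfl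
      · exact isV_nb hlt hz hnb
      · exact Or.inl (Or.inl hz)
  refine ⟨posn (6 * N + 3) L r p, ?_, ?_, ?_⟩
  · intro w hw w' hw' heq
    exact g.posn_inj (hV w hw) (hV w' hw') heq
  · rintro ⟨u, v⟩ he w hw
    rw [mem_gEdges] at he
    obtain ⟨a, ⟨hz, hnb⟩ | ⟨hz, hnb⟩⟩ := nb_of_edge hln he
    · exact g.edge_ok hz hnb (hV w hw)
    · simp only
      rw [openSegment_symm]
      exact g.edge_ok hz hnb (hV w hw)
  · refine ⟨(Finset.range (6 * N + 3)).image (fun j => ((S j : ℝ) : WithTop ℝ)), ?_, ?_⟩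
    · exact Finset.card_image_le.trans (by rw [Finset.card_range])
    · rintro ⟨u, v⟩ he
      rw [mem_gEdges] at he
      rw [Finset.mem_image]
      simp only
      obtain ⟨a, ⟨hz, hnb⟩ | ⟨hz, hnb⟩⟩ := nb_of_edge hln he
      · obtain ⟨c, hc, h1⟩ := g.nb_pos hnb hz
        obtain ⟨j, hj, h2 | h2⟩ := hcase a
        · refine ⟨j, Finset.mem_range.2 hj, ?_⟩
          rw [slope_of_smul hc.ne' (by rw [h1, h2])]
        · refine ⟨j, Finset.mem_range.2 hj, ?_⟩
          rw [slope_of_smul (neg_ne_zero.2 hc.ne') (by rw [h1, h2, smul_neg, neg_smul])]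
      · obtain ⟨c, hc, h1⟩ := g.nb_pos hnb hz
        have h1' : posn (6 * N + 3) L r p v - posn (6 * N + 3) L r p u = -(c • r a) := by
          rw [← h1]; abel
        obtain ⟨j, hj, h2 | h2⟩ := hcase a
        · refine ⟨j, Finset.mem_range.2 hj, ?_⟩
          rw [slope_of_smul (neg_ne_zero.2 hc.ne') (by rw [h1', h2, neg_smul])]
        · refine ⟨j, Finset.mem_range.2 hj, ?_⟩
          rw [slope_of_smul hc.ne' (by rw [h1', h2, smul_neg, neg_neg])]

end Pool.Agent.Slope
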