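import Mathlib

set_option autoImplicit false

/-!
# Generic perturbations
-/

namespace Pool.Agent.Slope

open Filter Topology

/-- Starting from a point where the functionals in `G` are positive, one can move along the
subspace `D` so that in addition all functionals of `B` (none of which vanishes on `D`) become
nonzero. -/
theorem perturb {E : Type} [AddCommGroup E] [Module ℝ E] (D : Submodule ℝ E)
    (G : Set (E →ₗ[ℝ] ℝ)) (hG : G.Finite) (B : Set (E →ₗ[ℝ] ℝ)) (hB : B.Finite)
    (hBD : ∀ b ∈ B, ∃ δ ∈ D, b δ ≠ 0) (p₀ : E) (hp₀ : ∀ g ∈ G, 0 < g p₀) :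
    ∃ p : E, p - p₀ ∈ D ∧ (∀ g ∈ G, 0 < g p) ∧ ∀ b ∈ B, b p ≠ 0 := by
  induction B, hB using Set.Finite.induction_on with
  | empty => exact ⟨p₀, by simp, hp₀, by simp⟩
  | @insert b B hb hB ih =>
    obtain ⟨p, hp, hpG, hpB⟩ := ih fun b' hb' => hBD b' (Set.mem_insert_of_mem _ hb')
    obtain ⟨δ, hδ, hbδ⟩ := hBD b (Set.mem_insert _ _)
    by_cases hbp : b p = 0
    · have tend : ∀ f : E →ₗ[ℝ] ℝ, Tendsto (fun t : ℝ => f (p + t • δ)) (𝓝[>] 0) (𝓝 (f p)) := by
        intro f
        have h1 : Tendsto (fun t : ℝ => f p + t * f δ) (𝓝 0) (𝓝 (f p + 0 * f δ)) :=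
          (tendsto_const_nhds).add (tendsto_id.mul tendsto_const_nhds)
        rw [zero_mul, add_zero] at h1
        refine (h1.mono_left nhdsWithin_le_nhds).congr fun t => ?_
        rw [map_add, map_smul, smul_eq_mul]
      have e1 : ∀ᶠ t : ℝ in 𝓝[>] 0, ∀ g ∈ G, 0 < g (p + t • δ) := by
        rw [Filter.eventually_all_finite hG]
        intro g hg
        exact (tend g).eventually (eventually_gt_nhds (hpG g hg))
      have e2 : ∀ᶠ t : ℝ in 𝓝[>] 0, ∀ b' ∈ B, b' (p + t • δ) ≠ 0 := by
        rw [Filter.eventually_all_finite hB]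
        intro b' hb'
        exact (tend b').eventually (isOpen_ne.mem_nhds (hpB b' hb'))
      have e3 : ∀ᶠ t : ℝ in 𝓝[>] 0, 0 < t := eventually_mem_nhdsWithin
      obtain ⟨t, h1, h2, h3⟩ := (e1.and (e2.and e3)).exists
      refine ⟨p + t • δ, ?_, h1, fun b' hb' => ?_⟩
      · have : p + t • δ - p₀ = (p - p₀) + t • δ := by abel
        rw [this]
        exact D.add_mem hp (D.smul_mem _ hδ)
      · rcases Set.mem_insert_iff.1 hb' with rfl | hb'
        · rw [map_add, hbp, zero_add, map_smul, smul_eq_mul]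
          exact mul_ne_zero h3.ne' hbδ
        · exact h2 b' hb'
    · refine ⟨p, hp, hpG, fun b' hb' => ?_⟩
      rcases Set.mem_insert_iff.1 hb' with rfl | hb'
      · exact hbp
      · exact hpB b' hb'

end Pool.Agent.Slope
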