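import Pool.Agent.Slope.Sound
import Pool.Agent.Slope.Perturb

set_option autoImplicit false

/-!
# Configurations of the core vertices, and their moves
-/

namespace Pool.Agent.Slope

theorem Rays.eq_of_dvd {k : ℕ} {r : ℤ → ℝ × ℝ} (hr : Rays k r) {i j : ℤ}
    (h : (2 * k : ℤ) ∣ i - j) : r i = r j := hr.congr (zmod_of_dvd h)

theorem Rays.cr_ne {k : ℕ} {r : ℤ → ℝ × ℝ} (hr : Rays k r) (hk : 2 ≤ k) {i j : ℤ}
    (h : ¬ (k : ℤ) ∣ j - i) : cr (r i) (r j) ≠ 0 := fun h0 => h (hr.cr_eq_zero hk h0)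

theorem small_dvd {k x : ℤ} (h : k ∣ x) (h1 : -k < x) (h2 : x < k) : x = 0 := by
  by_contra h0
  rcases lt_or_gt_of_ne h0 with h' | h'
  · have := Int.le_of_dvd (by omega : 0 < -x) ((dvd_neg).2 h)
    omega
  · have := Int.le_of_dvd h' h
    omega

/-- Index of the direction of the edge number `i` of the star number `t`. -/
def RR (k t i : ℕ) : ℤ := i * (k + 1) + t * k

/-- The next index on a star. -/
def nx (k i : ℕ) : ℕ := (i + 1) % k

/-- The label of the edge number `e`. -/
def ln (L : List LE) (e : ℕ) : ℕ := (lab L e).2.2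

theorem nx_lt {k i : ℕ} (hk : 0 < k) : nx k i < k := Nat.mod_lt _ hk

theorem nx_cases {k i : ℕ} (hi : i < k) : (nx k i = i + 1 ∧ i + 1 < k) ∨ (nx k i = 0 ∧ i + 1 = k) := by
  unfold nx
  by_cases h : i + 1 < k
  · left; exact ⟨Nat.mod_eq_of_lt h, h⟩
  · right
    have : i + 1 = k := by omega
    exact ⟨by rw [this, Nat.mod_self], this⟩

theorem nx_surj {k i : ℕ} (hi : i < k) : ∃ j < k, nx k j = i := by
  rcases Nat.eq_zero_or_pos i with rfl | hpos
  · exact ⟨k - 1, by omega, by rw [nx, Nat.sub_add_cancel (by omega), Nat.mod_self]⟩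
  · exact ⟨i - 1, by omega, by rw [nx, Nat.sub_add_cancel hpos, Nat.mod_eq_of_lt hi]⟩

theorem nx_inj {k i j : ℕ} (hi : i < k) (hj : j < k) (h : nx k i = nx k j) : i = j := by
  rcases nx_cases hi with h1 | h1 <;> rcases nx_cases hj with h2 | h2 <;> omega

theorem nx_ne {k i : ℕ} (hk : 2 ≤ k) (hi : i < k) : nx k i ≠ i := by
  rcases nx_cases hi with h1 | h1 <;> omega

theorem nx_nx_ne {k i : ℕ} (hk : 3 ≤ k) (hi : i < k) : nx k (nx k i) ≠ i := by
  rcases nx_cases hi with h1 | h1
  · rcases nx_cases (i := nx k i) (nx_lt (by omega)) with h2 | h2 <;> omega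
  · rcases nx_cases (i := nx k i) (nx_lt (by omega)) with h2 | h2 <;> omega

theorem RR_nx {k t i : ℕ} (hk : Odd k) (hi : i < k) :
    (2 * k : ℤ) ∣ RR k t (nx k i) - (RR k t i + k + 1) := by
  rcases nx_cases hi with ⟨h1, h2⟩ | ⟨h1, h2⟩
  · rw [h1]
    have : RR k t (i + 1) - (RR k t i + k + 1) = 0 := by
      simp only [RR]; push_cast; ring
    rw [this]; exact dvd_zero _
  · rw [h1]
    obtain ⟨m, hm⟩ := hk
    have h3 : (i : ℤ) = k - 1 := by omega
    refine ⟨-(m + 1), ?_⟩
    have hm' : (k : ℤ) = 2 * m + 1 := by exact_mod_cast hm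
    simp only [RR, h3]
    push_cast
    rw [hm']
    ring

/-- `part t i` is attached to `gad e s` by a client edge, seen from the part on the ray `a`. -/
def Cl (k : ℕ) (L : List LE) (t i e : ℕ) (s : Bool) (a : ℤ) : Prop :=
  e < L.length ∧ (t = e ∨ t = e + 1) ∧
    ((i = 6 * ln L e ∧ s = side t ∧ a = RR k t i + k) ∨
      (i = 6 * ln L e + 3 ∧ s = !side t ∧ a = RR k t i + k - 1))

/-- Consecutive labels are distinct. -/
def Chain (L : List LE) : Prop := ∀ e, e + 1 < L.length → ln L e ≠ ln L (e + 1)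

theorem Cl.unique {k : ℕ} {L : List LE} (hch : Chain L) {t i e e' : ℕ} {s s' : Bool} {a a' : ℤ}
    (h : Cl k L t i e s a) (h' : Cl k L t i e' s' a') : e = e' ∧ s = s' ∧ a = a' := by
  obtain ⟨he, ht, h⟩ := h
  obtain ⟨he', ht', h'⟩ := h'
  have hee : e = e' := by
    by_contra hne
    have hlab : ln L e = ln L e' := by
      rcases h with h | h <;> rcases h' with h' | h' <;> omega
    rcases (by omega : e' = e + 1 ∨ e = e' + 1) with h1 | h1
    · subst h1; exact hch e he' hlab
    · subst h1; exact hch e' he hlab.symm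
  subst hee
  rcases h with h | h <;> rcases h' with h' | h'
  · exact ⟨rfl, h.2.1.trans h'.2.1.symm, h.2.2.trans h'.2.2.symm⟩
  · omega
  · omega
  · exact ⟨rfl, h.2.1.trans h'.2.1.symm, h.2.2.trans h'.2.2.symm⟩

/-- The slope of a client edge. -/
theorem Cl.slope {k : ℕ} {L : List LE} {t i e : ℕ} {s : Bool} {a : ℤ}
    (h : Cl k L t i e s a) : (k : ℤ) ∣ a - 6 * ln L e ∧ i = 6 * ln L e ∧ s = side t ∨
      (k : ℤ) ∣ a - (6 * ln L e + 2) ∧ i = 6 * ln L e + 3 ∧ s = !side t := by
  obtain ⟨he, ht, ⟨h1, h2, h3⟩ | ⟨h1, h2, h3⟩⟩ := h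
  · left
    refine ⟨?_, h1, h2⟩
    have : a - 6 * (ln L e : ℤ) = k * (6 * ln L e + t + 1) := by
      rw [h3, RR, h1]; push_cast; ring
    rw [this]
    exact dvd_mul_right _ _
  · right
    refine ⟨?_, h1, h2⟩
    have : a - (6 * (ln L e : ℤ) + 2) = k * (6 * ln L e + 3 + t + 1) := by
      rw [h3, RR, h1]; push_cast; ring
    rw [this]
    exact dvd_mul_right _ _

/-- The structural equations; `H` gives the positions of the hubs. -/
structure Eqs (k : ℕ) (L : List LE) (r : ℤ → ℝ × ℝ) (H : ℕ → ℝ × ℝ) (p : Vx → ℝ × ℝ) : Prop where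
  hub : ∀ h, p (.hub h) = H h
  star : ∀ t i, i < k → cr (r (RR k t i)) (p (.star t (nx k i)) - p (.star t i)) = 0
  cl : ∀ t i e s a, Cl k L t i e s a → cr (r a) (p (.part t i) - p (.gad e s)) = 0
  main : ∀ e s, e < L.length →
    cr (r (6 * ln L e + 1)) (p (.gad e s) - p (.hub (lab L e).1)) = 0

/-- The directions in which the configuration can be moved. -/
def Dirs (k : ℕ) (L : List LE) (r : ℤ → ℝ × ℝ) : Submodule ℝ (Vx → ℝ × ℝ) where
  carrier := {δ | Eqs k L r (fun _ => 0) δ}
  zero_mem' := ⟨fun _ => rfl, fun _ _ _ => by simp [cr_zero_right],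
    fun _ _ _ _ _ _ => by simp [cr_zero_right], fun _ _ _ => by simp [cr_zero_right]⟩
  add_mem' := by
    rintro a b ha hb
    refine ⟨fun h => ?_, fun t i hi => ?_, fun t i e s a' h => ?_, fun e s he => ?_⟩
    · rw [Pi.add_apply, ha.hub, hb.hub, add_zero]
    · have h1 := ha.star t i hi
      have h2 := hb.star t i hi
      have : (a + b) (.star t (nx k i)) - (a + b) (.star t i) =
        (a (.star t (nx k i)) - a (.star t i)) + (b (.star t (nx k i)) - b (.star t i)) := by
        simp only [Pi.add_apply]; abel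
      rw [this, cr_add_right, h1, h2, add_zero]
    · have h1 := ha.cl t i e s a' h
      have h2 := hb.cl t i e s a' h
      have : (a + b) (.part t i) - (a + b) (.gad e s) =
        (a (.part t i) - a (.gad e s)) + (b (.part t i) - b (.gad e s)) := by
        simp only [Pi.add_apply]; abel
      rw [this, cr_add_right, h1, h2, add_zero]
    · have h1 := ha.main e s he
      have h2 := hb.main e s he
      have : (a + b) (.gad e s) - (a + b) (.hub (lab L e).1) =
        (a (.gad e s) - a (.hub (lab L e).1)) + (b (.gad e s) - b (.hub (lab L e).1)) := by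
        simp only [Pi.add_apply]; abel
      rw [this, cr_add_right, h1, h2, add_zero]
  smul_mem' := by
    rintro c a ha
    refine ⟨fun h => ?_, fun t i hi => ?_, fun t i e s a' h => ?_, fun e s he => ?_⟩
    · rw [Pi.smul_apply, ha.hub, smul_zero]
    · rw [Pi.smul_apply, Pi.smul_apply, ← smul_sub, cr_smul_right, ha.star t i hi, mul_zero]
    · rw [Pi.smul_apply, Pi.smul_apply, ← smul_sub, cr_smul_right, ha.cl t i e s a' h, mul_zero]
    · rw [Pi.smul_apply, Pi.smul_apply, ← smul_sub, cr_smul_right, ha.main e s he, mul_zero]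

theorem mem_Dirs {k : ℕ} {L : List LE} {r : ℤ → ℝ × ℝ} {δ : Vx → ℝ × ℝ} :
    δ ∈ Dirs k L r ↔ Eqs k L r (fun _ => 0) δ := Iff.rfl

theorem Eqs.of_sub {k : ℕ} {L : List LE} {r : ℤ → ℝ × ℝ} {H : ℕ → ℝ × ℝ} {p p₀ : Vx → ℝ × ℝ}
    (h₀ : Eqs k L r H p₀) (h : p - p₀ ∈ Dirs k L r) : Eqs k L r H p := by
  have h := mem_Dirs.1 h
  refine ⟨fun x => ?_, fun t i hi => ?_, fun t i e s a' hc => ?_, fun e s he => ?_⟩
  · have := h.hub x
    rw [Pi.sub_apply, sub_eq_zero] at this
    rw [this, h₀.hub]
  · have h1 := h.star t i hi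
    have h2 := h₀.star t i hi
    have : p (.star t (nx k i)) - p (.star t i) =
      ((p - p₀) (.star t (nx k i)) - (p - p₀) (.star t i)) +
        (p₀ (.star t (nx k i)) - p₀ (.star t i)) := by
      simp only [Pi.sub_apply]; abel
    rw [this, cr_add_right, h1, h2, add_zero]
  · have h1 := h.cl t i e s a' hc
    have h2 := h₀.cl t i e s a' hc
    have : p (.part t i) - p (.gad e s) =
      ((p - p₀) (.part t i) - (p - p₀) (.gad e s)) + (p₀ (.part t i) - p₀ (.gad e s)) := by
      simp only [Pi.sub_apply]; abel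
    rw [this, cr_add_right, h1, h2, add_zero]
  · have h1 := h.main e s he
    have h2 := h₀.main e s he
    have : p (.gad e s) - p (.hub (lab L e).1) =
      ((p - p₀) (.gad e s) - (p - p₀) (.hub (lab L e).1)) +
        (p₀ (.gad e s) - p₀ (.hub (lab L e).1)) := by
      simp only [Pi.sub_apply]; abel
    rw [this, cr_add_right, h1, h2, add_zero]

section moves

variable {k : ℕ} {L : List LE} {r : ℤ → ℝ × ℝ}

/-- Moving a part that is not attached to a gadget. -/
theorem move_dummy {t i : ℕ} (hi : ∀ e s a, ¬ Cl k L t i e s a) (v : ℝ × ℝ) :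
    (fun z => if z = Vx.part t i then v else 0) ∈ Dirs k L r := by
  refine ⟨fun h => by simp, fun t' i' hi' => by simp [cr_zero_right],
    fun t' i' e s a hc => ?_, fun e s he => by simp [cr_zero_right]⟩
  by_cases h : t' = t ∧ i' = i
  · obtain ⟨rfl, rfl⟩ := h
    exact absurd hc (hi e s a)
  · have : Vx.part t' i' ≠ Vx.part t i := by simpa using h
    simp [this, cr_zero_right]

/-- Moving a client along its edge. -/
theorem move_client (hch : Chain L) {t i e : ℕ} {s : Bool} {a : ℤ} (hc : Cl k L t i e s a) :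
    (fun z => if z = Vx.part t i then r a else 0) ∈ Dirs k L r := by
  refine ⟨fun h => by simp, fun t' i' hi' => by simp [cr_zero_right],
    fun t' i' e' s' a' hc' => ?_, fun e s he => by simp [cr_zero_right]⟩
  by_cases h : t' = t ∧ i' = i
  · obtain ⟨rfl, rfl⟩ := h
    obtain ⟨rfl, rfl, rfl⟩ := hc.unique hch hc'
    simp [cr_self]
  · have : Vx.part t' i' ≠ Vx.part t i := by simpa using h
    simp [this, cr_zero_right]

/-- The move of a gadget vertex together with its clients. -/
noncomputable def moveGad (k : ℕ) (L : List LE) (r : ℤ → ℝ × ℝ) (e : ℕ) (s : Bool) :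
    Vx → ℝ × ℝ := fun z => by
  classical
  exact match z with
  | .gad e' s' => if e' = e ∧ s' = s then r (6 * ln L e + 1) else 0
  | .part t i => if ∃ a, Cl k L t i e s a then r (6 * ln L e + 1) else 0
  | _ => 0

theorem move_gad (hch : Chain L) {e : ℕ} {s : Bool} :
    moveGad k L r e s ∈ Dirs k L r := by
  refine ⟨fun h => by simp [moveGad], fun t' i' hi' => by simp [moveGad, cr_zero_right],
    fun t' i' e' s' a' hc' => ?_, fun e' s' he => ?_⟩
  · simp only [moveGad]
    by_cases h : e' = e ∧ s' = s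
    · obtain ⟨rfl, rfl⟩ := h
      rw [if_pos ⟨a', hc'⟩, if_pos ⟨rfl, rfl⟩, sub_self, cr_zero_right]
    · rw [if_neg h, if_neg, sub_self, cr_zero_right]
      rintro ⟨a, ha⟩
      obtain ⟨h1, h2, _⟩ := ha.unique hch hc'
      exact h ⟨h1.symm, h2.symm⟩
  · simp only [moveGad]
    by_cases h : e' = e ∧ s' = s
    · obtain ⟨rfl, rfl⟩ := h
      rw [if_pos ⟨rfl, rfl⟩, sub_zero, cr_self]
    · rw [if_neg h, sub_zero, cr_zero_right]

/-- The move of a line of a star. -/
noncomputable def moveStar (k : ℕ) (r : ℤ → ℝ × ℝ) (t i : ℕ) : Vx → ℝ × ℝ := fun z =>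
  if z = .star t i then cr (r (RR k t i)) (r (RR k t i + 1)) • r (RR k t i - 1)
  else if z = .star t (nx k i) then
    cr (r (RR k t i)) (r (RR k t i - 1)) • r (RR k t i + 1) else 0

theorem move_star (hr : Rays k r) (hk : Odd k) (hk3 : 3 ≤ k) {t i : ℕ} (hi : i < k) :
    moveStar k r t i ∈ Dirs k L r := by
  have hnx : nx k i ≠ i := nx_ne (by omega) hi
  refine ⟨fun h => by simp [moveStar], fun t' i' hi' => ?_,
    fun t' i' e' s' a' hc' => by simp [moveStar, cr_zero_right],
    fun e' s' he => by simp [moveStar, cr_zero_right]⟩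
  by_cases ht : t' = t
  swap
  · simp [moveStar, ht, cr_zero_right]
  subst ht
  by_cases h1 : i' = i
  · subst h1
    have e1 : moveStar k r t' i' (.star t' (nx k i')) =
      cr (r (RR k t' i')) (r (RR k t' i' - 1)) • r (RR k t' i' + 1) := by
      simp [moveStar, hnx]
    have e2 : moveStar k r t' i' (.star t' i') =
      cr (r (RR k t' i')) (r (RR k t' i' + 1)) • r (RR k t' i' - 1) := by
      simp [moveStar]
    rw [e1, e2, cr_sub_right, cr_smul_right, cr_smul_right]
    ring
  by_cases h2 : nx k i' = i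
  · -- the previous edge
    have h3 : i' ≠ nx k i := by
      intro h
      rw [h] at h2
      exact nx_nx_ne hk3 hi h2
    have e1 : moveStar k r t' i (.star t' (nx k i')) =
      cr (r (RR k t' i)) (r (RR k t' i + 1)) • r (RR k t' i - 1) := by
      simp [moveStar, h2]
    have e2 : moveStar k r t' i (.star t' i') = 0 := by
      simp [moveStar, h1, h3]
    rw [e1, e2, sub_zero, cr_smul_right]
    have h4 := RR_nx (t := t') hk hi'
    rw [h2] at h4
    have h5 : cr (r (RR k t' i')) (r (RR k t' i - 1)) = 0 := by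
      refine hr.cr_of_dvd ?_
      have : RR k t' i - 1 - RR k t' i' = (RR k t' i - (RR k t' i' + k + 1)) + k := by ring
      rw [this]
      exact dvd_add (dvd_k_of_dvd_two_k h4) (dvd_refl _)
    rw [h5, mul_zero]
  by_cases h3 : i' = nx k i
  · -- the next edge
    have h4 : nx k i' ≠ i := h2
    have h5 : nx k i' ≠ nx k i := fun h => h1 (nx_inj hi' hi h)
    have e1 : moveStar k r t' i (.star t' (nx k i')) = 0 := by
      simp [moveStar, h4, h5]
    have e2 : moveStar k r t' i (.star t' i') =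
      cr (r (RR k t' i)) (r (RR k t' i - 1)) • r (RR k t' i + 1) := by
      simp [moveStar, h3, hnx]
    rw [e1, e2, zero_sub, cr_neg_right, cr_smul_right]
    have h6 := RR_nx (t := t') hk hi
    rw [← h3] at h6
    have h7 : cr (r (RR k t' i')) (r (RR k t' i + 1)) = 0 := by
      refine hr.cr_of_dvd ?_
      have : RR k t' i + 1 - RR k t' i' = -(RR k t' i' - (RR k t' i + k + 1)) - k := by ring
      rw [this]
      exact dvd_sub ((dvd_neg).2 (dvd_k_of_dvd_two_k h6)) (dvd_refl _)
    rw [h7, mul_zero, neg_zero]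
  · have h5 : nx k i' ≠ nx k i := fun h => h1 (nx_inj hi' hi h)
    have e1 : moveStar k r t' i (.star t' (nx k i')) = 0 := by
      simp [moveStar, h2, h5]
    have e2 : moveStar k r t' i (.star t' i') = 0 := by
      simp [moveStar, h1, h3]
    rw [e1, e2, sub_zero, cr_zero_right]

end moves

end Pool.Agent.Slope
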