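import Mathlib

set_option autoImplicit false

/-!
# The slope number of a graph and the existential theory of the reals: definitions
-/

namespace Pool.Agent.Slope

/-! ### Drawings and the slope number -/

/-- The slope of the line through `p` and `q`; it is `⊤` (infinite) for vertical lines. -/
noncomputable def slope (p q : ℝ × ℝ) : WithTop ℝ :=
  if p.1 = q.1 then ⊤ else (((q.2 - p.2) / (q.1 - p.1) : ℝ) : WithTop ℝ)

/-- `p` is a straight-line drawing of `G`: the vertices are mapped injectively to points of the
plane, and no vertex lies in the relative interior of an edge. Edges may cross. -/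
structure IsDrawing {V : Type} (G : SimpleGraph V) (p : V → ℝ × ℝ) : Prop where
  inj : Function.Injective p
  avoid : ∀ u v w : V, G.Adj u v → p w ∉ openSegment ℝ (p u) (p v)

/-- The set of slopes of the edges in the drawing `p`. -/
def slopes {V : Type} (G : SimpleGraph V) (p : V → ℝ × ℝ) : Set (WithTop ℝ) :=
  {s | ∃ u v : V, G.Adj u v ∧ slope (p u) (p v) = s}

/-- The slope number of `G`: the minimum over all straight-line drawings of the number of
distinct slopes of the edges. -/
noncomputable def slopeNumber {V : Type} (G : SimpleGraph V) : ℕ :=
  sInf {m | ∃ p : V → ℝ × ℝ, IsDrawing G p ∧ (slopes G p).ncard = m}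

/-! ### The decision problem SLOPE NUMBER -/

/-- An input: the number `n` of vertices (which are `0, ..., n - 1`), a list of edges, and the
integer `k`. -/
structure Inst where
  n : ℕ
  edges : List (ℕ × ℕ)
  k : ℕ

/-- The graph of an input: `u` and `v` are adjacent iff `u ≠ v` and the list of edges contains
`(u, v)` or `(v, u)`. -/
def Inst.graph (I : Inst) : SimpleGraph (Fin I.n) :=
  SimpleGraph.fromRel fun u v => ((u : ℕ), (v : ℕ)) ∈ I.edges

/-- The question: is the slope number at most `k`? -/
def SlopeProblem (I : Inst) : Prop := slopeNumber I.graph ≤ I.k

/-- Unary code of a natural number. -/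
def unary (n : ℕ) : List Bool := List.replicate n true ++ [false]

/-- Self-delimiting binary code of a natural number (every binary digit is preceded by `true`, the
end is marked by `false`). -/
def binary (n : ℕ) : List Bool := (Nat.bits n).flatMap (fun b => [true, b]) ++ [false]

/-- The input as a word over the binary alphabet; `k` is written in binary. -/
def encInst (I : Inst) : List Bool :=
  unary I.n ++ binary I.k ++ I.edges.flatMap fun e => unary e.1 ++ unary e.2

/-! ### The existential theory of the reals -/

/-- Polynomials with integer coefficients in the variables `x 0, x 1, ...`, as terms. -/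
inductive Tm
  | var (i : ℕ)
  | int (z : ℤ)
  | add (s t : Tm)
  | mul (s t : Tm)

/-- The value of a polynomial. -/
def Tm.val (x : ℕ → ℝ) : Tm → ℝ
  | .var i => x i
  | .int z => z
  | .add s t => s.val x + t.val x
  | .mul s t => s.val x * t.val x

/-- Quantifier-free formulas: Boolean combinations of polynomial equations and inequalities. -/
inductive Fm
  | eq (s t : Tm)
  | lt (s t : Tm)
  | not (p : Fm)
  | and (p q : Fm)
  | or (p q : Fm)

/-- Truth of a quantifier-free formula at a point. -/
def Fm.holds (x : ℕ → ℝ) : Fm → Prop
  | .eq s t => s.val x = t.val x
  | .lt s t => s.val x < t.val x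
  | .not p => ¬ p.holds x
  | .and p q => p.holds x ∧ q.holds x
  | .or p q => p.holds x ∨ q.holds x

/-- The existential closure of the formula is a true sentence. -/
def ETR (p : Fm) : Prop := ∃ x : ℕ → ℝ, p.holds x

/-- Polynomials as words (Polish notation; coefficients in binary). -/
def Tm.enc : Tm → List Bool
  | .var i => [false, false, false] ++ unary i
  | .int z => [false, false, true] ++ decide (z < 0) :: binary z.natAbs
  | .add s t => [false, true, false] ++ s.enc ++ t.enc
  | .mul s t => [false, true, true] ++ s.enc ++ t.enc

/-- Formulas as words (Polish notation). -/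
def Fm.enc : Fm → List Bool
  | .eq s t => [true, false, false] ++ s.enc ++ t.enc
  | .lt s t => [true, false, true] ++ s.enc ++ t.enc
  | .not p => [true, true, false, false] ++ p.enc
  | .and p q => [true, true, false, true] ++ p.enc ++ q.enc
  | .or p q => [true, true, true] ++ p.enc ++ q.enc

/-! ### Reductions -/

/-- The decision problem `P` (with instances of type `α` written as words over `A` by `ea`)
reduces to the decision problem `Q` (with instances of type `β` written as words over `B` by `eb`)
by a polynomial-time many-one reduction. -/
def Reduces {α β A B : Type} (ea : α → List A) (P : α → Prop) (eb : β → List B) (Q : β → Prop) :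
    Prop :=
  ∃ f : α → β, Nonempty (Turing.TM2ComputableInPolyTime ea eb f) ∧ ∀ x, P x ↔ Q (f x)

/-- The class `∃ℝ`: the decision problems that reduce in polynomial time to the existential theory
of the reals. -/
def InER {α A : Type} (ea : α → List A) (P : α → Prop) : Prop := Reduces ea P Fm.enc ETR

/-- `∃ℝ`-hardness under polynomial-time many-one reductions. -/
def ERHard {β B : Type} (eb : β → List B) (Q : β → Prop) : Prop :=
  ∀ (α A : Type) (ea : α → List A) (P : α → Prop), InER ea P → Reduces ea P eb Q

/-- `∃ℝ`-completeness under polynomial-time many-one reductions. -/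
def ERComplete {β B : Type} (eb : β → List B) (Q : β → Prop) : Prop := InER eb Q ∧ ERHard eb Q

end Pool.Agent.Slope
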