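import Pool.Agent.Slope.Config

set_option autoImplicit false

/-!
# The list of labelled edges: labels are small, consecutive labels differ, no repetitions
-/

namespace Pool.Agent.Slope

theorem compEdges_wf {n b : ℕ} {c : Cn} (hc : Cn.WF n c) :
    (∀ x ∈ compEdges n b c, x.2.2 < 2 * n + 2) ∧ (∀ x ∈ compEdges n b c, x.1 / 8 = b) ∧
    (compEdges n b c).Nodup ∧ (compEdges n b c).IsChain (fun x y => x.2.2 ≠ y.2.2) ∧
    (∀ x ∈ (compEdges n b c).head?, x.2.2 ≠ 0) ∧ (∀ x ∈ (compEdges n b c).getLast?, x.2.2 = 0) ∧
    compEdges n b c ≠ [] := by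
  unfold compEdges
  unfold Cn.WF at hc
  split_ifs at hc ⊢ with h0 h1
  · refine ⟨?_, ?_, ?_, ?_, ?_, ?_, ?_⟩
    · intro x hx
      simp only [List.mem_cons, List.not_mem_nil, or_false] at hx
      rcases hx with rfl | rfl | rfl | rfl | rfl | rfl | rfl | rfl <;> simp only <;> omega
    · intro x hx
      simp only [List.mem_cons, List.not_mem_nil, or_false] at hx
      rcases hx with rfl | rfl | rfl | rfl | rfl | rfl | rfl | rfl <;> simp only <;> omega
    · simp only [List.nodup_cons, List.mem_cons, List.not_mem_nil, or_false, Prod.mk.injEq,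
        not_or, not_and, not_false_eq_true, List.nodup_nil, and_true]
      refine ⟨?_, ?_, ?_, ?_, ?_, ?_, ?_⟩ <;> omega
    · simp only [List.isChain_cons_cons, List.isChain_singleton, and_true]
      omega
    · intro x hx
      simp only [List.head?_cons, Option.mem_def, Option.some.injEq] at hx
      subst hx
      simp
    · intro x hx
      simp only [List.getLast?_cons_cons, List.getLast?_singleton, Option.mem_def,
        Option.some.injEq] at hx
      subst hx
      rfl
    · simp
  · refine ⟨?_, ?_, ?_, ?_, ?_, ?_, ?_⟩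
    · intro x hx
      simp only [List.mem_cons, List.not_mem_nil, or_false] at hx
      rcases hx with rfl | rfl | rfl | rfl | rfl | rfl | rfl | rfl | rfl | rfl | rfl | rfl | rfl |
        rfl <;> simp only <;> omega
    · intro x hx
      simp only [List.mem_cons, List.not_mem_nil, or_false] at hx
      rcases hx with rfl | rfl | rfl | rfl | rfl | rfl | rfl | rfl | rfl | rfl | rfl | rfl | rfl |
        rfl <;> simp only <;> omega
    · simp only [List.nodup_cons, List.mem_cons, List.not_mem_nil, or_false, Prod.mk.injEq,
        not_or, not_and, not_false_eq_true, List.nodup_nil, and_true]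
      refine ⟨?_, ?_, ?_, ?_, ?_, ?_, ?_, ?_, ?_, ?_, ?_, ?_, ?_⟩ <;> omega
    · simp only [List.isChain_cons_cons, List.isChain_singleton, and_true]
      omega
    · intro x hx
      simp only [List.head?_cons, Option.mem_def, Option.some.injEq] at hx
      subst hx
      simp
    · intro x hx
      simp only [List.getLast?_cons_cons, List.getLast?_singleton, Option.mem_def,
        Option.some.injEq] at hx
      subst hx
      rfl
    · simp
  · refine ⟨?_, ?_, ?_, ?_, ?_, ?_, ?_⟩
    · intro x hx
      simp only [List.mem_cons, List.not_mem_nil, or_false] at hx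
      rcases hx with rfl | rfl | rfl | rfl | rfl | rfl | rfl | rfl | rfl | rfl | rfl |
        rfl <;> simp only <;> omega
    · intro x hx
      simp only [List.mem_cons, List.not_mem_nil, or_false] at hx
      rcases hx with rfl | rfl | rfl | rfl | rfl | rfl | rfl | rfl | rfl | rfl | rfl |
        rfl <;> simp only <;> omega
    · simp only [List.nodup_cons, List.mem_cons, List.not_mem_nil, or_false, Prod.mk.injEq,
        not_or, not_and, not_false_eq_true, List.nodup_nil, and_true]
      refine ⟨?_, ?_, ?_, ?_, ?_, ?_, ?_, ?_, ?_, ?_, ?_⟩ <;> omega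
    · simp only [List.isChain_cons_cons, List.isChain_singleton, and_true]
      omega
    · intro x hx
      simp only [List.head?_cons, Option.mem_def, Option.some.injEq] at hx
      subst hx
      simp
    · intro x hx
      simp only [List.getLast?_cons_cons, List.getLast?_singleton, Option.mem_def,
        Option.some.injEq] at hx
      subst hx
      rfl
    · simp

theorem getD_wf {n : ℕ} {cs : List Cn} (hwf : ∀ c ∈ cs, Cn.WF n c) {b : ℕ} (hb : b < cs.length) :
    Cn.WF n (cs.getD b (0, 0, 0)) := by
  have : cs.getD b (0, 0, 0) = cs[b] := by simp [hb]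
  rw [this]
  exact hwf _ (List.getElem_mem hb)

theorem hubEdges_lt (n : ℕ) (cs : List Cn) (hwf : ∀ c ∈ cs, Cn.WF n c) :
    ∀ x ∈ hubEdges n cs, x.2.2 < 2 * n + 2 := by
  intro x hx
  rw [hubEdges, List.mem_flatMap] at hx
  obtain ⟨b, hb, hx⟩ := hx
  rw [List.mem_range] at hb
  exact (compEdges_wf (getD_wf hwf hb)).1 x hx

theorem hubEdges_nodup (n : ℕ) (cs : List Cn) (hwf : ∀ c ∈ cs, Cn.WF n c) :
    (hubEdges n cs).Nodup := by
  rw [hubEdges, List.nodup_flatMap]
  refine ⟨fun b hb => ?_, ?_⟩
  · rw [List.mem_range] at hb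
    exact (compEdges_wf (getD_wf hwf hb)).2.2.1
  · refine List.Pairwise.imp_of_mem (R := fun a b : ℕ => a ≠ b) ?_ List.nodup_range
    intro a b ha hb hab
    rw [List.mem_range] at ha hb
    rw [Function.onFun, List.disjoint_left]
    intro x hx hx'
    have h1 := (compEdges_wf (getD_wf hwf ha)).2.1 x hx
    have h2 := (compEdges_wf (getD_wf hwf hb)).2.1 x hx'
    exact hab (h1.symm.trans h2)

theorem hubEdges_chain (n : ℕ) (cs : List Cn) (hwf : ∀ c ∈ cs, Cn.WF n c) :
    Chain (hubEdges n cs) := by
  have h : (hubEdges n cs).IsChain (fun x y => x.2.2 ≠ y.2.2) := by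
    rw [hubEdges, List.flatMap_def, List.isChain_flatten]
    · refine ⟨?_, ?_⟩
      · intro l hl
        rw [List.mem_map] at hl
        obtain ⟨b, hb, rfl⟩ := hl
        rw [List.mem_range] at hb
        exact (compEdges_wf (getD_wf hwf hb)).2.2.2.1
      · rw [List.isChain_map, List.isChain_range]
        intro m hm x hx y hy
        have h1 := (compEdges_wf (b := m) (getD_wf hwf (by omega : m < cs.length))).2.2.2.2.2.1 x hx
        have h2 := (compEdges_wf (b := m.succ)
          (getD_wf hwf (by omega : m.succ < cs.length))).2.2.2.2.1 y hy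
        rw [h1]
        exact h2.symm
    · intro h
      rw [List.mem_map] at h
      obtain ⟨b, hb, h⟩ := h
      rw [List.mem_range] at hb
      exact (compEdges_wf (getD_wf hwf hb)).2.2.2.2.2.2 h
  rw [List.isChain_iff_getElem] at h
  intro e he
  have h1 := h e he
  have e1 : lab (hubEdges n cs) e = (hubEdges n cs)[e] := by
    simp [lab, (by omega : e < (hubEdges n cs).length)]
  have e2 : lab (hubEdges n cs) (e + 1) = (hubEdges n cs)[e + 1] := by simp [lab, he]
  rw [ln, ln, e1, e2]
  exact h1

end Pool.Agent.Slope
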