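import Pool.Agent.Slope.LayoutA

set_option autoImplicit false

/-! Layout of the addition and multiplication gadgets: no hub lies in the interior of an edge. -/

namespace Pool.Agent.Slope

lemma lay_seg_cr {P Q R : ℝ × ℝ} (h : R ∈ openSegment ℝ P Q) :
    ∃ β : ℝ, 0 < β ∧ 0 < 1 - β ∧ R.1 = (1 - β) * P.1 + β * Q.1 ∧ R.2 = (1 - β) * P.2 + β * Q.2 ∧
      (R.1 - P.1) * (Q.2 - P.2) = (R.2 - P.2) * (Q.1 - P.1) := by
  obtain ⟨α, β, h1, h2, h3, h4, h5⟩ := lay_seg h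
  obtain rfl : α = 1 - β := by linarith
  exact ⟨β, h2, h1, h4, h5, by rw [h4, h5]; ring⟩

lemma lay_av_add (a1 a2 a3 u1 u2 : ℝ) (h3 : 0 < a3) (h32 : a3 < a2) (h21 : a2 < a1) (hu1 : 1 < u1)
    (hu2 : 1 < u2) (hm1 : u1 * a2 < a1) (hm2 : u2 * a3 < a2) (P : ℕ → ℝ × ℝ)
    (P0 : P 0 = (0, 0)) (P1 : P 1 = (a1, 1)) (P2 : P 2 = (a1, u1)) (P3 : P 3 = (a2, 1))
    (P4 : P 4 = (a2, u2)) (P5 : P 5 = (a3, 1)) (P6 : P 6 = (a3, u1 + u2))
    (P7 : P 7 = (a1 + a2, u1 + u2)) (e : ℕ × ℕ)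
    (he : e ∈ [((0 : ℕ), (1 : ℕ)), (0, 2), (0, 3), (0, 4), (0, 5), (0, 6), (1, 2), (5, 3), (3, 4),
      (3, 1), (5, 6), (2, 7), (4, 7), (6, 7)]) (h : ℕ)
    (hh : h ∈ [0, 1, 2, 3, 4, 5, 6, 7]) : P h ∉ openSegment ℝ (P e.1) (P e.2) := by
  intro hm
  obtain ⟨β, hβ, hα, h1, h2, hc⟩ := lay_seg_cr hm
  have h2' : 0 < a2 := h3.trans h32
  have h1' : 0 < a1 := h2'.trans h21
  have k1 : a1 < a1 * u1 := by nlinarith
  have k2 : a2 < a2 * u2 := by nlinarith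
  have k3 : a1 < a1 * u2 := by nlinarith
  have k4 : u1 * a3 < u1 * a2 := by nlinarith
  have k5 : a3 < a3 * u1 := by nlinarith
  have k6 : a3 < a3 * u2 := by nlinarith
  have k7 : a2 < a2 * u1 := by nlinarith
  have e1 := mul_pos hβ h1'
  have e2 := mul_pos hβ h2'
  have e3 := mul_pos hβ h3
  have e4 := mul_pos hβ (lt_trans one_pos hu1)
  have e5 := mul_pos hβ (lt_trans one_pos hu2)
  have f1 := mul_pos hα h1'
  have f2 := mul_pos hα h2'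
  have f3 := mul_pos hα h3
  have f4 := mul_pos hα (lt_trans one_pos hu1)
  have f5 := mul_pos hα (lt_trans one_pos hu2)
  have g1 := mul_pos hβ (sub_pos.2 h32)
  have g2 := mul_pos hβ (sub_pos.2 h21)
  have g3 := mul_pos hα (sub_pos.2 h32)
  have g4 := mul_pos hα (sub_pos.2 h21)
  have g5 := mul_pos hβ (sub_pos.2 hu1)
  have g6 := mul_pos hβ (sub_pos.2 hu2)
  have g7 := mul_pos hα (sub_pos.2 hu1)
  have g8 := mul_pos hα (sub_pos.2 hu2)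
  clear hm
  simp only [List.mem_cons, List.not_mem_nil, or_false] at he hh
  rcases he with rfl | rfl | rfl | rfl | rfl | rfl | rfl | rfl | rfl | rfl | rfl | rfl | rfl | rfl <;>
  rcases hh with rfl | rfl | rfl | rfl | rfl | rfl | rfl | rfl <;>
  simp only [P0, P1, P2, P3, P4, P5, P6, P7] at h1 h2 hc <;>
  clear P0 P1 P2 P3 P4 P5 P6 P7 <;>
  ring_nf at h1 h2 hc e1 e2 e3 e4 e5 f1 f2 f3 f4 f5 g1 g2 g3 g4 g5 g6 g7 g8 k1 k2 k3 k4 k5 k6 k7 hm1 hm2 <;>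
  linarith

lemma lay_av_mul (a1 c2 a3 u1 u2 : ℝ) (h3 : 0 < a3) (h32 : a3 < c2) (h21 : c2 < a1) (hu1 : 1 < u1)
    (hu2 : 1 < u2) (hm2 : u2 * a3 * u1 < c2) (P : ℕ → ℝ × ℝ)
    (P0 : P 0 = (0, 0)) (P1 : P 1 = (a1, 1)) (P2 : P 2 = (a1, u1)) (P3 : P 3 = (c2, u1))
    (P4 : P 4 = (c2, u1 * u2)) (P5 : P 5 = (a3, 1)) (P6 : P 6 = (a3, u1 * u2)) (e : ℕ × ℕ)
    (he : e ∈ [((0 : ℕ), (1 : ℕ)), (0, 2), (0, 3), (0, 4), (0, 5), (0, 6), (1, 2), (5, 1), (3, 4),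
      (3, 2), (5, 6), (6, 4)]) (h : ℕ)
    (hh : h ∈ [0, 1, 2, 3, 4, 5, 6]) : P h ∉ openSegment ℝ (P e.1) (P e.2) := by
  intro hm
  obtain ⟨β, hβ, hα, h1, h2, hc⟩ := lay_seg_cr hm
  have h2' : 0 < c2 := h3.trans h32
  have h1' : 0 < a1 := h2'.trans h21
  have hu : u1 < u1 * u2 := by nlinarith
  have k1 : a1 < a1 * u1 := by nlinarith
  have k2 : c2 < c2 * u2 := by nlinarith
  have k3 : a1 < a1 * u2 := by nlinarith
  have k4 : u1 * a3 < u1 * c2 := by nlinarith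
  have k5 : a3 < a3 * u1 := by nlinarith
  have k6 : a3 < a3 * u2 := by nlinarith
  have k7 : c2 < c2 * u1 := by nlinarith
  clear hm
  simp only [List.mem_cons, List.not_mem_nil, or_false] at he hh
  rcases he with rfl | rfl | rfl | rfl | rfl | rfl | rfl | rfl | rfl | rfl | rfl | rfl <;>
  rcases hh with rfl | rfl | rfl | rfl | rfl | rfl | rfl <;>
  simp only [P0, P1, P2, P3, P4, P5, P6] at h1 h2 hc <;>
  clear P0 P1 P2 P3 P4 P5 P6 <;>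
  first
    | linarith
    | nlinarith [mul_pos hβ h1', mul_pos hβ h2', mul_pos hβ h3, mul_pos hα h1', mul_pos hα h2',
        mul_pos hα h3, mul_pos hβ (sub_pos.2 h32), mul_pos hβ (sub_pos.2 h21),
        mul_pos hα (sub_pos.2 h32), mul_pos hα (sub_pos.2 h21), mul_pos hβ (sub_pos.2 hu1),
        mul_pos hα (sub_pos.2 hu1), mul_pos hβ (sub_pos.2 hu), mul_pos hα (sub_pos.2 hu)]

end Pool.Agent.Slope
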