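import Pool.Agent.Slope.Spec
import Pool.Agent.Slope.LayoutB

set_option autoImplicit false
set_option linter.unusedSimpArgs false

/-! Strong realization of the labelled hub graph from a solution of the constraints. -/

namespace Pool.Agent.Slope

/-! ### Slopes -/

/-- The slopes of the labels in arithmetic coordinates. -/
noncomputable def layT (q y : ℕ → ℝ) (a : ℕ) : ℝ :=
  if a = 0 then 0 else if a % 2 = 1 then q ((a - 1) / 2) else y ((a - 2) / 2) * q ((a - 2) / 2)

/-- The slopes of the labels. -/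
noncomputable def layS (n : ℕ) (q y : ℕ → ℝ) (a : ℕ) : ℝ :=
  if a ≤ 2 * n then layT q y a / (1 + layT q y a) else (a : ℝ) - 2 * n

lemma layT_odd (q y : ℕ → ℝ) (v : ℕ) : layT q y (2 * v + 1) = q v := by
  rw [layT, if_neg (by omega), if_pos (by omega)]
  congr 1
  omega

lemma layT_even (q y : ℕ → ℝ) (v : ℕ) : layT q y (2 * v + 2) = y v * q v := by
  rw [layT, if_neg (by omega), if_neg (by omega)]
  have : (2 * v + 2 - 2) / 2 = v := by omega
  rw [this]

/-- the standing assumptions -/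
structure LayOK (q y : ℕ → ℝ) : Prop where
  y1 : ∀ i, 1 < y i
  q0 : ∀ i, 1 < q i
  mq : ∀ i, y i * q i < q (i + 1)

variable {q y : ℕ → ℝ}

lemma LayOK.qpos (h : LayOK q y) (i : ℕ) : 0 < q i := one_pos.trans (h.q0 i)

lemma LayOK.ypos (h : LayOK q y) (i : ℕ) : 0 < y i := one_pos.trans (h.y1 i)

lemma LayOK.lt_succ (h : LayOK q y) (i : ℕ) : q i < q (i + 1) := by
  have := h.mq i
  nlinarith [h.y1 i, h.qpos i]

lemma LayOK.strictMono (h : LayOK q y) : StrictMono q := strictMono_nat_of_lt_succ h.lt_succ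

lemma LayOK.mq' (h : LayOK q y) {i l : ℕ} (hil : i < l) : y i * q i < q l :=
  (h.mq i).trans_le (h.strictMono.monotone hil)

lemma layT_pos (h : LayOK q y) (a : ℕ) (ha : a ≠ 0) : 0 < layT q y a := by
  rw [layT, if_neg ha]
  split_ifs
  · exact h.qpos _
  · exact mul_pos (h.ypos _) (h.qpos _)

lemma layT_nonneg (h : LayOK q y) (a : ℕ) : 0 ≤ layT q y a := by
  rcases eq_or_ne a 0 with rfl | ha
  · simp [layT]
  · exact (layT_pos h a ha).le

lemma layT_lt (h : LayOK q y) (a : ℕ) : layT q y a < layT q y (a + 1) := by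
  rcases eq_or_ne a 0 with rfl | ha
  · have := layT_odd q y 0
    rw [show (2 * 0 + 1 : ℕ) = 0 + 1 from rfl] at this
    rw [this]
    simpa [layT] using h.qpos 0
  · rcases Nat.even_or_odd a with ⟨v, hv⟩ | ⟨v, hv⟩
    · obtain ⟨w, rfl⟩ : ∃ w, v = w + 1 := ⟨v - 1, by omega⟩
      have e1 : a = 2 * w + 2 := by omega
      have e2 : a + 1 = 2 * (w + 1) + 1 := by omega
      rw [e2, e1, layT_even, layT_odd]
      exact h.mq w
    · have e2 : a + 1 = 2 * v + 2 := by omega
      rw [e2, hv, layT_even, layT_odd]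
      nlinarith [h.y1 v, h.qpos v]

lemma lay_frac_lt {a b : ℝ} (ha : 0 ≤ a) (hab : a < b) : a / (1 + a) < b / (1 + b) := by
  rw [div_lt_div_iff₀ (by linarith) (by linarith)]
  nlinarith

lemma layS_strictMono (h : LayOK q y) (n : ℕ) : StrictMono (layS n q y) := by
  refine strictMono_nat_of_lt_succ fun a => ?_
  by_cases h1 : a + 1 ≤ 2 * n
  · rw [layS, layS, if_pos (by omega), if_pos h1]
    exact lay_frac_lt (layT_nonneg h a) (layT_lt h a)
  · by_cases h2 : a ≤ 2 * n
    · rw [layS, layS, if_pos h2, if_neg h1]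
      obtain rfl : a = 2 * n := by omega
      have h3 := layT_nonneg h (2 * n)
      push_cast
      rw [div_lt_iff₀ (by linarith)]
      linarith
    · rw [layS, layS, if_neg h2, if_neg h1]
      push_cast
      linarith

/-! ### Positions in arithmetic coordinates -/

/-- The index of the result variable. -/
def layL (c : Cn) : ℕ := if c.1 = 0 then c.2.2 else c.2.1 + 2

/-- The positions of the hubs in arithmetic coordinates. -/
noncomputable def layPos (q y : ℕ → ℝ) (c : Cn) (r : ℕ) : ℝ × ℝ :=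
  if r = 0 then (0, 0)
  else if r = 1 then (1 / q c.2.1, 1)
  else if r = 2 then (1 / q c.2.1, y c.2.1)
  else if r = 3 then
    (if c.1 = 1 then (1 / q (c.2.1 + 1), 1) else (y c.2.1 / q (c.2.1 + 1), y c.2.1))
  else if r = 4 then
    (if c.1 = 1 then (1 / q (c.2.1 + 1), y (c.2.1 + 1))
      else (y c.2.1 / q (c.2.1 + 1), y c.2.1 * y (c.2.1 + 1)))
  else if r = 5 then (1 / q (layL c), 1)
  else if r = 6 then (1 / q (layL c), y (layL c))
  else (1 / q c.2.1 + 1 / q (c.2.1 + 1), y c.2.1 + y (c.2.1 + 1))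

lemma layPos_bound (h : LayOK q y) {M : ℝ} (hM : ∀ i, y i < M) (c : Cn) (r : ℕ) :
    0 ≤ (layPos q y c r).1 ∧ 0 ≤ (layPos q y c r).2 ∧
      (layPos q y c r).1 + (layPos q y c r).2 < M * M + 3 * M + 3 := by
  have hM1 : 1 < M := (h.y1 0).trans (hM 0)
  have hq : ∀ i, 0 < 1 / q i := fun i => one_div_pos.2 (h.qpos i)
  have hq1 : ∀ i, 1 / q i < 1 := fun i => by
    rw [div_lt_one (h.qpos i)]
    exact h.q0 i
  have hy := h.ypos
  have hd : ∀ i j, 0 < y i / q j := fun i j => div_pos (hy i) (h.qpos j)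
  have hd1 : ∀ i j, y i / q j < M := fun i j => by
    rw [div_lt_iff₀ (h.qpos j)]
    nlinarith [h.q0 j, hM i]
  have hyy : ∀ i j, y i * y j < M * M := fun i j => mul_lt_mul'' (hM i) (hM j) (hy i).le (hy j).le
  have hyp : ∀ i j, 0 < y i * y j := fun i j => mul_pos (hy i) (hy j)
  have hMM : 0 < M * M := by positivity
  unfold layPos
  split_ifs <;> refine ⟨?_, ?_, ?_⟩ <;>
    simp only [] <;>
    first
      | linarith [hq c.2.1, hq (c.2.1 + 1), hq (layL c), hy c.2.1, hy (c.2.1 + 1), hy (layL c),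
          hd c.2.1 (c.2.1 + 1), hyp c.2.1 (c.2.1 + 1)]
      | linarith [hq1 c.2.1, hq1 (c.2.1 + 1), hq1 (layL c), hM c.2.1, hM (c.2.1 + 1), hM (layL c),
          hd1 c.2.1 (c.2.1 + 1), hyy c.2.1 (c.2.1 + 1)]

/-! ### The edges -/

lemma layS_zero (n : ℕ) : layS n q y 0 = 0 := by simp [layS, layT]

lemma layS_top (n : ℕ) : layS n q y (2 * n + 1) = 1 := by
  rw [layS, if_neg (by omega)]
  push_cast
  ring

lemma layS_odd {n v : ℕ} (hv : v < n) : layS n q y (2 * v + 1) = q v / (1 + q v) := by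
  rw [layS, if_pos (by omega), layT_odd]

lemma layS_even {n v : ℕ} (hv : v < n) :
    layS n q y (2 * v + 2) = y v * q v / (1 + y v * q v) := by
  rw [layS, if_pos (by omega), layT_even]

/-- the edge from `P` to `Q` has the label `a` -/
def LayEdge (n : ℕ) (q y : ℕ → ℝ) (P Q : ℝ × ℝ) (a : ℕ) : Prop :=
  ∃ C : ℝ, 0 < C ∧ ((Q.1 - P.1) + (Q.2 - P.2), Q.2 - P.2) = (C, C * layS n q y a)

lemma layEdge_zero (n : ℕ) {P Q : ℝ × ℝ} (h1 : P.1 < Q.1) (h2 : P.2 = Q.2) :
    LayEdge n q y P Q 0 :=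
  ⟨Q.1 - P.1, by linarith, by rw [layS_zero, h2]; simp⟩

lemma layEdge_top (n : ℕ) {P Q : ℝ × ℝ} (h1 : P.1 = Q.1) (h2 : P.2 < Q.2) :
    LayEdge n q y P Q (2 * n + 1) :=
  ⟨Q.2 - P.2, by linarith, by rw [layS_top, h1]; simp⟩

lemma layEdge_mid (n : ℕ) {P Q : ℝ × ℝ} {t : ℝ} {a : ℕ} (ht : 0 < t)
    (ha : layS n q y a = t / (1 + t)) (h1 : P.1 < Q.1) (h2 : Q.2 - P.2 = t * (Q.1 - P.1)) :
    LayEdge n q y P Q a := by
  refine ⟨(1 + t) * (Q.1 - P.1), mul_pos (by linarith) (by linarith), ?_⟩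
  rw [ha, h2]
  have : (1 + t) ≠ 0 := by linarith
  ext
  · simp only []
    ring
  · simp only []
    field_simp

lemma layEdge_odd (h : LayOK q y) {n v : ℕ} (hv : v < n) {P Q : ℝ × ℝ} (h1 : P.1 < Q.1)
    (h2 : Q.2 - P.2 = q v * (Q.1 - P.1)) : LayEdge n q y P Q (2 * v + 1) :=
  layEdge_mid n (h.qpos v) (layS_odd hv) h1 h2

lemma layEdge_even (h : LayOK q y) {n v : ℕ} (hv : v < n) {P Q : ℝ × ℝ} (h1 : P.1 < Q.1)
    (h2 : Q.2 - P.2 = y v * q v * (Q.1 - P.1)) : LayEdge n q y P Q (2 * v + 2) :=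
  layEdge_mid n (mul_pos (h.ypos v) (h.qpos v)) (layS_even hv) h1 h2

/-- all edges of a gadget are as required -/
lemma lay_edges (h : LayOK q y) {n : ℕ} {c : Cn} (hwf : Cn.WF n c) (hc : Cn.Holds y c) (x : LE)
    (hx : x ∈ compEdges n 0 c) :
    LayEdge n q y (layPos q y c x.1) (layPos q y c x.2.1) x.2.2 := by
  obtain ⟨k, i, l⟩ := c
  have hq : ∀ i, q i ≠ 0 := fun i => (h.qpos i).ne'
  have hq' : ∀ i, 0 < 1 / q i := fun i => one_div_pos.2 (h.qpos i)
  have hmono : ∀ {i j}, i < j → 1 / q j < 1 / q i := fun {i j} hij =>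
    one_div_lt_one_div_of_lt (h.qpos i) (h.strictMono hij)
  by_cases hk : k = 0
  · subst hk
    simp only [Cn.WF, if_true] at hwf
    simp only [Cn.Holds, if_true] at hc
    obtain ⟨hil, hln⟩ := hwf
    simp only [compEdges, if_true, List.mem_cons, List.not_mem_nil, or_false, mul_zero,
      zero_add] at hx
    rcases hx with rfl | rfl | rfl | rfl | rfl | rfl | rfl | rfl
    · exact layEdge_odd h (hil.trans hln) (by simp [layPos, h.qpos])
        (by simp [layPos, layL, hq])
    · exact layEdge_even h (hil.trans hln) (by simp [layPos, h.qpos])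
        (by simp [layPos, layL, hq])
    · exact layEdge_odd h hln (by simp [layPos, layL, h.qpos]) (by simp [layPos, layL, hq])
    · exact layEdge_even h hln (by simp [layPos, layL, h.qpos]) (by simp [layPos, layL, hq])
    · exact layEdge_top n (by simp [layPos, layL]) (by simp [layPos, layL, h.y1])
    · exact layEdge_zero n (by simpa [layPos, layL] using hmono hil) (by simp [layPos, layL])
    · exact layEdge_top n (by simp [layPos, layL]) (by simp [layPos, layL, h.y1])
    · exact layEdge_zero n (by simpa [layPos, layL] using hmono hil)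
        (by simpa [layPos, layL] using hc.symm)
  by_cases hk1 : k = 1
  · subst hk1
    simp only [Cn.WF, if_neg one_ne_zero] at hwf
    simp only [Cn.Holds, if_neg one_ne_zero, if_true] at hc
    simp only [compEdges, if_neg one_ne_zero, if_true, List.mem_cons, List.not_mem_nil, or_false,
      mul_zero, zero_add] at hx
    have e3 : 2 * i + 3 = 2 * (i + 1) + 1 := by ring
    have e4 : 2 * i + 4 = 2 * (i + 1) + 2 := by ring
    have e5 : 2 * i + 5 = 2 * (i + 2) + 1 := by ring
    have e6 : 2 * i + 6 = 2 * (i + 2) + 2 := by ring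
    rw [e3, e4, e5, e6] at hx
    have hi : i < n := by omega
    have hi1 : i + 1 < n := by omega
    have hi2 : i + 2 < n := by omega
    rcases hx with rfl | rfl | rfl | rfl | rfl | rfl | rfl | rfl | rfl | rfl | rfl | rfl | rfl | rfl
    · exact layEdge_odd h hi (by simp [layPos, h.qpos]) (by simp [layPos, layL, hq])
    · exact layEdge_even h hi (by simp [layPos, h.qpos]) (by simp [layPos, layL, hq])
    · exact layEdge_odd h hi1 (by simp [layPos, h.qpos]) (by simp [layPos, layL, hq])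
    · exact layEdge_even h hi1 (by simp [layPos, h.qpos]) (by simp [layPos, layL, hq])
    · exact layEdge_odd h hi2 (by simp [layPos, layL, h.qpos]) (by simp [layPos, layL, hq])
    · exact layEdge_even h hi2 (by simp [layPos, layL, h.qpos]) (by simp [layPos, layL, hq])
    · exact layEdge_top n (by simp [layPos, layL]) (by simp [layPos, layL, h.y1])
    · exact layEdge_zero n (by simpa [layPos, layL] using hmono (show i + 1 < i + 2 by omega))
        (by simp [layPos, layL])
    · exact layEdge_top n (by simp [layPos, layL]) (by simp [layPos, layL, h.y1])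
    · exact layEdge_zero n (by simpa [layPos, layL] using hmono (show i < i + 1 by omega))
        (by simp [layPos, layL])
    · exact layEdge_top n (by simp [layPos, layL]) (by simp [layPos, layL, h.y1])
    · exact layEdge_even h hi1 (by simp [layPos, layL, h.qpos]) (by simp [layPos, layL, hq])
    · exact layEdge_even h hi (by simp [layPos, layL, h.qpos]) (by simp [layPos, layL, hq])
    · refine layEdge_zero n ?_ (by simpa [layPos, layL] using hc.symm)
      have h8 := hmono (show i < i + 2 by omega)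
      have h9 := hq' (i + 1)
      simp only [layPos, layL]
      norm_num
      norm_num at h8 h9
      have h10 := inv_pos.2 h9
      linarith
  · simp only [Cn.WF, if_neg hk] at hwf
    simp only [Cn.Holds, if_neg hk, if_neg hk1] at hc
    simp only [compEdges, if_neg hk, if_neg hk1, List.mem_cons, List.not_mem_nil, or_false,
      mul_zero, zero_add] at hx
    have e3 : 2 * i + 3 = 2 * (i + 1) + 1 := by ring
    have e4 : 2 * i + 4 = 2 * (i + 1) + 2 := by ring
    have e5 : 2 * i + 5 = 2 * (i + 2) + 1 := by ring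
    have e6 : 2 * i + 6 = 2 * (i + 2) + 2 := by ring
    rw [e3, e4, e5, e6] at hx
    have hi : i < n := by omega
    have hi1 : i + 1 < n := by omega
    have hi2 : i + 2 < n := by omega
    have hy := h.ypos
    have hm1 : y i / q (i + 1) < 1 / q i := by
      rw [div_lt_div_iff₀ (h.qpos _) (h.qpos _)]
      have := h.mq i
      linarith
    have hm2 : 1 / q (i + 2) < y i / q (i + 1) := by
      rw [div_lt_div_iff₀ (h.qpos _) (h.qpos _)]
      have := h.lt_succ (i + 1)
      nlinarith [h.y1 i, h.qpos (i + 1), h.qpos (i + 2)]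
    rcases hx with rfl | rfl | rfl | rfl | rfl | rfl | rfl | rfl | rfl | rfl | rfl | rfl
    · exact layEdge_odd h hi (by simp [layPos, h.qpos]) (by simp [layPos, layL, hq])
    · exact layEdge_even h hi (by simp [layPos, h.qpos]) (by simp [layPos, layL, hq])
    · exact layEdge_odd h hi1 (by simp [layPos, hk1, h.qpos, hy])
        (by simp [layPos, layL, hk1]; field_simp [hq])
    · exact layEdge_even h hi1 (by simp [layPos, hk1, h.qpos, hy])
        (by simp [layPos, layL, hk1]; field_simp [hq])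
    · exact layEdge_odd h hi2 (by simp [layPos, layL, h.qpos, hk]) (by simp [layPos, layL, hq, hk])
    · exact layEdge_even h hi2 (by simp [layPos, layL, h.qpos, hk]) (by simp [layPos, layL, hq, hk])
    · exact layEdge_top n (by simp [layPos, layL]) (by simp [layPos, layL, h.y1])
    · exact layEdge_zero n
        (by simpa [layPos, layL, hk] using hmono (show i < i + 2 by omega))
        (by simp [layPos, layL])
    · refine layEdge_top n (by simp [layPos, layL, hk1]) ?_
      have := h.y1 (i + 1)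
      have := h.y1 i
      simp only [layPos, hk1]
      norm_num
      nlinarith
    · exact layEdge_zero n (by simpa [layPos, layL, hk1] using hm1) (by simp [layPos, layL, hk1])
    · exact layEdge_top n (by simp [layPos, layL]) (by simp [layPos, layL, h.y1])
    · exact layEdge_zero n (by simpa [layPos, layL, hk1, hk] using hm2)
        (by simpa [layPos, layL, hk1, hk] using hc.symm)

/-! ### The hubs -/

lemma lay_hubs {n : ℕ} {c : Cn} {g : ℕ} (hg : g ∈ hubs (compEdges n 0 c)) :
    (c.1 = 0 → g ∈ [0, 1, 2, 5, 6]) ∧ (c.1 = 1 → g ∈ [0, 1, 2, 3, 4, 5, 6, 7]) ∧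
      (c.1 ≠ 0 → c.1 ≠ 1 → g ∈ [0, 1, 2, 3, 4, 5, 6]) := by
  obtain ⟨x, hx, hgx⟩ := hg
  refine ⟨fun hk => ?_, fun hk => ?_, fun hk hk1 => ?_⟩
  · simp only [compEdges, hk, if_true, List.mem_cons, List.not_mem_nil, or_false, mul_zero,
      zero_add] at hx
    rcases hx with rfl | rfl | rfl | rfl | rfl | rfl | rfl | rfl <;>
      rcases hgx with rfl | rfl <;> simp
  · simp only [compEdges, hk, if_neg one_ne_zero, if_true, List.mem_cons, List.not_mem_nil,
      or_false, mul_zero, zero_add] at hx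
    rcases hx with
      rfl | rfl | rfl | rfl | rfl | rfl | rfl | rfl | rfl | rfl | rfl | rfl | rfl | rfl <;>
      rcases hgx with rfl | rfl <;> simp
  · simp only [compEdges, if_neg hk, if_neg hk1, List.mem_cons, List.not_mem_nil, or_false,
      mul_zero, zero_add] at hx
    rcases hx with rfl | rfl | rfl | rfl | rfl | rfl | rfl | rfl | rfl | rfl | rfl | rfl <;>
      rcases hgx with rfl | rfl <;> simp

lemma hub_lt {n : ℕ} {c : Cn} {g : ℕ} (hg : g ∈ hubs (compEdges n 0 c)) : g < 8 := by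
  obtain ⟨h0, h1, h2⟩ := lay_hubs hg
  by_cases hk : c.1 = 0
  · have := h0 hk
    simp at this
    omega
  · by_cases hk1 : c.1 = 1
    · have := h1 hk1
      simp at this
      omega
    · have := h2 hk hk1
      simp at this
      omega

lemma lay_avoid (h : LayOK q y) {n : ℕ} {c : Cn} (hwf : Cn.WF n c) (hc : Cn.Holds y c) (x : LE)
    (hx : x ∈ compEdges n 0 c) (g : ℕ) (hg : g ∈ hubs (compEdges n 0 c)) :
    layPos q y c g ∉ openSegment ℝ (layPos q y c x.1) (layPos q y c x.2.1) := by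
  obtain ⟨g0, g1, g2⟩ := lay_hubs hg
  obtain ⟨k, i, l⟩ := c
  have hq' : ∀ i, 0 < 1 / q i := fun i => one_div_pos.2 (h.qpos i)
  have hmono : ∀ {i j}, i < j → 1 / q j < 1 / q i := fun {i j} hij =>
    one_div_lt_one_div_of_lt (h.qpos i) (h.strictMono hij)
  have hyq : ∀ {i j}, i < j → y i * (1 / q j) < 1 / q i := fun {i j} hij => by
    rw [mul_one_div, div_lt_div_iff₀ (h.qpos _) (h.qpos _)]
    have := h.mq' hij
    linarith
  by_cases hk : k = 0
  · subst hk
    simp only [Cn.WF, if_true] at hwf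
    simp only [Cn.Holds, if_true] at hc
    refine lay_av_eq (1 / q i) (1 / q l) (y i) (hq' l) (hmono hwf.1) (h.y1 i) (hyq hwf.1)
      (layPos q y (0, i, l)) (by simp [layPos]) (by simp [layPos]) (by simp [layPos])
      (by simp [layPos, layL]) (by simp [layPos, layL, hc]) (x.1, x.2.1) ?_ g (g0 rfl)
    simp only [compEdges, if_true, List.mem_cons, List.not_mem_nil, or_false, mul_zero,
      zero_add] at hx
    rcases hx with rfl | rfl | rfl | rfl | rfl | rfl | rfl | rfl <;> simp
  by_cases hk1 : k = 1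
  · subst hk1
    simp only [Cn.Holds, if_neg one_ne_zero, if_true] at hc
    refine lay_av_add (1 / q i) (1 / q (i + 1)) (1 / q (i + 2)) (y i) (y (i + 1)) (hq' _)
      (hmono (by omega)) (hmono (by omega)) (h.y1 _) (h.y1 _) (hyq (by omega)) (hyq (by omega))
      (layPos q y (1, i, l)) (by simp [layPos]) (by simp [layPos]) (by simp [layPos])
      (by simp [layPos]) (by simp [layPos]) (by simp [layPos, layL]) (by simp [layPos, layL, hc])
      (by simp [layPos]) (x.1, x.2.1) ?_ g (g1 rfl)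
    simp only [compEdges, if_neg one_ne_zero, if_true, List.mem_cons, List.not_mem_nil, or_false,
      mul_zero, zero_add] at hx
    rcases hx with
      rfl | rfl | rfl | rfl | rfl | rfl | rfl | rfl | rfl | rfl | rfl | rfl | rfl | rfl <;> simp
  · simp only [Cn.Holds, if_neg hk, if_neg hk1] at hc
    have hm1 : y i / q (i + 1) < 1 / q i := by
      have := hyq (show i < i + 1 by omega)
      rwa [mul_one_div] at this
    have hm2 : 1 / q (i + 2) < y i / q (i + 1) := by
      rw [div_lt_div_iff₀ (h.qpos _) (h.qpos _)]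
      have := h.lt_succ (i + 1)
      nlinarith [h.y1 i, h.qpos (i + 1), h.qpos (i + 2)]
    have hm3 : y (i + 1) * (1 / q (i + 2)) * y i < y i / q (i + 1) := by
      have h1 := hyq (show i + 1 < i + 2 by omega)
      have h2 := mul_lt_mul_of_pos_right h1 (h.ypos i)
      rwa [one_div_mul_eq_div] at h2
    refine lay_av_mul (1 / q i) (y i / q (i + 1)) (1 / q (i + 2)) (y i) (y (i + 1)) (hq' _)
      hm2 hm1 (h.y1 _) (h.y1 _) hm3
      (layPos q y (k, i, l)) (by simp [layPos]) (by simp [layPos]) (by simp [layPos])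
      (by simp [layPos, hk1]) (by simp [layPos, hk1]) (by simp [layPos, layL, hk])
      (by simp [layPos, layL, hc, hk]) (x.1, x.2.1) ?_ g (g2 hk hk1)
    simp only [compEdges, if_neg hk, if_neg hk1, List.mem_cons, List.not_mem_nil, or_false,
      mul_zero, zero_add] at hx
    rcases hx with rfl | rfl | rfl | rfl | rfl | rfl | rfl | rfl | rfl | rfl | rfl | rfl <;> simp

lemma lay_inj (h : LayOK q y) {n : ℕ} {c : Cn} (hwf : Cn.WF n c) (hc : Cn.Holds y c) :
    Set.InjOn (layPos q y c) (hubs (compEdges n 0 c)) := by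
  intro f hf g hg hfg
  obtain ⟨f0, f1, f2⟩ := lay_hubs hf
  obtain ⟨g0, g1, g2⟩ := lay_hubs hg
  obtain ⟨k, i, l⟩ := c
  have hq' : ∀ i, 0 < 1 / q i := fun i => one_div_pos.2 (h.qpos i)
  have hmono : ∀ {i j}, i < j → 1 / q j < 1 / q i := fun {i j} hij =>
    one_div_lt_one_div_of_lt (h.qpos i) (h.strictMono hij)
  have hyq : ∀ {i j}, i < j → y i * (1 / q j) < 1 / q i := fun {i j} hij => by
    rw [mul_one_div, div_lt_div_iff₀ (h.qpos _) (h.qpos _)]
    have := h.mq' hij
    linarith
  by_cases hk : k = 0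
  · subst hk
    simp only [Cn.WF, if_true] at hwf
    simp only [Cn.Holds, if_true] at hc
    exact lay_inj_eq (1 / q i) (1 / q l) (y i) (hq' l) (hmono hwf.1) (h.y1 i)
      (layPos q y (0, i, l)) (by simp [layPos]) (by simp [layPos]) (by simp [layPos])
      (by simp [layPos, layL]) (by simp [layPos, layL, hc]) f (f0 rfl) g (g0 rfl) hfg
  by_cases hk1 : k = 1
  · subst hk1
    simp only [Cn.Holds, if_neg one_ne_zero, if_true] at hc
    exact lay_inj_add (1 / q i) (1 / q (i + 1)) (1 / q (i + 2)) (y i) (y (i + 1)) (hq' _)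
      (hmono (by omega)) (hmono (by omega)) (h.y1 _) (h.y1 _)
      (layPos q y (1, i, l)) (by simp [layPos]) (by simp [layPos]) (by simp [layPos])
      (by simp [layPos]) (by simp [layPos]) (by simp [layPos, layL]) (by simp [layPos, layL, hc])
      (by simp [layPos]) f (f1 rfl) g (g1 rfl) hfg
  · simp only [Cn.Holds, if_neg hk, if_neg hk1] at hc
    have hm1 : y i / q (i + 1) < 1 / q i := by
      have := hyq (show i < i + 1 by omega)
      rwa [mul_one_div] at this
    have hm2 : 1 / q (i + 2) < y i / q (i + 1) := by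
      rw [div_lt_div_iff₀ (h.qpos _) (h.qpos _)]
      have := h.lt_succ (i + 1)
      nlinarith [h.y1 i, h.qpos (i + 1), h.qpos (i + 2)]
    exact lay_inj_mul (1 / q i) (y i / q (i + 1)) (1 / q (i + 2)) (y i) (y (i + 1)) (hq' _)
      hm2 hm1 (h.y1 _) (h.y1 _)
      (layPos q y (k, i, l)) (by simp [layPos]) (by simp [layPos]) (by simp [layPos])
      (by simp [layPos, hk1]) (by simp [layPos, hk1]) (by simp [layPos, layL, hk])
      (by simp [layPos, layL, hc, hk]) f (f2 hk hk1) g (g2 hk hk1) hfg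

/-! ### All components -/

lemma compEdges_shift (n b : ℕ) (c : Cn) :
    compEdges n b c = (compEdges n 0 c).map fun x => (8 * b + x.1, 8 * b + x.2.1, x.2.2) := by
  unfold compEdges
  split_ifs <;> simp

lemma mem_hubEdges {n : ℕ} {cs : List Cn} {x : LE} (hx : x ∈ hubEdges n cs) :
    ∃ b < cs.length, ∃ z ∈ compEdges n 0 (cs.getD b (0, 0, 0)),
      x = (8 * b + z.1, 8 * b + z.2.1, z.2.2) := by
  simp only [hubEdges, List.mem_flatMap, List.mem_range] at hx
  obtain ⟨b, hb, hx⟩ := hx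
  rw [compEdges_shift] at hx
  obtain ⟨z, hz, rfl⟩ := List.mem_map.1 hx
  exact ⟨b, hb, z, hz, rfl⟩

lemma mem_hubs {n : ℕ} {cs : List Cn} {g : ℕ} (hg : g ∈ hubs (hubEdges n cs)) :
    ∃ b < cs.length, ∃ r ∈ hubs (compEdges n 0 (cs.getD b (0, 0, 0))), g = 8 * b + r := by
  obtain ⟨x, hx, hgx⟩ := hg
  obtain ⟨b, hb, z, hz, rfl⟩ := mem_hubEdges hx
  rcases hgx with rfl | rfl
  · exact ⟨b, hb, z.1, ⟨z, hz, Or.inl rfl⟩, rfl⟩
  · exact ⟨b, hb, z.2.1, ⟨z, hz, Or.inr rfl⟩, rfl⟩

/-- The positions of all hubs. -/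
noncomputable def layH (q y : ℕ → ℝ) (cs : List Cn) (K : ℝ) (h : ℕ) : ℝ × ℝ :=
  ((layPos q y (cs.getD (h / 8) (0, 0, 0)) (h % 8)).1 +
    (layPos q y (cs.getD (h / 8) (0, 0, 0)) (h % 8)).2 + K * ((h / 8 : ℕ) : ℝ),
    (layPos q y (cs.getD (h / 8) (0, 0, 0)) (h % 8)).2)

lemma layH_eq (q y : ℕ → ℝ) (cs : List Cn) (K : ℝ) (b r : ℕ) (hr : r < 8) :
    layH q y cs K (8 * b + r) = ((layPos q y (cs.getD b (0, 0, 0)) r).1 +
      (layPos q y (cs.getD b (0, 0, 0)) r).2 + K * b,
      (layPos q y (cs.getD b (0, 0, 0)) r).2) := by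
  have h1 : (8 * b + r) / 8 = b := by omega
  have h2 : (8 * b + r) % 8 = r := by omega
  rw [layH, h1, h2]

lemma lay_strip {K : ℝ} (hK : 0 < K) {b b' : ℕ} {u u' : ℝ} (hu : 0 ≤ u) (hu1 : u < K)
    (hu' : 0 ≤ u') (hu1' : u' < K) (h : u + K * b = u' + K * b') : b = b' := by
  rcases lt_trichotomy b b' with hb | hb | hb
  · have : (b : ℝ) + 1 ≤ b' := by exact_mod_cast hb
    nlinarith
  · exact hb
  · have : (b' : ℝ) + 1 ≤ b := by exact_mod_cast hb
    nlinarith

lemma layOK_strong (h : LayOK q y) {M : ℝ} (hM : ∀ i, y i < M) (n : ℕ) (cs : List Cn)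
    (hwf : ∀ c ∈ cs, Cn.WF n c) (hc : ∀ c ∈ cs, Cn.Holds y c) : HubStrong (hubEdges n cs) := by
  set K : ℝ := M * M + 3 * M + 3 with hKdef
  have hM1 : 1 < M := (h.y1 0).trans (hM 0)
  have hK : 0 < K := by positivity
  have hcs : ∀ {b}, b < cs.length → cs.getD b (0, 0, 0) ∈ cs := fun {b} hb => by
    rw [List.getD_eq_getElem _ _ hb]
    exact List.getElem_mem hb
  have hz8 : ∀ {b} {z : LE}, z ∈ compEdges n 0 (cs.getD b (0, 0, 0)) → z.1 < 8 ∧ z.2.1 < 8 :=
    fun {b z} hz => ⟨hub_lt ⟨z, hz, Or.inl rfl⟩, hub_lt ⟨z, hz, Or.inr rfl⟩⟩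
  refine ⟨layS n q y, layH q y cs K, layS_strictMono h n, ?_, ?_, ?_⟩
  · intro x hx
    obtain ⟨b, hb, z, hz, rfl⟩ := mem_hubEdges hx
    obtain ⟨C, hC, hCe⟩ := lay_edges h (hwf _ (hcs hb)) (hc _ (hcs hb)) z hz
    refine ⟨C, hC, ?_⟩
    simp only []
    rw [layH_eq _ _ _ _ _ _ (hz8 hz).1, layH_eq _ _ _ _ _ _ (hz8 hz).2, ← hCe]
    ext
    · simp only [Prod.fst_sub]
      ring
    · simp only [Prod.snd_sub]
  · intro f hf g hg hfg
    obtain ⟨b, hb, r, hr, rfl⟩ := mem_hubs hf
    obtain ⟨b', hb', r', hr', rfl⟩ := mem_hubs hg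
    rw [layH_eq _ _ _ _ _ _ (hub_lt hr), layH_eq _ _ _ _ _ _ (hub_lt hr')] at hfg
    obtain ⟨h1, h2⟩ := Prod.mk.inj hfg
    obtain ⟨x1, x2, x3⟩ := layPos_bound h hM (cs.getD b (0, 0, 0)) r
    obtain ⟨x1', x2', x3'⟩ := layPos_bound h hM (cs.getD b' (0, 0, 0)) r'
    obtain rfl : b = b' := lay_strip hK (by linarith) x3 (by linarith) x3' h1
    have := lay_inj h (hwf _ (hcs hb)) (hc _ (hcs hb)) hr hr' (Prod.ext (by linarith) h2)
    rw [this]
  · intro x hx g hg hm
    obtain ⟨b, hb, z, hz, rfl⟩ := mem_hubEdges hx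
    obtain ⟨b', hb', r, hr, rfl⟩ := mem_hubs hg
    simp only [] at hm
    rw [layH_eq _ _ _ _ _ _ (hub_lt hr), layH_eq _ _ _ _ _ _ (hz8 hz).1,
      layH_eq _ _ _ _ _ _ (hz8 hz).2] at hm
    obtain ⟨α, β, hα, hβ, hαβ, h1, h2⟩ := lay_seg hm
    simp only [] at h1 h2
    obtain ⟨x1, x2, x3⟩ := layPos_bound h hM (cs.getD b' (0, 0, 0)) r
    obtain ⟨y1, y2, y3⟩ := layPos_bound h hM (cs.getD b (0, 0, 0)) z.1
    obtain ⟨z1, z2, z3⟩ := layPos_bound h hM (cs.getD b (0, 0, 0)) z.2.1
    obtain rfl : b' = b := by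
      refine lay_strip hK (by linarith) x3
        (u' := α * ((layPos q y (cs.getD b (0, 0, 0)) z.1).1 +
          (layPos q y (cs.getD b (0, 0, 0)) z.1).2) +
          β * ((layPos q y (cs.getD b (0, 0, 0)) z.2.1).1 +
          (layPos q y (cs.getD b (0, 0, 0)) z.2.1).2)) (by positivity) ?_ ?_
      · nlinarith
      · rw [h1]
        obtain rfl : α = 1 - β := by linarith
        ring
    refine lay_avoid h (hwf _ (hcs hb)) (hc _ (hcs hb)) z hz r hr ⟨α, β, hα, hβ, hαβ, ?_⟩
    obtain rfl : α = 1 - β := by linarith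
    ext
    · simp only [Prod.fst_add, Prod.smul_fst, smul_eq_mul]
      linarith
    · simp only [Prod.snd_add, Prod.smul_snd, smul_eq_mul]
      linarith

/-- A solution of the constraints gives a strong realization of the labelled hub graph. -/
theorem hubStrong_of (n : ℕ) (cs : List Cn) (hwf : ∀ c ∈ cs, Cn.WF n c) (y : ℕ → ℝ)
    (hy : ∀ i, 1 < y i) (hc : ∀ c ∈ cs, Cn.Holds y c) : HubStrong (hubEdges n cs) := by
  set y' : ℕ → ℝ := fun i => if i < n then y i else 2 with hy'
  have hy1 : ∀ i, 1 < y' i := fun i => by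
    simp only [hy']
    split_ifs
    · exact hy i
    · norm_num
  set M : ℝ := ∑ i ∈ Finset.range n, y i + 3 with hMdef
  have hs : 0 ≤ ∑ i ∈ Finset.range n, y i := Finset.sum_nonneg fun i _ => by linarith [hy i]
  have hM : ∀ i, y' i < M := fun i => by
    simp only [hy']
    split_ifs with hi
    · have := Finset.single_le_sum (f := y) (fun i _ => by linarith [hy i])
        (Finset.mem_range.2 hi)
      linarith
    · linarith
  have hM1 : 1 < M := by linarith
  have hOK : LayOK (fun i => M ^ (i + 1)) y' := by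
    refine ⟨hy1, fun i => one_lt_pow₀ hM1 (by omega), fun i => ?_⟩
    rw [pow_succ M (i + 1), mul_comm]
    exact mul_lt_mul_of_pos_left (hM i) (by positivity)
  refine layOK_strong hOK hM n cs hwf fun c hcc => ?_
  have h1 := hwf c hcc
  have h2 := hc c hcc
  unfold Cn.WF at h1
  unfold Cn.Holds at h2 ⊢
  split_ifs at h1 h2 ⊢ with hk hk1
  · simp only [hy', if_pos h1.2, if_pos (h1.1.trans h1.2)]
    exact h2
  · simp only [hy', if_pos h1, if_pos (show c.2.1 < n by omega),
      if_pos (show c.2.1 + 1 < n by omega)]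
    exact h2
  · simp only [hy', if_pos h1, if_pos (show c.2.1 < n by omega),
      if_pos (show c.2.1 + 1 < n by omega)]
    exact h2

end Pool.Agent.Slope
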