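import Pool.Agent.Slope.Spec

set_option autoImplicit false

/-!
# Module M: SLOPE NUMBER reduces to ETR
-/

namespace Pool.Agent.Slope

open Pool.Agent.PT

/-! ### The formula -/

/-- a true formula -/
def Mem_T : Fm := .eq (.int 0) (.int 0)
/-- a false formula -/
def Mem_F : Fm := .eq (.int 0) (.int 1)
/-- finite conjunction -/
def Mem_and (l : List Fm) : Fm := l.foldr Fm.and Mem_T
/-- finite disjunction -/
def Mem_or (l : List Fm) : Fm := l.foldr Fm.or Mem_F

lemma Mem_and_holds (x : ℕ → ℝ) (l : List Fm) : (Mem_and l).holds x ↔ ∀ p ∈ l, p.holds x := by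
  induction l with
  | nil => simp [Mem_and, Mem_T, Fm.holds, Tm.val]
  | cons p l ih =>
    have : Mem_and (p :: l) = Fm.and p (Mem_and l) := rfl
    rw [this]
    simp only [Fm.holds, ih, List.mem_cons, forall_eq_or_imp]

lemma Mem_or_holds (x : ℕ → ℝ) (l : List Fm) : (Mem_or l).holds x ↔ ∃ p ∈ l, p.holds x := by
  induction l with
  | nil => simp [Mem_or, Mem_F, Fm.holds, Tm.val]
  | cons p l ih =>
    have : Mem_or (p :: l) = Fm.or p (Mem_or l) := rfl
    rw [this]
    simp only [Fm.holds, ih, List.mem_cons, exists_eq_or_imp]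

/-- word of a conjunction -/
def Mem_encAnd (l : List (List Bool)) : List Bool :=
  l.flatMap (fun w => [true, true, false, true] ++ w) ++ Mem_T.enc

/-- word of a disjunction -/
def Mem_encOr (l : List (List Bool)) : List Bool :=
  l.flatMap (fun w => [true, true, true] ++ w) ++ Mem_F.enc

lemma Mem_and_enc (l : List Fm) : (Mem_and l).enc = Mem_encAnd (l.map Fm.enc) := by
  induction l with
  | nil => rfl
  | cons p l ih =>
    have : Mem_and (p :: l) = Fm.and p (Mem_and l) := rfl
    rw [this, Fm.enc, ih, Mem_encAnd, Mem_encAnd]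
    simp

lemma Mem_or_enc (l : List Fm) : (Mem_or l).enc = Mem_encOr (l.map Fm.enc) := by
  induction l with
  | nil => rfl
  | cons p l ih =>
    have : Mem_or (p :: l) = Fm.or p (Mem_or l) := rfl
    rw [this, Fm.enc, ih, Mem_encOr, Mem_encOr]
    simp

/-- difference -/
def Mem_sub (s t : Tm) : Tm := .add s (.mul (.int (-1)) t)

lemma Mem_sub_val (x : ℕ → ℝ) (s t : Tm) : (Mem_sub s t).val x = s.val x - t.val x := by
  simp [Mem_sub, Tm.val]; ring

/-- abscissa of vertex `i` -/
def Mem_X (i : ℕ) : Tm := .var (2 * i)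
/-- ordinate of vertex `i` -/
def Mem_Y (i : ℕ) : Tm := .var (2 * i + 1)
/-- first component of the direction `s` -/
def Mem_A (n s : ℕ) : Tm := .var (2 * n + 2 * s)
/-- second component of the direction `s` -/
def Mem_B (n s : ℕ) : Tm := .var (2 * n + 2 * s + 1)

/-- distinct vertices -/
def Mem_f1 (i j : ℕ) : Fm := .and (.eq (Mem_X i) (Mem_X j)) (.eq (Mem_Y i) (Mem_Y j))

/-- cross product -/
def Mem_cross (u v w : ℕ) : Tm :=
  Mem_sub (.mul (Mem_sub (Mem_X v) (Mem_X u)) (Mem_sub (Mem_Y w) (Mem_Y u)))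
    (.mul (Mem_sub (Mem_Y v) (Mem_Y u)) (Mem_sub (Mem_X w) (Mem_X u)))

/-- dot product -/
def Mem_dot (u v w : ℕ) : Tm :=
  .add (.mul (Mem_sub (Mem_X u) (Mem_X w)) (Mem_sub (Mem_X v) (Mem_X w)))
    (.mul (Mem_sub (Mem_Y u) (Mem_Y w)) (Mem_sub (Mem_Y v) (Mem_Y w)))

/-- the vertex `w` is not in the interior of the edge `u v` -/
def Mem_f2 (u v w : ℕ) : Fm :=
  .not (.and (.eq (Mem_cross u v w) (.int 0)) (.lt (Mem_dot u v w) (.int 0)))

/-- the edge `u v` has the direction `s` -/
def Mem_f3 (n u v s : ℕ) : Fm :=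
  .eq (.mul (Mem_A n s) (Mem_sub (Mem_Y v) (Mem_Y u)))
    (.mul (Mem_B n s) (Mem_sub (Mem_X v) (Mem_X u)))

/-- the direction `s` is nonzero -/
def Mem_f4 (n s : ℕ) : Fm := .not (.and (.eq (Mem_A n s) (.int 0)) (.eq (Mem_B n s) (.int 0)))

/-- relevant edges -/
def Mem_valid (n : ℕ) (e : ℕ × ℕ) : Bool := decide (e.1 < n ∧ e.2 < n ∧ ¬ e.1 = e.2)

/-- The formula for `n` vertices, `k` slopes and the edge list `E`. -/
def Mem_formula (x : ℕ × ℕ × List (ℕ × ℕ)) : Fm := Mem_and (
  ((List.range x.1).flatMap fun i => (List.range x.1).map fun j =>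
      if i = j then Mem_T else .not (Mem_f1 i j)) ++
  ((x.2.2.filter (Mem_valid x.1)).flatMap fun e => (List.range x.1).map fun w =>
      Mem_f2 e.1 e.2 w) ++
  ((x.2.2.filter (Mem_valid x.1)).map fun e =>
      Mem_or ((List.range x.2.1).map fun s => Mem_f3 x.1 e.1 e.2 s)) ++
  ((List.range x.2.1).map fun s => Mem_f4 x.1 s))

/-! ### Polynomial time -/

@[fun_prop]
lemma Mem_unary {α : Type*} [Enc α] {f : α → ℕ} (hf : PolyTime f) :
    PolyTime (fun x => unary (f x)) := by
  unfold unary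
  fun_prop

@[fun_prop]
lemma Mem_encAnd_pt {α : Type*} [Enc α] {l : α → List (List Bool)} (hl : PolyTime l) :
    PolyTime (fun x => Mem_encAnd (l x)) := by
  unfold Mem_encAnd
  exact PolyTime.append (PolyTime.flatMap hl (g := fun _ w => [true, true, false, true] ++ w)
    (by fun_prop)) (PolyTime.const _)

@[fun_prop]
lemma Mem_encOr_pt {α : Type*} [Enc α] {l : α → List (List Bool)} (hl : PolyTime l) :
    PolyTime (fun x => Mem_encOr (l x)) := by
  unfold Mem_encOr
  exact PolyTime.append (PolyTime.flatMap hl (g := fun _ w => [true, true, true] ++ w)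
    (by fun_prop)) (PolyTime.const _)

lemma Mem_f1_pt {α : Type*} [Enc α] {i j : α → ℕ} (hi : PolyTime i) (hj : PolyTime j) :
    PolyTime (fun x => (Mem_f1 (i x) (j x)).enc) := by
  simp only [Mem_f1, Mem_X, Mem_Y, Fm.enc, Tm.enc]
  fun_prop

lemma Mem_f2_pt {α : Type*} [Enc α] {i j k : α → ℕ} (hi : PolyTime i) (hj : PolyTime j)
    (hk : PolyTime k) : PolyTime (fun x => (Mem_f2 (i x) (j x) (k x)).enc) := by
  simp only [Mem_f2, Mem_cross, Mem_dot, Mem_sub, Mem_X, Mem_Y, Fm.enc, Tm.enc]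
  fun_prop

lemma Mem_f3_pt {α : Type*} [Enc α] {i j k l : α → ℕ} (hi : PolyTime i) (hj : PolyTime j)
    (hk : PolyTime k) (hl : PolyTime l) :
    PolyTime (fun x => (Mem_f3 (i x) (j x) (k x) (l x)).enc) := by
  simp only [Mem_f3, Mem_A, Mem_B, Mem_sub, Mem_X, Mem_Y, Fm.enc, Tm.enc]
  fun_prop

lemma Mem_f4_pt {α : Type*} [Enc α] {i j : α → ℕ} (hi : PolyTime i) (hj : PolyTime j) :
    PolyTime (fun x => (Mem_f4 (i x) (j x)).enc) := by
  simp only [Mem_f4, Mem_A, Mem_B, Fm.enc, Tm.enc]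
  fun_prop

lemma Mem_valid_pt {α : Type*} [Enc α] {n : α → ℕ} {e : α → ℕ × ℕ} (hn : PolyTime n)
    (he : PolyTime e) : PolyTime (fun x => Mem_valid (n x) (e x)) := by
  unfold Mem_valid
  fun_prop

lemma Mem_h1 : PolyTime (fun x : ℕ × ℕ × List (ℕ × ℕ) => (List.range x.1).flatMap fun i =>
    (List.range x.1).map fun j => if i = j then Mem_T.enc else (Fm.not (Mem_f1 i j)).enc) := by
  refine PolyTime.flatMap (g := fun (x : ℕ × ℕ × List (ℕ × ℕ)) (i : ℕ) =>
    (List.range x.1).map fun j => if i = j then Mem_T.enc else (Fm.not (Mem_f1 i j)).enc)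
    (by fun_prop) ?_
  refine PolyTime.map (g := fun (p : (ℕ × ℕ × List (ℕ × ℕ)) × ℕ) (j : ℕ) =>
    if p.2 = j then Mem_T.enc else (Fm.not (Mem_f1 p.2 j)).enc) (by fun_prop) ?_
  refine PolyTime.ite (by fun_prop) (PolyTime.const _) ?_
  exact PolyTime.append (PolyTime.const [true, true, false, false])
    (Mem_f1_pt (by fun_prop) (by fun_prop))

lemma Mem_hv : PolyTime (fun x : ℕ × ℕ × List (ℕ × ℕ) => x.2.2.filter (Mem_valid x.1)) :=
  PolyTime.filter (g := fun (x : ℕ × ℕ × List (ℕ × ℕ)) (e : ℕ × ℕ) => Mem_valid x.1 e)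
    (by fun_prop) (Mem_valid_pt (by fun_prop) (by fun_prop))

lemma Mem_h2 : PolyTime (fun x : ℕ × ℕ × List (ℕ × ℕ) =>
    (x.2.2.filter (Mem_valid x.1)).flatMap fun e => (List.range x.1).map fun w =>
    (Mem_f2 e.1 e.2 w).enc) := by
  refine PolyTime.flatMap (g := fun (x : ℕ × ℕ × List (ℕ × ℕ)) (e : ℕ × ℕ) =>
    (List.range x.1).map fun w => (Mem_f2 e.1 e.2 w).enc) Mem_hv ?_
  refine PolyTime.map (g := fun (p : (ℕ × ℕ × List (ℕ × ℕ)) × (ℕ × ℕ)) (w : ℕ) =>
    (Mem_f2 p.2.1 p.2.2 w).enc) (by fun_prop) ?_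
  exact Mem_f2_pt (by fun_prop) (by fun_prop) (by fun_prop)

lemma Mem_h3 : PolyTime (fun x : ℕ × ℕ × List (ℕ × ℕ) =>
    (x.2.2.filter (Mem_valid x.1)).map fun e => Mem_encOr ((List.range x.2.1).map fun s =>
    (Mem_f3 x.1 e.1 e.2 s).enc)) := by
  refine PolyTime.map (g := fun (x : ℕ × ℕ × List (ℕ × ℕ)) (e : ℕ × ℕ) =>
    Mem_encOr ((List.range x.2.1).map fun s => (Mem_f3 x.1 e.1 e.2 s).enc)) Mem_hv ?_
  refine Mem_encOr_pt ?_
  refine PolyTime.map (g := fun (p : (ℕ × ℕ × List (ℕ × ℕ)) × (ℕ × ℕ)) (s : ℕ) =>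
    (Mem_f3 p.1.1 p.2.1 p.2.2 s).enc) (by fun_prop) ?_
  exact Mem_f3_pt (by fun_prop) (by fun_prop) (by fun_prop) (by fun_prop)

lemma Mem_h4 : PolyTime (fun x : ℕ × ℕ × List (ℕ × ℕ) =>
    (List.range x.2.1).map fun s => (Mem_f4 x.1 s).enc) := by
  refine PolyTime.map (g := fun (x : ℕ × ℕ × List (ℕ × ℕ)) (s : ℕ) => (Mem_f4 x.1 s).enc)
    (by fun_prop) ?_
  exact Mem_f4_pt (by fun_prop) (by fun_prop)

lemma Mem_formula_enc (x : ℕ × ℕ × List (ℕ × ℕ)) : (Mem_formula x).enc = Mem_encAnd (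
    ((((List.range x.1).flatMap fun i => (List.range x.1).map fun j =>
      if i = j then Mem_T.enc else (Fm.not (Mem_f1 i j)).enc) ++
    ((x.2.2.filter (Mem_valid x.1)).flatMap fun e => (List.range x.1).map fun w =>
      (Mem_f2 e.1 e.2 w).enc)) ++
    ((x.2.2.filter (Mem_valid x.1)).map fun e => Mem_encOr ((List.range x.2.1).map fun s =>
      (Mem_f3 x.1 e.1 e.2 s).enc))) ++
    ((List.range x.2.1).map fun s => (Mem_f4 x.1 s).enc)) := by
  rw [Mem_formula, Mem_and_enc, List.map_append, List.map_append, List.map_append,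
    List.map_flatMap, List.map_flatMap, List.map_map, List.map_map]
  have e1 : (fun a => List.map Fm.enc (List.map
      (fun j => if a = j then Mem_T else (Mem_f1 a j).not) (List.range x.1))) =
      fun i => (List.range x.1).map fun j =>
      if i = j then Mem_T.enc else (Fm.not (Mem_f1 i j)).enc := by
    funext i
    rw [List.map_map]
    apply List.map_congr_left
    intro j _
    simp only [Function.comp]
    split_ifs <;> rfl
  have e2 : (fun a : ℕ × ℕ => List.map Fm.enc (List.map (fun w => Mem_f2 a.1 a.2 w)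
      (List.range x.1))) = fun e => (List.range x.1).map fun w => (Mem_f2 e.1 e.2 w).enc := by
    funext i
    rw [List.map_map]
    rfl
  have e3 : (Fm.enc ∘ fun e : ℕ × ℕ => Mem_or (List.map (fun s => Mem_f3 x.1 e.1 e.2 s)
      (List.range x.2.1))) = fun e => Mem_encOr ((List.range x.2.1).map fun s =>
      (Mem_f3 x.1 e.1 e.2 s).enc) := by
    funext e
    simp only [Function.comp]
    rw [Mem_or_enc, List.map_map]
    rfl
  rw [e1, e2, e3]
  rfl

/-- The word of the formula. -/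
lemma Mem_formula_pt : PolyTime (fun x : ℕ × ℕ × List (ℕ × ℕ) => (Mem_formula x).enc) :=
  (Mem_encAnd_pt (((Mem_h1.append Mem_h2).append Mem_h3).append Mem_h4)).congr
    fun x => Mem_formula_enc x

/-! ### Parsing -/

/-- state of the parser: phase, counter, `n`, first end of the current edge, bits of `k`, edges -/
abbrev Mem_St : Type := ℕ × ℕ × ℕ × ℕ × List Bool × List (ℕ × ℕ)

/-- one step of the parser -/
def Mem_step (s : Mem_St) (b : Bool) : Mem_St :=
  if s.1 = 0 then (bif b then (0, s.2.1 + 1, s.2.2.1, s.2.2.2.1, s.2.2.2.2.1, s.2.2.2.2.2)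
    else (1, 0, s.2.1, s.2.2.2.1, s.2.2.2.2.1, s.2.2.2.2.2))
  else if s.1 = 1 then (bif b then (2, s.2.1, s.2.2.1, s.2.2.2.1, s.2.2.2.2.1, s.2.2.2.2.2)
    else (3, s.2.1, s.2.2.1, s.2.2.2.1, s.2.2.2.2.1, s.2.2.2.2.2))
  else if s.1 = 2 then (1, s.2.1, s.2.2.1, s.2.2.2.1, b :: s.2.2.2.2.1, s.2.2.2.2.2)
  else if s.1 = 3 then (bif b then (3, s.2.1 + 1, s.2.2.1, s.2.2.2.1, s.2.2.2.2.1, s.2.2.2.2.2)
    else (4, 0, s.2.2.1, s.2.1, s.2.2.2.2.1, s.2.2.2.2.2))
  else (bif b then (4, s.2.1 + 1, s.2.2.1, s.2.2.2.1, s.2.2.2.2.1, s.2.2.2.2.2)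
    else (3, 0, s.2.2.1, 0, s.2.2.2.2.1, (s.2.2.2.1, s.2.1) :: s.2.2.2.2.2))

lemma Mem_step_pt : PolyTime (fun p : Mem_St × Bool => Mem_step p.1 p.2) := by
  unfold Mem_step
  refine PolyTime.ite (by fun_prop) (PolyTime.cond (by fun_prop) (by fun_prop) (by fun_prop)) ?_
  refine PolyTime.ite (by fun_prop) (PolyTime.cond (by fun_prop) (by fun_prop) (by fun_prop)) ?_
  refine PolyTime.ite (by fun_prop) (by fun_prop) ?_
  refine PolyTime.ite (by fun_prop) (PolyTime.cond (by fun_prop) (by fun_prop) (by fun_prop)) ?_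
  exact PolyTime.cond (by fun_prop) (by fun_prop) (by fun_prop)

lemma Mem_step_sz (s : Mem_St) (b : Bool) : sz (Mem_step s b) ≤ sz s + 20 := by
  obtain ⟨p, c, n, u, l, E⟩ := s
  unfold Mem_step
  simp only
  have hb := sz_bool b
  split_ifs with h0 h1 h2 h3
  · subst h0
    cases b <;> simp only [cond_true, cond_false, sz_prod, sz_nat] <;> omega
  · subst h1
    cases b <;> simp only [cond_true, cond_false, sz_prod, sz_nat] <;> omega
  · subst h2
    simp only [sz_prod, sz_nat, sz_cons]; omega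
  · subst h3
    cases b <;> simp only [cond_true, cond_false, sz_prod, sz_nat] <;> omega
  · cases b <;> simp only [cond_true, cond_false, sz_prod, sz_nat, sz_cons] <;> omega

/-- the parser -/
def Mem_parse (w : List Bool) : Mem_St := w.foldl Mem_step (0, 0, 0, 0, [], [])

lemma Mem_parse_pt : PolyTime Mem_parse := by
  unfold Mem_parse
  exact PolyTime.foldl_add (l := fun w : List Bool => w) (g := fun _ s b => Mem_step s b)
    (y := fun _ => ((0, 0, 0, 0, [], []) : Mem_St)) (by fun_prop)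
    (Mem_step_pt.comp (by fun_prop)) (by fun_prop) (s := fun _ => 20) (by fun_prop)
    (fun _ b _ c => Mem_step_sz c b)

lemma Mem_run0 (m c n u : ℕ) (l : List Bool) (E : List (ℕ × ℕ)) :
    (unary m).foldl Mem_step (0, c, n, u, l, E) = (1, 0, c + m, u, l, E) := by
  unfold unary
  induction m generalizing c with
  | zero => simp [Mem_step]
  | succ m ih =>
    rw [List.replicate_succ, List.cons_append, List.foldl_cons]
    have : Mem_step (0, c, n, u, l, E) true = (0, c + 1, n, u, l, E) := rfl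
    rw [this, ih]
    simp only [Prod.mk.injEq, true_and, and_true]
    omega

lemma Mem_run1 (bs : List Bool) (c n u : ℕ) (l : List Bool) (E : List (ℕ × ℕ)) :
    (bs.flatMap (fun b => [true, b]) ++ [false]).foldl Mem_step (1, c, n, u, l, E) =
      (3, c, n, u, bs.reverse ++ l, E) := by
  induction bs generalizing l with
  | nil => rfl
  | cons b bs ih =>
    rw [List.flatMap_cons, List.append_assoc, List.foldl_append]
    have : [true, b].foldl Mem_step (1, c, n, u, l, E) = (1, c, n, u, b :: l, E) := rfl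
    rw [this, ih]
    simp

lemma Mem_run3 (m c n u : ℕ) (l : List Bool) (E : List (ℕ × ℕ)) :
    (unary m).foldl Mem_step (3, c, n, u, l, E) = (4, 0, n, c + m, l, E) := by
  unfold unary
  induction m generalizing c with
  | zero => simp [Mem_step]
  | succ m ih =>
    rw [List.replicate_succ, List.cons_append, List.foldl_cons]
    have : Mem_step (3, c, n, u, l, E) true = (3, c + 1, n, u, l, E) := rfl
    rw [this, ih]
    simp only [Prod.mk.injEq, true_and, and_true]
    omega

lemma Mem_run4 (m c n u : ℕ) (l : List Bool) (E : List (ℕ × ℕ)) :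
    (unary m).foldl Mem_step (4, c, n, u, l, E) = (3, 0, n, 0, l, (u, c + m) :: E) := by
  unfold unary
  induction m generalizing c with
  | zero => simp [Mem_step]
  | succ m ih =>
    rw [List.replicate_succ, List.cons_append, List.foldl_cons]
    have : Mem_step (4, c, n, u, l, E) true = (4, c + 1, n, u, l, E) := rfl
    rw [this, ih]
    simp only [Prod.mk.injEq, true_and, and_true, List.cons.injEq]
    omega

lemma Mem_runE (L : List (ℕ × ℕ)) (n : ℕ) (l : List Bool) (E : List (ℕ × ℕ)) :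
    (L.flatMap fun e => unary e.1 ++ unary e.2).foldl Mem_step (3, 0, n, 0, l, E) =
      (3, 0, n, 0, l, L.reverse ++ E) := by
  induction L generalizing E with
  | nil => rfl
  | cons e L ih =>
    rw [List.flatMap_cons, List.foldl_append, List.foldl_append, Mem_run3, Mem_run4, ih]
    simp

lemma Mem_parse_encInst (I : Inst) :
    Mem_parse (encInst I) = (3, 0, I.n, 0, (Nat.bits I.k).reverse, I.edges.reverse) := by
  unfold Mem_parse encInst binary
  rw [List.foldl_append, List.foldl_append, Mem_run0, Mem_run1, Mem_runE]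
  simp

/-- capped evaluation of a binary number (most significant bit first) -/
def Mem_cap (M : ℕ) (bs : List Bool) : ℕ :=
  bs.foldl (fun v b => min (2 * v + bif b then 1 else 0) M) 0

lemma Mem_cap_pt {α : Type*} [Enc α] {M : α → ℕ} {bs : α → List Bool} (hM : PolyTime M)
    (hb : PolyTime bs) : PolyTime (fun x => Mem_cap (M x) (bs x)) := by
  unfold Mem_cap
  have h1 := hM.pbdd
  refine PolyTime.foldl_const (g := fun x v b => min (2 * v + bif b then 1 else 0) (M x)) hb ?_
    (by fun_prop) (s := fun x => sz (M x)) (by fun_prop) ?_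
  · refine PolyTime.natMin (PolyTime.natAdd (by fun_prop) ?_) (by fun_prop)
    exact PolyTime.cond (by fun_prop) (by fun_prop) (by fun_prop)
  · intro x c b
    simp only [sz_nat]
    have := Nat.min_le_right (2 * c + bif b then 1 else 0) (M x)
    omega

lemma Mem_cap_bits (M k : ℕ) : Mem_cap M (Nat.bits k).reverse = min k M := by
  unfold Mem_cap
  rw [List.foldl_reverse]
  induction k using Nat.binaryRec' with
  | zero => simp
  | bit b n h ih =>
    rw [Nat.bits_append_bit n b h, List.foldr_cons, ih, Nat.bit_val]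
    cases b <;> simp <;> omega

/-- the reduction on words -/
def Mem_g (w : List Bool) : List Bool :=
  (Mem_formula ((Mem_parse w).2.2.1, Mem_cap (Mem_parse w).2.2.2.2.2.length
    (Mem_parse w).2.2.2.2.1, (Mem_parse w).2.2.2.2.2)).enc

lemma Mem_g_pt : PolyTime Mem_g := by
  have hp : PolyTime (fun w => Mem_parse w) := Mem_parse_pt
  have h1 : PolyTime (fun w => Mem_cap (Mem_parse w).2.2.2.2.2.length
    (Mem_parse w).2.2.2.2.1) := Mem_cap_pt (by fun_prop) (by fun_prop)
  exact Mem_formula_pt.comp (f := fun w => ((Mem_parse w).2.2.1,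
    Mem_cap (Mem_parse w).2.2.2.2.2.length (Mem_parse w).2.2.2.2.1, (Mem_parse w).2.2.2.2.2))
    (by fun_prop)

/-- the reduction -/
def Mem_f (I : Inst) : Fm := Mem_formula (I.n, min I.k I.edges.length, I.edges.reverse)

lemma Mem_g_encInst (I : Inst) : Mem_g (encInst I) = (Mem_f I).enc := by
  unfold Mem_g Mem_f
  rw [Mem_parse_encInst]
  simp only
  rw [Mem_cap_bits, List.length_reverse]

/-! ### Correctness -/

/-- the geometric condition expressed by the formula -/
def Mem_Geo (n k : ℕ) (E : List (ℕ × ℕ)) (P d : ℕ → ℝ × ℝ) : Prop :=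
  (∀ i < n, ∀ j < n, i ≠ j → P i ≠ P j) ∧
  (∀ e ∈ E, e.1 < n → e.2 < n → e.1 ≠ e.2 → ∀ w < n, ¬ (
    ((P e.2).1 - (P e.1).1) * ((P w).2 - (P e.1).2) -
      ((P e.2).2 - (P e.1).2) * ((P w).1 - (P e.1).1) = 0 ∧
    ((P e.1).1 - (P w).1) * ((P e.2).1 - (P w).1) +
      ((P e.1).2 - (P w).2) * ((P e.2).2 - (P w).2) < 0)) ∧
  (∀ e ∈ E, e.1 < n → e.2 < n → e.1 ≠ e.2 → ∃ s < k,
    (d s).1 * ((P e.2).2 - (P e.1).2) = (d s).2 * ((P e.2).1 - (P e.1).1)) ∧
  (∀ s < k, ¬ ((d s).1 = 0 ∧ (d s).2 = 0))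

lemma Mem_formula_holds (n k : ℕ) (E : List (ℕ × ℕ)) (x : ℕ → ℝ) :
    (Mem_formula (n, k, E)).holds x ↔ Mem_Geo n k E (fun i => (x (2 * i), x (2 * i + 1)))
      (fun s => (x (2 * n + 2 * s), x (2 * n + 2 * s + 1))) := by
  rw [Mem_formula, Mem_and_holds]
  simp only [List.mem_append, or_imp, forall_and, List.mem_flatMap, List.mem_map, List.mem_filter,
    List.mem_range, Mem_valid, decide_eq_true_eq]
  unfold Mem_Geo
  constructor
  · rintro ⟨⟨⟨h1, h2⟩, h3⟩, h4⟩
    refine ⟨?_, ?_, ?_, ?_⟩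
    · intro i hi j hj hij heq
      have h := h1 _ ⟨i, hi, j, hj, rfl⟩
      rw [if_neg hij] at h
      apply h
      have h5 := Prod.mk.inj heq
      exact ⟨h5.1, h5.2⟩
    · intro e he hn1 hn2 hne w hw
      have h := h2 _ ⟨e, ⟨he, hn1, hn2, hne⟩, w, hw, rfl⟩
      simpa only [Mem_f2, Mem_cross, Mem_dot, Fm.holds, Mem_sub_val, Tm.val, Mem_X, Mem_Y,
        Int.cast_zero] using h
    · intro e he hn1 hn2 hne
      have h := h3 _ ⟨e, ⟨he, hn1, hn2, hne⟩, rfl⟩
      rw [Mem_or_holds] at h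
      obtain ⟨p, hp, hx⟩ := h
      obtain ⟨s, hs, rfl⟩ := List.mem_map.1 hp
      refine ⟨s, List.mem_range.1 hs, ?_⟩
      simpa only [Mem_f3, Fm.holds, Mem_sub_val, Tm.val, Mem_X, Mem_Y, Mem_A, Mem_B] using hx
    · intro s hs
      have h := h4 _ ⟨s, hs, rfl⟩
      simpa only [Mem_f4, Fm.holds, Tm.val, Mem_A, Mem_B, Int.cast_zero] using h
  · rintro ⟨h1, h2, h3, h4⟩
    refine ⟨⟨⟨?_, ?_⟩, ?_⟩, ?_⟩
    · rintro p ⟨i, hi, j, hj, rfl⟩
      by_cases hij : i = j
      · rw [if_pos hij]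
        simp [Mem_T, Fm.holds, Tm.val]
      · rw [if_neg hij]
        intro h
        exact h1 i hi j hj hij (Prod.ext h.1 h.2)
    · rintro p ⟨e, ⟨he, hn1, hn2, hne⟩, w, hw, rfl⟩
      have h := h2 e he hn1 hn2 hne w hw
      simpa only [Mem_f2, Mem_cross, Mem_dot, Fm.holds, Mem_sub_val, Tm.val, Mem_X, Mem_Y,
        Int.cast_zero] using h
    · rintro p ⟨e, ⟨he, hn1, hn2, hne⟩, rfl⟩
      rw [Mem_or_holds]
      obtain ⟨s, hs, h⟩ := h3 e he hn1 hn2 hne
      refine ⟨_, List.mem_map.2 ⟨s, List.mem_range.2 hs, rfl⟩, ?_⟩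
      simpa only [Mem_f3, Fm.holds, Mem_sub_val, Tm.val, Mem_X, Mem_Y, Mem_A, Mem_B] using h
    · rintro p ⟨s, hs, rfl⟩
      have h := h4 s hs
      simpa only [Mem_f4, Fm.holds, Tm.val, Mem_A, Mem_B, Int.cast_zero] using h

lemma Mem_ETR (n k : ℕ) (E : List (ℕ × ℕ)) :
    ETR (Mem_formula (n, k, E)) ↔ ∃ P d : ℕ → ℝ × ℝ, Mem_Geo n k E P d := by
  constructor
  · rintro ⟨x, hx⟩
    exact ⟨_, _, (Mem_formula_holds n k E x).1 hx⟩
  · rintro ⟨P, d, h⟩
    let x : ℕ → ℝ := fun m => if m < 2 * n then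
      (if m % 2 = 0 then (P (m / 2)).1 else (P (m / 2)).2) else
      (if m % 2 = 0 then (d (m / 2 - n)).1 else (d (m / 2 - n)).2)
    refine ⟨x, (Mem_formula_holds n k E x).2 ?_⟩
    have hP1 : ∀ i < n, x (2 * i) = (P i).1 := by
      intro i hi
      show ite _ _ _ = _
      rw [if_pos (by omega), if_pos (by omega)]
      congr 2; omega
    have hP2 : ∀ i < n, x (2 * i + 1) = (P i).2 := by
      intro i hi
      show ite _ _ _ = _
      rw [if_pos (by omega), if_neg (by omega)]
      congr 2; omega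
    have hd1 : ∀ s, x (2 * n + 2 * s) = (d s).1 := by
      intro s
      show ite _ _ _ = _
      rw [if_neg (by omega), if_pos (by omega)]
      congr 2; omega
    have hd2 : ∀ s, x (2 * n + 2 * s + 1) = (d s).2 := by
      intro s
      show ite _ _ _ = _
      rw [if_neg (by omega), if_neg (by omega)]
      congr 2; omega
    obtain ⟨h1, h2, h3, h4⟩ := h
    refine ⟨?_, ?_, ?_, ?_⟩
    · intro i hi j hj hij
      simp only [hP1 i hi, hP1 j hj, hP2 i hi, hP2 j hj]
      exact h1 i hi j hj hij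
    · intro e he hn1 hn2 hne w hw
      simp only [hP1 _ hn1, hP1 _ hn2, hP1 w hw, hP2 _ hn1, hP2 _ hn2, hP2 w hw]
      exact h2 e he hn1 hn2 hne w hw
    · intro e he hn1 hn2 hne
      simp only [hP1 _ hn1, hP1 _ hn2, hP2 _ hn1, hP2 _ hn2, hd1, hd2]
      exact h3 e he hn1 hn2 hne
    · intro s hs
      simp only [hd1, hd2]
      exact h4 s hs

/-- the formula for the interior of a segment -/
lemma Mem_segment {u v w : ℝ × ℝ} (huv : u ≠ v) : w ∈ openSegment ℝ u v ↔
    ((v.1 - u.1) * (w.2 - u.2) - (v.2 - u.2) * (w.1 - u.1) = 0 ∧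
      (u.1 - w.1) * (v.1 - w.1) + (u.2 - w.2) * (v.2 - w.2) < 0) := by
  have hpos : 0 < (v.1 - u.1) ^ 2 + (v.2 - u.2) ^ 2 := by
    rcases eq_or_ne (v.1 - u.1) 0 with h1 | h1
    · rcases eq_or_ne (v.2 - u.2) 0 with h2 | h2
      · exact absurd (Prod.ext (sub_eq_zero.1 h1).symm (sub_eq_zero.1 h2).symm) huv
      · positivity
    · positivity
  constructor
  · rintro ⟨a, b, ha, hb, hab, rfl⟩
    have hb' : b = 1 - a := by linarith
    simp only [Prod.fst_add, Prod.snd_add, Prod.smul_fst, Prod.smul_snd, smul_eq_mul]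
    subst hb'
    constructor
    · ring
    · have : (u.1 - (a * u.1 + (1 - a) * v.1)) * (v.1 - (a * u.1 + (1 - a) * v.1)) +
        (u.2 - (a * u.2 + (1 - a) * v.2)) * (v.2 - (a * u.2 + (1 - a) * v.2)) =
        - (a * (1 - a) * ((v.1 - u.1) ^ 2 + (v.2 - u.2) ^ 2)) := by ring
      rw [this]
      have := mul_pos (mul_pos ha hb) hpos
      linarith
  · rintro ⟨h1, h2⟩
    set N := (v.1 - u.1) ^ 2 + (v.2 - u.2) ^ 2 with hN
    set t := ((v.1 - u.1) * (w.1 - u.1) + (v.2 - u.2) * (w.2 - u.2)) / N with ht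
    have htN : t * N = (v.1 - u.1) * (w.1 - u.1) + (v.2 - u.2) * (w.2 - u.2) := by
      rw [ht]; field_simp
    have hw1 : w.1 = u.1 + t * (v.1 - u.1) := by
      have : N * (w.1 - u.1 - t * (v.1 - u.1)) = 0 := by
        have e : N * (w.1 - u.1 - t * (v.1 - u.1)) = N * (w.1 - u.1) - (t * N) * (v.1 - u.1) := by
          ring
        rw [e, htN, hN]
        linear_combination (-(v.2 - u.2)) * h1
      have := (mul_eq_zero.1 this).resolve_left hpos.ne'
      linarith
    have hw2 : w.2 = u.2 + t * (v.2 - u.2) := by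
      have : N * (w.2 - u.2 - t * (v.2 - u.2)) = 0 := by
        have e : N * (w.2 - u.2 - t * (v.2 - u.2)) = N * (w.2 - u.2) - (t * N) * (v.2 - u.2) := by
          ring
        rw [e, htN, hN]
        linear_combination (v.1 - u.1) * h1
      have := (mul_eq_zero.1 this).resolve_left hpos.ne'
      linarith
    have h3 : (u.1 - w.1) * (v.1 - w.1) + (u.2 - w.2) * (v.2 - w.2) = -(t * (1 - t) * N) := by
      rw [hw1, hw2, hN]; ring
    rw [h3] at h2
    have h4 : 0 < t * (1 - t) := by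
      by_contra hc
      have := mul_nonpos_of_nonpos_of_nonneg (not_lt.1 hc) hpos.le
      linarith
    have h5 : 0 < t ∧ 0 < 1 - t := by
      rcases (mul_pos_iff.1 h4) with h | h
      · exact h
      · exfalso; linarith [h.1, h.2]
    refine ⟨1 - t, t, h5.2, h5.1, by ring, ?_⟩
    ext
    · simp only [Prod.fst_add, Prod.smul_fst, smul_eq_mul]; rw [hw1]; ring
    · simp only [Prod.snd_add, Prod.smul_snd, smul_eq_mul]; rw [hw2]; ring

/-- a direction vector of a slope -/
noncomputable def Mem_dir : WithTop ℝ → ℝ × ℝ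
  | none => (0, 1)
  | some m => (1, m)

lemma Mem_dir_ne (s : WithTop ℝ) : ¬ ((Mem_dir s).1 = 0 ∧ (Mem_dir s).2 = 0) := by
  cases s with
  | top => intro h; exact one_ne_zero h.2
  | coe m => intro h; exact one_ne_zero h.1

lemma Mem_dir_slope {u v : ℝ × ℝ} (s : WithTop ℝ) (hs : slope u v = s) :
    (Mem_dir s).1 * (v.2 - u.2) = (Mem_dir s).2 * (v.1 - u.1) := by
  unfold slope at hs
  split_ifs at hs with h
  · subst hs
    show (0 : ℝ) * _ = 1 * _
    rw [h]; ring
  · subst hs
    show (1 : ℝ) * _ = (v.2 - u.2) / (v.1 - u.1) * _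
    have : v.1 - u.1 ≠ 0 := sub_ne_zero.2 (Ne.symm h)
    field_simp

/-- the slope of a direction vector -/
noncomputable def Mem_sl (d : ℝ × ℝ) : WithTop ℝ := if d.1 = 0 then ⊤ else ((d.2 / d.1 : ℝ))

lemma Mem_slope_dir {u v d : ℝ × ℝ} (huv : u ≠ v) (hd : ¬ (d.1 = 0 ∧ d.2 = 0))
    (h : d.1 * (v.2 - u.2) = d.2 * (v.1 - u.1)) : slope u v = Mem_sl d := by
  unfold slope Mem_sl
  by_cases h1 : d.1 = 0
  · have h2 : d.2 ≠ 0 := fun h2 => hd ⟨h1, h2⟩
    rw [h1, zero_mul] at h
    have h3 : v.1 - u.1 = 0 := (mul_eq_zero.1 h.symm).resolve_left h2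
    rw [if_pos h1, if_pos (sub_eq_zero.1 h3).symm]
  · have h2 : u.1 ≠ v.1 := by
      intro h2
      rw [h2, sub_self, mul_zero] at h
      have h3 := (mul_eq_zero.1 h).resolve_left h1
      exact huv (Prod.ext h2 (sub_eq_zero.1 h3).symm)
    rw [if_neg h1, if_neg h2]
    congr 1
    rw [div_eq_div_iff (sub_ne_zero.2 (Ne.symm h2)) h1]
    linarith

theorem Mem_correct (I : Inst) : SlopeProblem I ↔ ETR (Mem_f I) := by
  have hadj : ∀ u v : Fin I.n, I.graph.Adj u v ↔
      u ≠ v ∧ (((u : ℕ), (v : ℕ)) ∈ I.edges ∨ ((v : ℕ), (u : ℕ)) ∈ I.edges) := by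
    intro u v
    simp only [Inst.graph, SimpleGraph.fromRel_adj]
  unfold Mem_f
  rw [Mem_ETR]
  constructor
  · intro h
    have hne' : {m | ∃ p : Fin I.n → ℝ × ℝ, IsDrawing I.graph p ∧
        (slopes I.graph p).ncard = m}.Nonempty := by
      refine ⟨_, fun i : Fin I.n => (((i : ℕ) : ℝ), ((i : ℕ) : ℝ) ^ 2), ?_, rfl⟩
      constructor
      · intro i j hij
        have h := (Prod.mk.inj hij).1
        exact Fin.ext (by exact_mod_cast h)
      · intro u v w huv hw
        obtain ⟨a, b, ha, hb, hab, hh⟩ := hw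
        have h1 := congrArg Prod.fst hh
        have h2 := congrArg Prod.snd hh
        simp only [Prod.fst_add, Prod.snd_add, Prod.smul_fst, Prod.smul_snd, smul_eq_mul] at h1 h2
        have hne : ((u : ℕ) : ℝ) ≠ ((v : ℕ) : ℝ) := by
          intro h
          exact huv.ne (Fin.ext (by exact_mod_cast h))
        have hb' : b = 1 - a := by linarith
        have h3 : a * b * (((u : ℕ) : ℝ) - ((v : ℕ) : ℝ)) ^ 2 = 0 := by
          rw [← h1] at h2
          subst hb'
          linear_combination h2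
        have h4 : 0 < a * b * (((u : ℕ) : ℝ) - ((v : ℕ) : ℝ)) ^ 2 := by
          have := sq_pos_of_ne_zero (sub_ne_zero.2 hne)
          positivity
        linarith
    obtain ⟨p, hp, hc⟩ := Nat.sInf_mem hne'
    have hk : (slopes I.graph p).ncard ≤ I.k := by rw [hc]; exact h
    classical
    let P : ℕ → ℝ × ℝ := fun i => if h : i < I.n then p ⟨i, h⟩ else 0
    have hP : ∀ i (h : i < I.n), P i = p ⟨i, h⟩ := fun i h => dif_pos h
    -- the number of slopes is at most the number of edges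
    have hsub : slopes I.graph p ⊆
        ((I.edges.map fun e => slope (P e.1) (P e.2)).toFinset : Set (WithTop ℝ)) := by
      rintro s ⟨u, v, huv, rfl⟩
      rw [List.coe_toFinset]
      rw [hadj] at huv
      have hcomm : ∀ p q : ℝ × ℝ, slope p q = slope q p := by
        intro p q
        unfold slope
        by_cases h : p.1 = q.1
        · rw [if_pos h, if_pos h.symm]
        · rw [if_neg h, if_neg (Ne.symm h)]
          congr 1
          rw [← neg_sub p.2, ← neg_sub p.1, neg_div_neg_eq]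
      rcases huv.2 with h | h
      · refine List.mem_map.2 ⟨_, h, ?_⟩
        simp only [hP _ u.2, hP _ v.2]
      · refine List.mem_map.2 ⟨_, h, ?_⟩
        simp only [hP _ u.2, hP _ v.2]
        exact hcomm _ _
    have hfin : (slopes I.graph p).Finite := (Finset.finite_toSet _).subset hsub
    have hlen : (slopes I.graph p).ncard ≤ I.edges.length := by
      refine (Set.ncard_le_ncard hsub (Finset.finite_toSet _)).trans ?_
      rw [Set.ncard_coe_finset]
      refine (List.toFinset_card_le _).trans ?_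
      rw [List.length_map]
    set k' := min I.k I.edges.length with hk'
    have hcard : hfin.toFinset.card ≤ k' := by
      rw [← Set.ncard_eq_toFinset_card _ hfin]
      exact le_min hk hlen
    let l := hfin.toFinset.toList
    refine ⟨P, fun s => Mem_dir (l.getD s ⊤), ?_, ?_, ?_, ?_⟩
    · intro i hi j hj hij heq
      rw [hP i hi, hP j hj] at heq
      exact hij (Fin.mk.inj (hp.inj heq))
    · intro e he hn1 hn2 hne w hw
      have he' : e ∈ I.edges := List.mem_reverse.1 he
      have hA : I.graph.Adj ⟨e.1, hn1⟩ ⟨e.2, hn2⟩ := by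
        rw [hadj]
        exact ⟨fun h => hne (Fin.mk.inj h), Or.inl he'⟩
      have h1 := hp.avoid _ _ ⟨w, hw⟩ hA
      have h2 : P e.1 ≠ P e.2 := by
        rw [hP _ hn1, hP _ hn2]
        exact fun h => hne (Fin.mk.inj (hp.inj h))
      rw [← hP _ hn1, ← hP _ hn2, ← hP _ hw, Mem_segment h2] at h1
      exact h1
    · intro e he hn1 hn2 hne
      have he' : e ∈ I.edges := List.mem_reverse.1 he
      have hA : I.graph.Adj ⟨e.1, hn1⟩ ⟨e.2, hn2⟩ := by
        rw [hadj]
        exact ⟨fun h => hne (Fin.mk.inj h), Or.inl he'⟩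
      have hmem : slope (P e.1) (P e.2) ∈ l := by
        rw [Finset.mem_toList, Set.Finite.mem_toFinset, hP _ hn1, hP _ hn2]
        exact ⟨_, _, hA, rfl⟩
      obtain ⟨s, hs, hsl⟩ := List.getElem_of_mem hmem
      refine ⟨s, ?_, ?_⟩
      · have : l.length = hfin.toFinset.card := Finset.length_toList _
        omega
      · apply Mem_dir_slope
        rw [List.getD_eq_getElem _ _ hs, hsl]
    · intro s _
      exact Mem_dir_ne _
  · rintro ⟨P, d, h1, h2, h3, h4⟩
    set k' := min I.k I.edges.length with hk'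
    have hdraw : IsDrawing I.graph (fun i : Fin I.n => P i) := by
      constructor
      · intro i j hij
        by_contra hne
        exact h1 i i.2 j j.2 (fun h => hne (Fin.ext h)) hij
      · intro u v w huv
        have hne : P u ≠ P v := h1 u u.2 v v.2 (fun h => huv.ne (Fin.ext h))
        have huv' : (u : ℕ) ≠ v := fun h => huv.ne (Fin.ext h)
        rw [hadj] at huv
        rcases huv.2 with h | h
        · rw [Mem_segment hne]
          exact h2 (u, v) (List.mem_reverse.2 h) u.2 v.2 huv' w w.2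
        · rw [openSegment_symm, Mem_segment hne.symm]
          exact h2 (v, u) (List.mem_reverse.2 h) v.2 u.2 (Ne.symm huv') w w.2
    have hcomm : ∀ p q : ℝ × ℝ, slope p q = slope q p := by
      intro p q
      unfold slope
      by_cases h : p.1 = q.1
      · rw [if_pos h, if_pos h.symm]
      · rw [if_neg h, if_neg (Ne.symm h)]
        congr 1
        rw [← neg_sub p.2, ← neg_sub p.1, neg_div_neg_eq]
    classical
    have hsub : slopes I.graph (fun i : Fin I.n => P i) ⊆
        (((Finset.range k').image fun s => Mem_sl (d s) : Finset (WithTop ℝ)) :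
          Set (WithTop ℝ)) := by
      rintro s ⟨u, v, huv, rfl⟩
      have hne : P u ≠ P v := h1 u u.2 v v.2 (fun h => huv.ne (Fin.ext h))
      have huv' : (u : ℕ) ≠ v := fun h => huv.ne (Fin.ext h)
      rw [hadj] at huv
      rcases huv.2 with h | h
      · obtain ⟨s, hs, hd⟩ := h3 (u, v) (List.mem_reverse.2 h) u.2 v.2 huv'
        simp only [Finset.coe_image, Set.mem_image, Finset.mem_coe, Finset.mem_range]
        exact ⟨s, hs, (Mem_slope_dir hne (h4 s hs) hd).symm⟩
      · obtain ⟨s, hs, hd⟩ := h3 (v, u) (List.mem_reverse.2 h) v.2 u.2 (Ne.symm huv')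
        simp only [Finset.coe_image, Set.mem_image, Finset.mem_coe, Finset.mem_range]
        exact ⟨s, hs, by rw [hcomm]; exact (Mem_slope_dir hne.symm (h4 s hs) hd).symm⟩
    have h5 : slopeNumber I.graph ≤ (slopes I.graph (fun i : Fin I.n => P i)).ncard :=
      Nat.sInf_le ⟨_, hdraw, rfl⟩
    have h6 := Set.ncard_le_ncard hsub (Finset.finite_toSet _)
    rw [Set.ncard_coe_finset] at h6
    have h7 : ((Finset.range k').image fun s => Mem_sl (d s)).card ≤ k' := by
      refine Finset.card_image_le.trans ?_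
      rw [Finset.card_range]
    exact h5.trans (h6.trans (h7.trans (min_le_left _ _)))

/-- SLOPE NUMBER is in the class of the existential theory of the reals. -/
theorem slope_inER : InER encInst SlopeProblem :=
  ⟨Mem_f, PolyTime.tm2_string Mem_g_pt encInst Fm.enc Mem_f Mem_g_encInst, Mem_correct⟩

end Pool.Agent.Slope
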