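import Pool.Agent.Slope.Spec

set_option autoImplicit false

/-!
# The instance generator is polynomial time
-/

namespace Pool.Agent.Slope

open PT

theorem mkPoly_tup_inj : Function.Injective Vx.tup := by
  intro v w h
  cases v <;> cases w <;> simp_all [Vx.tup]
  rename_i s _ s'
  cases s <;> cases s' <;> simp_all

instance instEncVx : Enc Vx := Enc.ofInj Vx.tup mkPoly_tup_inj

section

variable {α : Type} [Enc α]

@[fun_prop]
theorem mkPoly_hub {f : α → ℕ} (hf : PolyTime f) : PolyTime (fun x => Vx.hub (f x)) :=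
  (show PolyTime (fun x => ((0 : ℕ), f x, (0 : ℕ), (0 : ℕ))) by fun_prop).congr_toD fun _ => rfl

@[fun_prop]
theorem mkPoly_gad {f : α → ℕ} {s : α → Bool} (hf : PolyTime f) (hs : PolyTime s) :
    PolyTime (fun x => Vx.gad (f x) (s x)) := by
  have h : PolyTime (fun x => bif s x then (1 : ℕ) else 0) :=
    PolyTime.cond hs (by fun_prop) (by fun_prop)
  exact (show PolyTime (fun x => ((1 : ℕ), f x, (bif s x then (1 : ℕ) else 0), (0 : ℕ))) by
    fun_prop).congr_toD fun _ => rfl

@[fun_prop]
theorem mkPoly_star {f g : α → ℕ} (hf : PolyTime f) (hg : PolyTime g) :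
    PolyTime (fun x => Vx.star (f x) (g x)) :=
  (show PolyTime (fun x => ((2 : ℕ), f x, g x, (0 : ℕ))) by fun_prop).congr_toD fun _ => rfl

@[fun_prop]
theorem mkPoly_part {f g : α → ℕ} (hf : PolyTime f) (hg : PolyTime g) :
    PolyTime (fun x => Vx.part (f x) (g x)) :=
  (show PolyTime (fun x => ((3 : ℕ), f x, g x, (0 : ℕ))) by fun_prop).congr_toD fun _ => rfl

@[fun_prop]
theorem mkPoly_jA {f g h : α → ℕ} (hf : PolyTime f) (hg : PolyTime g) (hh : PolyTime h) :
    PolyTime (fun x => Vx.jA (f x) (g x) (h x)) :=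
  (show PolyTime (fun x => ((4 : ℕ), f x, g x, h x)) by fun_prop).congr_toD fun _ => rfl

@[fun_prop]
theorem mkPoly_jB {f g : α → ℕ} (hf : PolyTime f) (hg : PolyTime g) :
    PolyTime (fun x => Vx.jB (f x) (g x)) :=
  (show PolyTime (fun x => ((5 : ℕ), f x, g x, (0 : ℕ))) by fun_prop).congr_toD fun _ => rfl

@[fun_prop]
theorem mkPoly_tup {v : α → Vx} (hv : PolyTime v) : PolyTime (fun x => (v x).tup) :=
  hv.congr_toD fun _ => rfl

@[fun_prop]
theorem mkPoly_num {B : α → ℕ} {v : α → Vx} (hB : PolyTime B) (hv : PolyTime v) :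
    PolyTime (fun x => (v x).num (B x)) := by
  unfold Vx.num
  fun_prop

@[fun_prop]
theorem mkPoly_side {f : α → ℕ} (hf : PolyTime f) : PolyTime (fun x => side (f x)) := by
  unfold side
  fun_prop

@[fun_prop]
theorem mkPoly_unary {f : α → ℕ} (hf : PolyTime f) : PolyTime (fun x => unary (f x)) := by
  unfold unary
  fun_prop

/-- Bits of a number via iterated halving. -/
theorem mkPoly_bits_eq (n : ℕ) :
    Nat.bits n = (List.range (Nat.size n)).map fun i => decide (((fun m => m / 2)^[i] n) % 2 = 1) := by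
  have key : ∀ (i m : ℕ), (fun m => m / 2)^[i] m = m / 2 ^ i := by
    intro i
    induction i with
    | zero => intro m; simp
    | succ i ih =>
      intro m
      rw [Function.iterate_succ_apply, ih, Nat.div_div_eq_div_mul, pow_succ, mul_comm]
  refine List.ext_getElem (by simp [Nat.size_eq_bits_len]) fun i h1 h2 => ?_
  rw [List.getElem_map, List.getElem_range, key]
  have h3 := Nat.testBit_eq_inth n i
  rw [List.getI_eq_getElem _ h1] at h3
  rw [← h3, Nat.testBit_eq_decide_div_mod_eq]

theorem mkPoly_half_iterate {f g : α → ℕ} (hf : PolyTime f) (hg : PolyTime g) :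
    PolyTime (fun x => (fun m => m / 2)^[g x] (f x)) := by
  refine PolyTime.iterate (f := fun m : ℕ => m / 2) (n := g) (g := f) (by fun_prop) hg hf
    (s := fun x => sz (f x)) hf.pbdd fun x i _ => ?_
  have key : ∀ (i m : ℕ), (fun m => m / 2)^[i] m ≤ m := by
    intro i
    induction i with
    | zero => intro m; simp
    | succ i ih =>
      intro m
      rw [Function.iterate_succ_apply]
      exact (ih _).trans (Nat.div_le_self _ _)
  have := key i (f x)
  simp only [sz_nat]
  omega

@[fun_prop]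
theorem mkPoly_bits {f : α → ℕ} (hf : PolyTime f) : PolyTime (fun x => Nat.bits (f x)) := by
  have h : PolyTime (fun x => (List.range (Nat.size (f x))).map fun i =>
      decide (((fun m => m / 2)^[i] (f x)) % 2 = 1)) := by
    refine PolyTime.map (g := fun x i => decide (((fun m => m / 2)^[i] (f x)) % 2 = 1))
      (by fun_prop) ?_
    have := mkPoly_half_iterate (α := α × ℕ) (f := fun p => f p.1) (g := fun p => p.2)
      (by fun_prop) (by fun_prop)
    fun_prop
  exact h.congr fun x => mkPoly_bits_eq _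

@[fun_prop]
theorem mkPoly_binary {f : α → ℕ} (hf : PolyTime f) : PolyTime (fun x => binary (f x)) := by
  unfold binary
  have h : PolyTime (fun x => (Nat.bits (f x)).flatMap fun b => [true, b]) :=
    PolyTime.flatMap (g := fun _ b => [true, b]) (by fun_prop) (by fun_prop)
  fun_prop

@[fun_prop]
theorem mkPoly_compEdges {n b : α → ℕ} {c : α → Cn} (hn : PolyTime n) (hb : PolyTime b)
    (hc : PolyTime c) : PolyTime (fun x => compEdges (n x) (b x) (c x)) := by
  unfold compEdges
  refine PolyTime.ite (by fun_prop) (by fun_prop) (PolyTime.ite (by fun_prop) (by fun_prop)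
    (by fun_prop))

@[fun_prop]
theorem mkPoly_hubEdges {n : α → ℕ} {cs : α → List Cn} (hn : PolyTime n) (hc : PolyTime cs) :
    PolyTime (fun x => hubEdges (n x) (cs x)) := by
  unfold hubEdges
  exact PolyTime.flatMap (g := fun x b => compEdges (n x) b ((cs x).getD b (0, 0, 0)))
    (by fun_prop) (by fun_prop)

@[fun_prop]
theorem mkPoly_starEdges {k E : α → ℕ} (hk : PolyTime k) (hE : PolyTime E) :
    PolyTime (fun x => starEdges (k x) (E x)) := by
  unfold starEdges
  refine PolyTime.flatMap (g := fun x t => (List.range (k x)).flatMap fun i =>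
    (Vx.star t i, Vx.star t ((i + 1) % k x)) ::
      (List.range (2 * k x - 2)).flatMap fun m =>
        [(Vx.star t i, Vx.jA t i m), (Vx.part t i, Vx.jA t i m)]) (by fun_prop) ?_
  refine PolyTime.flatMap (g := fun (p : α × ℕ) i => 
    (Vx.star p.2 i, Vx.star p.2 ((i + 1) % k p.1)) ::
      (List.range (2 * k p.1 - 2)).flatMap fun m =>
        [(Vx.star p.2 i, Vx.jA p.2 i m), (Vx.part p.2 i, Vx.jA p.2 i m)]) (by fun_prop) ?_
  have h : PolyTime (fun q : (α × ℕ) × ℕ => (List.range (2 * k q.1.1 - 2)).flatMap fun m =>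
        [(Vx.star q.1.2 q.2, Vx.jA q.1.2 q.2 m), (Vx.part q.1.2 q.2, Vx.jA q.1.2 q.2 m)]) :=
    PolyTime.flatMap (g := fun (q : (α × ℕ) × ℕ) m =>
        [(Vx.star q.1.2 q.2, Vx.jA q.1.2 q.2 m), (Vx.part q.1.2 q.2, Vx.jA q.1.2 q.2 m)])
      (by fun_prop) (by fun_prop)
  fun_prop

@[fun_prop]
theorem mkPoly_gadEdges {k e : α → ℕ} {y : α → LE} (hk : PolyTime k) (he : PolyTime e)
    (hy : PolyTime y) : PolyTime (fun x => gadEdges (k x) (e x) (y x)) := by
  unfold gadEdges
  have h : PolyTime (fun x => (List.range (2 * k x - 4)).flatMap fun m =>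
      [(Vx.gad (e x) false, Vx.jB (e x) m), (Vx.gad (e x) true, Vx.jB (e x) m)]) :=
    PolyTime.flatMap (g := fun x m =>
      [(Vx.gad (e x) false, Vx.jB (e x) m), (Vx.gad (e x) true, Vx.jB (e x) m)])
      (by fun_prop) (by fun_prop)
  fun_prop

@[fun_prop]
theorem mkPoly_gEdges {N : α → ℕ} {L : α → List LE} (hN : PolyTime N) (hL : PolyTime L) :
    PolyTime (fun x => gEdges (N x) (L x)) := by
  unfold gEdges
  have h : PolyTime (fun x => (List.range (L x).length).flatMap fun e =>
      gadEdges (6 * N x + 3) e ((L x).getD e (0, 0, 0))) :=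
    PolyTime.flatMap (g := fun x e => gadEdges (6 * N x + 3) e ((L x).getD e (0, 0, 0)))
      (by fun_prop) (by fun_prop)
  fun_prop

@[fun_prop]
theorem mkPoly_bnd {n : α → ℕ} {cs : α → List Cn} (hn : PolyTime n) (hc : PolyTime cs) :
    PolyTime (fun x => bnd (n x) (cs x)) := by
  unfold bnd
  fun_prop

end

/-- The word of the instance is computed in polynomial time. -/
theorem mkInst_polyTime : PT.PolyTime (fun x : ℕ × List Cn => encInst (mkInst x.1 x.2)) := by
  unfold encInst mkInst
  simp only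
  have h1 : PolyTime (fun x : ℕ × List Cn =>
      (gEdges (2 * x.1 + 2) (hubEdges x.1 x.2)).map fun e =>
        (e.1.num (bnd x.1 x.2), e.2.num (bnd x.1 x.2))) :=
    PolyTime.map (g := fun (x : ℕ × List Cn) (e : Vx × Vx) =>
      (e.1.num (bnd x.1 x.2), e.2.num (bnd x.1 x.2))) (by fun_prop) (by fun_prop)
  have h2 : PolyTime (fun x : ℕ × List Cn =>
      ((gEdges (2 * x.1 + 2) (hubEdges x.1 x.2)).map fun e =>
        (e.1.num (bnd x.1 x.2), e.2.num (bnd x.1 x.2))).flatMap fun e =>
          unary e.1 ++ unary e.2) :=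
    PolyTime.flatMap (g := fun (_ : ℕ × List Cn) (e : ℕ × ℕ) => unary e.1 ++ unary e.2) h1
      (by fun_prop)
  fun_prop

end Pool.Agent.Slope
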