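import Mathlib

set_option autoImplicit false

/-!
# Composition of polynomial-time Turing machines (in the sense of Mathlib)

The composite machine of two machines `M` and `N` has the stacks of both machines and one temporary
stack. It runs `M`, moves the output of `M` to the temporary stack and from there to the input stack
of `N` (so that the order is kept), and runs `N`.
-/

namespace Pool.Agent.Slope.TMC

open Turing StateTransition

/-- `c` leads to `c'` in exactly `n` steps. -/
def Steps (P : FinTM2) (n : ℕ) (c c' : P.Cfg) : Prop :=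
  (flip bind P.step)^[n] (some c) = some c'

theorem Steps.one {P : FinTM2} {c c' : P.Cfg} (h : P.step c = some c') : Steps P 1 c c' := h

theorem Steps.trans {P : FinTM2} {m n : ℕ} {c c' c'' : P.Cfg} (h : Steps P m c c')
    (h' : Steps P n c' c'') : Steps P (m + n) c c'' := by
  unfold Steps at *
  rw [add_comm, Function.iterate_add_apply, h, h']

section Composite

variable (M N : FinTM2)

/-- Names of the stacks. -/
abbrev KK : Type := M.K ⊕ (N.K ⊕ Unit)

/-- Alphabets of the stacks. -/
def GG : KK M N → Type
  | .inl k => M.Γ k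
  | .inr (.inl k) => N.Γ k
  | .inr (.inr _) => N.Γ N.k₀

/-- Labels. -/
abbrev LL : Type := M.Λ ⊕ (N.Λ ⊕ (Bool × Option (N.Γ N.k₀)))

/-- Internal states. -/
abbrev SS : Type := M.σ × N.σ × Option (N.Γ N.k₀)

instance instFinLL : Fintype (LL M N) :=
  letI := M.ΛFin
  letI := N.ΛFin
  letI := N.Γk₀Fin
  inferInstance

instance instFinSS : Fintype (SS M N) :=
  letI := M.σFin
  letI := N.σFin
  letI := N.Γk₀Fin
  inferInstance

/-- Translation of the statements of the first machine. -/
def tr1 : TM2.Stmt M.Γ M.Λ M.σ → TM2.Stmt (GG M N) (LL M N) (SS M N)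
  | .push k f q => .push (.inl k) (fun s => f s.1) (tr1 q)
  | .peek k f q => .peek (.inl k) (fun s a => (f s.1 a, s.2)) (tr1 q)
  | .pop k f q => .pop (.inl k) (fun s a => (f s.1 a, s.2)) (tr1 q)
  | .load a q => .load (fun s => (a s.1, s.2)) (tr1 q)
  | .branch f q₁ q₂ => .branch (fun s => f s.1) (tr1 q₁) (tr1 q₂)
  | .goto f => .goto (fun s => .inl (f s.1))
  | .halt => .goto (fun _ => .inr (.inr (false, none)))

/-- Translation of the statements of the second machine. -/
def tr2 : TM2.Stmt N.Γ N.Λ N.σ → TM2.Stmt (GG M N) (LL M N) (SS M N)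
  | .push k f q => .push (.inr (.inl k)) (fun s => f s.2.1) (tr2 q)
  | .peek k f q => .peek (.inr (.inl k)) (fun s a => (s.1, f s.2.1 a, s.2.2)) (tr2 q)
  | .pop k f q => .pop (.inr (.inl k)) (fun s a => (s.1, f s.2.1 a, s.2.2)) (tr2 q)
  | .load a q => .load (fun s => (s.1, a s.2.1, s.2.2)) (tr2 q)
  | .branch f q₁ q₂ => .branch (fun s => f s.2.1) (tr2 q₁) (tr2 q₂)
  | .goto f => .goto (fun s => .inr (.inl (f s.2.1)))
  | .halt => .halt

/-- The program of the composite machine. -/
def prog (e : M.Γ M.k₁ → N.Γ N.k₀) : LL M N → TM2.Stmt (GG M N) (LL M N) (SS M N)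
  | .inl l => tr1 M N (M.m l)
  | .inr (.inl l) => tr2 M N (N.m l)
  | .inr (.inr (false, none)) =>
      .pop (.inl M.k₁) (fun s a => (s.1, s.2.1, Option.map e a))
        (.goto fun s => match s.2.2 with
          | none => .inr (.inr (true, none))
          | some x => .inr (.inr (false, some x)))
  | .inr (.inr (false, some x)) =>
      .push (.inr (.inr ())) (fun _ => x) (.goto fun _ => .inr (.inr (false, none)))
  | .inr (.inr (true, none)) =>
      .pop (.inr (.inr ())) (fun s a => (s.1, s.2.1, a))
        (.goto fun s => match s.2.2 with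
          | none => .inr (.inl N.main)
          | some x => .inr (.inr (true, some x)))
  | .inr (.inr (true, some x)) =>
      .push (.inr (.inl N.k₀)) (fun _ => x) (.goto fun _ => .inr (.inr (true, none)))

/-- The composite machine. -/
def comp (e : M.Γ M.k₁ → N.Γ N.k₀) : FinTM2 where
  K := KK M N
  kDecidableEq := letI := M.kDecidableEq; letI := N.kDecidableEq; inferInstance
  kFin := letI := M.kFin; letI := N.kFin; inferInstance
  k₀ := .inl M.k₀
  k₁ := .inr (.inl N.k₁)
  Γ := GG M N
  Λ := LL M N
  main := .inl M.main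
  ΛFin := instFinLL M N
  σ := SS M N
  initialState := (M.initialState, N.initialState, none)
  σFin := instFinSS M N
  Γk₀Fin := M.Γk₀Fin
  m := prog M N e

variable {M N}

/-- Combined stacks. -/
def comb (S : ∀ k, List (M.Γ k)) (T : ∀ k, List (N.Γ k)) (t : List (N.Γ N.k₀)) :
    ∀ k, List (GG M N k)
  | .inl k => S k
  | .inr (.inl k) => T k
  | .inr (.inr _) => t

theorem comb_update1 [DecidableEq M.K] [DecidableEq (KK M N)] (S : ∀ k, List (M.Γ k))
    (T : ∀ k, List (N.Γ k)) (t : List (N.Γ N.k₀)) (k : M.K) (l : List (M.Γ k)) :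
    Function.update (β := fun k => List (GG M N k)) (comb S T t) (Sum.inl k) l =
      comb (Function.update S k l) T t := by
  have key : ∀ j, j ≠ Sum.inl k → Function.update (β := fun k => List (GG M N k))
      (comb S T t) (Sum.inl k) l j = comb S T t j := fun j hj =>
    Function.update_of_ne (β := fun k => List (GG M N k)) hj l (comb S T t)
  funext j
  rcases j with j | j | j
  · by_cases h : j = k
    · subst h
      exact (Function.update_self _ _ _).trans (Function.update_self j l S).symm
    · have h' : (Sum.inl j : KK M N) ≠ Sum.inl k := fun hh => h (Sum.inl.inj hh)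
      have h2 : Function.update S k l j = S j := Function.update_of_ne h l S
      exact (key _ h').trans h2.symm
  · exact key _ Sum.inr_ne_inl
  · exact key _ Sum.inr_ne_inl

theorem comb_update2 [DecidableEq N.K] [DecidableEq (KK M N)] (S : ∀ k, List (M.Γ k))
    (T : ∀ k, List (N.Γ k)) (t : List (N.Γ N.k₀)) (k : N.K) (l : List (N.Γ k)) :
    Function.update (β := fun k => List (GG M N k)) (comb S T t) (Sum.inr (Sum.inl k)) l =
      comb S (Function.update T k l) t := by
  have key : ∀ j, j ≠ Sum.inr (Sum.inl k) → Function.update (β := fun k => List (GG M N k))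
      (comb S T t) (Sum.inr (Sum.inl k)) l j = comb S T t j :=
    fun j hj =>
    Function.update_of_ne (β := fun k => List (GG M N k)) hj l (comb S T t)
  funext j
  rcases j with j | j | j
  · exact key _ Sum.inl_ne_inr
  · by_cases h : j = k
    · subst h
      exact (Function.update_self _ _ _).trans (Function.update_self j l T).symm
    · have h' : (Sum.inr (Sum.inl j) : KK M N) ≠ Sum.inr (Sum.inl k) :=
        fun hh => h (Sum.inl.inj (Sum.inr.inj hh))
      have h2 : Function.update T k l j = T j := Function.update_of_ne h l T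
      exact (key _ h').trans h2.symm
  · exact key _ (fun h => Sum.inr_ne_inl (Sum.inr.inj h))

theorem comb_update3 [DecidableEq (KK M N)] (S : ∀ k, List (M.Γ k))
    (T : ∀ k, List (N.Γ k)) (t l : List (N.Γ N.k₀)) :
    Function.update (β := fun k => List (GG M N k)) (comb S T t) (Sum.inr (Sum.inr ())) l =
      comb S T l := by
  have key : ∀ j, j ≠ Sum.inr (Sum.inr ()) → Function.update (β := fun k => List (GG M N k))
      (comb S T t) (Sum.inr (Sum.inr ())) l j = comb S T t j :=
    fun j hj =>
    Function.update_of_ne (β := fun k => List (GG M N k)) hj l (comb S T t)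
  funext j
  rcases j with j | j | j
  · exact key _ Sum.inl_ne_inr
  · exact key _ (fun h => Sum.inl_ne_inr (Sum.inr.inj h))
  · exact Function.update_self _ _ _

/-- Embedding of the configurations of the first machine. -/
def emb1 (w : N.σ × Option (N.Γ N.k₀)) (T : ∀ k, List (N.Γ k)) (t : List (N.Γ N.k₀))
    (c : TM2.Cfg M.Γ M.Λ M.σ) : TM2.Cfg (GG M N) (LL M N) (SS M N) :=
  ⟨some (match c.l with
    | some l => .inl l
    | none => .inr (.inr (false, none))), (c.var, w), comb c.stk T t⟩

/-- Embedding of the configurations of the second machine. -/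
def emb2 (v : M.σ) (w : Option (N.Γ N.k₀)) (S : ∀ k, List (M.Γ k)) (t : List (N.Γ N.k₀))
    (c : TM2.Cfg N.Γ N.Λ N.σ) : TM2.Cfg (GG M N) (LL M N) (SS M N) :=
  ⟨c.l.map fun l => .inr (.inl l), (v, c.var, w), comb S c.stk t⟩

theorem stepAux_tr1 (w : N.σ × Option (N.Γ N.k₀)) (T : ∀ k, List (N.Γ k)) (t : List (N.Γ N.k₀))
    [DecidableEq M.K] [DecidableEq (KK M N)] (q : TM2.Stmt M.Γ M.Λ M.σ) :
    ∀ (v : M.σ) (S : ∀ k, List (M.Γ k)),
      TM2.stepAux (tr1 M N q) (v, w) (comb S T t) = emb1 w T t (TM2.stepAux q v S) := by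
  induction q with
  | push k f q ih =>
    intro v S
    simp only [tr1, TM2.stepAux]
    rw [← ih]
    congr 1
    exact comb_update1 S T t k _
  | peek k f q ih =>
    intro v S
    simp only [tr1, TM2.stepAux]
    rw [← ih]
    rfl
  | pop k f q ih =>
    intro v S
    simp only [tr1, TM2.stepAux]
    rw [← ih]
    congr 1
    exact comb_update1 S T t k _
  | load a q ih =>
    intro v S
    simp only [tr1, TM2.stepAux]
    rw [← ih]
  | branch f q₁ q₂ ih₁ ih₂ =>
    intro v S
    simp only [tr1, TM2.stepAux]
    cases f v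
    · simp only [cond_false]; exact ih₂ v S
    · simp only [cond_true]; exact ih₁ v S
  | goto f => intro v S; rfl
  | halt => intro v S; rfl

theorem stepAux_tr2 (v : M.σ) (w : Option (N.Γ N.k₀)) (S : ∀ k, List (M.Γ k))
    (t : List (N.Γ N.k₀)) [DecidableEq N.K] [DecidableEq (KK M N)] (q : TM2.Stmt N.Γ N.Λ N.σ) :
    ∀ (u : N.σ) (T : ∀ k, List (N.Γ k)),
      TM2.stepAux (tr2 M N q) (v, u, w) (comb S T t) = emb2 v w S t (TM2.stepAux q u T) := by
  induction q with
  | push k f q ih =>
    intro v S
    simp only [tr2, TM2.stepAux]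
    rw [← ih]
    congr 1
    exact comb_update2 _ _ t k _
  | peek k f q ih =>
    intro v S
    simp only [tr2, TM2.stepAux]
    rw [← ih]
    rfl
  | pop k f q ih =>
    intro v S
    simp only [tr2, TM2.stepAux]
    rw [← ih]
    congr 1
    exact comb_update2 _ _ t k _
  | load a q ih =>
    intro v S
    simp only [tr2, TM2.stepAux]
    rw [← ih]
  | branch f q₁ q₂ ih₁ ih₂ =>
    intro v S
    simp only [tr2, TM2.stepAux]
    cases f v
    · simp only [cond_false]; exact ih₂ v S
    · simp only [cond_true]; exact ih₁ v S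
  | goto f => intro v S; rfl
  | halt => intro v S; rfl

theorem run1 (e : M.Γ M.k₁ → N.Γ N.k₀) (w : N.σ × Option (N.Γ N.k₀))
    (T : ∀ k, List (N.Γ k)) (t : List (N.Γ N.k₀)) (n : ℕ) : ∀ (c c' : M.Cfg),
      (flip bind M.step)^[n] (some c) = some c' →
      (flip bind (comp M N e).step)^[n] (some (emb1 w T t c : (comp M N e).Cfg)) =
        some (emb1 w T t c' : (comp M N e).Cfg) := by
  induction n with
  | zero =>
    intro c c' h
    have h' : c = c' := Option.some.inj h
    rw [h']
    rfl
  | succ n ih =>
    intro c c' h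
    rw [Function.iterate_succ_apply] at h ⊢
    obtain ⟨l, v, S⟩ := c
    cases l with
    | none =>
      exfalso
      have h1 : flip bind M.step (some ⟨none, v, S⟩) = (none : Option M.Cfg) := rfl
      rw [h1] at h
      have h2 : ∀ m : ℕ, (flip bind M.step)^[m] (none : Option M.Cfg) = none := by
        intro m
        induction m with
        | zero => rfl
        | succ m ih => rw [Function.iterate_succ_apply]; exact ih
      rw [h2] at h
      exact (Option.some_ne_none _ h.symm).elim
    | some l =>
      let _ := M.kDecidableEq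
      have h1 : flip bind M.step (some ⟨some l, v, S⟩) =
          some (TM2.stepAux (M.m l) v S : M.Cfg) := rfl
      rw [h1] at h
      have h2 : flip bind (comp M N e).step
          (some (emb1 w T t ⟨some l, v, S⟩ : (comp M N e).Cfg)) =
          some (emb1 w T t (TM2.stepAux (M.m l) v S) : (comp M N e).Cfg) := by
        exact congrArg some (stepAux_tr1 w T t (M.m l) v S)
      rw [h2]
      exact ih _ _ h

theorem run2 (e : M.Γ M.k₁ → N.Γ N.k₀) (v₀ : M.σ) (w : Option (N.Γ N.k₀))
    (S₀ : ∀ k, List (M.Γ k)) (t : List (N.Γ N.k₀)) (n : ℕ) : ∀ (c c' : N.Cfg),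
      (flip bind N.step)^[n] (some c) = some c' →
      (flip bind (comp M N e).step)^[n] (some (emb2 v₀ w S₀ t c : (comp M N e).Cfg)) =
        some (emb2 v₀ w S₀ t c' : (comp M N e).Cfg) := by
  induction n with
  | zero =>
    intro c c' h
    have h' : c = c' := Option.some.inj h
    rw [h']
    rfl
  | succ n ih =>
    intro c c' h
    rw [Function.iterate_succ_apply] at h ⊢
    obtain ⟨l, v, S⟩ := c
    cases l with
    | none =>
      exfalso
      have h1 : flip bind N.step (some ⟨none, v, S⟩) = (none : Option N.Cfg) := rfl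
      rw [h1] at h
      have h2 : ∀ m : ℕ, (flip bind N.step)^[m] (none : Option N.Cfg) = none := by
        intro m
        induction m with
        | zero => rfl
        | succ m ih => rw [Function.iterate_succ_apply]; exact ih
      rw [h2] at h
      exact (Option.some_ne_none _ h.symm).elim
    | some l =>
      let _ := N.kDecidableEq
      have h1 : flip bind N.step (some ⟨some l, v, S⟩) =
          some (TM2.stepAux (N.m l) v S : N.Cfg) := rfl
      rw [h1] at h
      have h2 : flip bind (comp M N e).step
          (some (emb2 v₀ w S₀ t ⟨some l, v, S⟩ : (comp M N e).Cfg)) =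
          some (emb2 v₀ w S₀ t (TM2.stepAux (N.m l) v S) : (comp M N e).Cfg) := by
        exact congrArg some (stepAux_tr2 v₀ w S₀ t (N.m l) v S)
      rw [h2]
      exact ih _ _ h

/-- Configurations in the first move phase. -/
def mv1 [DecidableEq M.K] (v : M.σ) (u : N.σ) (w : Option (N.Γ N.k₀)) (S₀ : ∀ k, List (M.Γ k))
    (T : ∀ k, List (N.Γ k)) (s : List (M.Γ M.k₁)) (t : List (N.Γ N.k₀)) :
    TM2.Cfg (GG M N) (LL M N) (SS M N) :=
  ⟨some (.inr (.inr (false, none))), (v, u, w), comb (Function.update S₀ M.k₁ s) T t⟩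

/-- Configurations in the second move phase. -/
def mv2 [DecidableEq N.K] (v : M.σ) (u : N.σ) (w : Option (N.Γ N.k₀)) (S : ∀ k, List (M.Γ k))
    (T₀ : ∀ k, List (N.Γ k)) (r t : List (N.Γ N.k₀)) :
    TM2.Cfg (GG M N) (LL M N) (SS M N) :=
  ⟨some (.inr (.inr (true, none))), (v, u, w), comb S (Function.update T₀ N.k₀ r) t⟩

/-- Label after the pop in the first move phase. -/
def lab1 : Option (N.Γ N.k₀) → LL M N
  | none => .inr (.inr (true, none))
  | some x => .inr (.inr (false, some x))

/-- Label after the pop in the second move phase. -/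
def lab2 : Option (N.Γ N.k₀) → LL M N
  | none => .inr (.inl N.main)
  | some x => .inr (.inr (true, some x))

theorem step_mv1 (e : M.Γ M.k₁ → N.Γ N.k₀) [hM : DecidableEq M.K] (v : M.σ) (u : N.σ)
    (w : Option (N.Γ N.k₀)) (S₀ : ∀ k, List (M.Γ k)) (T : ∀ k, List (N.Γ k))
    (s : List (M.Γ M.k₁)) (t : List (N.Γ N.k₀)) :
    (comp M N e).step (mv1 v u w S₀ T s t : (comp M N e).Cfg) =
      some (⟨some (lab1 (s.head?.map e)), (v, u, s.head?.map e),
        comb (Function.update S₀ M.k₁ s.tail) T t⟩ : TM2.Cfg (GG M N) (LL M N) (SS M N)) := by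
  let F : List (M.Γ M.k₁) → TM2.Cfg (GG M N) (LL M N) (SS M N) := fun l =>
    ⟨some (lab1 (l.head?.map e)), (v, u, l.head?.map e),
      @Function.update _ (fun k => List (GG M N k)) (comp M N e).kDecidableEq
        (comb (Function.update S₀ M.k₁ s) T t) (Sum.inl M.k₁) l.tail⟩
  have h1 : comb (Function.update S₀ M.k₁ s) T t (Sum.inl M.k₁) = s := Function.update_self _ _ _
  have h2 : (comp M N e).step (mv1 v u w S₀ T s t : (comp M N e).Cfg) =
      some (F (comb (Function.update S₀ M.k₁ s) T t (Sum.inl M.k₁))) := rfl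
  have h3 : F s = (⟨some (lab1 (s.head?.map e)), (v, u, s.head?.map e),
        comb (Function.update S₀ M.k₁ s.tail) T t⟩ : TM2.Cfg (GG M N) (LL M N) (SS M N)) := by
    have h4 : @Function.update _ (fun k => List (GG M N k)) (comp M N e).kDecidableEq
        (comb (Function.update S₀ M.k₁ s) T t) (Sum.inl M.k₁) s.tail =
        comb (Function.update S₀ M.k₁ s.tail) T t := by
      refine (@comb_update1 M N hM (comp M N e).kDecidableEq _ T t M.k₁ s.tail).trans ?_
      rw [Function.update_idem]
    simp only [F]
    rw [h4]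
  rw [h2, h1, h3]

theorem step_put1 (e : M.Γ M.k₁ → N.Γ N.k₀) [hM : DecidableEq M.K] (v : M.σ) (u : N.σ)
    (w : Option (N.Γ N.k₀)) (S₀ : ∀ k, List (M.Γ k)) (T : ∀ k, List (N.Γ k))
    (s : List (M.Γ M.k₁)) (x : N.Γ N.k₀) (t : List (N.Γ N.k₀)) :
    (comp M N e).step (⟨some (.inr (.inr (false, some x))), (v, u, w),
        comb (Function.update S₀ M.k₁ s) T t⟩ : TM2.Cfg (GG M N) (LL M N) (SS M N)) =
      some (mv1 v u w S₀ T s (x :: t) : (comp M N e).Cfg) := by
  have h2 : (comp M N e).step (⟨some (.inr (.inr (false, some x))), (v, u, w),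
        comb (Function.update S₀ M.k₁ s) T t⟩ : TM2.Cfg (GG M N) (LL M N) (SS M N)) =
      some (⟨some (.inr (.inr (false, none))), (v, u, w),
        @Function.update _ (fun k => List (GG M N k)) (comp M N e).kDecidableEq
        (comb (Function.update S₀ M.k₁ s) T t) (Sum.inr (Sum.inr ())) (x :: t)⟩ :
        TM2.Cfg (GG M N) (LL M N) (SS M N)) := rfl
  have h3 := @comb_update3 M N (comp M N e).kDecidableEq (Function.update S₀ M.k₁ s) T t (x :: t)
  refine h2.trans (congrArg some ?_)
  unfold mv1
  exact congrArg (TM2.Cfg.mk (Γ := GG M N) (Λ := LL M N) (σ := SS M N) _ _) h3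

theorem step_mv2 (e : M.Γ M.k₁ → N.Γ N.k₀) [hN : DecidableEq N.K] (v : M.σ) (u : N.σ)
    (w : Option (N.Γ N.k₀)) (S : ∀ k, List (M.Γ k)) (T₀ : ∀ k, List (N.Γ k))
    (r t : List (N.Γ N.k₀)) :
    (comp M N e).step (mv2 v u w S T₀ r t : (comp M N e).Cfg) =
      some (⟨some (lab2 t.head?), (v, u, t.head?),
        comb S (Function.update T₀ N.k₀ r) t.tail⟩ : TM2.Cfg (GG M N) (LL M N) (SS M N)) := by
  have h2 : (comp M N e).step (mv2 v u w S T₀ r t : (comp M N e).Cfg) =
      some (⟨some (lab2 t.head?), (v, u, t.head?),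
        @Function.update _ (fun k => List (GG M N k)) (comp M N e).kDecidableEq
        (comb S (Function.update T₀ N.k₀ r) t) (Sum.inr (Sum.inr ())) t.tail⟩ :
        TM2.Cfg (GG M N) (LL M N) (SS M N)) := rfl
  have h3 := @comb_update3 M N (comp M N e).kDecidableEq S (Function.update T₀ N.k₀ r) t t.tail
  refine h2.trans (congrArg some ?_)
  exact congrArg (TM2.Cfg.mk (Γ := GG M N) (Λ := LL M N) (σ := SS M N) _ _) h3

theorem step_put2 (e : M.Γ M.k₁ → N.Γ N.k₀) [hN : DecidableEq N.K] (v : M.σ) (u : N.σ)
    (w : Option (N.Γ N.k₀)) (S : ∀ k, List (M.Γ k)) (T₀ : ∀ k, List (N.Γ k))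
    (r : List (N.Γ N.k₀)) (x : N.Γ N.k₀) (t : List (N.Γ N.k₀)) :
    (comp M N e).step (⟨some (.inr (.inr (true, some x))), (v, u, w),
        comb S (Function.update T₀ N.k₀ r) t⟩ : TM2.Cfg (GG M N) (LL M N) (SS M N)) =
      some (mv2 v u w S T₀ (x :: r) t : (comp M N e).Cfg) := by
  let F : List (N.Γ N.k₀) → TM2.Cfg (GG M N) (LL M N) (SS M N) := fun l =>
    ⟨some (.inr (.inr (true, none))), (v, u, w),
      @Function.update _ (fun k => List (GG M N k)) (comp M N e).kDecidableEq
        (comb S (Function.update T₀ N.k₀ r) t) (Sum.inr (Sum.inl N.k₀)) (x :: l)⟩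
  have h1 : comb S (Function.update T₀ N.k₀ r) t (Sum.inr (Sum.inl N.k₀)) = r :=
    Function.update_self _ _ _
  have h2 : (comp M N e).step (⟨some (.inr (.inr (true, some x))), (v, u, w),
        comb S (Function.update T₀ N.k₀ r) t⟩ : TM2.Cfg (GG M N) (LL M N) (SS M N)) =
      some (F (comb S (Function.update T₀ N.k₀ r) t (Sum.inr (Sum.inl N.k₀)))) := rfl
  have h3 : F r = (mv2 v u w S T₀ (x :: r) t : (comp M N e).Cfg) := by
    have h4 : @Function.update _ (fun k => List (GG M N k)) (comp M N e).kDecidableEq
        (comb S (Function.update T₀ N.k₀ r) t) (Sum.inr (Sum.inl N.k₀)) (x :: r) =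
        comb S (Function.update T₀ N.k₀ (x :: r)) t := by
      refine (@comb_update2 M N hN (comp M N e).kDecidableEq _ _ t N.k₀ (x :: r)).trans ?_
      rw [Function.update_idem]
    simp only [F]
    rw [h4]
    rfl
  rw [h2, h1, h3]

theorem move1 (e : M.Γ M.k₁ → N.Γ N.k₀) [hM : DecidableEq M.K] [hN : DecidableEq N.K] (v : M.σ)
    (u : N.σ) (S₀ : ∀ k, List (M.Γ k)) (T₀ : ∀ k, List (N.Γ k)) (r : List (N.Γ N.k₀)) :
    ∀ (s : List (M.Γ M.k₁)) (t : List (N.Γ N.k₀)) (w : Option (N.Γ N.k₀)),
      Steps (comp M N e) (2 * s.length + 1)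
        (mv1 v u w S₀ (Function.update T₀ N.k₀ r) s t : (comp M N e).Cfg)
        (mv2 v u none (Function.update S₀ M.k₁ []) T₀ r ((s.map e).reverse ++ t) :
          (comp M N e).Cfg) := by
  intro s
  induction s with
  | nil =>
    intro t w
    exact step_mv1 e v u w S₀ (Function.update T₀ N.k₀ r) [] t
  | cons x s ih =>
    intro t w
    have e1 : 2 * (x :: s).length + 1 = 1 + (1 + (2 * s.length + 1)) := by
      simp only [List.length_cons]; ring
    have e2 : (List.map e (x :: s)).reverse ++ t = (List.map e s).reverse ++ (e x :: t) := by simp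
    rw [e1, e2]
    refine Steps.trans (Steps.one (step_mv1 e v u w S₀ (Function.update T₀ N.k₀ r) (x :: s) t)) ?_
    refine Steps.trans
      (Steps.one (step_put1 e v u (some (e x)) S₀ (Function.update T₀ N.k₀ r) s (e x) t)) ?_
    exact ih (e x :: t) (some (e x))

theorem move2 (e : M.Γ M.k₁ → N.Γ N.k₀) [hN : DecidableEq N.K] (v : M.σ)
    (u : N.σ) (S : ∀ k, List (M.Γ k)) (T₀ : ∀ k, List (N.Γ k)) :
    ∀ (t r : List (N.Γ N.k₀)) (w : Option (N.Γ N.k₀)),
      Steps (comp M N e) (2 * t.length + 1)
        (mv2 v u w S T₀ r t : (comp M N e).Cfg)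
        (⟨some (.inr (.inl N.main)), (v, u, none),
          comb S (Function.update T₀ N.k₀ (t.reverse ++ r)) []⟩ :
          TM2.Cfg (GG M N) (LL M N) (SS M N)) := by
  intro t
  induction t with
  | nil =>
    intro r w
    exact step_mv2 e v u w S T₀ r []
  | cons x t ih =>
    intro r w
    have e1 : 2 * (x :: t).length + 1 = 1 + (1 + (2 * t.length + 1)) := by
      simp only [List.length_cons]; ring
    have e2 : (x :: t).reverse ++ r = t.reverse ++ (x :: r) := by simp
    rw [e1, e2]
    refine Steps.trans (Steps.one (step_mv2 e v u w S T₀ r (x :: t))) ?_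
    refine Steps.trans (Steps.one (step_put2 e v u (some x) S T₀ r x t)) ?_
    exact ih (x :: r) (some x)

/-! ### Initial and final configurations -/

theorem initList_eq (P : FinTM2) [hP : DecidableEq P.K] (s : List (P.Γ P.k₀)) :
    initList P s = (⟨some P.main, P.initialState, Function.update (fun _ => []) P.k₀ s⟩ :
      TM2.Cfg P.Γ P.Λ P.σ) := by
  unfold initList
  congr 1
  funext k
  by_cases h : k = P.k₀
  · subst h
    rw [Function.update_self]
    simp
  · rw [Function.update_of_ne h]
    simp [h]

theorem haltList_eq (P : FinTM2) [hP : DecidableEq P.K] (s : List (P.Γ P.k₁)) :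
    haltList P s = (⟨none, P.initialState, Function.update (fun _ => []) P.k₁ s⟩ :
      TM2.Cfg P.Γ P.Λ P.σ) := by
  unfold haltList
  congr 1
  funext k
  by_cases h : k = P.k₁
  · subst h
    rw [Function.update_self]
    simp
  · rw [Function.update_of_ne h]
    simp [h]

theorem comb_nil : (fun _ => [] : ∀ k, List (GG M N k)) =
    comb (fun _ => []) (fun _ => []) [] := by
  funext j
  rcases j with j | j | j <;> rfl

theorem comp_steps (e : M.Γ M.k₁ → N.Γ N.k₀) {n₁ n₂ : ℕ} {s : List (M.Γ M.k₀)}
    {s' : List (M.Γ M.k₁)} {s'' : List (N.Γ N.k₁)}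
    (h1 : Steps M n₁ (initList M s) (haltList M s'))
    (h2 : Steps N n₂ (initList N (s'.map e)) (haltList N s'')) :
    Steps (comp M N e) (n₁ + ((2 * s'.length + 1) + ((2 * s'.length + 1) + n₂)))
      (initList (comp M N e) s) (haltList (comp M N e) s'') := by
  let _ := M.kDecidableEq
  let _ := N.kDecidableEq
  let _ := (comp M N e).kDecidableEq
  rw [initList_eq M, haltList_eq M] at h1
  rw [initList_eq N, haltList_eq N] at h2
  have u1 : Function.update (fun _ => [] : ∀ k, List (N.Γ k)) N.k₀ [] = fun _ => [] :=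
    Function.update_eq_self _ _
  have u2 : Function.update (fun _ => [] : ∀ k, List (M.Γ k)) M.k₁ [] = fun _ => [] :=
    Function.update_eq_self _ _
  have r1 : Steps (comp M N e) n₁ _ _ :=
    run1 e (N.initialState, none) (Function.update (fun _ => []) N.k₀ []) [] n₁ _ _ h1
  have r2 := move1 e M.initialState N.initialState (fun _ => []) (fun _ => []) [] s' [] none
  have r3 := move2 e M.initialState N.initialState (Function.update (fun _ => []) M.k₁ [])
    (fun _ => []) ((s'.map e).reverse ++ []) [] none
  have r4 : Steps (comp M N e) n₂ _ _ :=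
    run2 e M.initialState none (Function.update (fun _ => []) M.k₁ []) [] n₂ _ _ h2
  have e3 : ((s'.map e).reverse ++ []).reverse ++ [] = s'.map e := by simp
  have e4 : ((s'.map e).reverse ++ []).length = s'.length := by simp
  rw [e3, e4] at r3
  have r := r1.trans (r2.trans (r3.trans r4))
  have hi : initList (comp M N e) s = (emb1 (N.initialState, none)
      (Function.update (fun _ => []) N.k₀ []) []
      ⟨some M.main, M.initialState, Function.update (fun _ => []) M.k₀ s⟩ :
      TM2.Cfg (GG M N) (LL M N) (SS M N)) := by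
    rw [u1]
    refine (initList_eq (comp M N e) s).trans ?_
    refine congrArg (TM2.Cfg.mk (Γ := GG M N) (Λ := LL M N) (σ := SS M N) _ _) ?_
    have := comb_update1 (M := M) (N := N) (fun _ => []) (fun _ => []) [] M.k₀ s
    rw [← comb_nil] at this
    exact this
  have hh : haltList (comp M N e) s'' = (emb2 M.initialState none
      (Function.update (fun _ => []) M.k₁ []) []
      ⟨none, N.initialState, Function.update (fun _ => []) N.k₁ s''⟩ :
      TM2.Cfg (GG M N) (LL M N) (SS M N)) := by
    rw [u2]
    refine (haltList_eq (comp M N e) s'').trans ?_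
    refine congrArg (TM2.Cfg.mk (Γ := GG M N) (Λ := LL M N) (σ := SS M N) _ _) ?_
    have := comb_update2 (M := M) (N := N) (fun _ => []) (fun _ => []) [] N.k₁ s''
    rw [← comb_nil] at this
    exact this
  rw [hi, hh]
  exact r

end Composite

/-! ### Output length -/

/-- Number of `push` instructions of a statement. -/
def pushes {K : Type} {Γ : K → Type} {Λ σ : Type} : TM2.Stmt Γ Λ σ → ℕ
  | .push _ _ q => pushes q + 1
  | .peek _ _ q => pushes q
  | .pop _ _ q => pushes q
  | .load _ q => pushes q
  | .branch _ q₁ q₂ => pushes q₁ + pushes q₂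
  | .goto _ => 0
  | .halt => 0

theorem len_stepAux {K : Type} [DecidableEq K] {Γ : K → Type} {Λ σ : Type}
    (q : TM2.Stmt Γ Λ σ) : ∀ (v : σ) (S : ∀ k, List (Γ k)) (L : ℕ), (∀ k, (S k).length ≤ L) →
      ∀ k, ((TM2.stepAux q v S).stk k).length ≤ L + pushes q := by
  induction q with
  | push k f q ih =>
    intro v S L hL j
    have h := ih v (Function.update S k (f v :: S k)) (L + 1) (fun i => by
      by_cases hi : i = k
      · subst hi
        rw [Function.update_self]
        have := hL i
        simpa using this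
      · rw [Function.update_of_ne hi]
        exact (hL i).trans (Nat.le_succ L)) j
    simp only [TM2.stepAux, pushes]
    omega
  | peek k f q ih =>
    intro v S L hL j
    exact ih _ S L hL j
  | pop k f q ih =>
    intro v S L hL j
    refine ih _ (Function.update S k (S k).tail) L (fun i => ?_) j
    by_cases hi : i = k
    · subst hi
      rw [Function.update_self, List.length_tail]
      have := hL i
      omega
    · rw [Function.update_of_ne hi]
      exact hL i
  | load a q ih =>
    intro v S L hL j
    exact ih _ S L hL j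
  | branch f q₁ q₂ ih₁ ih₂ =>
    intro v S L hL j
    simp only [TM2.stepAux, pushes]
    cases f v
    · have := ih₂ v S L hL j
      simp only [cond_false]
      omega
    · have := ih₁ v S L hL j
      simp only [cond_true]
      omega
  | goto f => intro v S L hL j; exact hL j
  | halt => intro v S L hL j; exact hL j

theorem len_steps (P : FinTM2) : ∃ C : ℕ, ∀ (n : ℕ) (c c' : P.Cfg), Steps P n c c' →
    ∀ L : ℕ, (∀ k, (c.stk k).length ≤ L) → ∀ k, (c'.stk k).length ≤ L + n * C := by
  let _ := P.kDecidableEq
  let _ := P.ΛFin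
  refine ⟨Finset.univ.sup fun l => pushes (P.m l), ?_⟩
  intro n
  induction n with
  | zero =>
    intro c c' h L hL k
    have h' : c = c' := Option.some.inj h
    rw [← h']
    simpa using hL k
  | succ n ih =>
    intro c c' h L hL k
    unfold Steps at h
    rw [Function.iterate_succ_apply] at h
    obtain ⟨l, v, S⟩ := c
    cases l with
    | none =>
      exfalso
      have h1 : flip bind P.step (some ⟨none, v, S⟩) = (none : Option P.Cfg) := rfl
      rw [h1] at h
      have h2 : ∀ m : ℕ, (flip bind P.step)^[m] (none : Option P.Cfg) = none := by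
        intro m
        induction m with
        | zero => rfl
        | succ m ih => rw [Function.iterate_succ_apply]; exact ih
      rw [h2] at h
      exact (Option.some_ne_none _ h.symm).elim
    | some l =>
      have h1 : flip bind P.step (some ⟨some l, v, S⟩) =
          some (TM2.stepAux (P.m l) v S : P.Cfg) := rfl
      rw [h1] at h
      have h2 := len_stepAux (P.m l) v S L hL
      have h3 : pushes (P.m l) ≤ Finset.univ.sup fun l => pushes (P.m l) :=
        Finset.le_sup (f := fun l => pushes (P.m l)) (Finset.mem_univ l)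
      have h4 := ih _ _ h (L + Finset.univ.sup fun l => pushes (P.m l))
        (fun j => (h2 j).trans (by omega)) k
      refine h4.trans (le_of_eq ?_)
      ring

end Pool.Agent.Slope.TMC

namespace Pool.Agent.Slope

open Turing StateTransition TMC

/-- The composition of two functions computed by Turing machines in polynomial time is computed by
a Turing machine in polynomial time. -/
theorem tm2_comp {α β γ A B C : Type} {ea : α → List A} {eb : β → List B} {ec : γ → List C}
    {f : α → β} {g : β → γ}
    (hf : Nonempty (Turing.TM2ComputableInPolyTime ea eb f))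
    (hg : Nonempty (Turing.TM2ComputableInPolyTime eb ec g)) :
    Nonempty (Turing.TM2ComputableInPolyTime ea ec (fun x => g (f x))) := by
  obtain ⟨F⟩ := hf
  obtain ⟨G⟩ := hg
  obtain ⟨D, hD⟩ := len_steps F.tm
  let e : F.tm.Γ F.tm.k₁ → G.tm.Γ G.tm.k₀ := fun x => G.inputAlphabet.symm (F.outputAlphabet x)
  have hlen : ∀ a, (eb (f a)).length ≤ (ea a).length + F.time.eval (ea a).length * D := by
    intro a
    have h1 := hD _ _ _ (F.outputsFun a).evals_in_steps (ea a).length (fun k => by
      by_cases h : k = F.tm.k₀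
      · subst h
        simp [initList]
      · simp [initList, h]) F.tm.k₁
    have h2 := (F.outputsFun a).steps_le_m
    have h3 : ((haltList F.tm (List.map F.outputAlphabet.invFun (eb (f a)))).stk F.tm.k₁).length =
        (eb (f a)).length := by
      simp [haltList]
    rw [h3] at h1
    exact h1.trans (Nat.add_le_add_left (Nat.mul_le_mul_right _ h2) _)
  have hmono : ∀ (P : Polynomial ℕ) {m n : ℕ}, m ≤ n → P.eval m ≤ P.eval n := by
    intro P m n hmn
    rw [Polynomial.eval_eq_sum_range, Polynomial.eval_eq_sum_range]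
    exact Finset.sum_le_sum fun i _ => Nat.mul_le_mul_left _ (Nat.pow_le_pow_left hmn i)
  let L : Polynomial ℕ := Polynomial.X + F.time * Polynomial.C D
  have key : ∀ a, ∃ n : ℕ,
      n ≤ (F.time + (2 * L + 1 + (2 * L + 1 + G.time.comp L))).eval (ea a).length ∧
      Steps (comp F.tm G.tm e) n (initList (comp F.tm G.tm e) (List.map F.inputAlphabet.invFun (ea a)))
        (haltList (comp F.tm G.tm e) (List.map G.outputAlphabet.invFun (ec (g (f a))))) := by
    intro a
    have hL : L.eval (ea a).length = (ea a).length + F.time.eval (ea a).length * D := by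
      simp [L]
    have h4 := (F.outputsFun a).steps_le_m
    have h5 := (G.outputsFun (f a)).steps_le_m
    have h1 : Steps F.tm _ _ _ := (F.outputsFun a).evals_in_steps
    have h2 : Steps G.tm _ _ _ := (G.outputsFun (f a)).evals_in_steps
    generalize (F.outputsFun a).steps = n₁ at h1 h4
    generalize (G.outputsFun (f a)).steps = n₂ at h2 h5
    have he : List.map e (List.map F.outputAlphabet.invFun (eb (f a))) =
        List.map G.inputAlphabet.invFun (eb (f a)) := by
      rw [List.map_map]
      refine List.map_congr_left fun x _ => ?_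
      simp [e]
    rw [← he] at h2
    refine ⟨_, ?_, comp_steps e h1 h2⟩
    have h6 := hmono G.time (hlen a)
    simp only [List.length_map, Polynomial.eval_add, Polynomial.eval_mul, Polynomial.eval_one,
      Polynomial.eval_comp, Polynomial.eval_ofNat, hL]
    have h7 := hlen a
    omega
  exact ⟨{ tm := comp F.tm G.tm e, inputAlphabet := F.inputAlphabet,
           outputAlphabet := G.outputAlphabet,
           time := F.time + (2 * L + 1 + (2 * L + 1 + G.time.comp L)),
           outputsFun := fun a => ⟨⟨(key a).choose, (key a).choose_spec.2⟩,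
             (key a).choose_spec.1⟩ }⟩

end Pool.Agent.Slope
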