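import Pool.Agent.Slope.Complete
import Pool.Agent.Slope.HubList
import Pool.Agent.Slope.Layout
import Pool.Agent.Slope.Compile
import Pool.Agent.Slope.MkPoly
import Pool.Agent.Slope.Bridge
import Pool.Agent.Slope.Member
import Pool.Agent.Slope.TMComp
import Pool.Agent.Slope.Arith

set_option autoImplicit false

/-!
# SLOPE NUMBER is complete for the existential theory of the reals
-/

namespace Pool.Agent.Slope

/-- The instance is a yes-instance iff the constraint system is solvable. -/
theorem mkInst_correct (n : ℕ) (cs : List Cn) (hwf : ∀ c ∈ cs, Cn.WF n c) :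
    ((∃ y : ℕ → ℝ, (∀ i, 1 < y i) ∧ ∀ c ∈ cs, Cn.Holds y c) → SlopeProblem (mkInst n cs)) ∧
    (SlopeProblem (mkInst n cs) →
      ∃ y : ℕ → ℝ, (∀ i < n, y i ≠ 0) ∧ ∀ c ∈ cs, Cn.Holds y c) := by
  rw [mkInst_iff n cs hwf]
  constructor
  · rintro ⟨y, hy, hc⟩
    exact drawable_of_hubStrong (2 * n + 2) (by omega) _ (hubEdges_lt n cs hwf)
      (hubEdges_chain n cs hwf) (hubEdges_nodup n cs hwf) (hubStrong_of n cs hwf y hy hc)
  · intro h
    exact hubWeak_sound n cs hwf
      (drawable_sound (2 * n + 2) (by omega) _ (hubEdges_lt n cs hwf) h)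

/-- The existential theory of the reals reduces to SLOPE NUMBER. -/
theorem etr_reduces : Reduces Fm.enc ETR encInst SlopeProblem := by
  obtain ⟨F, hF, hspec⟩ := compile_spec
  refine ⟨fun p => mkInst (F p.enc).1 (F p.enc).2, ?_, fun p => ?_⟩
  · have hg : PT.PolyTime (fun w => encInst (mkInst (F w).1 (F w).2)) :=
      PT.PolyTime.comp (g := fun x : ℕ × List Cn => encInst (mkInst x.1 x.2)) (f := F)
        mkInst_polyTime hF
    exact hg.tm2_string Fm.enc encInst _ (fun _ => rfl)
  · obtain ⟨h1, h2, h3⟩ := hspec p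
    obtain ⟨c1, c2⟩ := mkInst_correct _ _ h1
    exact ⟨fun h => c1 (h2 h), fun h => h3 (c2 h)⟩

/-- SLOPE NUMBER is complete for the existential theory of the reals. -/
theorem slope_complete : ERComplete encInst SlopeProblem := by
  refine ⟨slope_inER, ?_⟩
  intro α A ea P hP
  obtain ⟨f, hf, hfP⟩ := hP
  obtain ⟨g, hg, hgP⟩ := etr_reduces
  exact ⟨fun x => g (f x), tm2_comp hf hg, fun x => (hfP x).trans (hgP (f x))⟩

end Pool.Agent.Slope
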