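import Pool.Agent.Slope.Base

set_option autoImplicit false

/-!
# A generic configuration
-/

namespace Pool.Agent.Slope

/-- Cross product with a fixed vector, as a linear map. -/
def crL (u : ℝ × ℝ) : (ℝ × ℝ) →ₗ[ℝ] ℝ where
  toFun := cr u
  map_add' := cr_add_right u
  map_smul' := fun c v => cr_smul_right c u v

theorem crL_apply (u v : ℝ × ℝ) : crL u v = cr u v := rfl

/-- Difference of two points composed with a linear form. -/
noncomputable def dif (f : (ℝ × ℝ) →ₗ[ℝ] ℝ) (z Y : Vx) : (Vx → ℝ × ℝ) →ₗ[ℝ] ℝ :=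
  f ∘ₗ ((LinearMap.proj z : (Vx → ℝ × ℝ) →ₗ[ℝ] (ℝ × ℝ)) - LinearMap.proj Y)

theorem dif_apply (f : (ℝ × ℝ) →ₗ[ℝ] ℝ) (z Y : Vx) (p : Vx → ℝ × ℝ) :
    dif f z Y p = f (p z - p Y) := by
  simp [dif]

/-- The functional measuring the coincidence of a core vertex with a line through junk. -/
noncomputable def psi (C A B : ℝ × ℝ) (z u v : Vx) : (Vx → ℝ × ℝ) →ₗ[ℝ] ℝ where
  toFun p := cr C (p z) - cr C (Jp A B (p u) (p v))
  map_add' p q := by
    simp only [cr_Jp, Pi.add_apply, cr_add_right]; ring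
  map_smul' c p := by
    simp only [cr_Jp, Pi.smul_apply, cr_smul_right, RingHom.id_apply, smul_eq_mul]; ring

theorem psi_apply (C A B : ℝ × ℝ) (z u v : Vx) (p : Vx → ℝ × ℝ) :
    psi C A B z u v p = cr C (p z) - cr C (Jp A B (p u) (p v)) := rfl

/-- Hubs and the other core vertices. -/
def isC (k : ℕ) (L : List LE) (z : Vx) : Prop := isZ k L z ∨ ∃ h ∈ hubs L, z = .hub h

section finite

variable (k : ℕ) (L : List LE)

theorem finite_Z : {z | isZ k L z}.Finite := by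
  have h1 : ((fun x : ℕ × ℕ => Vx.star x.1 x.2) '' (Set.Iic L.length ×ˢ Set.Iio k)).Finite :=
    ((Set.finite_Iic _).prod (Set.finite_Iio _)).image _
  have h2 : ((fun x : ℕ × ℕ => Vx.part x.1 x.2) '' (Set.Iic L.length ×ˢ Set.Iio k)).Finite :=
    ((Set.finite_Iic _).prod (Set.finite_Iio _)).image _
  have h3 : ((fun x : ℕ × Bool => Vx.gad x.1 x.2) ''
      (Set.Iio L.length ×ˢ (Set.univ : Set Bool))).Finite :=
    ((Set.finite_Iio _).prod Set.finite_univ).image _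
  refine ((h1.union h2).union h3).subset ?_
  rintro z (⟨t, i, ht, hi, rfl | rfl⟩ | ⟨e, s, he, rfl⟩)
  · exact Or.inl (Or.inl ⟨(t, i), ⟨ht, hi⟩, rfl⟩)
  · exact Or.inl (Or.inr ⟨(t, i), ⟨ht, hi⟩, rfl⟩)
  · exact Or.inr ⟨(e, s), ⟨he, trivial⟩, rfl⟩

theorem finite_hubs : (hubs L).Finite := by
  have h1 : ((fun x : LE => x.1) '' {x | x ∈ L}).Finite := (List.finite_toSet L).image _
  have h2 : ((fun x : LE => x.2.1) '' {x | x ∈ L}).Finite := (List.finite_toSet L).image _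
  refine (h1.union h2).subset ?_
  rintro h ⟨x, hx, rfl | rfl⟩
  · exact Or.inl ⟨x, hx, rfl⟩
  · exact Or.inr ⟨x, hx, rfl⟩

theorem finite_C : {z | isC k L z}.Finite := by
  refine ((finite_Z k L).union ((finite_hubs L).image Vx.hub)).subset ?_
  rintro z (h | ⟨h, hh, rfl⟩)
  · exact Or.inl h
  · exact Or.inr ⟨h, hh, rfl⟩

theorem finite_J : {z | isJ k L z}.Finite := by
  have h1 : ((fun x : ℕ × ℕ × ℕ => Vx.jA x.1 x.2.1 x.2.2) ''
      (Set.Iic L.length ×ˢ (Set.Iio k ×ˢ Set.Iio (2 * k - 2)))).Finite :=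
    ((Set.finite_Iic _).prod ((Set.finite_Iio _).prod (Set.finite_Iio _))).image _
  have h2 : ((fun x : ℕ × ℕ => Vx.jB x.1 x.2) ''
      (Set.Iio L.length ×ˢ Set.Iio (2 * k - 4))).Finite :=
    ((Set.finite_Iio _).prod (Set.finite_Iio _)).image _
  refine (h1.union h2).subset ?_
  rintro z (⟨t, i, m, ht, hi, hm, rfl⟩ | ⟨e, m, he, hm, rfl⟩)
  · exact Or.inl ⟨(t, i, m), ⟨ht, hi, hm⟩, rfl⟩
  · exact Or.inr ⟨(e, m), ⟨he, hm⟩, rfl⟩

end finite

section

variable {k : ℕ} {L : List LE} {r : ℤ → ℝ × ℝ} {H : ℕ → ℝ × ℝ}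

theorem Rays.reduce (hr : Rays k r) (hk : 1 ≤ k) (i : ℤ) : ∃ j : ℕ, j < k ∧ (k : ℤ) ∣ i - j ∧
    (∀ x, cr (r i) x = 0 ↔ cr (r j) x = 0) := by
  have hk0 : (0 : ℤ) < k := by omega
  have h0 := Int.emod_nonneg i hk0.ne'
  have h1 := Int.emod_lt_of_pos i hk0
  have h2 := Int.emod_add_mul_ediv i k
  refine ⟨(i % k).toNat, by omega, ?_, ?_⟩
  · have : i - ((i % k).toNat : ℤ) = k * (i / k) := by
      rw [Int.toNat_of_nonneg h0]; linarith
    rw [this]; exact dvd_mul_right _ _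
  · have key : ∀ (q j : ℤ) (x : ℝ × ℝ), cr (r (j + k * q)) x = 0 ↔ cr (r j) x = 0 := by
      intro q j x
      induction q with
      | zero => simp
      | succ q ih =>
        have : j + (k : ℤ) * (q + 1) = j + k * q + k := by ring
        rw [this, hr.anti, cr_neg_left, neg_eq_zero, ih]
      | pred q ih =>
        have : j + (k : ℤ) * (-(q : ℤ) - 1) = j + k * (-(q : ℤ)) - k := by ring
        rw [this, hr.anti', cr_neg_left, neg_eq_zero, ih]
    intro x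
    have h3 := key (i / k) (i % k) x
    rw [h2] at h3
    rw [Int.toNat_of_nonneg h0]
    exact h3

theorem Str.congr {i j : ℤ} {z Y : Vx} (h : Str k L j z Y) (hij : (k : ℤ) ∣ i - j) :
    Str k L i z Y := by
  rcases h with ⟨a, h1, h2⟩ | ⟨e, s, h1, h2⟩
  · refine Or.inl ⟨a, h1, ?_⟩
    have : a - i = (a - j) - (i - j) := by ring
    rw [this]; exact dvd_sub h2 hij
  · refine Or.inr ⟨e, s, h1, ?_⟩
    have : 6 * (ln L e : ℤ) + 1 - i = (6 * ln L e + 1 - j) - (i - j) := by ring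
    rw [this]; exact dvd_sub h2 hij

/-- Existence of a generic configuration. -/
theorem exists_generic (hr : Rays k r) (hodd : Odd k) {K : ℕ} (hk : k = 3 * K) (hk9 : 9 ≤ k)
    (hr1 : ∀ i, (r i).1 ≠ 0) (hch : Chain L)
    (hmain : ∀ e, e < L.length → 0 < (r (6 * ln L e + 1)).1 ∧ ∃ c : ℝ, 0 < c ∧
      H (lab L e).2.1 - H (lab L e).1 = c • r (6 * ln L e + 1)) :
    ∃ p, Eqs k L r H p ∧ Psv k L r p ∧
      (∀ z Y, isZ k L z → isC k L Y → Y ≠ z → ∀ i : ℤ, cr (r i) (p z - p Y) = 0 →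
        Str k L i z Y) ∧
      ∀ z W, isZ k L z → isJ k L W → z ≠ ownU W → z ≠ ownV W → ∀ i : ℤ,
        cr (r i) (p z) - cr (r i) (Jp (r (rayU k L W)) (r (rayV k L W))
          (p (ownU W)) (p (ownV W))) = 0 →
        (k : ℤ) ∣ rayU k L W - i ∨ (k : ℤ) ∣ rayV k L W - i := by
  obtain ⟨p₀, hE, hP⟩ := exists_base (H := H) hr hk hk9 hr1 hch hmain
  -- the positive functionals
  obtain ⟨G1, hG1⟩ : ∃ G1 : Set ((Vx → ℝ × ℝ) →ₗ[ℝ] ℝ), G1 = (fun x : ℕ × ℕ =>
    dif ((r (RR k x.1 x.2)).1 • LinearMap.fst ℝ ℝ ℝ) (.star x.1 (nx k x.2)) (.star x.1 x.2)) ''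
      (Set.Iic L.length ×ˢ Set.Iio k) := ⟨_, rfl⟩
  obtain ⟨G2, hG2⟩ : ∃ G2 : Set ((Vx → ℝ × ℝ) →ₗ[ℝ] ℝ), G2 = (fun x : ℕ × ℕ =>
    dif (crL (r (RR k x.1 x.2 - 1))) (.star x.1 x.2) (.part x.1 x.2)) ''
      (Set.Iic L.length ×ˢ Set.Iio k) := ⟨_, rfl⟩
  obtain ⟨G3, hG3⟩ : ∃ G3 : Set ((Vx → ℝ × ℝ) →ₗ[ℝ] ℝ), G3 = (fun x : ℕ × ℕ =>
    dif (crL (- r (RR k x.1 x.2))) (.star x.1 x.2) (.part x.1 x.2)) ''
      (Set.Iic L.length ×ˢ Set.Iio k) := ⟨_, rfl⟩
  obtain ⟨G4, hG4⟩ : ∃ G4 : Set ((Vx → ℝ × ℝ) →ₗ[ℝ] ℝ), G4 =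
    {g | ∃ t i e s a, Cl k L t i e s a ∧
      g = dif ((r a).1 • LinearMap.fst ℝ ℝ ℝ) (.gad e s) (.part t i)} := ⟨_, rfl⟩
  obtain ⟨G5, hG5⟩ : ∃ G5 : Set ((Vx → ℝ × ℝ) →ₗ[ℝ] ℝ), G5 = (fun e : ℕ =>
    dif (LinearMap.fst ℝ ℝ ℝ) (.gad e false) (.hub (lab L e).1)) '' Set.Iio L.length := ⟨_, rfl⟩
  obtain ⟨G6, hG6⟩ : ∃ G6 : Set ((Vx → ℝ × ℝ) →ₗ[ℝ] ℝ), G6 = (fun e : ℕ =>
    dif (LinearMap.fst ℝ ℝ ℝ) (.gad e true) (.gad e false)) '' Set.Iio L.length := ⟨_, rfl⟩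
  obtain ⟨G7, hG7⟩ : ∃ G7 : Set ((Vx → ℝ × ℝ) →ₗ[ℝ] ℝ), G7 = (fun e : ℕ =>
    dif (LinearMap.fst ℝ ℝ ℝ) (.hub (lab L e).2.1) (.gad e true)) '' Set.Iio L.length := ⟨_, rfl⟩
  have hfin4 : G4.Finite := by
    have : ((fun x : (ℕ × ℕ) × (Bool × ℕ × Bool) =>
      (dif ((r (RR k x.1.2 x.2.2.1 + k - (if x.2.1 then 1 else 0))).1 • LinearMap.fst ℝ ℝ ℝ)
        (.gad x.1.1 x.2.2.2) (.part x.1.2 x.2.2.1) : (Vx → ℝ × ℝ) →ₗ[ℝ] ℝ)) ''
        ((Set.Iio L.length ×ˢ Set.Iic L.length) ×ˢ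
          ((Set.univ : Set Bool) ×ˢ (((fun e => 6 * ln L e) '' Set.Iio L.length ∪
            (fun e => 6 * ln L e + 3) '' Set.Iio L.length) ×ˢ (Set.univ : Set Bool))))).Finite :=
      (((Set.finite_Iio _).prod (Set.finite_Iic _)).prod (Set.finite_univ.prod
        ((((Set.finite_Iio _).image _).union ((Set.finite_Iio _).image _)).prod
          Set.finite_univ))).image _
    refine this.subset ?_
    rw [hG4]
    rintro g ⟨t, i, e, s, a, ⟨he, ht, hc⟩, rfl⟩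
    rcases hc with ⟨h1, h2, h3⟩ | ⟨h1, h2, h3⟩
    · refine ⟨((e, t), (false, i, s)), ⟨⟨he, ?_⟩, trivial, Or.inl ⟨e, he, h1.symm⟩, trivial⟩, ?_⟩
      · simp only [Set.mem_Iic]; omega
      · simp only [Bool.false_eq_true, if_false, sub_zero]
        rw [h3]
    · refine ⟨((e, t), (true, i, s)), ⟨⟨he, ?_⟩, trivial, Or.inr ⟨e, he, h1.symm⟩, trivial⟩, ?_⟩
      · simp only [Set.mem_Iic]; omega
      · simp only [if_true]
        rw [h3]
  have hG : (G1 ∪ G2 ∪ G3 ∪ G4 ∪ G5 ∪ G6 ∪ G7).Finite := by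
    have f : (Set.Iic L.length ×ˢ Set.Iio k).Finite :=
      (Set.finite_Iic _).prod (Set.finite_Iio _)
    refine (((((Set.Finite.union ?_ ?_).union ?_).union hfin4).union ?_).union ?_).union ?_
    · rw [hG1]; exact f.image _
    · rw [hG2]; exact f.image _
    · rw [hG3]; exact f.image _
    · rw [hG5]; exact (Set.finite_Iio _).image _
    · rw [hG6]; exact (Set.finite_Iio _).image _
    · rw [hG7]; exact (Set.finite_Iio _).image _
  have hchar : ∀ p : Vx → ℝ × ℝ, (∀ g ∈ G1 ∪ G2 ∪ G3 ∪ G4 ∪ G5 ∪ G6 ∪ G7, 0 < g p) ↔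
      Psv k L r p := by
    intro p
    constructor
    · intro h
      refine ⟨fun t i ht hi => ?_, fun t i ht hi => ?_, fun t i ht hi => ?_,
        fun t i e s a hc => ?_, fun e he => ?_, fun e he => ?_, fun e he => ?_⟩
      · have := h (dif ((r (RR k t i)).1 • LinearMap.fst ℝ ℝ ℝ) (.star t (nx k i)) (.star t i))
          (by rw [hG1]; simp only [Set.mem_union]; left; left; left; left; left; left
              exact ⟨(t, i), ⟨ht, hi⟩, rfl⟩)
        rw [dif_apply] at this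
        exact this
      · have := h (dif (crL (r (RR k t i - 1))) (.star t i) (.part t i))
          (by rw [hG2]; simp only [Set.mem_union]; left; left; left; left; left; right
              exact ⟨(t, i), ⟨ht, hi⟩, rfl⟩)
        rw [dif_apply] at this
        exact this
      · have := h (dif (crL (- r (RR k t i))) (.star t i) (.part t i))
          (by rw [hG3]; simp only [Set.mem_union]; left; left; left; left; right
              exact ⟨(t, i), ⟨ht, hi⟩, rfl⟩)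
        rw [dif_apply] at this
        exact this
      · have := h (dif ((r a).1 • LinearMap.fst ℝ ℝ ℝ) (.gad e s) (.part t i))
          (by rw [hG4]; simp only [Set.mem_union]; left; left; left; right
              exact ⟨t, i, e, s, a, hc, rfl⟩)
        rw [dif_apply] at this
        exact this
      · have := h (dif (LinearMap.fst ℝ ℝ ℝ) (.gad e false) (.hub (lab L e).1))
          (by rw [hG5]; simp only [Set.mem_union]; left; left; right
              exact ⟨e, he, rfl⟩)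
        rw [dif_apply] at this
        exact this
      · have := h (dif (LinearMap.fst ℝ ℝ ℝ) (.gad e true) (.gad e false))
          (by rw [hG6]; simp only [Set.mem_union]; left; right
              exact ⟨e, he, rfl⟩)
        rw [dif_apply] at this
        exact this
      · have := h (dif (LinearMap.fst ℝ ℝ ℝ) (.hub (lab L e).2.1) (.gad e true))
          (by rw [hG7]; simp only [Set.mem_union]; right
              exact ⟨e, he, rfl⟩)
        rw [dif_apply] at this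
        exact this
    · intro h g hg
      simp only [Set.mem_union] at hg
      rcases hg with (((((hg | hg) | hg) | hg) | hg) | hg) | hg
      · rw [hG1] at hg
        obtain ⟨⟨t, i⟩, ⟨ht, hi⟩, rfl⟩ := hg
        simp only [dif_apply]
        exact h.star t i ht hi
      · rw [hG2] at hg
        obtain ⟨⟨t, i⟩, ⟨ht, hi⟩, rfl⟩ := hg
        simp only [dif_apply]
        exact h.cone1 t i ht hi
      · rw [hG3] at hg
        obtain ⟨⟨t, i⟩, ⟨ht, hi⟩, rfl⟩ := hg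
        simp only [dif_apply]
        exact h.cone2 t i ht hi
      · rw [hG4] at hg
        obtain ⟨t, i, e, s, a, hc, rfl⟩ := hg
        simp only [dif_apply]
        exact h.cl t i e s a hc
      · rw [hG5] at hg
        obtain ⟨e, he, rfl⟩ := hg
        simp only [dif_apply]
        exact h.m1 e he
      · rw [hG6] at hg
        obtain ⟨e, he, rfl⟩ := hg
        simp only [dif_apply]
        exact h.m2 e he
      · rw [hG7] at hg
        obtain ⟨e, he, rfl⟩ := hg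
        simp only [dif_apply]
        exact h.m3 e he
  -- the forbidden functionals
  obtain ⟨B1, hB1⟩ : ∃ B1 : Set ((Vx → ℝ × ℝ) →ₗ[ℝ] ℝ), B1 =
    {f | ∃ (i : ℕ) (z Y : Vx), i < k ∧ isZ k L z ∧ isC k L Y ∧ Y ≠ z ∧ ¬ Str k L i z Y ∧
      f = dif (crL (r i)) z Y} := ⟨_, rfl⟩
  obtain ⟨B2, hB2⟩ : ∃ B2 : Set ((Vx → ℝ × ℝ) →ₗ[ℝ] ℝ), B2 =
    {f | ∃ (i : ℕ) (z W : Vx), i < k ∧ isZ k L z ∧ isJ k L W ∧ z ≠ ownU W ∧ z ≠ ownV W ∧
      (¬ (k : ℤ) ∣ rayU k L W - i) ∧ (¬ (k : ℤ) ∣ rayV k L W - i) ∧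
      f = psi (r i) (r (rayU k L W)) (r (rayV k L W)) z (ownU W) (ownV W)} := ⟨_, rfl⟩
  have hB1f : B1.Finite := by
    refine (((Set.finite_Iio k).prod ((finite_Z k L).prod (finite_C k L))).image
      (fun x : ℕ × Vx × Vx => dif (crL (r x.1)) x.2.1 x.2.2)).subset ?_
    rw [hB1]
    rintro f ⟨i, z, Y, hi, hz, hY, _, _, rfl⟩
    exact ⟨(i, z, Y), ⟨hi, hz, hY⟩, rfl⟩
  have hB2f : B2.Finite := by
    refine (((Set.finite_Iio k).prod ((finite_Z k L).prod (finite_J k L))).image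
      (fun x : ℕ × Vx × Vx => psi (r x.1) (r (rayU k L x.2.2)) (r (rayV k L x.2.2)) x.2.1
        (ownU x.2.2) (ownV x.2.2))).subset ?_
    rw [hB2]
    rintro f ⟨i, z, W, hi, hz, hW, _, _, _, _, rfl⟩
    exact ⟨(i, z, W), ⟨hi, hz, hW⟩, rfl⟩
  obtain ⟨p, hpD, hpG, hpB⟩ := perturb (Dirs k L r) _ hG (B1 ∪ B2) (hB1f.union hB2f) (by
    rintro b (hb | hb)
    · rw [hB1] at hb
      obtain ⟨i, z, Y, hi, hz, hY, hne, hs, rfl⟩ := hb
      obtain ⟨δ, hδ, h⟩ := nonvanish1 hr hodd hk9 hch hz hne i hs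
      refine ⟨δ, hδ, ?_⟩
      rw [dif_apply]
      exact h
    · rw [hB2] at hb
      obtain ⟨i, z, W, hi, hz, hW, hzu, hzv, hiu, hiv, rfl⟩ := hb
      obtain ⟨δ, hδ, h⟩ := nonvanish2 hr hodd hk9 hch hW hzu hzv i hiu hiv
      exact ⟨δ, hδ, h⟩) p₀ ((hchar p₀).2 hP)
  refine ⟨p, hE.of_sub hpD, (hchar p).1 hpG, ?_, ?_⟩
  · intro z Y hz hY hne i hi
    obtain ⟨j, hj, hij, hiff⟩ := hr.reduce (by omega) i
    rw [hiff] at hi
    refine Str.congr (j := j) ?_ hij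
    by_contra hs
    refine hpB (dif (crL (r j)) z Y) (Or.inl ?_) ?_
    · rw [hB1]
      exact ⟨j, z, Y, hj, hz, hY, hne, hs, rfl⟩
    · rw [dif_apply]
      exact hi
  · intro z W hz hW hzu hzv i hi
    obtain ⟨j, hj, hij, hiff⟩ := hr.reduce (by omega) i
    rw [← cr_sub_right, hiff, cr_sub_right] at hi
    by_contra hcon
    push Not at hcon
    refine hpB (psi (r j) (r (rayU k L W)) (r (rayV k L W)) z (ownU W) (ownV W))
      (Or.inr ?_) ?_
    · rw [hB2]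
      refine ⟨j, z, W, hj, hz, hW, hzu, hzv, ?_, ?_, rfl⟩
      · intro h
        apply hcon.1
        have : rayU k L W - i = (rayU k L W - j) - (i - j) := by ring
        rw [this]; exact dvd_sub h hij
      · intro h
        apply hcon.2
        have : rayV k L W - i = (rayV k L W - j) - (i - j) := by ring
        rw [this]; exact dvd_sub h hij
    · exact hi

end

end Pool.Agent.Slope
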