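import Pool.Agent.Slope.Spec

set_option autoImplicit false

/-!
# Systems of rays and full pairs
-/

namespace Pool.Agent.Slope

theorem cr_self (u : ℝ × ℝ) : cr u u = 0 := by simp only [cr]; ring
theorem cr_swap (u v : ℝ × ℝ) : cr v u = - cr u v := by simp only [cr]; ring
theorem cr_neg_left (u v : ℝ × ℝ) : cr (-u) v = - cr u v := by
  simp only [cr, Prod.fst_neg, Prod.snd_neg]; ring
theorem cr_neg_right (u v : ℝ × ℝ) : cr u (-v) = - cr u v := by
  simp only [cr, Prod.fst_neg, Prod.snd_neg]; ring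
theorem cr_add_left (u v w : ℝ × ℝ) : cr (u + v) w = cr u w + cr v w := by
  simp only [cr, Prod.fst_add, Prod.snd_add]; ring
theorem cr_add_right (u v w : ℝ × ℝ) : cr u (v + w) = cr u v + cr u w := by
  simp only [cr, Prod.fst_add, Prod.snd_add]; ring
theorem cr_sub_left (u v w : ℝ × ℝ) : cr (u - v) w = cr u w - cr v w := by
  simp only [cr, Prod.fst_sub, Prod.snd_sub]; ring
theorem cr_sub_right (u v w : ℝ × ℝ) : cr u (v - w) = cr u v - cr u w := by
  simp only [cr, Prod.fst_sub, Prod.snd_sub]; ring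
theorem cr_smul_left (c : ℝ) (u v : ℝ × ℝ) : cr (c • u) v = c * cr u v := by
  simp only [cr, Prod.smul_fst, Prod.smul_snd, smul_eq_mul]; ring
theorem cr_smul_right (c : ℝ) (u v : ℝ × ℝ) : cr u (c • v) = c * cr u v := by
  simp only [cr, Prod.smul_fst, Prod.smul_snd, smul_eq_mul]; ring
theorem cr_zero_right (u : ℝ × ℝ) : cr u 0 = 0 := by simp [cr]
theorem cr_zero_left (u : ℝ × ℝ) : cr 0 u = 0 := by simp [cr]

theorem parallel_of_cr {u x : ℝ × ℝ} (hu : u ≠ 0) (h : cr u x = 0) : ∃ c : ℝ, x = c • u := by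
  obtain ⟨a, b⟩ := u
  obtain ⟨x, y⟩ := x
  simp only [cr] at h
  by_cases ha : a = 0
  · have hb : b ≠ 0 := by
      rintro rfl
      exact hu (by rw [ha]; rfl)
    subst ha
    refine ⟨y / b, ?_⟩
    have hx : x = 0 := by
      have : b * x = 0 := by linarith
      rcases mul_eq_zero.1 this with h | h
      · exact absurd h hb
      · exact h
    simp only [Prod.smul_mk, smul_eq_mul, Prod.mk.injEq]
    constructor
    · rw [hx]; ring
    · field_simp
  · refine ⟨x / a, ?_⟩
    simp only [Prod.smul_mk, smul_eq_mul, Prod.mk.injEq]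
    constructor
    · field_simp
    · field_simp
      linarith

/-- A system of `2 k` rays in cyclic order. -/
structure Rays (k : ℕ) (r : ℤ → ℝ × ℝ) : Prop where
  anti : ∀ i : ℤ, r (i + k) = - r i
  pos : ∀ i j : ℤ, i < j → j < i + k → 0 < cr (r i) (r j)

namespace Rays

variable {k : ℕ} {r : ℤ → ℝ × ℝ}

theorem anti' (hr : Rays k r) (i : ℤ) : r (i - k) = - r i := by
  have := hr.anti (i - k)
  rw [sub_add_cancel] at this
  rw [this, neg_neg]

theorem add2 (hr : Rays k r) (i : ℤ) : r (i + 2 * k) = r i := by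
  have : i + 2 * (k : ℤ) = i + k + k := by ring
  rw [this, hr.anti, hr.anti, neg_neg]

theorem add2mul (hr : Rays k r) (i q : ℤ) : r (i + 2 * k * q) = r i := by
  induction q with
  | zero => simp
  | succ q ih =>
    have : i + 2 * (k : ℤ) * (q + 1) = i + 2 * k * q + 2 * k := by ring
    rw [this, hr.add2, ih]
  | pred q ih =>
    have h := hr.add2 (i + 2 * k * (-(q : ℤ) - 1))
    have : i + 2 * (k : ℤ) * (-(q : ℤ) - 1) + 2 * k = i + 2 * k * (-(q : ℤ)) := by ring
    rw [this, ih] at h
    exact h.symm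

theorem congr (hr : Rays k r) {i j : ℤ} (h : (i : ZMod (2 * k)) = (j : ZMod (2 * k))) :
    r i = r j := by
  have h2 := (ZMod.intCast_eq_intCast_iff_dvd_sub i j (2 * k)).1 h
  obtain ⟨q, hq⟩ := h2
  have : j = i + 2 * k * q := by push_cast at hq; linarith
  rw [this, hr.add2mul]

/-- Position of `j` relative to `i`. -/
theorem pos_cases (_hr : Rays k r) (hk : 1 ≤ k) (i j : ℤ) :
    ∃ d : ℤ, 0 ≤ d ∧ d < 2 * k ∧ (j : ZMod (2 * k)) = ((i + d : ℤ) : ZMod (2 * k)) := by
  have hk' : (0 : ℤ) < 2 * k := by omega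
  refine ⟨(j - i) % (2 * k), Int.emod_nonneg _ hk'.ne', Int.emod_lt_of_pos _ hk', ?_⟩
  rw [ZMod.intCast_eq_intCast_iff_dvd_sub]
  refine ⟨-((j - i) / (2 * k)), ?_⟩
  have := Int.emod_add_mul_ediv (j - i) (2 * k)
  push_cast
  linarith

theorem between (hr : Rays k r) (hk : 2 ≤ k) (i b : ℤ) (h1 : 0 < cr (r i) (r b))
    (h2 : 0 < cr (r b) (r (i + 1))) : False := by
  obtain ⟨d, hd0, hd1, hd⟩ := hr.pos_cases (by omega) i b
  rw [hr.congr hd] at h1 h2
  rcases eq_or_lt_of_le hd0 with h | h
  · rw [← h, add_zero, cr_self] at h1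
    exact lt_irrefl _ h1
  · by_cases hdk : d < k
    · by_cases hd1 : d = 1
      · rw [hd1, cr_self] at h2; exact lt_irrefl _ h2
      · have := hr.pos (i + 1) (i + d) (by omega) (by omega)
        rw [cr_swap] at this
        linarith
    · by_cases hdk' : d = k
      · rw [hdk', hr.anti, cr_neg_right, cr_self, neg_zero] at h1
        exact lt_irrefl _ h1
      · have h3 := hr.pos i (i + (d - k)) (by omega) (by omega)
        have h4 : r (i + d) = - r (i + (d - k)) := by
          rw [← hr.anti]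
          congr 1
          ring
        rw [h4, cr_neg_right] at h1
        linarith

theorem ne_zero (hr : Rays k r) (hk : 2 ≤ k) (i : ℤ) : r i ≠ 0 := by
  intro h
  have := hr.pos i (i + 1) (by omega) (by omega)
  rw [h, cr_zero_left] at this
  exact lt_irrefl _ this

theorem cr_eq_zero (hr : Rays k r) (hk : 2 ≤ k) {i j : ℤ} (h : cr (r i) (r j) = 0) :
    (k : ℤ) ∣ j - i := by
  obtain ⟨d, hd0, hd1, hd⟩ := hr.pos_cases (by omega) i j
  rw [hr.congr hd] at h
  have h3 : (k : ℤ) ∣ (i + d) - j := by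
    have := (ZMod.intCast_eq_intCast_iff_dvd_sub _ _ _).1 hd
    refine dvd_trans ?_ this
    exact ⟨2, by push_cast; ring⟩
  have h4 : (k : ℤ) ∣ d := by
    rcases eq_or_lt_of_le hd0 with h0 | h0
    · rw [← h0]; exact dvd_zero _
    · by_cases hdk : d < k
      · have := hr.pos i (i + d) (by omega) (by omega)
        exact absurd h this.ne'
      · by_cases hdk' : d = k
        · rw [hdk']
        · have h3 := hr.pos i (i + (d - k)) (by omega) (by omega)
          have h4 : r (i + d) = - r (i + (d - k)) := by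
            rw [← hr.anti]
            congr 1
            ring
          rw [h4, cr_neg_right] at h
          linarith
  have : j - i = d - ((i + d) - j) := by ring
  rw [this]
  exact dvd_sub h4 h3

/-- Every nonzero vector is on a ray or strictly between two consecutive rays. -/
theorem sector (hr : Rays k r) (hk : 2 ≤ k) {x : ℝ × ℝ} (hx : x ≠ 0) :
    ∃ i : ℤ, (0 < cr (r i) x ∧ 0 < cr x (r (i + 1))) ∨ ∃ c : ℝ, 0 < c ∧ x = c • r i := by
  have par : ∀ i : ℤ, cr (r i) x = 0 → ∃ i : ℤ, (0 < cr (r i) x ∧ 0 < cr x (r (i + 1))) ∨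
      ∃ c : ℝ, 0 < c ∧ x = c • r i := by
    intro i hi
    obtain ⟨c, hc⟩ := parallel_of_cr (hr.ne_zero hk i) hi
    rcases lt_trichotomy c 0 with h | h | h
    · refine ⟨i + k, Or.inr ⟨-c, by linarith, ?_⟩⟩
      rw [hr.anti, smul_neg, neg_smul, neg_neg]
      exact hc
    · exact absurd (by rw [hc, h, zero_smul]) hx
    · exact ⟨i, Or.inr ⟨c, h, hc⟩⟩
  have key : ∀ i0 : ℤ, 0 < cr (r i0) x → ∃ i : ℤ, (0 < cr (r i) x ∧ 0 < cr x (r (i + 1))) ∨
      ∃ c : ℝ, 0 < c ∧ x = c • r i := by
    intro i0 h0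
    have hex : ∃ m : ℕ, cr (r (i0 + m)) x ≤ 0 := by
      refine ⟨k, ?_⟩
      rw [hr.anti, cr_neg_left]
      linarith
    classical
    obtain ⟨m, hm⟩ : ∃ m, Nat.find hex = m := ⟨_, rfl⟩
    have h1 : cr (r (i0 + m)) x ≤ 0 := hm ▸ Nat.find_spec hex
    have hm0 : m ≠ 0 := by
      rintro rfl
      simp only [Nat.cast_zero, add_zero] at h1
      linarith
    obtain ⟨m', rfl⟩ := Nat.exists_eq_succ_of_ne_zero hm0
    have h2 : ¬ cr (r (i0 + m')) x ≤ 0 := Nat.find_min hex (by omega)
    rcases eq_or_lt_of_le h1 with h3 | h3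
    · exact par _ h3
    · refine ⟨i0 + m', Or.inl ⟨not_le.1 h2, ?_⟩⟩
      rw [cr_swap]
      have : i0 + (m' : ℤ) + 1 = i0 + ((m' + 1 : ℕ) : ℤ) := by push_cast; ring
      rw [this]
      have h4 : cr (r (i0 + ((m' + 1 : ℕ) : ℤ))) x < 0 := h3
      linarith
  rcases lt_trichotomy (cr (r 0) x) 0 with h | h | h
  · refine key k ?_
    have := hr.anti 0
    rw [zero_add] at this
    rw [this, cr_neg_left]
    linarith
  · exact par 0 h
  · exact key 0 h

/-- A point seen from `u` along `r i` and from `v` along `r b` (open case, first ray). -/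
theorem away1 (hr : Rays k r) (hk : 2 ≤ k) {u v w : ℝ × ℝ} {i a b : ℤ} {α β : ℝ}
    (hα : 0 < α) (hβ : 0 < β) (hu : w - u = α • r a) (hv : w - v = β • r b)
    (h1 : 0 < cr (r i) (u - v)) (h2 : 0 < cr (u - v) (r (i + 1))) :
    r a ≠ r i ∧ r a ≠ r (i + 1) := by
  have hx : u - v = β • r b - α • r a := by rw [← hu, ← hv]; abel
  rw [hx, cr_sub_right, cr_smul_right, cr_smul_right] at h1
  rw [hx, cr_sub_left, cr_smul_left, cr_smul_left] at h2
  have h3 := hr.pos i (i + 1) (by omega) (by omega)
  constructor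
  · intro h
    rw [h] at h1 h2
    rw [cr_self, mul_zero, sub_zero] at h1
    have h4 : 0 < cr (r i) (r b) := by
      rcases pos_and_pos_or_neg_and_neg_of_mul_pos h1 with h | h
      · exact h.2
      · linarith
    have h5 : 0 < β * cr (r b) (r (i + 1)) := by nlinarith
    have h6 : 0 < cr (r b) (r (i + 1)) := by
      rcases pos_and_pos_or_neg_and_neg_of_mul_pos h5 with h | h
      · exact h.2
      · linarith
    exact hr.between hk i b h4 h6
  · intro h
    rw [h] at h1 h2
    rw [cr_self, mul_zero, sub_zero] at h2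
    have h4 : 0 < cr (r b) (r (i + 1)) := by
      rcases pos_and_pos_or_neg_and_neg_of_mul_pos h2 with h | h
      · exact h.2
      · linarith
    have h5 : 0 < β * cr (r i) (r b) := by nlinarith
    have h6 : 0 < cr (r i) (r b) := by
      rcases pos_and_pos_or_neg_and_neg_of_mul_pos h5 with h | h
      · exact h.2
      · linarith
    exact hr.between hk i b h6 h4

/-- Parallel case. -/
theorem away2 (hr : Rays k r) (hk : 2 ≤ k) {u v w : ℝ × ℝ} {i a b : ℤ} {α β c : ℝ}
    (hα : 0 < α) (hβ : 0 < β) (hu : w - u = α • r a) (hv : w - v = β • r b)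
    (hc : 0 < c) (h : u - v = c • r i) : r a ≠ r (i - 1) ∧ r a ≠ r (i + 1) := by
  have hx : c • r i = β • r b - α • r a := by rw [← h, ← hu, ← hv]; abel
  have h3 := hr.pos i (i + 1) (by omega) (by omega)
  have h3' := hr.pos (i - 1) i (by omega) (by omega)
  constructor
  · intro ha
    rw [ha] at hx
    have e1 : c * cr (r (i - 1)) (r i) = β * cr (r (i - 1)) (r b) := by
      have := congrArg (cr (r (i - 1))) hx
      rwa [cr_sub_right, cr_smul_right, cr_smul_right, cr_smul_right, cr_self, mul_zero,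
        sub_zero] at this
    have e2 : 0 = β * cr (r b) (r i) - α * cr (r (i - 1)) (r i) := by
      have := congrArg (fun x => cr x (r i)) hx
      rwa [cr_sub_left, cr_smul_left, cr_smul_left, cr_smul_left, cr_self, mul_zero] at this
    have h5 : 0 < β * cr (r (i - 1)) (r b) := by rw [← e1]; positivity
    have h6 : 0 < β * cr (r b) (r i) := by nlinarith
    have h7 : 0 < cr (r (i - 1)) (r b) := by
      rcases pos_and_pos_or_neg_and_neg_of_mul_pos h5 with h | h
      · exact h.2
      · linarith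
    have h8 : 0 < cr (r b) (r (i - 1 + 1)) := by
      rw [sub_add_cancel]
      rcases pos_and_pos_or_neg_and_neg_of_mul_pos h6 with h | h
      · exact h.2
      · linarith
    exact hr.between hk (i - 1) b h7 h8
  · intro ha
    rw [ha] at hx
    have e1 : c * cr (r i) (r (i + 1)) = β * cr (r b) (r (i + 1)) := by
      have := congrArg (fun x => cr x (r (i + 1))) hx
      rwa [cr_sub_left, cr_smul_left, cr_smul_left, cr_smul_left, cr_self, mul_zero,
        sub_zero] at this
    have e2 : 0 = β * cr (r i) (r b) - α * cr (r i) (r (i + 1)) := by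
      have := congrArg (cr (r i)) hx
      rwa [cr_sub_right, cr_smul_right, cr_smul_right, cr_smul_right, cr_self, mul_zero] at this
    have h5 : 0 < β * cr (r b) (r (i + 1)) := by rw [← e1]; positivity
    have h6 : 0 < β * cr (r i) (r b) := by nlinarith
    have h7 : 0 < cr (r b) (r (i + 1)) := by
      rcases pos_and_pos_or_neg_and_neg_of_mul_pos h5 with h | h
      · exact h.2
      · linarith
    have h8 : 0 < cr (r i) (r b) := by
      rcases pos_and_pos_or_neg_and_neg_of_mul_pos h6 with h | h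
      · exact h.2
      · linarith
    exact hr.between hk i b h8 h7

end Rays

end Pool.Agent.Slope
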