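import Pool.Agent.Slope.Spec

set_option autoImplicit false

/-!
# The edges of the graph
-/

namespace Pool.Agent.Slope

/-- Edge number `e` of the list. -/
abbrev lab (L : List LE) (e : ℕ) : LE := L.getD e (0, 0, 0)

/-- The edges of the graph, as an inductive predicate. -/
inductive GEdge (N : ℕ) (L : List LE) : Vx → Vx → Prop
  | ss (t i : ℕ) (ht : t ≤ L.length) (hi : i < 6 * N + 3) :
      GEdge N L (.star t i) (.star t ((i + 1) % (6 * N + 3)))
  | sj (t i m : ℕ) (ht : t ≤ L.length) (hi : i < 6 * N + 3) (hm : m < 2 * (6 * N + 3) - 2) :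
      GEdge N L (.star t i) (.jA t i m)
  | pj (t i m : ℕ) (ht : t ≤ L.length) (hi : i < 6 * N + 3) (hm : m < 2 * (6 * N + 3) - 2) :
      GEdge N L (.part t i) (.jA t i m)
  | gg (e : ℕ) (he : e < L.length) : GEdge N L (.gad e false) (.gad e true)
  | hg (e : ℕ) (he : e < L.length) : GEdge N L (.hub (lab L e).1) (.gad e false)
  | gh (e : ℕ) (he : e < L.length) : GEdge N L (.gad e true) (.hub (lab L e).2.1)
  | pg (e t : ℕ) (he : e < L.length) (ht : t = e ∨ t = e + 1) :
      GEdge N L (.part t (6 * (lab L e).2.2)) (.gad e (side t))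
  | pg' (e t : ℕ) (he : e < L.length) (ht : t = e ∨ t = e + 1) :
      GEdge N L (.part t (6 * (lab L e).2.2 + 3)) (.gad e (!side t))
  | gj (e : ℕ) (s : Bool) (m : ℕ) (he : e < L.length) (hm : m < 2 * (6 * N + 3) - 4) :
      GEdge N L (.gad e s) (.jB e m)

theorem mem_gEdges {N : ℕ} {L : List LE} {u v : Vx} :
    (u, v) ∈ gEdges N L ↔ GEdge N L u v := by
  constructor
  · intro h
    rw [gEdges, List.mem_append] at h
    rcases h with h | h
    · rw [starEdges, List.mem_flatMap] at h
      obtain ⟨t, ht, h⟩ := h
      rw [List.mem_range] at ht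
      rw [List.mem_flatMap] at h
      obtain ⟨i, hi, h⟩ := h
      rw [List.mem_range] at hi
      rw [List.mem_cons] at h
      rcases h with h | h
      · obtain ⟨rfl, rfl⟩ := Prod.mk.inj h
        exact .ss t i (by omega) hi
      · rw [List.mem_flatMap] at h
        obtain ⟨m, hm, h⟩ := h
        rw [List.mem_range] at hm
        simp only [List.mem_cons, List.not_mem_nil, or_false, Prod.mk.injEq] at h
        rcases h with ⟨rfl, rfl⟩ | ⟨rfl, rfl⟩
        · exact .sj t i m (by omega) hi hm
        · exact .pj t i m (by omega) hi hm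
    · rw [List.mem_flatMap] at h
      obtain ⟨e, he, h⟩ := h
      rw [List.mem_range] at he
      rw [gadEdges, List.mem_append] at h
      rcases h with h | h
      · simp only [List.mem_cons, List.not_mem_nil, or_false, Prod.mk.injEq] at h
        rcases h with ⟨rfl, rfl⟩ | ⟨rfl, rfl⟩ | ⟨rfl, rfl⟩ | ⟨rfl, rfl⟩ | ⟨rfl, rfl⟩ | ⟨rfl, rfl⟩ |
          ⟨rfl, rfl⟩
        · exact .gg e he
        · exact .hg e he
        · exact .gh e he
        · exact .pg e e he (Or.inl rfl)
        · exact .pg' e e he (Or.inl rfl)
        · exact .pg e (e + 1) he (Or.inr rfl)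
        · exact .pg' e (e + 1) he (Or.inr rfl)
      · rw [List.mem_flatMap] at h
        obtain ⟨m, hm, h⟩ := h
        rw [List.mem_range] at hm
        simp only [List.mem_cons, List.not_mem_nil, or_false, Prod.mk.injEq] at h
        rcases h with ⟨rfl, rfl⟩ | ⟨rfl, rfl⟩
        · exact .gj e false m he hm
        · exact .gj e true m he hm
  · intro h
    rw [gEdges, List.mem_append]
    have star : ∀ (t i : ℕ), t ≤ L.length → i < 6 * N + 3 →
        ∀ x, x ∈ ((Vx.star t i, Vx.star t ((i + 1) % (6 * N + 3))) ::
      (List.range (2 * (6 * N + 3) - 2)).flatMap fun m =>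
        [(Vx.star t i, Vx.jA t i m), (Vx.part t i, Vx.jA t i m)]) →
        x ∈ starEdges (6 * N + 3) L.length := by
      intro t i ht hi x hx
      rw [starEdges, List.mem_flatMap]
      refine ⟨t, List.mem_range.2 (by omega), ?_⟩
      rw [List.mem_flatMap]
      exact ⟨i, List.mem_range.2 hi, hx⟩
    have gad : ∀ e, e < L.length → ∀ x, x ∈ gadEdges (6 * N + 3) e (L.getD e (0, 0, 0)) →
        x ∈ (List.range L.length).flatMap fun e =>
          gadEdges (6 * N + 3) e (L.getD e (0, 0, 0)) := by
      intro e he x hx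
      rw [List.mem_flatMap]
      exact ⟨e, List.mem_range.2 he, hx⟩
    cases h with
    | ss t i ht hi => exact Or.inl (star t i ht hi _ (List.mem_cons_self))
    | sj t i m ht hi hm =>
      refine Or.inl (star t i ht hi _ (List.mem_cons_of_mem _ ?_))
      rw [List.mem_flatMap]
      exact ⟨m, List.mem_range.2 hm, by simp⟩
    | pj t i m ht hi hm =>
      refine Or.inl (star t i ht hi _ (List.mem_cons_of_mem _ ?_))
      rw [List.mem_flatMap]
      exact ⟨m, List.mem_range.2 hm, by simp⟩
    | gg e he => exact Or.inr (gad e he _ (List.mem_append_left _ (by simp)))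
    | hg e he => exact Or.inr (gad e he _ (List.mem_append_left _ (by simp)))
    | gh e he => exact Or.inr (gad e he _ (List.mem_append_left _ (by simp)))
    | pg e t he ht =>
      refine Or.inr (gad e he _ (List.mem_append_left _ ?_))
      rcases ht with rfl | rfl <;> simp
    | pg' e t he ht =>
      refine Or.inr (gad e he _ (List.mem_append_left _ ?_))
      rcases ht with rfl | rfl <;> simp
    | gj e s m he hm =>
      refine Or.inr (gad e he _ (List.mem_append_right _ ?_))
      rw [List.mem_flatMap]
      refine ⟨m, List.mem_range.2 hm, ?_⟩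
      cases s <;> simp

end Pool.Agent.Slope
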