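import Mathlib

set_option autoImplicit false

/-! Layout of the three gadgets: no hub lies in the interior of an edge. -/

namespace Pool.Agent.Slope

lemma lay_seg {P Q R : ℝ × ℝ} (h : R ∈ openSegment ℝ P Q) :
    ∃ α β : ℝ, 0 < α ∧ 0 < β ∧ α + β = 1 ∧ R.1 = α * P.1 + β * Q.1 ∧ R.2 = α * P.2 + β * Q.2 := by
  obtain ⟨α, β, h1, h2, h3, h4⟩ := h
  refine ⟨α, β, h1, h2, h3, ?_, ?_⟩
  · rw [← h4]; simp
  · rw [← h4]; simp

lemma lay_av_eq (a b u : ℝ) (hb : 0 < b) (hab : b < a) (hu : 1 < u) (hub : u * b < a)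
    (P : ℕ → ℝ × ℝ)
    (P0 : P 0 = (0, 0)) (P1 : P 1 = (a, 1)) (P2 : P 2 = (a, u)) (P5 : P 5 = (b, 1))
    (P6 : P 6 = (b, u)) (e : ℕ × ℕ)
    (he : e ∈ [((0 : ℕ), (1 : ℕ)), (0, 2), (0, 5), (0, 6), (1, 2), (5, 1), (5, 6), (6, 2)]) (h : ℕ)
    (hh : h ∈ [0, 1, 2, 5, 6]) : P h ∉ openSegment ℝ (P e.1) (P e.2) := by
  intro hm
  obtain ⟨α, β, hα, hβ, hαβ, h1, h2⟩ := lay_seg hm
  have ha : 0 < a := hb.trans hab
  have hu0 : 0 < u := by linarith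
  simp only [List.mem_cons, List.not_mem_nil, or_false] at he hh
  obtain rfl : α = 1 - β := by linarith
  rcases he with rfl | rfl | rfl | rfl | rfl | rfl | rfl | rfl <;>
  rcases hh with rfl | rfl | rfl | rfl | rfl <;>
  simp only [P0, P1, P2, P5, P6] at h1 h2 <;>
  first
    | linarith
    | nlinarith [mul_pos hβ ha, mul_pos hβ hb, mul_pos hβ hu0, mul_pos hβ (sub_pos.2 hu),
        mul_pos hβ (sub_pos.2 hab), mul_pos hα (sub_pos.2 hab), mul_pos hα (sub_pos.2 hu),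
        mul_pos ha (sub_pos.2 hu), mul_pos hb (sub_pos.2 hu), mul_pos hα ha, mul_pos hα hb,
        mul_pos hβ (sub_pos.2 hub)]

lemma lay_inj_eq (a b u : ℝ) (hb : 0 < b) (hab : b < a) (hu : 1 < u)
    (P : ℕ → ℝ × ℝ)
    (P0 : P 0 = (0, 0)) (P1 : P 1 = (a, 1)) (P2 : P 2 = (a, u)) (P5 : P 5 = (b, 1))
    (P6 : P 6 = (b, u)) (g : ℕ) (hg : g ∈ [0, 1, 2, 5, 6]) (h : ℕ)
    (hh : h ∈ [0, 1, 2, 5, 6]) (hP : P g = P h) : g = h := by
  simp only [List.mem_cons, List.not_mem_nil, or_false] at hg hh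
  rcases hg with rfl | rfl | rfl | rfl | rfl <;>
  rcases hh with rfl | rfl | rfl | rfl | rfl <;>
  first
    | rfl
    | (exfalso
       simp only [P0, P1, P2, P5, P6, Prod.mk.injEq] at hP
       first
         | linarith [hP.1, hP.2]
         | nlinarith [hP.1, hP.2])

lemma lay_inj_add (a1 a2 a3 u1 u2 : ℝ) (h3 : 0 < a3) (h32 : a3 < a2) (h21 : a2 < a1) (hu1 : 1 < u1)
    (hu2 : 1 < u2) (P : ℕ → ℝ × ℝ)
    (P0 : P 0 = (0, 0)) (P1 : P 1 = (a1, 1)) (P2 : P 2 = (a1, u1)) (P3 : P 3 = (a2, 1))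
    (P4 : P 4 = (a2, u2)) (P5 : P 5 = (a3, 1)) (P6 : P 6 = (a3, u1 + u2))
    (P7 : P 7 = (a1 + a2, u1 + u2))
    (g : ℕ) (hg : g ∈ [0, 1, 2, 3, 4, 5, 6, 7]) (h : ℕ)
    (hh : h ∈ [0, 1, 2, 3, 4, 5, 6, 7]) (hP : P g = P h) : g = h := by
  simp only [List.mem_cons, List.not_mem_nil, or_false] at hg hh
  rcases hg with rfl | rfl | rfl | rfl | rfl | rfl | rfl | rfl <;>
  rcases hh with rfl | rfl | rfl | rfl | rfl | rfl | rfl | rfl <;>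
  first
    | rfl
    | (exfalso
       simp only [P0, P1, P2, P3, P4, P5, P6, P7, Prod.mk.injEq] at hP
       linarith [hP.1, hP.2])

lemma lay_inj_mul (a1 c2 a3 u1 u2 : ℝ) (h3 : 0 < a3) (h32 : a3 < c2) (h21 : c2 < a1) (hu1 : 1 < u1)
    (hu2 : 1 < u2) (P : ℕ → ℝ × ℝ)
    (P0 : P 0 = (0, 0)) (P1 : P 1 = (a1, 1)) (P2 : P 2 = (a1, u1)) (P3 : P 3 = (c2, u1))
    (P4 : P 4 = (c2, u1 * u2)) (P5 : P 5 = (a3, 1)) (P6 : P 6 = (a3, u1 * u2))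
    (g : ℕ) (hg : g ∈ [0, 1, 2, 3, 4, 5, 6]) (h : ℕ)
    (hh : h ∈ [0, 1, 2, 3, 4, 5, 6]) (hP : P g = P h) : g = h := by
  have hu : u1 < u1 * u2 := by nlinarith
  simp only [List.mem_cons, List.not_mem_nil, or_false] at hg hh
  rcases hg with rfl | rfl | rfl | rfl | rfl | rfl | rfl <;>
  rcases hh with rfl | rfl | rfl | rfl | rfl | rfl | rfl <;>
  first
    | rfl
    | (exfalso
       simp only [P0, P1, P2, P3, P4, P5, P6, Prod.mk.injEq] at hP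
       linarith [hP.1, hP.2])

end Pool.Agent.Slope
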