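import Pool.Agent.Slope.Config

set_option autoImplicit false

/-!
# No unwanted coincidence persists under all moves
-/

namespace Pool.Agent.Slope

/-- Core neighbours of the non-hub core vertices, with the number of the ray. -/
inductive CNb (k : ℕ) (L : List LE) : Vx → Vx → ℤ → Prop
  | s1 (t i : ℕ) (hi : i < k) : CNb k L (.star t i) (.star t (nx k i)) (RR k t i)
  | s2 (t i : ℕ) (hi : i < k) : CNb k L (.star t (nx k i)) (.star t i) (RR k t i + k)
  | pg (t i e : ℕ) (s : Bool) (a : ℤ) (h : Cl k L t i e s a) : CNb k L (.part t i) (.gad e s) a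
  | gp (t i e : ℕ) (s : Bool) (a : ℤ) (h : Cl k L t i e s a) :
      CNb k L (.gad e s) (.part t i) (a + k)
  | gg (e : ℕ) : CNb k L (.gad e false) (.gad e true) (6 * ln L e + 1)
  | gg' (e : ℕ) : CNb k L (.gad e true) (.gad e false) (6 * ln L e + 1 + k)
  | gh (e : ℕ) : CNb k L (.gad e false) (.hub (lab L e).1) (6 * ln L e + 1 + k)
  | gh' (e : ℕ) : CNb k L (.gad e true) (.hub (lab L e).2.1) (6 * ln L e + 1)

/-- The structural coincidences. -/
def Str (k : ℕ) (L : List LE) (i : ℤ) (z Y : Vx) : Prop :=
  (∃ a, CNb k L z Y a ∧ (k : ℤ) ∣ a - i) ∨ ∃ e s, z = .gad e s ∧ (k : ℤ) ∣ 6 * ln L e + 1 - i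

/-- The non-hub core vertices. -/
def isZ (k : ℕ) (L : List LE) (z : Vx) : Prop :=
  (∃ t i, t ≤ L.length ∧ i < k ∧ (z = .star t i ∨ z = .part t i)) ∨
    ∃ e s, e < L.length ∧ z = .gad e s

theorem dvd_of_sub {k x y : ℤ} (h : k ∣ x - y) (hy : k ∣ y) : k ∣ x := by
  have := dvd_add h hy
  rwa [sub_add_cancel] at this

theorem dvd_of_add {k x y : ℤ} (h : k ∣ x + y) (hy : k ∣ y) : k ∣ x := by
  have := dvd_sub h hy
  rwa [add_sub_cancel_right] at this

section

variable {k : ℕ} {L : List LE} {r : ℤ → ℝ × ℝ}

theorem Cl.two (hk : 3 ≤ k) {t i t' i' e : ℕ} {s : Bool} {a a' : ℤ}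
    (h : Cl k L t i e s a) (h' : Cl k L t' i' e s a') (hne : ¬ (t = t' ∧ i = i')) :
    ¬ (k : ℤ) ∣ a - a' := by
  have ht := h.2.1
  have ht' := h'.2.1
  intro hd
  have htt : side t = side t' → t = t' := by
    intro hs
    rcases ht with rfl | rfl <;> rcases ht' with h2 | h2
    · exact h2.symm
    · subst h2
      rw [side_succ] at hs
      cases h3 : side t <;> simp [h3] at hs
    · subst h2
      rw [side_succ] at hs
      cases h3 : side t' <;> simp [h3] at hs
    · exact h2.symm
  rcases h.slope with ⟨h1, h2, h3⟩ | ⟨h1, h2, h3⟩ <;>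
    rcases h'.slope with ⟨h1', h2', h3'⟩ | ⟨h1', h2', h3'⟩
  · exact hne ⟨htt (h3.symm.trans h3'), by omega⟩
  · have : (k : ℤ) ∣ 2 := by
      have e1 : (2 : ℤ) = (a - 6 * ln L e) - (a' - (6 * ln L e + 2)) - (a - a') := by ring
      rw [e1]
      exact dvd_sub (dvd_sub h1 h1') hd
    have := Int.le_of_dvd (by norm_num) this
    omega
  · have : (k : ℤ) ∣ 2 := by
      have e1 : (2 : ℤ) = (a' - 6 * ln L e) - (a - (6 * ln L e + 2)) + (a - a') := by ring
      rw [e1]
      exact dvd_add (dvd_sub h1' h1) hd
    have := Int.le_of_dvd (by norm_num) this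
    omega
  · have h4 : side t = side t' := by
      have := h3.symm.trans h3'
      cases h5 : side t <;> cases h6 : side t' <;> simp_all
    exact hne ⟨htt h4, by omega⟩

/-- The slope of a client edge differs from the slope of the gadget. -/
theorem Cl.ne_main (hk : 3 ≤ k) {t i e : ℕ} {s : Bool} {a : ℤ}
    (h : Cl k L t i e s a) : ¬ (k : ℤ) ∣ 6 * ln L e + 1 - a := by
  intro hd
  rcases h.slope with ⟨h1, _, _⟩ | ⟨h1, _, _⟩
  · have : (k : ℤ) ∣ 1 := by
      have e1 : (1 : ℤ) = (6 * ln L e + 1 - a) + (a - 6 * ln L e) := by ring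
      rw [e1]
      exact dvd_add hd h1
    have := Int.le_of_dvd (by norm_num) this
    omega
  · have : (k : ℤ) ∣ 1 := by
      have e1 : (1 : ℤ) = -((6 * ln L e + 1 - a) + (a - (6 * ln L e + 2))) := by ring
      rw [e1]
      exact (dvd_neg).2 (dvd_add hd h1)
    have := Int.le_of_dvd (by norm_num) this
    omega

theorem moveStar_self (t i : ℕ) : moveStar k r t i (.star t i) =
    cr (r (RR k t i)) (r (RR k t i + 1)) • r (RR k t i - 1) := by
  simp [moveStar]

theorem moveStar_nx (hk : 2 ≤ k) {t i : ℕ} (hi : i < k) : moveStar k r t i (.star t (nx k i)) =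
    cr (r (RR k t i)) (r (RR k t i - 1)) • r (RR k t i + 1) := by
  have := nx_ne hk hi
  simp [moveStar, this]

theorem moveStar_other {t i : ℕ} {Y : Vx} (h1 : Y ≠ .star t i) (h2 : Y ≠ .star t (nx k i)) :
    moveStar k r t i Y = 0 := by
  simp [moveStar, h1, h2]

/-- No non-structural coincidence of core vertices persists. -/
theorem nonvanish1 (hr : Rays k r) (hodd : Odd k) (hk : 9 ≤ k) (hch : Chain L) {z Y : Vx}
    (hz : isZ k L z) (hne : Y ≠ z) (i : ℤ) (hstr : ¬ Str k L i z Y) :
    ∃ δ ∈ Dirs k L r, cr (r i) (δ z - δ Y) ≠ 0 := by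
  have hk2 : 2 ≤ k := by omega
  have hclient : ∀ {t i' e : ℕ} {s : Bool} {a : ℤ}, Cl k L t i' e s a → z = .part t i' →
      ¬ (k : ℤ) ∣ a - i → ∃ δ ∈ Dirs k L r, cr (r i) (δ z - δ Y) ≠ 0 := by
    intro t i' e s a hc hz ha
    refine ⟨_, move_client hch hc, ?_⟩
    subst hz
    simp only [if_true, if_neg hne, sub_zero]
    exact hr.cr_ne hk2 ha
  have hclientY : ∀ {t i' e : ℕ} {s : Bool} {a : ℤ}, Cl k L t i' e s a → Y = .part t i' →
      ¬ (k : ℤ) ∣ a - i → ∃ δ ∈ Dirs k L r, cr (r i) (δ z - δ Y) ≠ 0 := by
    intro t i' e s a hc hY ha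
    refine ⟨_, move_client hch hc, ?_⟩
    subst hY
    simp only [if_true, if_neg hne.symm, zero_sub, cr_neg_right]
    exact neg_ne_zero.2 (hr.cr_ne hk2 ha)
  have hgad : ∀ {e : ℕ} {s : Bool}, moveGad k L r e s z = r (6 * ln L e + 1) →
      Y ≠ .gad e s → (∀ t i' a, Cl k L t i' e s a → Y ≠ .part t i') →
      ¬ (k : ℤ) ∣ 6 * ln L e + 1 - i → ∃ δ ∈ Dirs k L r, cr (r i) (δ z - δ Y) ≠ 0 := by
    intro e s hzz hY hYc hi
    refine ⟨_, move_gad hch (e := e) (s := s), ?_⟩
    have : moveGad k L r e s Y = 0 := by
      cases Y with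
      | gad e' s' =>
        simp only [moveGad]
        rw [if_neg]
        rintro ⟨rfl, rfl⟩
        exact hY rfl
      | part t i' =>
        simp only [moveGad]
        rw [if_neg]
        rintro ⟨a, ha⟩
        exact hYc t i' a ha rfl
      | hub h => rfl
      | star t i => rfl
      | jA t i m => rfl
      | jB e m => rfl
    rw [hzz, this, sub_zero]
    exact hr.cr_ne hk2 hi
  rcases hz with ⟨t, i0, ht, hi0, rfl | rfl⟩ | ⟨e, s, he, rfl⟩
  · -- star vertex
    obtain ⟨j, hj, hji⟩ := nx_surj hi0
    have hRj := RR_nx (t := t) hodd hj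
    rw [hji] at hRj
    have hRj1 : (k : ℤ) ∣ RR k t j + 1 - RR k t i0 := by
      have : RR k t j + 1 - RR k t i0 = -(RR k t i0 - (RR k t j + k + 1)) - k := by ring
      rw [this]
      exact dvd_sub ((dvd_neg).2 (dvd_k_of_dvd_two_k hRj)) (dvd_refl _)
    have useprev : ¬ (k : ℤ) ∣ RR k t i0 - i → Y ≠ .star t j →
        ∃ δ ∈ Dirs k L r, cr (r i) (δ (.star t i0) - δ Y) ≠ 0 := by
      intro hi hY
      refine ⟨_, move_star hr hodd (by omega) hj (L := L) (t := t), ?_⟩
      have e1 : moveStar k r t j (.star t i0) =
          cr (r (RR k t j)) (r (RR k t j - 1)) • r (RR k t j + 1) := by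
        rw [← hji]; exact moveStar_nx hk2 hj
      rw [e1, moveStar_other hY (by rw [hji]; exact hne), sub_zero, cr_smul_right]
      refine mul_ne_zero (hr.cr_ne hk2 ?_) (hr.cr_ne hk2 ?_)
      · intro h
        have := small_dvd h (by omega) (by omega)
        omega
      · intro h
        apply hi
        have : RR k t i0 - i = (RR k t j + 1 - i) - (RR k t j + 1 - RR k t i0) := by ring
        rw [this]
        exact dvd_sub h hRj1
    by_cases hY : Y = .star t (nx k i0)
    · refine useprev (fun h => hstr (Or.inl ⟨_, ?_, h⟩)) ?_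
      · rw [hY]; exact .s1 t i0 hi0
      · rw [hY, ← hji]
        intro h
        simp only [Vx.star.injEq, true_and] at h
        exact nx_nx_ne (by omega) hj h
    · by_cases hi : (k : ℤ) ∣ RR k t i0 - 1 - i
      · refine useprev (fun h => ?_) (fun hYj => hstr (Or.inl ⟨RR k t j + k, ?_, ?_⟩))
        · have : (k : ℤ) ∣ 1 := by
            have e1 : (1 : ℤ) = (RR k t i0 - i) - (RR k t i0 - 1 - i) := by ring
            rw [e1]; exact dvd_sub h hi
          have := Int.le_of_dvd (by norm_num) this
          omega
        · rw [hYj, ← hji]; exact .s2 t j hj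
        · have : RR k t j + k - i = (RR k t j + 1 - RR k t i0) + (RR k t i0 - 1 - i) + k := by
            ring
          rw [this]
          exact dvd_add (dvd_add hRj1 hi) (dvd_refl _)
      · refine ⟨_, move_star hr hodd (by omega) hi0 (L := L) (t := t), ?_⟩
        rw [moveStar_self, moveStar_other hne hY, sub_zero, cr_smul_right]
        refine mul_ne_zero (hr.cr_ne hk2 ?_) (hr.cr_ne hk2 hi)
        intro h
        have := small_dvd h (by omega) (by omega)
        omega
  · -- part
    by_cases hc : ∃ e s a, Cl k L t i0 e s a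
    · obtain ⟨e, s, a, hc⟩ := hc
      by_cases ha : (k : ℤ) ∣ a - i
      · by_cases hY : ∃ t' i' a', Cl k L t' i' e s a' ∧ Y = .part t' i'
        · obtain ⟨t', i', a', hc', rfl⟩ := hY
          refine hclientY hc' rfl fun h => ?_
          refine hc.two (by omega) hc' ?_ ?_
          · rintro ⟨rfl, rfl⟩; exact hne rfl
          · have : a - a' = (a - i) - (a' - i) := by ring
            rw [this]; exact dvd_sub ha h
        · push Not at hY
          refine hgad (e := e) (s := s) ?_ ?_ hY ?_
          · simp only [moveGad]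
            rw [if_pos ⟨a, hc⟩]
          · rintro rfl
            exact hstr (Or.inl ⟨a, .pg _ _ _ _ _ hc, ha⟩)
          · intro h
            refine hc.ne_main (by omega) ?_
            have : 6 * (ln L e : ℤ) + 1 - a = (6 * ln L e + 1 - i) - (a - i) := by ring
            rw [this]; exact dvd_sub h ha
      · exact hclient hc rfl ha
    · push Not at hc
      refine ⟨_, move_dummy hc (r (i + 1)), ?_⟩
      simp only [if_true, if_neg hne, sub_zero]
      exact (hr.pos i (i + 1) (by omega) (by omega)).ne'
  · -- gadget vertex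
    have hi : ¬ (k : ℤ) ∣ 6 * ln L e + 1 - i := fun h => hstr (Or.inr ⟨e, s, rfl, h⟩)
    by_cases hY : ∃ t' i' a', Cl k L t' i' e s a' ∧ Y = .part t' i'
    · obtain ⟨t', i', a', hc', rfl⟩ := hY
      refine hclientY hc' rfl fun h => hstr (Or.inl ⟨a' + k, .gp _ _ _ _ _ hc', ?_⟩)
      have : a' + k - i = (a' - i) + k := by ring
      rw [this]; exact dvd_add h (dvd_refl _)
    · push Not at hY
      refine hgad (e := e) (s := s) ?_ hne hY hi
      simp [moveGad]

/-- The point seen from `u` in direction `A` and from `v` in direction `B`. -/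
noncomputable def Jp (A B u v : ℝ × ℝ) : ℝ × ℝ := (cr A B)⁻¹ • (cr A u • B - cr B v • A)

theorem cr_Jp (C A B u v : ℝ × ℝ) :
    cr C (Jp A B u v) = (cr A B)⁻¹ * (cr A u * cr C B - cr B v * cr C A) := by
  rw [Jp, cr_smul_right, cr_sub_right, cr_smul_right, cr_smul_right]

theorem Jp_zero_left (A B v : ℝ × ℝ) : Jp A B 0 v = -((cr A B)⁻¹ * cr B v) • A := by
  rw [Jp, cr_zero_right, zero_smul, zero_sub, smul_neg, smul_smul, neg_smul]

/-- Offsets of the rays of the junk of an adjacent pair. -/
def yB (k m : ℕ) : ℤ := if m < k - 2 then m + 1 else m + 4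

/-- First owner of a junk vertex. -/
def ownU : Vx → Vx
  | .jA t i _ => .star t i
  | .jB e _ => .gad e false
  | v => v

/-- Second owner of a junk vertex. -/
def ownV : Vx → Vx
  | .jA t i _ => .part t i
  | .jB e _ => .gad e true
  | v => v

/-- Ray from the first owner. -/
def rayU (k : ℕ) (L : List LE) : Vx → ℤ
  | .jA t i m => RR k t i + m + 1
  | .jB e m => 6 * ln L e + 1 + yB k m
  | _ => 0

/-- Ray from the second owner. -/
def rayV (k : ℕ) (L : List LE) : Vx → ℤ
  | .jA t i m => RR k t i + m + 1 + (if m + 1 < k then -1 else 1)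
  | .jB e m => 6 * ln L e + 1 + yB k m + (if m < k - 2 then 1 else -1)
  | _ => 0

/-- The junk vertices. -/
def isJ (k : ℕ) (L : List LE) (W : Vx) : Prop :=
  (∃ t i m, t ≤ L.length ∧ i < k ∧ m < 2 * k - 2 ∧ W = .jA t i m) ∨
    ∃ e m, e < L.length ∧ m < 2 * k - 4 ∧ W = .jB e m

/-- No coincidence of a core vertex and the junk of another pair persists, except for the two
slopes of the junk vertex. -/
theorem nonvanish2 (hr : Rays k r) (hodd : Odd k) (hk : 9 ≤ k) (hch : Chain L) {z W : Vx}
    (hW : isJ k L W) (hzu : z ≠ ownU W) (hzv : z ≠ ownV W) (i : ℤ)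
    (hiu : ¬ (k : ℤ) ∣ rayU k L W - i) (hiv : ¬ (k : ℤ) ∣ rayV k L W - i) :
    ∃ δ ∈ Dirs k L r, cr (r i) (δ z) - cr (r i) (Jp (r (rayU k L W)) (r (rayV k L W))
      (δ (ownU W)) (δ (ownV W))) ≠ 0 := by
  have hk2 : 2 ≤ k := by omega
  have huv : ¬ (k : ℤ) ∣ rayV k L W - rayU k L W := by
    rcases hW with ⟨t, i0, m, ht, hi0, hm, rfl⟩ | ⟨e, m, he, hm, rfl⟩
    · intro h
      simp only [rayU, rayV] at h
      have : RR k t i0 + m + 1 + (if m + 1 < k then -1 else 1) - (RR k t i0 + m + 1) =
        if m + 1 < k then -1 else 1 := by ring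
      rw [this] at h
      split_ifs at h with h1
      · have := small_dvd h (by omega) (by omega)
        omega
      · have := small_dvd h (by omega) (by omega)
        omega
    · intro h
      simp only [rayU, rayV] at h
      have : 6 * (ln L e : ℤ) + 1 + yB k m + (if m < k - 2 then 1 else -1) -
        (6 * ln L e + 1 + yB k m) = if m < k - 2 then 1 else -1 := by ring
      rw [this] at h
      split_ifs at h with h1
      · have := small_dvd h (by omega) (by omega)
        omega
      · have := small_dvd h (by omega) (by omega)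
        omega
  have hAB : cr (r (rayU k L W)) (r (rayV k L W)) ≠ 0 := hr.cr_ne hk2 huv
  -- moving only the second owner
  have moveV : ∀ δ ∈ Dirs k L r, δ z = 0 → δ (ownU W) = 0 →
      cr (r (rayV k L W)) (δ (ownV W)) ≠ 0 →
      cr (r i) (δ z) - cr (r i) (Jp (r (rayU k L W)) (r (rayV k L W))
      (δ (ownU W)) (δ (ownV W))) ≠ 0 := by
    intro δ hδ h1 h2 h3
    rw [h1, h2, cr_zero_right, cr_Jp, cr_zero_right, zero_mul, zero_sub, zero_sub, mul_neg,
      neg_neg]
    exact mul_ne_zero (inv_ne_zero hAB) (mul_ne_zero h3 (hr.cr_ne hk2 hiu))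
  -- moving only the first owner
  have moveU : ∀ δ ∈ Dirs k L r, δ z = 0 → δ (ownV W) = 0 →
      cr (r (rayU k L W)) (δ (ownU W)) ≠ 0 →
      cr (r i) (δ z) - cr (r i) (Jp (r (rayU k L W)) (r (rayV k L W))
      (δ (ownU W)) (δ (ownV W))) ≠ 0 := by
    intro δ hδ h1 h2 h3
    rw [h1, h2, cr_zero_right, cr_Jp, cr_zero_right, zero_mul, sub_zero, zero_sub]
    exact neg_ne_zero.2
      (mul_ne_zero (inv_ne_zero hAB) (mul_ne_zero h3 (hr.cr_ne hk2 hiv)))
  rcases hW with ⟨t, i0, m, ht, hi0, hm, rfl⟩ | ⟨e, m, he, hm, rfl⟩
  · simp only [ownU, ownV] at hzu hzv moveU moveV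
    by_cases hc : ∃ e s a, Cl k L t i0 e s a
    · obtain ⟨e, s, a, hc⟩ := hc
      by_cases ha : (k : ℤ) ∣ a - rayV k L (.jA t i0 m)
      · -- use the moves of the star
        have hae : (k : ℤ) ∣ a - RR k t i0 ∨ (k : ℤ) ∣ a - (RR k t i0 - 1) := by
          rcases hc.2.2 with ⟨_, _, h⟩ | ⟨_, _, h⟩
          · left
            have : a - RR k t i0 = k := by rw [h]; ring
            rw [this]
          · right
            have : a - (RR k t i0 - 1) = k := by rw [h]; ring
            rw [this]
        have hu : ¬ (k : ℤ) ∣ RR k t i0 - rayU k L (.jA t i0 m) ∧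
            ¬ (k : ℤ) ∣ RR k t i0 - 1 - rayU k L (.jA t i0 m) := by
          have hv' : (k : ℤ) ∣ rayV k L (.jA t i0 m) - RR k t i0 ∨
              (k : ℤ) ∣ rayV k L (.jA t i0 m) - (RR k t i0 - 1) := by
            rcases hae with h | h
            · left
              have : rayV k L (.jA t i0 m) - RR k t i0 =
                (a - RR k t i0) - (a - rayV k L (.jA t i0 m)) := by ring
              rw [this]; exact dvd_sub h ha
            · right
              have : rayV k L (.jA t i0 m) - (RR k t i0 - 1) =
                (a - (RR k t i0 - 1)) - (a - rayV k L (.jA t i0 m)) := by ring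
              rw [this]; exact dvd_sub h ha
          simp only [rayU, rayV] at hv' ⊢
          by_cases hmk : m + 1 < k
          · rw [if_pos hmk] at hv'
            have hm0 : m = 0 := by
              rcases hv' with h | h
              · have e1 : RR k t i0 + (m : ℤ) + 1 + -1 - RR k t i0 = m := by ring
                rw [e1] at h
                have := small_dvd h (by omega) (by omega)
                omega
              · have e1 : RR k t i0 + (m : ℤ) + 1 + -1 - (RR k t i0 - 1) = m + 1 := by ring
                rw [e1] at h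
                have := small_dvd h (by omega) (by omega)
                omega
            subst hm0
            constructor
            · intro h
              have e1 : RR k t i0 - (RR k t i0 + ((0 : ℕ) : ℤ) + 1) = -1 := by push_cast; ring
              rw [e1] at h
              have := small_dvd h (by omega) (by omega)
              omega
            · intro h
              have e1 : RR k t i0 - 1 - (RR k t i0 + ((0 : ℕ) : ℤ) + 1) = -2 := by push_cast; ring
              rw [e1] at h
              have := small_dvd h (by omega) (by omega)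
              omega
          · rw [if_neg hmk] at hv'
            have hm0 : m = 2 * k - 3 := by
              rcases hv' with h | h
              · have e1 : RR k t i0 + (m : ℤ) + 1 + 1 - RR k t i0 = (m + 2 - k) + k := by ring
                rw [e1] at h
                have h := dvd_of_add h (dvd_refl (k : ℤ))
                have := small_dvd h (by omega) (by omega)
                omega
              · have e1 : RR k t i0 + (m : ℤ) + 1 + 1 - (RR k t i0 - 1) = (m + 3 - 2 * k) + 2 * k :=
                  by ring
                rw [e1] at h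
                have h := dvd_of_add h (dvd_mul_left (k : ℤ) 2)
                have := small_dvd h (by omega) (by omega)
                omega
            have hm1 : (m : ℤ) = 2 * k - 3 := by omega
            constructor
            · intro h
              have e1 : RR k t i0 - (RR k t i0 + (m : ℤ) + 1) = 2 - 2 * k := by rw [hm1]; ring
              rw [e1] at h
              have h := dvd_of_sub h (dvd_mul_left (k : ℤ) 2)
              have := Int.le_of_dvd (by norm_num) h
              omega
            · intro h
              have e1 : RR k t i0 - 1 - (RR k t i0 + (m : ℤ) + 1) = 1 - 2 * k := by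
                rw [hm1]; ring
              rw [e1] at h
              have h := dvd_of_sub h (dvd_mul_left (k : ℤ) 2)
              have := Int.le_of_dvd (by norm_num) h
              omega
        by_cases hzn : z = .star t (nx k i0)
        · obtain ⟨j, hj, hji⟩ := nx_surj hi0
          have hRj := RR_nx (t := t) hodd hj
          rw [hji] at hRj
          have hRj1 : (k : ℤ) ∣ RR k t j + 1 - RR k t i0 := by
            have : RR k t j + 1 - RR k t i0 = -(RR k t i0 - (RR k t j + k + 1)) - k := by ring
            rw [this]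
            exact dvd_sub ((dvd_neg).2 (dvd_k_of_dvd_two_k hRj)) (dvd_refl _)
          refine ⟨_, move_star hr hodd (by omega) hj (L := L) (t := t), ?_⟩
          refine moveU _ (move_star hr hodd (by omega) hj) ?_ ?_ ?_
          · refine moveStar_other ?_ (by rw [hji]; exact hzu)
            rw [hzn, ← hji]
            intro h
            simp only [Vx.star.injEq, true_and] at h
            exact nx_nx_ne (by omega) hj h
          · exact moveStar_other (by simp) (by simp)
          · have e1 : moveStar k r t j (.star t i0) =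
                cr (r (RR k t j)) (r (RR k t j - 1)) • r (RR k t j + 1) := by
              rw [← hji]; exact moveStar_nx hk2 hj
            rw [e1, cr_smul_right]
            refine mul_ne_zero (hr.cr_ne hk2 ?_) (hr.cr_ne hk2 ?_)
            · intro h
              have := small_dvd h (by omega) (by omega)
              omega
            · intro h
              apply hu.1
              have : RR k t i0 - rayU k L (.jA t i0 m) =
                (RR k t j + 1 - rayU k L (.jA t i0 m)) - (RR k t j + 1 - RR k t i0) := by ring
              rw [this]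
              exact dvd_sub h hRj1
        · refine ⟨_, move_star hr hodd (by omega) hi0 (L := L) (t := t), ?_⟩
          refine moveU _ (move_star hr hodd (by omega) hi0) ?_ ?_ ?_
          · exact moveStar_other hzu hzn
          · exact moveStar_other (by simp) (by simp)
          · rw [moveStar_self, cr_smul_right]
            refine mul_ne_zero (hr.cr_ne hk2 ?_) (hr.cr_ne hk2 hu.2)
            intro h
            have := small_dvd h (by omega) (by omega)
            omega
      · refine ⟨_, move_client hch hc, ?_⟩
        refine moveV _ (move_client hch hc) ?_ ?_ ?_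
        · simp [hzv]
        · simp
        · simp only [if_true]
          exact hr.cr_ne hk2 ha
    · push Not at hc
      refine ⟨_, move_dummy hc (r (rayV k L (.jA t i0 m) + 1)), ?_⟩
      refine moveV _ (move_dummy hc _) ?_ ?_ ?_
      · simp [hzv]
      · simp
      · simp only [if_true]
        exact (hr.pos _ _ (by omega) (by omega)).ne'
  · simp only [ownU, ownV] at hzu hzv moveU moveV
    have hy : 1 ≤ yB k m ∧ yB k m < 2 * k ∧ yB k m ≠ k - 1 ∧ yB k m ≠ k ∧ yB k m ≠ k + 1 := by
      unfold yB
      split_ifs with h <;> omega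
    have huσ : ¬ (k : ℤ) ∣ 6 * ln L e + 1 - rayU k L (.jB e m) := by
      intro h
      simp only [rayU] at h
      have e1 : 6 * (ln L e : ℤ) + 1 - (6 * ln L e + 1 + yB k m) = (k - yB k m) - k := by ring
      rw [e1] at h
      have h := dvd_of_sub h (dvd_refl (k : ℤ))
      have := small_dvd h (by omega) (by omega)
      omega
    have hvσ : ¬ (k : ℤ) ∣ 6 * ln L e + 1 - rayV k L (.jB e m) := by
      intro h
      simp only [rayV] at h
      have e1 : 6 * (ln L e : ℤ) + 1 - (6 * ln L e + 1 + yB k m + (if m < k - 2 then 1 else -1)) =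
        (k - yB k m - (if m < k - 2 then 1 else -1)) - k := by ring
      rw [e1] at h
      have h := dvd_of_sub h (dvd_refl (k : ℤ))
      unfold yB at h
      split_ifs at h with h1
      · have := small_dvd h (by omega) (by omega)
        omega
      · have := small_dvd h (by omega) (by omega)
        omega
    have hzero : ∀ s, z ≠ .gad e s → (∀ t i' a, Cl k L t i' e s a → z ≠ .part t i') →
        moveGad k L r e s z = 0 := by
      intro s h1 h2
      cases z with
      | gad e' s' =>
        simp only [moveGad]
        rw [if_neg]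
        rintro ⟨rfl, rfl⟩
        exact h1 rfl
      | part t i' =>
        simp only [moveGad]
        rw [if_neg]
        rintro ⟨a, ha⟩
        exact h2 t i' a ha rfl
      | hub h => rfl
      | star t i => rfl
      | jA t i m => rfl
      | jB e m => rfl
    by_cases hcz : ∃ t i' a, Cl k L t i' e false a ∧ z = .part t i'
    · obtain ⟨t, i', a, hc, rfl⟩ := hcz
      refine ⟨_, move_gad hch (e := e) (s := true), ?_⟩
      refine moveV _ (move_gad hch) ?_ ?_ ?_
      · refine hzero true (by simp) ?_
        intro t' i'' a' hc' heq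
        simp only [Vx.part.injEq] at heq
        obtain ⟨rfl, rfl⟩ := heq
        have := (hc.unique hch hc').2.1
        simp at this
      · simp [moveGad]
      · simp only [moveGad, and_self, if_true]
        exact hr.cr_ne hk2 hvσ
    · push Not at hcz
      refine ⟨_, move_gad hch (e := e) (s := false), ?_⟩
      refine moveU _ (move_gad hch) ?_ ?_ ?_
      · exact hzero false hzu hcz
      · simp [moveGad]
      · simp only [moveGad, and_self, if_true]
        exact hr.cr_ne hk2 huσ

end

end Pool.Agent.Slope
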