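import Pool.Agent.Slope.Geo

set_option autoImplicit false

/-!
# Full pairs
-/

namespace Pool.Agent.Slope

/-- A drawing of the relation `A` with directions on the rays `r`. -/
structure Dr {V : Type} (A : V → V → Prop) (r : ℤ → ℝ × ℝ) (p : V → ℝ × ℝ) : Prop where
  symm : ∀ u v, A u v → A v u
  ray : ∀ u v, A u v → ∃ (i : ℤ) (c : ℝ), 0 < c ∧ p v - p u = c • r i
  avoid : ∀ u v w x, A u v → A w x → p w ∉ openSegment ℝ (p u) (p v)
  inj : ∀ u v w x, A u v → A w x → p u = p w → u = w

/-- `z` is seen from `u` along the ray number `i`. -/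
def On {V : Type} (r : ℤ → ℝ × ℝ) (p : V → ℝ × ℝ) (u z : V) (i : ℤ) : Prop :=
  ∃ c : ℝ, 0 < c ∧ p z - p u = c • r i

theorem On.symm {V : Type} {k : ℕ} {r : ℤ → ℝ × ℝ} (hr : Rays k r) {p : V → ℝ × ℝ} {u z : V}
    {i : ℤ} (h : On r p u z i) : On r p z u (i + k) := by
  obtain ⟨c, hc, h⟩ := h
  refine ⟨c, hc, ?_⟩
  rw [hr.anti, smul_neg, ← h]
  abel

theorem On.congr {V : Type} {k : ℕ} {r : ℤ → ℝ × ℝ} (hr : Rays k r) {p : V → ℝ × ℝ} {u z : V}
    {i j : ℤ} (h : On r p u z i) (hij : (i : ZMod (2 * k)) = (j : ZMod (2 * k))) :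
    On r p u z j := by
  obtain ⟨c, hc, h⟩ := h
  exact ⟨c, hc, by rw [h, hr.congr hij]⟩

theorem On.unique {V : Type} {k : ℕ} {r : ℤ → ℝ × ℝ} (hr : Rays k r) (hk : 2 ≤ k)
    {p : V → ℝ × ℝ} {u z : V} {i j : ℤ} (h : On r p u z i) (h' : On r p u z j) :
    (i : ZMod (2 * k)) = (j : ZMod (2 * k)) := by
  obtain ⟨c, hc, h⟩ := h
  obtain ⟨c', hc', h'⟩ := h'
  obtain ⟨d, hd0, hd1, hd⟩ := hr.pos_cases (by omega) i j
  rw [hr.congr hd, h] at h'
  rcases eq_or_lt_of_le hd0 with h0 | h0
  · rw [hd, ← h0, add_zero]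
  · exfalso
    have e := congrArg (cr (r i)) h'
    rw [cr_smul_right, cr_smul_right, cr_self, mul_zero] at e
    by_cases hdk : d < k
    · have := hr.pos i (i + d) (by omega) (by omega)
      have : 0 < c' * cr (r i) (r (i + d)) := by positivity
      linarith
    · by_cases hdk' : d = k
      · rw [hdk', hr.anti] at h'
        have h3 : (c + c') • r i = 0 := by
          rw [add_smul, h', smul_neg]
          simp
        rcases smul_eq_zero.1 h3 with h4 | h4
        · linarith
        · exact hr.ne_zero hk i h4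
      · have h3 := hr.pos i (i + (d - k)) (by omega) (by omega)
        have h4 : r (i + d) = - r (i + (d - k)) := by
          rw [← hr.anti]
          congr 1
          ring
        rw [h4, cr_neg_right] at e
        have : 0 < c' * cr (r i) (r (i + (d - k))) := by positivity
        linarith

theorem mem_openSegment_of_smul {u w : ℝ × ℝ} {x : ℝ × ℝ} {c c' : ℝ} (hc : 0 < c) (hcc : c < c')
    {z : ℝ × ℝ} (h : w - u = c • x) (h' : z - u = c' • x) : w ∈ openSegment ℝ u z := by
  have hc' : 0 < c' := by linarith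
  refine ⟨1 - c / c', c / c', ?_, by positivity, by ring, ?_⟩
  · rw [sub_pos, div_lt_one hc']
    exact hcc
  · have e1 : z = u + c' • x := by rw [← h']; abel
    have e2 : w = u + c • x := by rw [← h]; abel
    rw [e1, e2, smul_add, smul_smul, div_mul_cancel₀ _ hc'.ne']
    rw [← add_assoc, ← add_smul]
    simp

section

variable {V : Type} {A : V → V → Prop} {k : ℕ} {r : ℤ → ℝ × ℝ} {p : V → ℝ × ℝ}

/-- Different neighbours are on different rays. -/
theorem Dr.ray_inj (h : Dr A r p) (hr : Rays k r) {u z z' : V} {i j : ℤ} (hz : A u z)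
    (hz' : A u z') (hi : On r p u z i) (hj : On r p u z' j)
    (hij : (i : ZMod (2 * k)) = (j : ZMod (2 * k))) : z = z' := by
  obtain ⟨c, hc, hi⟩ := hi.congr hr hij
  obtain ⟨c', hc', hj⟩ := hj
  rcases lt_trichotomy c c' with hcc | hcc | hcc
  · exact absurd (mem_openSegment_of_smul hc hcc hi hj)
      (h.avoid u z' z u hz' (h.symm _ _ hz))
  · refine h.inj z u z' u (h.symm _ _ hz) (h.symm _ _ hz') ?_
    rw [hcc, ← hj] at hi
    exact sub_left_injective hi
  · exact absurd (mem_openSegment_of_smul hc' hcc hj hi)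
      (h.avoid u z z' u hz (h.symm _ _ hz'))

/-- Counting the neighbours of `u` that avoid a set of rays. -/
theorem Dr.card_le (h : Dr A r p) (hr : Rays k r) (hk : 2 ≤ k) {u : V} (T : Finset V)
    (hT : ∀ z ∈ T, A u z) (X : Finset (ZMod (2 * k)))
    (hX : ∀ z ∈ T, ∀ i : ℤ, On r p u z i → (i : ZMod (2 * k)) ∉ X) :
    T.card + X.card ≤ 2 * k := by
  classical
  have : NeZero (2 * k) := ⟨by omega⟩
  have hex : ∀ z : V, ∃ i : ℤ, A u z → On r p u z i := by
    intro z
    by_cases hz : A u z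
    · obtain ⟨i, c, hc, hi⟩ := h.ray u z hz
      exact ⟨i, fun _ => ⟨c, hc, hi⟩⟩
    · exact ⟨0, fun h => absurd h hz⟩
  choose f hf using hex
  have h1 : (T.image fun z => (f z : ZMod (2 * k))).card = T.card := by
    refine Finset.card_image_of_injOn fun z hz z' hz' he => ?_
    exact h.ray_inj hr (hT z hz) (hT z' hz') (hf z (hT z hz)) (hf z' (hT z' hz')) he
  have h2 : Disjoint (T.image fun z => (f z : ZMod (2 * k))) X := by
    rw [Finset.disjoint_left]
    intro i hi hiX
    obtain ⟨z, hz, rfl⟩ := Finset.mem_image.1 hi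
    exact hX z hz (f z) (hf z (hT z hz)) hiX
  have h3 := Finset.card_le_univ ((T.image fun z => (f z : ZMod (2 * k))) ∪ X)
  rw [Finset.card_union_of_disjoint h2, h1, ZMod.card] at h3
  exact h3

theorem ne_of_small {k : ℕ} {a d : ℤ} (h0 : 0 < d) (h1 : d < 2 * k) :
    ((a : ℤ) : ZMod (2 * k)) ≠ ((a + d : ℤ) : ZMod (2 * k)) := by
  intro h
  rw [ZMod.intCast_eq_intCast_iff_dvd_sub] at h
  have : a + d - a = d := by ring
  rw [this] at h
  have := Int.le_of_dvd h0 h
  push_cast at this
  omega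

/-- One side of the open case. -/
theorem Dr.side_open (h : Dr A r p) (hr : Rays k r) (hk : 2 ≤ k) {u v : V} (W : Finset V)
    (hW : ∀ w ∈ W, A u w ∧ A v w) (hcard : 2 * k - 2 ≤ W.card) {i : ℤ}
    (h1 : 0 < cr (r i) (p u - p v)) (h2 : 0 < cr (p u - p v) (r (i + 1))) {z : V}
    (hz : A u z) (hzW : z ∉ W) {a : ℤ} (ha : On r p u z a) :
    (a : ZMod (2 * k)) = (i : ZMod (2 * k)) ∨
      (a : ZMod (2 * k)) = ((i + 1 : ℤ) : ZMod (2 * k)) := by
  classical
  by_contra hcon
  push Not at hcon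
  have h3 := h.card_le hr hk (u := u) (insert z W) (fun w hw => by
    rcases Finset.mem_insert.1 hw with rfl | hw
    · exact hz
    · exact (hW w hw).1) {(i : ZMod (2 * k)), ((i + 1 : ℤ) : ZMod (2 * k))} (fun w hw b hb => by
      rw [Finset.mem_insert, Finset.mem_singleton, not_or]
      rcases Finset.mem_insert.1 hw with rfl | hw
      · have := hb.unique hr hk ha
        rw [this]
        exact hcon
      · obtain ⟨b', c', hc', hb'⟩ := h.ray v w (hW w hw).2
        obtain ⟨c, hc, hb⟩ := hb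
        have := hr.away1 hk hc hc' hb hb' h1 h2
        constructor
        · intro he; exact this.1 (hr.congr he)
        · intro he; exact this.2 (hr.congr he))
  rw [Finset.card_insert_of_notMem hzW, Finset.card_pair (ne_of_small (by omega) (by omega))] at h3
  omega

/-- The parallel case: the rays of the common neighbours. -/
theorem Dr.par_avoid (h : Dr A r p) (hr : Rays k r) (hk : 2 ≤ k) {u v w : V} {i : ℤ} {c : ℝ}
    (hc : 0 < c) (hi : p u - p v = c • r i) (hu : A u w) (hv : A v w) {a : ℤ}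
    (ha : On r p u w a) :
    (a : ZMod (2 * k)) ∉ ({((i - 1 : ℤ) : ZMod (2 * k)), (i : ZMod (2 * k)),
      ((i + 1 : ℤ) : ZMod (2 * k))} : Finset (ZMod (2 * k))) := by
  obtain ⟨b', c', hc', hb'⟩ := h.ray v w hv
  obtain ⟨c1, hc1, ha⟩ := ha
  have := hr.away2 hk hc1 hc' ha hb' hc hi
  rw [Finset.mem_insert, Finset.mem_insert, Finset.mem_singleton, not_or, not_or]
  refine ⟨fun he => this.1 (hr.congr he), fun he => ?_, fun he => this.2 (hr.congr he)⟩
  rw [hr.congr he] at ha
  have h3 : p w - p v = (c1 + c) • r i := by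
    rw [add_smul, ← ha, ← hi]; abel
  exact h.avoid v w u w hv hu (mem_openSegment_of_smul hc (by linarith) hi h3)

theorem card_triple {k : ℕ} (hk : 2 ≤ k) (i : ℤ) :
    ({((i - 1 : ℤ) : ZMod (2 * k)), (i : ZMod (2 * k)),
      ((i + 1 : ℤ) : ZMod (2 * k))} : Finset (ZMod (2 * k))).card = 3 := by
  refine Finset.card_eq_three.2 ⟨_, _, _, ?_, ?_, ?_, rfl⟩
  · have := ne_of_small (k := k) (a := i - 1) (d := 1) (by omega) (by omega)
    rwa [sub_add_cancel] at this
  · have := ne_of_small (k := k) (a := i - 1) (d := 2) (by omega) (by omega)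
    have e : i - 1 + 2 = i + 1 := by ring
    rwa [e] at this
  · exact ne_of_small (k := k) (a := i) (d := 1) (by omega) (by omega)

/-- Full pairs: two vertices with `2 k - 2` common neighbours. -/
theorem Dr.full_pair (h : Dr A r p) (hr : Rays k r) (hk : 2 ≤ k) {u v : V} (huv : u ≠ v)
    (W : Finset V) (hW : ∀ w ∈ W, A u w ∧ A v w) (hcard : 2 * k - 2 ≤ W.card) :
    ∃ i : ℤ, (∀ z a, A u z → z ∉ W → On r p u z a →
        ((a : ZMod (2 * k)) = (i : ZMod (2 * k)) ∨
          (a : ZMod (2 * k)) = ((i + 1 : ℤ) : ZMod (2 * k)))) ∧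
      ∀ z a, A v z → z ∉ W → On r p v z a →
        ((a : ZMod (2 * k)) = ((i + k : ℤ) : ZMod (2 * k)) ∨
          (a : ZMod (2 * k)) = ((i + k + 1 : ℤ) : ZMod (2 * k))) := by
  classical
  have hWne : W.Nonempty := by
    rw [← Finset.card_pos]
    omega
  obtain ⟨w0, hw0⟩ := hWne
  have hx : p u - p v ≠ 0 := by
    intro hx
    exact huv (h.inj u w0 v w0 (hW w0 hw0).1 (hW w0 hw0).2 (sub_eq_zero.1 hx))
  obtain ⟨i, hi | ⟨c, hc, hi⟩⟩ := hr.sector hk hx
  · refine ⟨i, fun z a hz hzW ha => h.side_open hr hk W hW hcard hi.1 hi.2 hz hzW ha,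
      fun z a hz hzW ha => ?_⟩
    refine h.side_open (u := v) (v := u) hr hk W (fun w hw => (hW w hw).symm) hcard
      (i := i + k) ?_ ?_ hz hzW ha
    · have e : p v - p u = -(p u - p v) := by abel
      rw [hr.anti, e, cr_neg_right, cr_neg_left]
      linarith [hi.1]
    · have e : p v - p u = -(p u - p v) := by abel
      have e2 : i + k + 1 = (i + 1) + (k : ℤ) := by ring
      rw [e2, hr.anti, e, cr_neg_right, cr_neg_left]
      linarith [hi.2]
  · exfalso
    have h3 := h.card_le hr hk (u := u) W (fun w hw => (hW w hw).1) _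
      (fun w hw a ha => h.par_avoid hr hk hc hi (hW w hw).1 (hW w hw).2 ha)
    rw [card_triple hk] at h3
    omega

/-- One side of an adjacent full pair. -/
theorem Dr.side_adj (h : Dr A r p) (hr : Rays k r) (hk : 3 ≤ k) {u v : V}
    (huv : A u v) (W : Finset V) (hW : ∀ w ∈ W, A u w ∧ A v w) (hvW : v ∉ W)
    (hcard : 2 * k - 4 ≤ W.card) {s : ℤ} (hs : On r p u v s) {z : V} {a : ℤ}
    (hz : A u z) (hzW : z ∉ W) (hzv : z ≠ v) (ha : On r p u z a) :
    (a : ZMod (2 * k)) ∈ ({((s + k - 1 : ℤ) : ZMod (2 * k)), ((s + k : ℤ) : ZMod (2 * k)),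
      ((s + k + 1 : ℤ) : ZMod (2 * k))} : Finset (ZMod (2 * k))) := by
  classical
  by_contra hcon
  obtain ⟨c, hc, hi⟩ := hs
  have hi' : p u - p v = c • r (s + k) := by
    rw [hr.anti, smul_neg, ← hi]; abel
  have h3 := h.card_le hr (by omega) (u := u) (insert z (insert v W)) (fun w hw => by
    rcases Finset.mem_insert.1 hw with rfl | hw
    · exact hz
    rcases Finset.mem_insert.1 hw with rfl | hw
    · exact huv
    · exact (hW w hw).1) {((s + k - 1 : ℤ) : ZMod (2 * k)), ((s + k : ℤ) : ZMod (2 * k)),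
      ((s + k + 1 : ℤ) : ZMod (2 * k))} (fun w hw b hb => by
      rcases Finset.mem_insert.1 hw with rfl | hw
      · rw [hb.unique hr (by omega) ha]
        exact hcon
      rcases Finset.mem_insert.1 hw with rfl | hw
      · rw [hb.unique hr (by omega) ⟨c, hc, hi⟩]
        rw [Finset.mem_insert, Finset.mem_insert, Finset.mem_singleton, not_or, not_or]
        refine ⟨?_, ?_, ?_⟩
        · have := ne_of_small (k := k) (a := s) (d := k - 1) (by omega) (by omega)
          rwa [← add_sub_assoc] at this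
        · exact ne_of_small (k := k) (a := s) (d := k) (by omega) (by omega)
        · have := ne_of_small (k := k) (a := s) (d := k + 1) (by omega) (by omega)
          rwa [← add_assoc] at this
      · exact h.par_avoid hr (by omega) hc hi' (hW w hw).1 (hW w hw).2 hb)
  rw [Finset.card_insert_of_notMem (by
    rw [Finset.mem_insert, not_or]; exact ⟨hzv, hzW⟩), Finset.card_insert_of_notMem hvW,
    card_triple (by omega)] at h3
  omega

end

end Pool.Agent.Slope
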