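import Pool.Agent.Slope.Sound1

set_option autoImplicit false

/-!
# Soundness of the graph construction: gadgets and the final statement
-/

namespace Pool.Agent.Slope

theorem side_succ (e : ℕ) : side (e + 1) = !side e := by
  unfold side
  rcases Nat.even_or_odd e with h | h
  · have h1 : e % 2 = 0 := Nat.even_iff.1 h
    have h2 : (e + 1) % 2 = 1 := by omega
    simp [h1, h2]
  · have h1 : e % 2 = 1 := Nat.odd_iff.1 h
    have h2 : (e + 1) % 2 = 0 := by omega
    simp [h1, h2]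

section

variable {N : ℕ} {L : List LE} {r : ℤ → ℝ × ℝ} {p : Vx → ℝ × ℝ}

theorem mem_triple {k : ℕ} {a s : ℤ}
    (h : (a : ZMod (2 * k)) ∈ ({((s + k - 1 : ℤ) : ZMod (2 * k)), ((s + k : ℤ) : ZMod (2 * k)),
      ((s + k + 1 : ℤ) : ZMod (2 * k))} : Finset (ZMod (2 * k)))) :
    ∃ δ : ℤ, -1 ≤ δ ∧ δ ≤ 1 ∧ (2 * k : ℤ) ∣ a - (s + k + δ) := by
  rw [Finset.mem_insert, Finset.mem_insert, Finset.mem_singleton] at h
  rcases h with h | h | h
  · exact ⟨-1, by norm_num, by norm_num, zmod_dvd h⟩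
  · refine ⟨0, by norm_num, by norm_num, ?_⟩
    rw [add_zero]
    exact zmod_dvd h
  · exact ⟨1, by norm_num, by norm_num, zmod_dvd h⟩

/-- The free rays at the two ends of a gadget. -/
theorem gad_nbr (h : Dr (GAdj N L) r p) (hr : Rays (6 * N + 3) r) {e : ℕ} (he : e < L.length)
    {s : ℤ} {σ : Bool} (hs : On r p (.gad e σ) (.gad e (!σ)) s) {z : Vx} {b : ℤ}
    (hz : GAdj N L (.gad e σ) z) (hz1 : z ≠ .gad e (!σ)) (hz2 : ∀ m, z ≠ .jB e m)
    (hb : On r p (.gad e σ) z b) :
    ∃ δ : ℤ, -1 ≤ δ ∧ δ ≤ 1 ∧ (2 * ((6 * N + 3 : ℕ) : ℤ)) ∣ b - (s + (6 * N + 3 : ℕ) + δ) := by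
  by_cases hN : N = 0
  · subst hN
    -- three slopes only: the statement follows from the general one, `k = 3`
    have hadj : GAdj 0 L (.gad e σ) (.gad e (!σ)) := by
      cases σ
      · exact Or.inl (.gg e he)
      · exact Or.inr (.gg e he)
    exact mem_triple (h.side_adj hr (by omega) hadj (junkB 0 e) (fun w hw => by
      obtain ⟨m, hm, rfl⟩ := Finset.mem_image.1 hw
      rw [Finset.mem_range] at hm
      exact ⟨Or.inl (.gj e _ m he hm), Or.inl (.gj e _ m he hm)⟩)
      (not_mem_junkB (by simp)) (by rw [card_junkB]) hs hz (not_mem_junkB hz2) hz1 hb)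
  · have hadj : GAdj N L (.gad e σ) (.gad e (!σ)) := by
      cases σ
      · exact Or.inl (.gg e he)
      · exact Or.inr (.gg e he)
    exact mem_triple (h.side_adj hr (by omega) hadj (junkB N e) (fun w hw => by
      obtain ⟨m, hm, rfl⟩ := Finset.mem_image.1 hw
      rw [Finset.mem_range] at hm
      exact ⟨Or.inl (.gj e _ m he hm), Or.inl (.gj e _ m he hm)⟩)
      (not_mem_junkB (by simp)) (by rw [card_junkB]) hs hz (not_mem_junkB hz2) hz1 hb)

/-- The statement about a star used below. -/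
def StarData (N : ℕ) (L : List LE) (r : ℤ → ℝ × ℝ) (p : Vx → ℝ × ℝ) (t : ℕ) (c e : ℤ) : Prop :=
  (e = 1 ∨ e = -1) ∧
      ∀ i < 6 * N + 3, ∀ z a, GAdj N L (.part t i) z → (∀ m, z ≠ Vx.jA t i m) →
        On r p (.part t i) z a →
        (((6 * N + 3 : ℕ) : ℤ) ∣ a - (c + e * i) ∨ ((6 * N + 3 : ℕ) : ℤ) ∣ a - (c + e * (i - 1)))

theorem gadget_star (h : Dr (GAdj N L) r p) (hr : Rays (6 * N + 3) r) (hN : 1 ≤ N) {e : ℕ}
    (he : e < L.length) (hlab : (lab L e).2.2 < N) {t : ℕ} (ht : t = e ∨ t = e + 1) {c ε : ℤ}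
    (hstar : StarData N L r p t c ε) {s : ℤ} (hs : On r p (.gad e false) (.gad e true) s) :
    (((6 * N + 3 : ℕ) : ℤ)) ∣ s - (c + ε * (6 * (lab L e).2.2 + 1)) ∧
    ∀ σ : Bool, ∃ (z : Vx) (b : ℤ), GAdj N L (.gad e σ) z ∧ (∀ σ', z ≠ .gad e σ') ∧
      (z = .part t (6 * (lab L e).2.2) ∨ z = .part t (6 * (lab L e).2.2 + 3)) ∧
      On r p (.gad e σ) z b ∧
      (2 * ((6 * N + 3 : ℕ) : ℤ)) ∣ b - (s + (cond σ 0 ((6 * N + 3 : ℕ) : ℤ)) +
        (cond (Bool.xor σ (side t)) ε (-ε))) := by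
  obtain ⟨k, hk⟩ : ∃ k, k = 6 * N + 3 := ⟨_, rfl⟩
  obtain ⟨n, hn⟩ : ∃ n, n = (lab L e).2.2 := ⟨_, rfl⟩
  rw [← hn] at hlab
  rw [StarData] at hstar
  rw [← hk] at hstar ⊢
  obtain ⟨hε, hstar⟩ := hstar
  have hs' : ∀ σ, On r p (.gad e σ) (.gad e (!σ)) (s + cond σ (k : ℤ) 0) := by
    intro σ
    cases σ
    · simpa using hs
    · have := hs.symm (k := k) (by rw [hk]; exact hr)
      simpa using this
  -- the two clients
  have hx : GAdj N L (.part t (6 * n)) (.gad e (side t)) := by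
    rw [hn]; exact Or.inl (.pg e t he ht)
  have hy : GAdj N L (.part t (6 * n + 3)) (.gad e (!side t)) := by
    rw [hn]; exact Or.inl (.pg' e t he ht)
  obtain ⟨a₁, c₁, hc₁, ha₁⟩ := h.ray _ _ hx
  obtain ⟨a₂, c₂, hc₂, ha₂⟩ := h.ray _ _ hy
  have hx1 := hstar (6 * n) (by omega) _ a₁ hx (by simp) ⟨c₁, hc₁, ha₁⟩
  have hy1 := hstar (6 * n + 3) (by omega) _ a₂ hy (by simp) ⟨c₂, hc₂, ha₂⟩
  have hxon : On r p (.gad e (side t)) (.part t (6 * n)) (a₁ + k) :=
    On.symm (k := k) (by rw [hk]; exact hr) ⟨c₁, hc₁, ha₁⟩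
  have hyon : On r p (.gad e (!side t)) (.part t (6 * n + 3)) (a₂ + k) :=
    On.symm (k := k) (by rw [hk]; exact hr) ⟨c₂, hc₂, ha₂⟩
  obtain ⟨δ₁, hδ1, hδ1', hd1⟩ := gad_nbr h hr he (hs' (side t)) (h.symm _ _ hx) (by simp)
    (by simp) hxon
  obtain ⟨δ₂, hδ2, hδ2', hd2⟩ := gad_nbr h hr he (hs' (!side t)) (h.symm _ _ hy) (by simp)
    (by simp) hyon
  rw [← hk] at hd1 hd2
  have hk7 : (7 : ℤ) ≤ k := by omega
  have hA := gadget_arith hk7 (c := c) (e := ε) (j := 6 * n + 1) (s := s) (a₁ := a₁) (a₂ := a₂)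
    (δ₁ := δ₁) (δ₂ := δ₂) hε
    (by
      rcases hx1 with h | h
      · left
        have e1 : c + ε * (6 * (n : ℤ) + 1 - 1) = c + ε * ((6 * n : ℕ) : ℤ) := by push_cast; ring
        rw [e1]; exact h
      · right
        have e1 : c + ε * (6 * (n : ℤ) + 1 - 2) = c + ε * (((6 * n : ℕ) : ℤ) - 1) := by
          push_cast; ring
        rw [e1]; exact h)
    (by
      rcases hy1 with h | h
      · right
        have e1 : c + ε * (6 * (n : ℤ) + 1 + 2) = c + ε * ((6 * n + 3 : ℕ) : ℤ) := by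
          push_cast; ring
        rw [e1]; exact h
      · left
        have e1 : c + ε * (6 * (n : ℤ) + 1 + 1) = c + ε * (((6 * n + 3 : ℕ) : ℤ) - 1) := by
          push_cast; ring
        rw [e1]; exact h)
    ⟨hδ1, hδ1'⟩ ⟨hδ2, hδ2'⟩
    (by
      have h1 := dvd_k_of_dvd_two_k hd1
      have : a₁ - (s + δ₁) = (a₁ + k - (s + cond (side t) (k : ℤ) 0 + k + δ₁)) +
          cond (side t) (k : ℤ) 0 := by ring
      rw [this]
      refine dvd_add h1 ?_
      cases side t <;> simp)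
    (by
      have h1 := dvd_k_of_dvd_two_k hd2
      have : a₂ - (s + δ₂) = (a₂ + k - (s + cond (!side t) (k : ℤ) 0 + k + δ₂)) +
          cond (!side t) (k : ℤ) 0 := by ring
      rw [this]
      refine dvd_add h1 ?_
      cases side t <;> simp)
  obtain ⟨hA1, hA2, hA3⟩ := hA
  rw [hA2] at hd1
  rw [hA3] at hd2
  refine ⟨by rw [← hn]; exact hA1, fun σ => ?_⟩
  by_cases hσ : σ = side t
  · subst hσ
    refine ⟨.part t (6 * n), a₁ + k, h.symm _ _ hx, by simp, Or.inl (by rw [hn]), hxon, ?_⟩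
    rw [Bool.xor_self, cond_false]
    have hd1' := hd1
    cases hside : side t
    · rw [hside] at hd1'
      simp only [cond_false] at hd1' ⊢
      have : a₁ + (k : ℤ) - (s + k + -ε) = a₁ + k - (s + 0 + k + -ε) := by ring
      rw [this]; exact hd1'
    · rw [hside] at hd1'
      simp only [cond_true] at hd1' ⊢
      have : a₁ + (k : ℤ) - (s + 0 + -ε) = (a₁ + k - (s + k + k + -ε)) + 2 * k := by ring
      rw [this]
      exact dvd_add hd1' (dvd_refl _)
  · have hσ' : σ = !side t := by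
      cases σ <;> cases hside : side t <;> simp_all
    subst hσ'
    refine ⟨.part t (6 * n + 3), a₂ + k, h.symm _ _ hy, by simp, Or.inr (by rw [hn]), hyon, ?_⟩
    have e0 : Bool.xor (!side t) (side t) = true := by cases side t <;> rfl
    rw [e0, cond_true]
    have hd2' := hd2
    cases hside : side t
    · rw [hside] at hd2'
      simp only [Bool.not_false, cond_true] at hd2' ⊢
      have : a₂ + (k : ℤ) - (s + 0 + ε) = (a₂ + k - (s + k + k + ε)) + 2 * k := by ring
      rw [this]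
      exact dvd_add hd2' (dvd_refl _)
    · rw [hside] at hd2'
      simp only [Bool.not_true, cond_false] at hd2' ⊢
      have : a₂ + (k : ℤ) - (s + k + ε) = a₂ + k - (s + 0 + k + ε) := by ring
      rw [this]; exact hd2'

/-- A gadget forces its direction and links two stars. -/
theorem gadget_sound (h : Dr (GAdj N L) r p) (hr : Rays (6 * N + 3) r) (hN : 1 ≤ N) {e : ℕ}
    (he : e < L.length) (hlab : (lab L e).2.2 < N) {c ε c' ε' : ℤ}
    (h1 : StarData N L r p e c ε) (h2 : StarData N L r p (e + 1) c' ε') :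
    ε' = ε ∧ (((6 * N + 3 : ℕ) : ℤ)) ∣ c' - c ∧
    ∃ (s : ℤ) (x : ℝ), 0 < x ∧ (((6 * N + 3 : ℕ) : ℤ)) ∣ s - (c + ε * (6 * (lab L e).2.2 + 1)) ∧
      p (.hub (lab L e).2.1) - p (.hub (lab L e).1) = x • r s := by
  obtain ⟨k, hk⟩ : ∃ k, k = 6 * N + 3 := ⟨_, rfl⟩
  obtain ⟨s, x₀, hx₀, hs₀⟩ := h.ray _ _ (Or.inl (.gg (N := N) (L := L) e he))
  have hs : On r p (.gad e false) (.gad e true) s := ⟨x₀, hx₀, hs₀⟩
  obtain ⟨hA, hA'⟩ := gadget_star h hr hN he hlab (Or.inl rfl) h1 hs
  obtain ⟨hB, hB'⟩ := gadget_star h hr hN he hlab (Or.inr rfl) h2 hs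
  have hr' : Rays k r := by rw [hk]; exact hr
  rw [← hk] at hA hB hA' hB' ⊢
  have hk9 : (9 : ℤ) ≤ k := by omega
  have small : ∀ x : ℤ, (2 * (k : ℤ)) ∣ x → -6 ≤ x → x ≤ 6 → x = 0 := by
    intro x hx h1 h2
    by_contra h0
    rcases lt_or_gt_of_ne h0 with h | h
    · have := Int.le_of_dvd (by omega : 0 < -x) ((dvd_neg).2 hx)
      omega
    · have := Int.le_of_dvd h hx
      omega
  -- the deviations at the end `σ`
  have hdev : ∀ σ : Bool, (cond (Bool.xor σ (side e)) ε (-ε)) ≠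
      (cond (Bool.xor σ (side (e + 1))) ε' (-ε')) := by
    intro σ hcon
    obtain ⟨z, b, hz, _, hzz, hb, hd⟩ := hA' σ
    obtain ⟨z', b', hz', _, hzz', hb', hd'⟩ := hB' σ
    have hbb : (b : ZMod (2 * k)) = (b' : ZMod (2 * k)) := by
      apply zmod_of_dvd
      have : b - b' = (b - (s + (cond σ 0 (k : ℤ)) + (cond (Bool.xor σ (side e)) ε (-ε)))) -
        (b' - (s + (cond σ 0 (k : ℤ)) + (cond (Bool.xor σ (side (e + 1))) ε' (-ε')))) := by
        rw [hcon]; ring
      rw [this]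
      exact dvd_sub hd hd'
    have := h.ray_inj hr' hz hz' hb hb' hbb
    rcases hzz with rfl | rfl <;> rcases hzz' with rfl | rfl <;> simp at this
  have hεε : ε' = ε := by
    have h3 := hdev (side e)
    rw [side_succ] at h3
    have e0 : Bool.xor (side e) (!side e) = true := by cases side e <;> rfl
    rw [Bool.xor_self, e0, cond_false, cond_true] at h3
    rcases h1.1 with h4 | h4 <;> rcases h2.1 with h5 | h5 <;> omega
  subst hεε
  refine ⟨rfl, ?_, s, ?_⟩
  · have : c' - c = (s - (c + ε' * (6 * ((lab L e).2.2 : ℤ) + 1))) -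
      (s - (c' + ε' * (6 * ((lab L e).2.2 : ℤ) + 1))) := by ring
    rw [this]
    exact dvd_sub hA hB
  -- the hubs
  have hub : ∀ (σ : Bool) (g : ℕ), GAdj N L (.gad e σ) (.hub g) →
      On r p (.gad e σ) (.hub g) (s + cond σ 0 (k : ℤ)) := by
    intro σ g hg
    obtain ⟨b, c₀, hc₀, hb₀⟩ := h.ray _ _ hg
    have hb : On r p (.gad e σ) (.hub g) b := ⟨c₀, hc₀, hb₀⟩
    have hs' : On r p (.gad e σ) (.gad e (!σ)) (s + cond σ (k : ℤ) 0) := by
      cases σ
      · simpa using hs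
      · have := hs.symm hr'
        simpa using this
    obtain ⟨δ, hδ, hδ', hd⟩ := gad_nbr h hr he hs' hg (by simp) (by simp) hb
    rw [← hk] at hd
    have hd2 : (2 * (k : ℤ)) ∣ b - (s + cond σ 0 (k : ℤ) + δ) := by
      cases σ
      · simp only [cond_false] at hd ⊢
        have : b - (s + k + δ) = b - (s + 0 + k + δ) := by ring
        rw [this]; exact hd
      · simp only [cond_true] at hd ⊢
        have : b - (s + 0 + δ) = (b - (s + k + k + δ)) + 2 * k := by ring
        rw [this]; exact dvd_add hd (dvd_refl _)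
    have hne : ∀ (z : Vx) (b' δ' : ℤ), GAdj N L (.gad e σ) z → z ≠ .hub g →
        On r p (.gad e σ) z b' → (2 * (k : ℤ)) ∣ b' - (s + cond σ 0 (k : ℤ) + δ') → δ' ≠ δ := by
      intro z b' δ' hz hzh hb' hd' hδδ
      subst hδδ
      apply hzh
      refine h.ray_inj hr' hz hg hb' hb (zmod_of_dvd ?_)
      have : b' - b = (b' - (s + cond σ 0 (k : ℤ) + δ')) - (b - (s + cond σ 0 (k : ℤ) + δ')) := by
        ring
      rw [this]
      exact dvd_sub hd' hd2
    obtain ⟨z, b1, hz, _, hzz, hb1, hd3⟩ := hA' σ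
    obtain ⟨z', b2, hz', _, hzz', hb2, hd4⟩ := hB' σ
    have h5 := hne z b1 _ hz (by rcases hzz with rfl | rfl <;> simp) hb1 hd3
    have h6 := hne z' b2 _ hz' (by rcases hzz' with rfl | rfl <;> simp) hb2 hd4
    rw [side_succ] at h6
    have hδ0 : δ = 0 := by
      rcases h1.1 with h7 | h7 <;> cases hσ : σ <;> cases hside : side e <;>
        simp [hσ, hside, h7] at h5 h6 <;> omega
    refine hb.congr hr' (zmod_of_dvd ?_)
    rw [hδ0, add_zero] at hd2
    exact hd2
  have hP := hub false _ (Or.inr (.hg (N := N) (L := L) e he))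
  have hQ := hub true _ (Or.inl (.gh (N := N) (L := L) e he))
  simp only [cond_false, cond_true, add_zero] at hP hQ
  obtain ⟨x₁, hx₁, hP⟩ := hP
  obtain ⟨x₂, hx₂, hQ⟩ := hQ
  refine ⟨x₁ + x₀ + x₂, by positivity, hA, ?_⟩
  rw [hr'.anti] at hP
  have e1 : p (.gad e false) = p (.hub (lab L e).1) + x₁ • r s := by
    have : p (.hub (lab L e).1) = p (.gad e false) + x₁ • -r s := by rw [← hP]; abel
    rw [this, smul_neg]; abel
  have e2 : p (.gad e true) = p (.gad e false) + x₀ • r s := by rw [← hs₀]; abel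
  have e3 : p (.hub (lab L e).2.1) = p (.gad e true) + x₂ • r s := by rw [← hQ]; abel
  rw [e3, e2, e1, add_smul, add_smul]
  abel

/-- Soundness of the graph construction. -/
theorem drawable_sound (N : ℕ) (hN : 1 ≤ N) (L : List LE) (hL : ∀ x ∈ L, x.2.2 < N)
    (hd : Drawable (gEdges N L) (6 * N + 3)) : HubWeak N L := by
  obtain ⟨p, hinj, havoid, S, hS, hslope⟩ := hd
  obtain ⟨r, hr, hrS⟩ := exists_rays (k := 6 * N + 3) (by omega) S hS
  have hsupp : ∀ u v, GAdj N L u v → u ∈ supp (gEdges N L) := by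
    intro u v huv
    rcases huv with h | h
    · exact ⟨(u, v), mem_gEdges.2 h, Or.inl rfl⟩
    · exact ⟨(v, u), mem_gEdges.2 h, Or.inr rfl⟩
  have hne : ∀ u v, GEdge N L u v → u ≠ v := by
    intro u v h
    cases h with
    | ss t i ht hi =>
      intro heq
      simp only [Vx.star.injEq, true_and] at heq
      by_cases h1 : i + 1 < 6 * N + 3
      · rw [Nat.mod_eq_of_lt h1] at heq; omega
      · have : i + 1 = 6 * N + 3 := by omega
        rw [this, Nat.mod_self] at heq
        omega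
    | sj => simp
    | pj => simp
    | gg => simp
    | hg => simp
    | gh => simp
    | pg => simp
    | pg' => simp
    | gj => simp
  have hpne : ∀ u v, GAdj N L u v → p u ≠ p v := by
    intro u v huv he
    have h1 : u = v := hinj (hsupp u v huv) (hsupp v u huv.symm) he
    rcases huv with h | h
    · exact hne _ _ h h1
    · exact hne _ _ h h1.symm
  have hDr : Dr (GAdj N L) r p := by
    refine ⟨fun u v huv => huv.symm, ?_, ?_, ?_⟩
    · intro u v huv
      rcases huv with h | h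
      · exact hrS _ _ (hpne u v (Or.inl h)) (hslope (u, v) (mem_gEdges.2 h))
      · obtain ⟨i, c, hc, hi⟩ := hrS _ _ (hpne v u (Or.inl h)) (hslope (v, u) (mem_gEdges.2 h))
        refine ⟨i + (6 * N + 3 : ℕ), c, hc, ?_⟩
        rw [hr.anti, smul_neg, ← hi]
        abel
    · intro u v w x huv hwx
      rcases huv with h | h
      · exact havoid (u, v) (mem_gEdges.2 h) w (hsupp w x hwx)
      · have := havoid (v, u) (mem_gEdges.2 h) w (hsupp w x hwx)
        rw [openSegment_symm] at this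
        exact this
    · intro u v w x huv hwx he
      exact hinj (hsupp u v huv) (hsupp w x hwx) he
  have hstar : ∀ t, ∃ c e : ℤ, t ≤ L.length → StarData N L r p t c e := by
    intro t
    by_cases ht : t ≤ L.length
    · obtain ⟨c, e, he⟩ := star_sound hDr hr ht
      exact ⟨c, e, fun _ => he⟩
    · exact ⟨0, 0, fun h => absurd h ht⟩
  choose c ε hstar using hstar
  have hlabm : ∀ e < L.length, lab L e ∈ L := by
    intro e he
    have : lab L e = L[e] := by simp [lab, he]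
    rw [this]
    exact List.getElem_mem he
  have hlink : ∀ t ≤ L.length, ε t = ε 0 ∧ ((6 * N + 3 : ℕ) : ℤ) ∣ c t - c 0 := by
    intro t
    induction t with
    | zero => intro _; exact ⟨rfl, by simp⟩
    | succ t ih =>
      intro ht
      obtain ⟨h1, h2⟩ := ih (by omega)
      obtain ⟨h3, h4, _⟩ := gadget_sound hDr hr hN (e := t) (by omega)
        (hL _ (hlabm t (by omega))) (hstar t (by omega)) (hstar (t + 1) ht)
      refine ⟨h3.trans h1, ?_⟩
      have : c (t + 1) - c 0 = (c (t + 1) - c t) + (c t - c 0) := by ring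
      rw [this]
      exact dvd_add h4 h2
  refine ⟨fun n => r (c 0 + ε 0 * (6 * n + 1)), fun g => p (.hub g), ?_, ?_⟩
  · intro a b ha hb hab hcr
    have h1 := hr.cr_eq_zero (by omega) hcr
    have h2 : (c 0 + ε 0 * (6 * (b : ℤ) + 1)) - (c 0 + ε 0 * (6 * (a : ℤ) + 1)) =
        ε 0 * (6 * ((b : ℤ) - a)) := by ring
    rw [h2] at h1
    have h3 : ((6 * N + 3 : ℕ) : ℤ) ∣ 6 * ((b : ℤ) - a) := by
      rcases (hstar 0 (Nat.zero_le _)).1 with h | h
      · rw [h, one_mul] at h1; exact h1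
      · rw [h, neg_one_mul] at h1; exact (dvd_neg).1 h1
    rcases lt_or_gt_of_ne hab with h | h
    · have := Int.le_of_dvd (by omega) h3
      push_cast at this
      omega
    · have := Int.le_of_dvd (by omega : (0 : ℤ) < -(6 * ((b : ℤ) - a))) ((dvd_neg).2 h3)
      push_cast at this
      omega
  · intro x hx
    obtain ⟨e, he, rfl⟩ := List.getElem_of_mem hx
    have hle : lab L e = L[e] := by simp [lab, he]
    obtain ⟨h3, h4, s, y, hy, hs, heq⟩ := gadget_sound hDr hr hN (e := e) he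
        (hL _ (hlabm e he)) (hstar e (by omega)) (hstar (e + 1) (by omega))
    rw [hle] at heq hs
    constructor
    · intro heq2
      simp only at heq2
      rw [heq2, sub_self] at heq
      rcases smul_eq_zero.1 heq.symm with h5 | h5
      · linarith
      · exact hr.ne_zero (by omega) s h5
    · simp only
      rw [heq, cr_smul_right]
      obtain ⟨h5, h6⟩ := hlink e (by omega)
      have h7 : cr (r (c 0 + ε 0 * (6 * (L[e].2.2 : ℤ) + 1))) (r s) = 0 := by
        refine hr.cr_of_dvd ?_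
        rw [h5] at hs
        have : s - (c 0 + ε 0 * (6 * (L[e].2.2 : ℤ) + 1)) =
          (s - (c e + ε 0 * (6 * (L[e].2.2 : ℤ) + 1))) + (c e - c 0) := by ring
        rw [this]
        exact dvd_add hs h6
      rw [h7, mul_zero]

end

end Pool.Agent.Slope
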