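import Pool.Agent.Slope.Star
import Pool.Agent.Slope.Graph

set_option autoImplicit false

/-!
# Soundness of the graph construction
-/

namespace Pool.Agent.Slope

theorem zmod_dvd {k : ℕ} {a b : ℤ} (h : (a : ZMod (2 * k)) = (b : ZMod (2 * k))) :
    (2 * k : ℤ) ∣ a - b := by
  have := (ZMod.intCast_eq_intCast_iff_dvd_sub b a (2 * k)).1 h.symm
  push_cast at this
  exact this

theorem zmod_of_dvd {k : ℕ} {a b : ℤ} (h : (2 * k : ℤ) ∣ a - b) :
    (a : ZMod (2 * k)) = (b : ZMod (2 * k)) := by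
  refine ((ZMod.intCast_eq_intCast_iff_dvd_sub b a (2 * k)).2 ?_).symm
  push_cast
  exact h

theorem dvd_k_of_dvd_two_k {k a : ℤ} (h : 2 * k ∣ a) : k ∣ a := dvd_trans ⟨2, by ring⟩ h

theorem Rays.cr_of_dvd {k : ℕ} {r : ℤ → ℝ × ℝ} (hr : Rays k r) {i j : ℤ}
    (h : (k : ℤ) ∣ j - i) : cr (r i) (r j) = 0 := by
  obtain ⟨q, hq⟩ := h
  have key : ∀ q : ℤ, cr (r i) (r (i + k * q)) = 0 := by
    intro q
    induction q with
    | zero => simp [cr_self]
    | succ q ih =>
      have : i + (k : ℤ) * (q + 1) = i + k * q + k := by ring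
      rw [this, hr.anti, cr_neg_right, ih, neg_zero]
    | pred q ih =>
      have : i + (k : ℤ) * (-(q : ℤ) - 1) = i + k * (-(q : ℤ)) - k := by ring
      rw [this, hr.anti', cr_neg_right, ih, neg_zero]
  have : j = i + k * q := by linarith
  rw [this]
  exact key q

section

variable {N : ℕ} {L : List LE} {r : ℤ → ℝ × ℝ} {p : Vx → ℝ × ℝ}

/-- Adjacency in the graph. -/
def GAdj (N : ℕ) (L : List LE) (u v : Vx) : Prop := GEdge N L u v ∨ GEdge N L v u

/-- The junk of a star vertex. -/
def junkA (N t i : ℕ) : Finset Vx :=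
  (Finset.range (2 * (6 * N + 3) - 2)).image fun m => Vx.jA t i m

def junkB (N e : ℕ) : Finset Vx :=
  (Finset.range (2 * (6 * N + 3) - 4)).image fun m => Vx.jB e m

theorem card_junkA (N t i : ℕ) : (junkA N t i).card = 2 * (6 * N + 3) - 2 := by
  rw [junkA, Finset.card_image_of_injective _ (fun a b h => by simpa using h), Finset.card_range]

theorem card_junkB (N e : ℕ) : (junkB N e).card = 2 * (6 * N + 3) - 4 := by
  rw [junkB, Finset.card_image_of_injective _ (fun a b h => by simpa using h), Finset.card_range]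

theorem not_mem_junkA {N t i : ℕ} {v : Vx} (h : ∀ m, v ≠ Vx.jA t i m) : v ∉ junkA N t i := by
  intro hv
  obtain ⟨m, _, hm⟩ := Finset.mem_image.1 hv
  exact h m hm.symm

theorem not_mem_junkB {N e : ℕ} {v : Vx} (h : ∀ m, v ≠ Vx.jB e m) : v ∉ junkB N e := by
  intro hv
  obtain ⟨m, _, hm⟩ := Finset.mem_image.1 hv
  exact h m hm.symm

/-- The star number `t`: its labelling of the slopes. -/
theorem star_sound (h : Dr (GAdj N L) r p) (hr : Rays (6 * N + 3) r) {t : ℕ}
    (ht : t ≤ L.length) : ∃ c e : ℤ, (e = 1 ∨ e = -1) ∧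
      ∀ i < 6 * N + 3, ∀ z a, GAdj N L (.part t i) z → (∀ m, z ≠ Vx.jA t i m) →
        On r p (.part t i) z a →
        (((6 * N + 3 : ℕ) : ℤ) ∣ a - (c + e * i) ∨ ((6 * N + 3 : ℕ) : ℤ) ∣ a - (c + e * (i - 1))) := by
  obtain ⟨k, hk⟩ : ∃ k, k = 6 * N + 3 := ⟨_, rfl⟩
  have hk3 : 3 ≤ k := by omega
  have hodd : Odd k := ⟨3 * N + 1, by omega⟩
  rw [← hk] at hr
  have hcomm : ∀ i < k, ∀ w ∈ junkA N t i, GAdj N L (.star t i) w ∧ GAdj N L (.part t i) w := by
    intro i hi w hw
    obtain ⟨m, hm, rfl⟩ := Finset.mem_image.1 hw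
    rw [Finset.mem_range] at hm
    exact ⟨Or.inl (.sj t i m ht (by omega) hm), Or.inl (.pj t i m ht (by omega) hm)⟩
  -- directions of the star edges
  have hss : ∀ i < k, GAdj N L (.star t i) (.star t ((i + 1) % k)) := fun i hi => by
    have := GEdge.ss (N := N) (L := L) t i ht (by omega)
    rw [← hk] at this
    exact Or.inl this
  have hex : ∀ i : ℕ, ∃ a : ℤ, i < k → On r p (.star t i) (.star t ((i + 1) % k)) a := by
    intro i
    by_cases hi : i < k
    · obtain ⟨a, c, hc, ha⟩ := h.ray _ _ (hss i hi)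
      exact ⟨a, fun _ => ⟨c, hc, ha⟩⟩
    · exact ⟨0, fun h => absurd h hi⟩
  choose R hR using hex
  have hfull : ∀ i : ℕ, ∃ ρ : ℤ, i < k →
      (∀ z a, GAdj N L (.star t i) z → z ∉ junkA N t i → On r p (.star t i) z a →
        ((a : ZMod (2 * k)) = (ρ : ZMod (2 * k)) ∨
          (a : ZMod (2 * k)) = ((ρ + 1 : ℤ) : ZMod (2 * k)))) ∧
      ∀ z a, GAdj N L (.part t i) z → z ∉ junkA N t i → On r p (.part t i) z a →
        ((a : ZMod (2 * k)) = ((ρ + k : ℤ) : ZMod (2 * k)) ∨
          (a : ZMod (2 * k)) = ((ρ + k + 1 : ℤ) : ZMod (2 * k))) := by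
    intro i
    by_cases hi : i < k
    · obtain ⟨ρ, hρ⟩ := h.full_pair hr (by omega) (u := .star t i) (v := .part t i) (by simp)
        (junkA N t i) (hcomm i hi) (by rw [card_junkA, hk])
      exact ⟨ρ, fun _ => hρ⟩
    · exact ⟨0, fun h => absurd h hi⟩
  choose ρ hρ using hfull
  -- the two core neighbours of a star vertex
  have two : ∀ i < k, ∀ i' < k, i = (i' + 1) % k →
      (((R i : ZMod (2 * k)) = ρ i ∧ ((R i' + k : ℤ) : ZMod (2 * k)) = ((ρ i + 1 : ℤ) : ZMod (2 * k))) ∨
      ((R i : ZMod (2 * k)) = ((ρ i + 1 : ℤ) : ZMod (2 * k)) ∧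
        ((R i' + k : ℤ) : ZMod (2 * k)) = (ρ i : ZMod (2 * k)))) := by
    intro i hi i' hi' hii
    have h1 := (hρ i hi).1 _ _ (hss i hi) (not_mem_junkA (by simp)) (hR i hi)
    have hadj : GAdj N L (.star t i) (.star t i') := by
      have := h.symm _ _ (hss i' hi')
      rwa [← hii] at this
    have hon : On r p (.star t i) (.star t i') (R i' + k) := by
      have := (hR i' hi').symm hr
      rwa [← hii] at this
    have h2 := (hρ i hi).1 _ _ hadj (not_mem_junkA (by simp)) hon
    have hne : ¬ ((R i : ZMod (2 * k)) = ((R i' + k : ℤ) : ZMod (2 * k))) := by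
      intro he
      have := h.ray_inj hr (hss i hi) hadj (hR i hi) hon he
      simp only [Vx.star.injEq, true_and] at this
      -- (i+1)%k = i'
      rw [hii] at this
      have e1 : ((i' + 1) % k + 1) % k = (i' + 2) % k := by
        rw [Nat.mod_add_mod]
      rw [e1] at this
      have h5 := Nat.div_add_mod (i' + 2) k
      rw [this] at h5
      have h6 : k * ((i' + 2) / k) = 2 := by omega
      have h7 : k ∣ 2 := ⟨_, h6.symm⟩
      have := Nat.le_of_dvd (by norm_num) h7
      omega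
    rcases h1 with h1 | h1 <;> rcases h2 with h2 | h2
    · exact absurd (h1.trans h2.symm) hne
    · exact Or.inl ⟨h1, h2⟩
    · exact Or.inr ⟨h1, h2⟩
    · exact absurd (h1.trans h2.symm) hne
  obtain ⟨e, he, hturn, hlab⟩ := star_turns hodd R (by
    intro i' hi'
    have hi : (i' + 1) % k < k := Nat.mod_lt _ (by omega)
    rcases two _ hi i' hi' rfl with ⟨h1, h2⟩ | ⟨h1, h2⟩
    · refine ⟨-1, Or.inr rfl, ?_⟩
      have h3 := zmod_dvd h1
      have h4 := zmod_dvd h2
      have : R ((i' + 1) % k) - R i' - k - -1 =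
        (R ((i' + 1) % k) - ρ ((i' + 1) % k)) - (R i' + k - (ρ ((i' + 1) % k) + 1)) := by ring
      rw [this]
      exact dvd_sub h3 h4
    · refine ⟨1, Or.inl rfl, ?_⟩
      have h3 := zmod_dvd h1
      have h4 := zmod_dvd h2
      have : R ((i' + 1) % k) - R i' - k - 1 =
        (R ((i' + 1) % k) - (ρ ((i' + 1) % k) + 1)) - (R i' + k - ρ ((i' + 1) % k)) := by ring
      rw [this]
      exact dvd_sub h3 h4)
  refine ⟨R 0, e, he, ?_⟩
  rw [← hk]
  intro i hi z a hz hzj ha
  obtain ⟨i', hi', hii⟩ : ∃ i' < k, i = (i' + 1) % k := by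
    rcases Nat.eq_zero_or_pos i with rfl | hpos
    · exact ⟨k - 1, by omega, by rw [Nat.sub_add_cancel (by omega), Nat.mod_self]⟩
    · exact ⟨i - 1, by omega, by rw [Nat.sub_add_cancel hpos, Nat.mod_eq_of_lt hi]⟩
  have hlab' : (k : ℤ) ∣ R i' - (R 0 + e * (i - 1)) := by
    rcases Nat.eq_zero_or_pos i with h0 | hpos
    · have h1 : i' = k - 1 := by
        by_contra hne
        rw [Nat.mod_eq_of_lt (by omega)] at hii
        omega
      have h2 := hlab i' hi'
      have h3 : (i' : ℤ) = k - 1 := by omega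
      have : R i' - (R 0 + e * (i - 1)) = R i' - (R 0 + e * i') + k * e := by
        rw [h3, h0]; push_cast; ring
      rw [this]
      exact dvd_add h2 (dvd_mul_right _ _)
    · have h1 : i' + 1 = i := by
        by_cases h : i' + 1 < k
        · rw [Nat.mod_eq_of_lt h] at hii; omega
        · have : i' + 1 = k := by omega
          rw [this, Nat.mod_self] at hii
          omega
      have h2 := hlab i' hi'
      have h3 : (i : ℤ) - 1 = i' := by omega
      rw [h3]
      exact h2
  have h1 := (hρ i hi).2 z a hz (not_mem_junkA hzj) ha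
  -- a is congruent to R i or R i' modulo k
  have h2 : (k : ℤ) ∣ a - R i ∨ (k : ℤ) ∣ a - R i' := by
    rcases two i hi i' hi' hii with ⟨h3, h4⟩ | ⟨h3, h4⟩
    · have h3 := dvd_k_of_dvd_two_k (zmod_dvd h3)
      have h4 := dvd_k_of_dvd_two_k (zmod_dvd h4)
      rcases h1 with h1 | h1
      · left
        have h1 := dvd_k_of_dvd_two_k (zmod_dvd h1)
        have : a - R i = (a - (ρ i + k)) - (R i - ρ i) + k := by ring
        rw [this]
        exact dvd_add (dvd_sub h1 h3) (dvd_refl _)
      · right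
        have h1 := dvd_k_of_dvd_two_k (zmod_dvd h1)
        have : a - R i' = (a - (ρ i + k + 1)) - (R i' + k - (ρ i + 1)) + k * 2 := by ring
        rw [this]
        exact dvd_add (dvd_sub h1 h4) (dvd_mul_right _ _)
    · have h3 := dvd_k_of_dvd_two_k (zmod_dvd h3)
      have h4 := dvd_k_of_dvd_two_k (zmod_dvd h4)
      rcases h1 with h1 | h1
      · right
        have h1 := dvd_k_of_dvd_two_k (zmod_dvd h1)
        have : a - R i' = (a - (ρ i + k)) - (R i' + k - ρ i) + k * 2 := by ring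
        rw [this]
        exact dvd_add (dvd_sub h1 h4) (dvd_mul_right _ _)
      · left
        have h1 := dvd_k_of_dvd_two_k (zmod_dvd h1)
        have : a - R i = (a - (ρ i + k + 1)) - (R i - (ρ i + 1)) + k := by ring
        rw [this]
        exact dvd_add (dvd_sub h1 h3) (dvd_refl _)
  rcases h2 with h2 | h2
  · left
    have : a - (R 0 + e * i) = (a - R i) + (R i - (R 0 + e * i)) := by ring
    rw [this]
    exact dvd_add h2 (hlab i hi)
  · right
    have : a - (R 0 + e * (i - 1)) = (a - R i') + (R i' - (R 0 + e * (i - 1))) := by ring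
    rw [this]
    exact dvd_add h2 hlab'

end

end Pool.Agent.Slope
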