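import Pool.Agent.Slope.Defs
import Pool.Agent.PT.More
import Pool.Agent.PT.Bridge

set_option autoImplicit false

/-!
# The reduction ETR ≤ SLOPE NUMBER: internal definitions shared by the modules
-/

namespace Pool.Agent.Slope

/-! ### Drawings of edge lists -/

/-- The support of a list of edges. -/
def supp {V : Type} (Es : List (V × V)) : Set V := {w | ∃ e ∈ Es, w = e.1 ∨ w = e.2}

/-- The graph with edge list `Es` (and vertex set the support) has a drawing with at most `k`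
slopes. -/
def Drawable {V : Type} (Es : List (V × V)) (k : ℕ) : Prop :=
  ∃ p : V → ℝ × ℝ, Set.InjOn p (supp Es) ∧
    (∀ e ∈ Es, ∀ w ∈ supp Es, p w ∉ openSegment ℝ (p e.1) (p e.2)) ∧
    ∃ S : Finset (WithTop ℝ), S.card ≤ k ∧ ∀ e ∈ Es, slope (p e.1) (p e.2) ∈ S

/-! ### Constraint systems -/

/-- A constraint `(kind, i, l)`. -/
abbrev Cn : Type := ℕ × ℕ × ℕ

/-- Meaning of a constraint. -/
def Cn.Holds (y : ℕ → ℝ) (c : Cn) : Prop :=
  if c.1 = 0 then y c.2.1 = y c.2.2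
  else if c.1 = 1 then y c.2.1 + y (c.2.1 + 1) = y (c.2.1 + 2)
  else y c.2.1 * y (c.2.1 + 1) = y (c.2.1 + 2)

/-- Well-formed constraints in `n` variables. -/
def Cn.WF (n : ℕ) (c : Cn) : Prop :=
  if c.1 = 0 then c.2.1 < c.2.2 ∧ c.2.2 < n else c.2.1 + 2 < n

/-! ### The labelled hub graph -/

/-- A labelled edge `(P, Q, label)` between the hubs `P` and `Q`. -/
abbrev LE : Type := ℕ × ℕ × ℕ

/-- The labelled edges of the gadget for the constraint number `b`; the labels are `0` (horizontal),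
`2 v + 1` and `2 v + 2` (slopes `q_v` and `m_v` for the variable `y_v = m_v / q_v`), and `2 n + 1`
(vertical). The hubs are `8 b + 0, ..., 8 b + 7` =
`O, Q1, M1, Q2, M2, Q3, M3, N`. -/
def compEdges (n b : ℕ) (c : Cn) : List LE :=
  if c.1 = 0 then
    [(8 * b, 8 * b + 1, 2 * c.2.1 + 1), (8 * b, 8 * b + 2, 2 * c.2.1 + 2),
     (8 * b, 8 * b + 5, 2 * c.2.2 + 1), (8 * b, 8 * b + 6, 2 * c.2.2 + 2),
     (8 * b + 1, 8 * b + 2, 2 * n + 1), (8 * b + 5, 8 * b + 1, 0),
     (8 * b + 5, 8 * b + 6, 2 * n + 1), (8 * b + 6, 8 * b + 2, 0)]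
  else if c.1 = 1 then
    [(8 * b, 8 * b + 1, 2 * c.2.1 + 1), (8 * b, 8 * b + 2, 2 * c.2.1 + 2),
     (8 * b, 8 * b + 3, 2 * c.2.1 + 3), (8 * b, 8 * b + 4, 2 * c.2.1 + 4),
     (8 * b, 8 * b + 5, 2 * c.2.1 + 5), (8 * b, 8 * b + 6, 2 * c.2.1 + 6),
     (8 * b + 1, 8 * b + 2, 2 * n + 1), (8 * b + 5, 8 * b + 3, 0),
     (8 * b + 3, 8 * b + 4, 2 * n + 1), (8 * b + 3, 8 * b + 1, 0),
     (8 * b + 5, 8 * b + 6, 2 * n + 1), (8 * b + 2, 8 * b + 7, 2 * c.2.1 + 4),
     (8 * b + 4, 8 * b + 7, 2 * c.2.1 + 2), (8 * b + 6, 8 * b + 7, 0)]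
  else
    [(8 * b, 8 * b + 1, 2 * c.2.1 + 1), (8 * b, 8 * b + 2, 2 * c.2.1 + 2),
     (8 * b, 8 * b + 3, 2 * c.2.1 + 3), (8 * b, 8 * b + 4, 2 * c.2.1 + 4),
     (8 * b, 8 * b + 5, 2 * c.2.1 + 5), (8 * b, 8 * b + 6, 2 * c.2.1 + 6),
     (8 * b + 1, 8 * b + 2, 2 * n + 1), (8 * b + 5, 8 * b + 1, 0),
     (8 * b + 3, 8 * b + 4, 2 * n + 1), (8 * b + 3, 8 * b + 2, 0),
     (8 * b + 5, 8 * b + 6, 2 * n + 1), (8 * b + 6, 8 * b + 4, 0)]

/-- All labelled edges. -/
def hubEdges (n : ℕ) (cs : List Cn) : List LE :=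
  (List.range cs.length).flatMap fun b => compEdges n b (cs.getD b (0, 0, 0))

/-- The hubs of a list of labelled edges. -/
def hubs (L : List LE) : Set ℕ := {h | ∃ x ∈ L, h = x.1 ∨ h = x.2.1}

/-- Cross product. -/
def cr (u v : ℝ × ℝ) : ℝ := u.1 * v.2 - u.2 * v.1

/-- Weak realization of the labelled hub graph: equal labels are parallel, the directions of the
labels `< N` are pairwise not parallel. -/
def HubWeak (N : ℕ) (L : List LE) : Prop :=
  ∃ (D H : ℕ → ℝ × ℝ), (∀ a b, a < N → b < N → a ≠ b → cr (D a) (D b) ≠ 0) ∧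
    ∀ x ∈ L, H x.1 ≠ H x.2.1 ∧ cr (D x.2.2) (H x.2.1 - H x.1) = 0

/-- Strong realization: the label `a` has slope `s a` (strictly increasing), all labelled edges are
directed to the right, the hubs are distinct and not in the interior of labelled edges. -/
def HubStrong (L : List LE) : Prop :=
  ∃ (s : ℕ → ℝ) (H : ℕ → ℝ × ℝ), StrictMono s ∧
    (∀ x ∈ L, ∃ c : ℝ, 0 < c ∧ H x.2.1 - H x.1 = (c, c * s x.2.2)) ∧
    Set.InjOn H (hubs L) ∧
    ∀ x ∈ L, ∀ h ∈ hubs L, H h ∉ openSegment ℝ (H x.1) (H x.2.1)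

/-! ### The graph -/

/-- The vertices of the graph. -/
inductive Vx
  | hub (h : ℕ)
  | gad (e : ℕ) (s : Bool)
  | star (t i : ℕ)
  | part (t i : ℕ)
  | jA (t i m : ℕ)
  | jB (e m : ℕ)
  deriving DecidableEq

/-- The parity of the number of a star. -/
def side (t : ℕ) : Bool := decide (t % 2 = 0)

/-- The edges at the `E + 1` stars. -/
def starEdges (k E : ℕ) : List (Vx × Vx) :=
  (List.range (E + 1)).flatMap fun t => (List.range k).flatMap fun i =>
    (Vx.star t i, Vx.star t ((i + 1) % k)) ::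
      (List.range (2 * k - 2)).flatMap fun m =>
        [(Vx.star t i, Vx.jA t i m), (Vx.part t i, Vx.jA t i m)]

/-- The edges of the gadget of the labelled edge number `e`. -/
def gadEdges (k e : ℕ) (x : LE) : List (Vx × Vx) :=
  [(Vx.gad e false, Vx.gad e true), (Vx.hub x.1, Vx.gad e false), (Vx.gad e true, Vx.hub x.2.1),
   (Vx.part e (6 * x.2.2), Vx.gad e (side e)),
   (Vx.part e (6 * x.2.2 + 3), Vx.gad e (!side e)),
   (Vx.part (e + 1) (6 * x.2.2), Vx.gad e (side (e + 1))),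
   (Vx.part (e + 1) (6 * x.2.2 + 3), Vx.gad e (!side (e + 1)))] ++
  (List.range (2 * k - 4)).flatMap fun m =>
    [(Vx.gad e false, Vx.jB e m), (Vx.gad e true, Vx.jB e m)]

/-- The edges of the graph for `N` labels and the list `L` of labelled edges; the number of slopes
is `6 N + 3`. -/
def gEdges (N : ℕ) (L : List LE) : List (Vx × Vx) :=
  starEdges (6 * N + 3) L.length ++
    (List.range L.length).flatMap fun e => gadEdges (6 * N + 3) e (L.getD e (0, 0, 0))

/-- Numbering of the vertices. -/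
def Vx.tup : Vx → ℕ × ℕ × ℕ × ℕ
  | .hub h => (0, h, 0, 0)
  | .gad e s => (1, e, cond s 1 0, 0)
  | .star t i => (2, t, i, 0)
  | .part t i => (3, t, i, 0)
  | .jA t i m => (4, t, i, m)
  | .jB e m => (5, e, m, 0)

/-- Numbering of the vertices. -/
def Vx.num (B : ℕ) (v : Vx) : ℕ := ((v.tup.1 * B + v.tup.2.1) * B + v.tup.2.2.1) * B + v.tup.2.2.2

/-- A bound for the indices used. -/
def bnd (n : ℕ) (cs : List Cn) : ℕ := 20 * cs.length + 30 * n + 50

/-- The instance of SLOPE NUMBER. -/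
def mkInst (n : ℕ) (cs : List Cn) : Inst where
  n := 6 * (bnd n cs * bnd n cs * bnd n cs)
  edges := (gEdges (2 * n + 2) (hubEdges n cs)).map fun e =>
    (e.1.num (bnd n cs), e.2.num (bnd n cs))
  k := 6 * (2 * n + 2) + 3

end Pool.Agent.Slope
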