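import Pool.Agent.Slope.Pairs

set_option autoImplicit false

/-!
# Ray systems from slopes; the arithmetic of stars and gadgets
-/

namespace Pool.Agent.Slope

/-- Rays from directions. -/
noncomputable def mkRay (k : ℕ) (d : ℕ → ℝ × ℝ) (i : ℤ) : ℝ × ℝ :=
  if Even (i / k) then d (i % k).toNat else - d (i % k).toNat

theorem mkRay_nat {k : ℕ} (d : ℕ → ℝ × ℝ) {i : ℕ} (hi : i < k) : mkRay k d i = d i := by
  have h1 : (i : ℤ) / k = 0 := Int.ediv_eq_zero_of_lt (by omega) (by omega)
  have h2 : (i : ℤ) % k = i := Int.emod_eq_of_lt (by omega) (by omega)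
  rw [mkRay, h1, h2]
  simp

theorem mkRays {k : ℕ} (hk : 1 ≤ k) {d : ℕ → ℝ × ℝ}
    (hd : ∀ i j, i < j → j < k → 0 < cr (d i) (d j)) : Rays k (mkRay k d) := by
  have hk0 : (0 : ℤ) < k := by omega
  have anti : ∀ i : ℤ, mkRay k d (i + k) = - mkRay k d i := by
    intro i
    have h1 : (i + k) / (k : ℤ) = i / k + 1 := by
      have := Int.add_mul_ediv_right i 1 hk0.ne'
      rwa [one_mul] at this
    have h2 : (i + k) % (k : ℤ) = i % k := Int.add_emod_right _ _
    rw [mkRay, mkRay, h1, h2]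
    by_cases h : Even (i / (k : ℤ))
    · have h' : ¬ Even (i / (k : ℤ) + 1) := by
        rw [Int.not_even_iff_odd]; exact h.add_one
      rw [if_pos h, if_neg h']
    · have h' : Even (i / (k : ℤ) + 1) := by
        rw [Int.not_even_iff_odd] at h; exact h.add_one
      rw [if_neg h, if_pos h', neg_neg]
  refine ⟨anti, fun i j hij hjk => ?_⟩
  have hi0 := Int.emod_nonneg i hk0.ne'
  have hi1 := Int.emod_lt_of_pos i hk0
  have hj0 := Int.emod_nonneg j hk0.ne'
  have hj1 := Int.emod_lt_of_pos j hk0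
  have hi := Int.emod_add_mul_ediv i k
  have hj := Int.emod_add_mul_ediv j k
  have hq : j / k = i / k ∨ j / k = i / k + 1 := by
    have h1 : i / (k : ℤ) ≤ j / k := Int.ediv_le_ediv hk0 hij.le
    have h2 : j / (k : ℤ) ≤ (i + k) / k := Int.ediv_le_ediv hk0 hjk.le
    have h3 : (i + k) / (k : ℤ) = i / k + 1 := by
      have := Int.add_mul_ediv_right i 1 hk0.ne'
      rwa [one_mul] at this
    rw [h3] at h2
    omega
  rcases hq with hq | hq
  · have hlt : i % k < j % k := by
      rw [hq] at hj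
      linarith
    have h3 := hd (i % k).toNat (j % k).toNat (by omega) (by omega)
    rw [mkRay, mkRay, hq]
    by_cases h : Even (i / (k : ℤ))
    · rw [if_pos h, if_pos h]; exact h3
    · rw [if_neg h, if_neg h, cr_neg_left, cr_neg_right, neg_neg]; exact h3
  · have hlt : j % k < i % k := by
      rw [hq] at hj
      linarith
    have h3 := hd (j % k).toNat (i % k).toNat (by omega) (by omega)
    rw [mkRay, mkRay, hq]
    by_cases h : Even (i / (k : ℤ))
    · have h' : ¬ Even (i / (k : ℤ) + 1) := by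
        rw [Int.not_even_iff_odd]; exact h.add_one
      rw [if_pos h, if_neg h', cr_neg_right, cr_swap]
      linarith
    · have h' : Even (i / (k : ℤ) + 1) := by
        rw [Int.not_even_iff_odd] at h; exact h.add_one
      rw [if_neg h, if_pos h', cr_neg_left, cr_swap]
      linarith

/-- The direction of a slope. -/
noncomputable def dirOf : WithTop ℝ → ℝ × ℝ
  | ⊤ => (0, 1)
  | (s : ℝ) => (1, s)

theorem cr_dirOf {s t : WithTop ℝ} (h : s < t) : 0 < cr (dirOf s) (dirOf t) := by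
  induction s using WithTop.recTopCoe with
  | top => exact absurd h not_top_lt
  | coe s =>
    induction t using WithTop.recTopCoe with
    | top =>
      change 0 < cr (1, s) (0, 1)
      simp [cr]
    | coe t =>
      change 0 < cr (1, s) (1, t)
      have := WithTop.coe_lt_coe.1 h
      simp only [cr]
      linarith

theorem sub_eq_dirOf {p q : ℝ × ℝ} (h : p ≠ q) :
    ∃ c : ℝ, c ≠ 0 ∧ q - p = c • dirOf (slope p q) := by
  by_cases h1 : p.1 = q.1
  · have h2 : p.2 ≠ q.2 := fun h2 => h (Prod.ext h1 h2)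
    refine ⟨q.2 - p.2, sub_ne_zero.2 h2.symm, ?_⟩
    have e : slope p q = ⊤ := by rw [slope, if_pos h1]
    rw [e]
    change q - p = (q.2 - p.2) • ((0 : ℝ), (1 : ℝ))
    refine Prod.ext ?_ ?_
    · simp [h1]
    · simp
  · have h2 : q.1 - p.1 ≠ 0 := sub_ne_zero.2 (Ne.symm h1)
    refine ⟨q.1 - p.1, h2, ?_⟩
    have e : slope p q = (((q.2 - p.2) / (q.1 - p.1) : ℝ) : WithTop ℝ) := by
      rw [slope, if_neg h1]
    rw [e]
    change q - p = (q.1 - p.1) • ((1 : ℝ), (q.2 - p.2) / (q.1 - p.1))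
    refine Prod.ext ?_ ?_
    · simp
    · simp only [Prod.snd_sub, Prod.smul_snd, smul_eq_mul]
      field_simp

/-- Ray system containing a given finite set of slopes. -/
theorem exists_rays {k : ℕ} (hk : 1 ≤ k) (S : Finset (WithTop ℝ)) (hS : S.card ≤ k) :
    ∃ r : ℤ → ℝ × ℝ, Rays k r ∧ ∀ p q : ℝ × ℝ, p ≠ q → slope p q ∈ S →
      ∃ (i : ℤ) (c : ℝ), 0 < c ∧ q - p = c • r i := by
  obtain ⟨T, hST, hT⟩ := Infinite.exists_superset_card_eq S k hS
  set d : ℕ → ℝ × ℝ := fun j => if h : j < k then dirOf (T.orderEmbOfFin hT ⟨j, h⟩) else 0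
    with hd
  have hdp : ∀ i j, i < j → j < k → 0 < cr (d i) (d j) := by
    intro i j hij hj
    simp only [hd]
    rw [dif_pos hj, dif_pos (hij.trans hj)]
    refine cr_dirOf ?_
    exact (T.orderEmbOfFin hT).strictMono hij
  have hr := mkRays hk hdp
  refine ⟨mkRay k d, hr, fun p q hpq hs => ?_⟩
  obtain ⟨c, hc, h⟩ := sub_eq_dirOf hpq
  have hmem : slope p q ∈ Set.range (T.orderEmbOfFin hT) := by
    rw [Finset.range_orderEmbOfFin]
    exact hST hs
  obtain ⟨j, hj⟩ := hmem
  have hdj : mkRay k d (j : ℕ) = dirOf (slope p q) := by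
    rw [mkRay_nat d j.2]
    simp only [hd]
    rw [dif_pos j.2, ← hj]
  rcases lt_or_gt_of_ne hc with h0 | h0
  · refine ⟨(j : ℕ) + k, -c, by linarith, ?_⟩
    rw [hr.anti, hdj, smul_neg, neg_smul, neg_neg]
    exact h
  · exact ⟨(j : ℕ), c, h0, by rw [hdj]; exact h⟩

/-- Star polygons: all turns go in the same direction. -/
theorem star_turns {k : ℕ} (hk : Odd k) (R : ℕ → ℤ)
    (hR : ∀ i < k, ∃ e : ℤ, (e = 1 ∨ e = -1) ∧ ((2 * k : ℤ)) ∣ R ((i + 1) % k) - R i - k - e) :
    ∃ e : ℤ, (e = 1 ∨ e = -1) ∧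
      (∀ i < k, (2 * k : ℤ) ∣ R ((i + 1) % k) - R i - k - e) ∧
      ∀ i < k, (k : ℤ) ∣ R i - (R 0 + e * i) := by
  have hk0 : 0 < k := hk.pos
  have hex : ∀ i : ℕ, ∃ e : ℤ, i < k → ((e = 1 ∨ e = -1) ∧
      ((2 * k : ℤ)) ∣ R ((i + 1) % k) - R i - k - e) := by
    intro i
    by_cases h : i < k
    · obtain ⟨e, he⟩ := hR i h
      exact ⟨e, fun _ => he⟩
    · exact ⟨0, fun h' => absurd h' h⟩
  choose e he using hex
  have hsum : ∑ i ∈ Finset.range k, (R ((i + 1) % k) - R i) = 0 := by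
    obtain ⟨m, rfl⟩ : ∃ m, k = m + 1 := ⟨k - 1, by omega⟩
    rw [Finset.sum_range_succ]
    have h1 : ∀ i ∈ Finset.range m, R ((i + 1) % (m + 1)) - R i = R (i + 1) - R i := by
      intro i hi
      rw [Finset.mem_range] at hi
      rw [Nat.mod_eq_of_lt (by omega)]
    rw [Finset.sum_congr rfl h1, Finset.sum_range_sub, Nat.mod_self]
    ring
  have hdvd : (2 * k : ℤ) ∣ ∑ i ∈ Finset.range k, (R ((i + 1) % k) - R i - k - e i) :=
    Finset.dvd_sum fun i hi => (he i (Finset.mem_range.1 hi)).2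
  have hsum2 : ∑ i ∈ Finset.range k, (R ((i + 1) % k) - R i - k - e i) =
      - ((k : ℤ) * k) - ∑ i ∈ Finset.range k, e i := by
    have : ∀ i ∈ Finset.range k, R ((i + 1) % k) - R i - k - e i =
        (R ((i + 1) % k) - R i) - (k : ℤ) - e i := fun i _ => rfl
    rw [Finset.sum_congr rfl this, Finset.sum_sub_distrib, Finset.sum_sub_distrib, hsum]
    simp
  rw [hsum2] at hdvd
  set E := ∑ i ∈ Finset.range k, e i with hE
  have hEle : E ≤ k := by
    have : E ≤ ∑ i ∈ Finset.range k, (1 : ℤ) := Finset.sum_le_sum fun i hi => by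
      rcases (he i (Finset.mem_range.1 hi)).1 with h | h <;> rw [h]; norm_num
    simpa using this
  have hEge : -(k : ℤ) ≤ E := by
    have : ∑ i ∈ Finset.range k, (-1 : ℤ) ≤ E := Finset.sum_le_sum fun i hi => by
      rcases (he i (Finset.mem_range.1 hi)).1 with h | h <;> rw [h]; norm_num
    simpa using this
  have hdvd2 : (2 * k : ℤ) ∣ k + E := by
    obtain ⟨m, hm⟩ := hk
    obtain ⟨q, hq⟩ := hdvd
    refine ⟨-q - m, ?_⟩
    have hm' : (k : ℤ) = 2 * m + 1 := by exact_mod_cast hm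
    have : (k : ℤ) + E = k + (-(k * k) - 2 * k * q) := by rw [← hq]; ring
    rw [this, hm']
    ring
  have hall : (∀ i < k, e i = 1) ∨ ∀ i < k, e i = -1 := by
    obtain ⟨q, hq⟩ := hdvd2
    have hq0 : 0 ≤ q := by
      by_contra h
      have : q ≤ -1 := by omega
      have : (2 * k : ℤ) * q ≤ 2 * k * (-1) := mul_le_mul_of_nonneg_left this (by omega)
      omega
    have hq1 : q ≤ 1 := by
      by_contra h
      have : 2 ≤ q := by omega
      have : (2 * k : ℤ) * 2 ≤ 2 * k * q := mul_le_mul_of_nonneg_left this (by omega)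
      omega
    rcases (by omega : q = 0 ∨ q = 1) with rfl | rfl
    · right
      have hE' : E = -k := by linarith
      have h0 : ∑ i ∈ Finset.range k, (e i + 1) = 0 := by
        rw [Finset.sum_add_distrib, ← hE, hE']; simp
      rw [Finset.sum_eq_zero_iff_of_nonneg (fun i hi => by
        rcases (he i (Finset.mem_range.1 hi)).1 with h | h <;> rw [h] <;> norm_num)] at h0
      intro i hi
      have := h0 i (Finset.mem_range.2 hi)
      omega
    · left
      have hE' : E = k := by linarith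
      have h0 : ∑ i ∈ Finset.range k, (1 - e i) = 0 := by
        rw [Finset.sum_sub_distrib, ← hE, hE']; simp
      rw [Finset.sum_eq_zero_iff_of_nonneg (fun i hi => by
        rcases (he i (Finset.mem_range.1 hi)).1 with h | h <;> rw [h] <;> norm_num)] at h0
      intro i hi
      have := h0 i (Finset.mem_range.2 hi)
      omega
  have fin : ∀ e0 : ℤ, (∀ i < k, e i = e0) →
      (∀ i < k, (2 * k : ℤ) ∣ R ((i + 1) % k) - R i - k - e0) ∧
      ∀ i < k, (k : ℤ) ∣ R i - (R 0 + e0 * i) := by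
    intro e0 h0
    have h1 : ∀ i < k, (2 * k : ℤ) ∣ R ((i + 1) % k) - R i - k - e0 := by
      intro i hi
      have := (he i hi).2
      rwa [h0 i hi] at this
    refine ⟨h1, fun i => ?_⟩
    induction i with
    | zero => intro _; simp
    | succ i ih =>
      intro hi
      have h2 := ih (by omega)
      have h3 := h1 i (by omega)
      rw [Nat.mod_eq_of_lt hi] at h3
      have h4 : (k : ℤ) ∣ R (i + 1) - R i - k - e0 :=
        dvd_trans ⟨2, by ring⟩ h3
      have : R (i + 1) - (R 0 + e0 * ((i + 1 : ℕ) : ℤ)) =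
          (R (i + 1) - R i - k - e0) + (R i - (R 0 + e0 * i)) + k := by
        push_cast; ring
      rw [this]
      exact dvd_add (dvd_add h4 h2) (dvd_refl _)
  rcases hall with h | h
  · exact ⟨1, Or.inl rfl, fin 1 h⟩
  · exact ⟨-1, Or.inr rfl, fin (-1) h⟩

/-- The arithmetic of a gadget and one star. -/
theorem gadget_arith {k : ℤ} (hk : 7 ≤ k) {c e j s a₁ a₂ δ₁ δ₂ : ℤ} (he : e = 1 ∨ e = -1)
    (h1 : k ∣ a₁ - (c + e * (j - 1)) ∨ k ∣ a₁ - (c + e * (j - 2)))
    (h2 : k ∣ a₂ - (c + e * (j + 1)) ∨ k ∣ a₂ - (c + e * (j + 2)))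
    (hd1 : -1 ≤ δ₁ ∧ δ₁ ≤ 1) (hd2 : -1 ≤ δ₂ ∧ δ₂ ≤ 1)
    (h3 : k ∣ a₁ - (s + δ₁)) (h4 : k ∣ a₂ - (s + δ₂)) :
    k ∣ s - (c + e * j) ∧ δ₁ = -e ∧ δ₂ = e := by
  have small : ∀ x : ℤ, k ∣ x → -6 ≤ x → x ≤ 6 → x = 0 := by
    intro x hx h1 h2
    by_contra h0
    rcases lt_or_gt_of_ne h0 with h | h
    · have := Int.le_of_dvd (by omega : 0 < -x) ((dvd_neg).2 hx)
      omega
    · have := Int.le_of_dvd h hx
      omega
  have key : ∀ x y : ℤ, k ∣ a₁ - (c + e * (j - x)) → k ∣ a₂ - (c + e * (j + y)) →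
      k ∣ (δ₂ - δ₁) - e * (x + y) := by
    intro x y hx hy
    have : (δ₂ - δ₁) - e * (x + y) = (a₁ - (s + δ₁)) - (a₁ - (c + e * (j - x))) -
        (a₂ - (s + δ₂)) + (a₂ - (c + e * (j + y))) := by ring
    rw [this]
    exact dvd_add (dvd_sub (dvd_sub h3 hx) h4) hy
  rcases h1 with h1 | h1 <;> rcases h2 with h2 | h2
  · have h5 := key 1 1 h1 h2
    have h6 := small _ h5 (by rcases he with rfl | rfl <;> omega)
      (by rcases he with rfl | rfl <;> omega)
    have h7 : δ₁ = -e ∧ δ₂ = e := by rcases he with rfl | rfl <;> omega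
    refine ⟨?_, h7⟩
    have : s - (c + e * j) = (a₁ - (c + e * (j - 1))) - (a₁ - (s + δ₁)) := by
      rw [h7.1]; ring
    rw [this]
    exact dvd_sub h1 h3
  · have h5 := key 1 2 h1 h2
    have h6 := small _ h5 (by rcases he with rfl | rfl <;> omega)
      (by rcases he with rfl | rfl <;> omega)
    exfalso
    rcases he with rfl | rfl <;> omega
  · have h5 := key 2 1 h1 h2
    have h6 := small _ h5 (by rcases he with rfl | rfl <;> omega)
      (by rcases he with rfl | rfl <;> omega)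
    exfalso
    rcases he with rfl | rfl <;> omega
  · have h5 := key 2 2 h1 h2
    have h6 := small _ h5 (by rcases he with rfl | rfl <;> omega)
      (by rcases he with rfl | rfl <;> omega)
    exfalso
    rcases he with rfl | rfl <;> omega

end Pool.Agent.Slope
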