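import Pool.Agent.Slope.Generic

set_option autoImplicit false

/-!
# The full drawing: positions of the junk, neighbours and rays
-/

namespace Pool.Agent.Slope

/-- All assumptions on a generic configuration. -/
structure Gen (k : ℕ) (L : List LE) (r : ℤ → ℝ × ℝ) (H : ℕ → ℝ × ℝ) (p : Vx → ℝ × ℝ) : Prop where
  rays : Rays k r
  odd : Odd k
  k9 : 9 ≤ k
  r1 : ∀ i, (r i).1 ≠ 0
  chain : Chain L
  lt : ∀ e, e < L.length → 6 * ln L e + 3 < k
  main : ∀ e, e < L.length → 0 < (r (6 * ln L e + 1)).1 ∧ ∃ c : ℝ, 0 < c ∧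
      H (lab L e).2.1 - H (lab L e).1 = c • r (6 * ln L e + 1)
  eqs : Eqs k L r H p
  psv : Psv k L r p
  g1 : ∀ z Y, isZ k L z → isC k L Y → Y ≠ z → ∀ i : ℤ, cr (r i) (p z - p Y) = 0 → Str k L i z Y
  g2 : ∀ z W, isZ k L z → isJ k L W → z ≠ ownU W → z ≠ ownV W → ∀ i : ℤ,
        cr (r i) (p z) - cr (r i) (Jp (r (rayU k L W)) (r (rayV k L W))
          (p (ownU W)) (p (ownV W))) = 0 →
        (k : ℤ) ∣ rayU k L W - i ∨ (k : ℤ) ∣ rayV k L W - i
  hinj : Set.InjOn H (hubs L)
  havoid : ∀ e, e < L.length → ∀ h ∈ hubs L,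
    H h ∉ openSegment ℝ (H (lab L e).1) (H (lab L e).2.1)
  nodup : L.Nodup

/-- The positions of all vertices. -/
noncomputable def posn (k : ℕ) (L : List LE) (r : ℤ → ℝ × ℝ) (p : Vx → ℝ × ℝ) : Vx → ℝ × ℝ
  | .jA t i m => Jp (r (rayU k L (.jA t i m))) (r (rayV k L (.jA t i m))) (p (.star t i))
      (p (.part t i))
  | .jB e m => Jp (r (rayU k L (.jB e m))) (r (rayV k L (.jB e m))) (p (.gad e false))
      (p (.gad e true))
  | v => p v

theorem Jp_sub {A B u v : ℝ × ℝ} (h : cr A B ≠ 0) :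
    Jp A B u v - u = (cr (v - u) B / cr A B) • A ∧
    Jp A B u v - v = (cr (v - u) A / cr A B) • B := by
  have h' : A.1 * B.2 - A.2 * B.1 ≠ 0 := h
  constructor
  · refine Prod.ext ?_ ?_
    · simp only [Jp, cr, Prod.fst_sub, Prod.snd_sub, Prod.smul_fst, smul_eq_mul]
      field_simp
      ring
    · simp only [Jp, cr, Prod.fst_sub, Prod.snd_sub, Prod.smul_snd, smul_eq_mul]
      field_simp
      ring
  · refine Prod.ext ?_ ?_
    · simp only [Jp, cr, Prod.fst_sub, Prod.snd_sub, Prod.smul_fst, smul_eq_mul]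
      field_simp
      ring
    · simp only [Jp, cr, Prod.fst_sub, Prod.snd_sub, Prod.smul_snd, smul_eq_mul]
      field_simp
      ring

theorem Jp_pos {A B u v : ℝ × ℝ} (h : (0 < cr A B ∧ 0 < cr (v - u) A ∧ 0 < cr (v - u) B) ∨
    (cr A B < 0 ∧ cr (v - u) A < 0 ∧ cr (v - u) B < 0)) :
    (∃ c : ℝ, 0 < c ∧ Jp A B u v - u = c • A) ∧ ∃ c : ℝ, 0 < c ∧ Jp A B u v - v = c • B := by
  have hne : cr A B ≠ 0 := by
    rcases h with h | h
    · exact h.1.ne'
    · exact h.1.ne
  obtain ⟨h1, h2⟩ := Jp_sub (u := u) (v := v) hne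
  constructor
  · refine ⟨_, ?_, h1⟩
    rcases h with h | h
    · exact div_pos h.2.2 h.1
    · exact div_pos_of_neg_of_neg h.2.2 h.1
  · refine ⟨_, ?_, h2⟩
    rcases h with h | h
    · exact div_pos h.2.1 h.1
    · exact div_pos_of_neg_of_neg h.2.1 h.1

theorem pos_smul_of_cr {u x : ℝ × ℝ} (h : cr u x = 0) (h1 : 0 < u.1 * x.1) :
    ∃ c : ℝ, 0 < c ∧ x = c • u := by
  have hu : u ≠ 0 := by
    rintro rfl
    simp at h1
  obtain ⟨c, hc⟩ := parallel_of_cr hu h
  refine ⟨c, ?_, hc⟩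
  rw [hc, Prod.smul_fst, smul_eq_mul] at h1
  by_contra h0
  have h2 : c ≤ 0 := not_lt.1 h0
  have h3 : 0 ≤ u.1 * u.1 := mul_self_nonneg _
  nlinarith

theorem Rays.cone_pos {k : ℕ} {r : ℤ → ℝ × ℝ} (hr : Rays k r) (hk : 2 ≤ k) {x : ℝ × ℝ} {R : ℤ}
    (h1 : 0 < cr (r (R - 1)) x) (h2 : 0 < cr x (r R)) {y : ℤ} (h0 : 0 ≤ y) (hy : y < k) :
    0 < cr x (r (R + y)) := by
  have hD : 0 < cr (r (R - 1)) (r R) := hr.pos _ _ (by omega) (by omega)
  have h3 := cr_decomp' hD.ne' x
  obtain ⟨α, hα⟩ : ∃ α, α = cr x (r R) / cr (r (R - 1)) (r R) := ⟨_, rfl⟩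
  obtain ⟨β, hβ⟩ : ∃ β, β = cr (r (R - 1)) x / cr (r (R - 1)) (r R) := ⟨_, rfl⟩
  rw [← hα, ← hβ] at h3
  have hα0 : 0 < α := by rw [hα]; positivity
  have hβ0 : 0 < β := by rw [hβ]; positivity
  rw [h3, cr_add_left, cr_smul_left, cr_smul_left]
  rcases eq_or_lt_of_le h0 with h | h
  · rw [← h, add_zero, cr_self, mul_zero, add_zero]
    positivity
  · have h4 := hr.pos R (R + y) (by omega) (by omega)
    by_cases hyk : y = k - 1
    · have h5 : cr (r (R - 1)) (r (R + y)) = 0 := by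
        have : R + y = (R - 1) + k := by rw [hyk]; ring
        rw [this, hr.anti, cr_neg_right, cr_self, neg_zero]
      rw [h5, mul_zero, zero_add]
      positivity
    · have h5 := hr.pos (R - 1) (R + y) (by omega) (by omega)
      positivity

section

variable {k : ℕ} {L : List LE} {r : ℤ → ℝ × ℝ} {H : ℕ → ℝ × ℝ} {p : Vx → ℝ × ℝ}

/-- Neighbours of the non-hub core vertices with the number of the ray. -/
inductive Nb (k : ℕ) (L : List LE) : Vx → Vx → ℤ → Prop
  | c (z Y : Vx) (a : ℤ) (h : CNb k L z Y a) : Nb k L z Y a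
  | u (W : Vx) (h : isJ k L W) : Nb k L (ownU W) W (rayU k L W)
  | v (W : Vx) (h : isJ k L W) : Nb k L (ownV W) W (rayV k L W)

theorem posn_of_isC {z : Vx} (h : isC k L z) : posn k L r p z = p z := by
  rcases h with (⟨t, i, _, _, rfl | rfl⟩ | ⟨e, s, _, rfl⟩) | ⟨h, _, rfl⟩ <;> rfl

theorem posn_of_isZ {z : Vx} (h : isZ k L z) : posn k L r p z = p z := posn_of_isC (Or.inl h)

theorem isZ_ownU {W : Vx} (h : isJ k L W) : isZ k L (ownU W) := by
  rcases h with ⟨t, i, m, ht, hi, _, rfl⟩ | ⟨e, m, he, _, rfl⟩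
  · exact Or.inl ⟨t, i, ht, hi, Or.inl rfl⟩
  · exact Or.inr ⟨e, false, he, rfl⟩

theorem isZ_ownV {W : Vx} (h : isJ k L W) : isZ k L (ownV W) := by
  rcases h with ⟨t, i, m, ht, hi, _, rfl⟩ | ⟨e, m, he, _, rfl⟩
  · exact Or.inl ⟨t, i, ht, hi, Or.inr rfl⟩
  · exact Or.inr ⟨e, true, he, rfl⟩

theorem posn_junk {W : Vx} (h : isJ k L W) : posn k L r p W =
    Jp (r (rayU k L W)) (r (rayV k L W)) (p (ownU W)) (p (ownV W)) := by
  rcases h with ⟨t, i, m, ht, hi, _, rfl⟩ | ⟨e, m, he, _, rfl⟩ <;> rfl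

namespace Gen

theorem k0 (g : Gen k L r H p) : (0 : ℤ) < k := by have := g.k9; omega

/-- The two gadget vertices and the hubs on the main line. -/
theorem main_line (g : Gen k L r H p) {e : ℕ} (he : e < L.length) :
    ∃ x₁ x₂ x₃ : ℝ, 0 < x₁ ∧ x₁ < x₂ ∧ x₂ < x₃ ∧
      p (.gad e false) = H (lab L e).1 + x₁ • r (6 * ln L e + 1) ∧
      p (.gad e true) = H (lab L e).1 + x₂ • r (6 * ln L e + 1) ∧
      H (lab L e).2.1 = H (lab L e).1 + x₃ • r (6 * ln L e + 1) := by
  obtain ⟨h1, c, hc, h2⟩ := g.main e he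
  have ha := g.eqs.main e false he
  have hb := g.eqs.main e true he
  rw [g.eqs.hub] at ha hb
  have m1 := g.psv.m1 e he
  have m2 := g.psv.m2 e he
  have m3 := g.psv.m3 e he
  rw [g.eqs.hub] at m1 m3
  obtain ⟨x₁, hx₁, h3⟩ := pos_smul_of_cr ha (by positivity)
  obtain ⟨x₂, h4⟩ := parallel_of_cr (g.rays.ne_zero (by have := g.k9; omega) _) hb
  have e1 : p (.gad e false) = H (lab L e).1 + x₁ • r (6 * ln L e + 1) := by rw [← h3]; abel
  have e2 : p (.gad e true) = H (lab L e).1 + x₂ • r (6 * ln L e + 1) := by rw [← h4]; abel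
  have e3 : H (lab L e).2.1 = H (lab L e).1 + c • r (6 * ln L e + 1) := by rw [← h2]; abel
  refine ⟨x₁, x₂, c, hx₁, ?_, ?_, e1, e2, e3⟩
  · rw [e1, e2, add_sub_add_left_eq_sub, ← sub_smul, Prod.smul_fst, smul_eq_mul] at m2
    by_contra h0
    have : x₂ - x₁ ≤ 0 := by linarith
    nlinarith
  · rw [e2, e3, add_sub_add_left_eq_sub, ← sub_smul, Prod.smul_fst, smul_eq_mul] at m3
    by_contra h0
    have : c - x₂ ≤ 0 := by linarith
    nlinarith

/-- The junk is seen from its owners on the right rays. -/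
theorem junk_pos (g : Gen k L r H p) {W : Vx} (h : isJ k L W) :
    (∃ c : ℝ, 0 < c ∧ posn k L r p W - p (ownU W) = c • r (rayU k L W)) ∧
    ∃ c : ℝ, 0 < c ∧ posn k L r p W - p (ownV W) = c • r (rayV k L W) := by
  have hk9 := g.k9
  have hr := g.rays
  rw [posn_junk h]
  apply Jp_pos
  rcases h with ⟨t, i, m, ht, hi, hm, rfl⟩ | ⟨e, m, he, hm, rfl⟩
  · simp only [ownU, ownV, rayU, rayV]
    have h1 := g.psv.cone1 t i ht hi
    have h2 := g.psv.cone2 t i ht hi
    rw [cr_neg_left, cr_swap, neg_neg] at h2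
    obtain ⟨x, hx⟩ : ∃ x, x = p (.star t i) - p (.part t i) := ⟨_, rfl⟩
    have hd : p (.part t i) - p (.star t i) = -x := by rw [hx]; abel
    rw [← hx] at h1 h2
    rw [hd]
    by_cases hmk : m + 1 < k
    · right
      rw [if_pos hmk]
      refine ⟨?_, ?_, ?_⟩
      · rw [cr_swap, neg_lt_zero]
        exact hr.pos _ _ (by omega) (by omega)
      · rw [cr_neg_left, neg_lt_zero, add_assoc]
        exact hr.cone_pos (by omega) h1 h2 (by omega) (by omega)
      · rw [cr_neg_left, neg_lt_zero, add_neg_cancel_right]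
        exact hr.cone_pos (by omega) h1 h2 (by omega) (by omega)
    · left
      rw [if_neg hmk]
      refine ⟨?_, ?_, ?_⟩
      · exact hr.pos _ _ (by omega) (by omega)
      · have e1 : RR k t i + (m : ℤ) + 1 = (RR k t i + (m + 1 - k)) + k := by ring
        rw [e1, hr.anti, cr_neg_left, cr_neg_right, neg_neg]
        exact hr.cone_pos (by omega) h1 h2 (by omega) (by omega)
      · have e1 : RR k t i + (m : ℤ) + 1 + 1 = (RR k t i + (m + 2 - k)) + k := by ring
        rw [e1, hr.anti, cr_neg_left, cr_neg_right, neg_neg]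
        exact hr.cone_pos (by omega) h1 h2 (by omega) (by omega)
  · simp only [ownU, ownV, rayU, rayV]
    obtain ⟨x₁, x₂, x₃, h1, h2, h3, h4, h5, h6⟩ := g.main_line he
    have hd : p (.gad e true) - p (.gad e false) = (x₂ - x₁) • r (6 * ln L e + 1) := by
      rw [h4, h5, add_sub_add_left_eq_sub, ← sub_smul]
    rw [hd, cr_smul_left, cr_smul_left]
    have hx : 0 < x₂ - x₁ := by linarith
    unfold yB
    by_cases hmk : m < k - 2
    · left
      rw [if_pos hmk, if_pos hmk]
      refine ⟨?_, ?_, ?_⟩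
      · exact hr.pos _ _ (by omega) (by omega)
      · exact mul_pos hx (hr.pos _ _ (by omega) (by omega))
      · exact mul_pos hx (hr.pos _ _ (by omega) (by omega))
    · right
      rw [if_neg hmk, if_neg hmk]
      refine ⟨?_, ?_, ?_⟩
      · rw [cr_swap, neg_lt_zero]
        exact hr.pos _ _ (by omega) (by omega)
      · have e1 : 6 * (ln L e : ℤ) + 1 + ((m : ℤ) + 4) =
          (6 * ln L e + 1 + (m + 4 - k)) + k := by ring
        rw [e1, hr.anti, cr_neg_right, mul_neg, neg_lt_zero]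
        exact mul_pos hx (hr.pos _ _ (by omega) (by omega))
      · have e1 : 6 * (ln L e : ℤ) + 1 + ((m : ℤ) + 4) + -1 =
          (6 * ln L e + 1 + (m + 3 - k)) + k := by ring
        rw [e1, hr.anti, cr_neg_right, mul_neg, neg_lt_zero]
        exact mul_pos hx (hr.pos _ _ (by omega) (by omega))

/-- Neighbours are where they should be. -/
theorem nb_pos (g : Gen k L r H p) {z Y : Vx} {a : ℤ} (h : Nb k L z Y a) (hz : isZ k L z) :
    ∃ c : ℝ, 0 < c ∧ posn k L r p Y - posn k L r p z = c • r a := by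
  have hk9 := g.k9
  have hr := g.rays
  have star : ∀ t i, t ≤ L.length → i < k → ∃ c : ℝ, 0 < c ∧
      p (.star t (nx k i)) - p (.star t i) = c • r (RR k t i) := fun t i ht hi =>
    pos_smul_of_cr (g.eqs.star t i hi) (g.psv.star t i ht hi)
  have cl : ∀ t i e s a, Cl k L t i e s a → ∃ c : ℝ, 0 < c ∧
      p (.gad e s) - p (.part t i) = c • r a := by
    intro t i e s a hc
    refine pos_smul_of_cr ?_ (g.psv.cl t i e s a hc)
    have h1 := g.eqs.cl t i e s a hc
    have h2 : p (.gad e s) - p (.part t i) = -(p (.part t i) - p (.gad e s)) := by abel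
    rw [h2, cr_neg_right, h1, neg_zero]
  cases h with
  | c _ _ _ h =>
    cases h with
    | s1 t i hi =>
      have ht : t ≤ L.length := by
        rcases hz with ⟨t', i', ht', _, h | h⟩ | ⟨e, s, _, h⟩
        · simp only [Vx.star.injEq] at h
          omega
        · simp at h
        · simp at h
      exact star t i ht hi
    | s2 t i hi =>
      have ht : t ≤ L.length := by
        rcases hz with ⟨t', i', ht', _, h | h⟩ | ⟨e, s, _, h⟩
        · simp only [Vx.star.injEq] at h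
          omega
        · simp at h
        · simp at h
      obtain ⟨c, hc, h⟩ := star t i ht hi
      refine ⟨c, hc, ?_⟩
      rw [hr.anti, smul_neg, ← h]
      change p (.star t i) - p (.star t (nx k i)) = _
      abel
    | pg t i e s a h => exact cl t i e s a h
    | gp t i e s a h =>
      obtain ⟨c, hc, h⟩ := cl t i e s a h
      refine ⟨c, hc, ?_⟩
      rw [hr.anti, smul_neg, ← h]
      change p (.part t i) - p (.gad e s) = _
      abel
    | gg e =>
      have he : e < L.length := by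
        rcases hz with ⟨t', i', ht', _, h | h⟩ | ⟨e', s, he', h⟩
        · simp at h
        · simp at h
        · simp only [Vx.gad.injEq] at h; omega
      obtain ⟨x₁, x₂, x₃, h1, h2, h3, h4, h5, h6⟩ := g.main_line he
      refine ⟨x₂ - x₁, by linarith, ?_⟩
      change p (.gad e true) - p (.gad e false) = _
      rw [h4, h5, add_sub_add_left_eq_sub, ← sub_smul]
    | gg' e =>
      have he : e < L.length := by
        rcases hz with ⟨t', i', ht', _, h | h⟩ | ⟨e', s, he', h⟩
        · simp at h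
        · simp at h
        · simp only [Vx.gad.injEq] at h; omega
      obtain ⟨x₁, x₂, x₃, h1, h2, h3, h4, h5, h6⟩ := g.main_line he
      refine ⟨x₂ - x₁, by linarith, ?_⟩
      change p (.gad e false) - p (.gad e true) = _
      rw [h4, h5, add_sub_add_left_eq_sub, ← sub_smul, hr.anti, smul_neg, ← neg_smul, neg_sub]
    | gh e =>
      have he : e < L.length := by
        rcases hz with ⟨t', i', ht', _, h | h⟩ | ⟨e', s, he', h⟩
        · simp at h
        · simp at h
        · simp only [Vx.gad.injEq] at h; omega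
      obtain ⟨x₁, x₂, x₃, h1, h2, h3, h4, h5, h6⟩ := g.main_line he
      refine ⟨x₁, by linarith, ?_⟩
      change p (.hub (lab L e).1) - p (.gad e false) = _
      rw [g.eqs.hub, h4, hr.anti, smul_neg]
      abel
    | gh' e =>
      have he : e < L.length := by
        rcases hz with ⟨t', i', ht', _, h | h⟩ | ⟨e', s, he', h⟩
        · simp at h
        · simp at h
        · simp only [Vx.gad.injEq] at h; omega
      obtain ⟨x₁, x₂, x₃, h1, h2, h3, h4, h5, h6⟩ := g.main_line he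
      refine ⟨x₃ - x₂, by linarith, ?_⟩
      change p (.hub (lab L e).2.1) - p (.gad e true) = _
      rw [g.eqs.hub, h6, h5, add_sub_add_left_eq_sub, ← sub_smul]
  | u W h =>
    rw [posn_of_isZ hz]
    exact (g.junk_pos h).1
  | v W h =>
    rw [posn_of_isZ hz]
    exact (g.junk_pos h).2

end Gen

end

end Pool.Agent.Slope
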