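import Pool.Agent.Slope.Verify1

set_option autoImplicit false

/-!
# The neighbours of a vertex are on distinct rays
-/

namespace Pool.Agent.Slope

section

variable {k : ℕ} {L : List LE}

theorem dvd_two_k_mul {k x : ℤ} (h : Even x) : 2 * k ∣ x * k := by
  obtain ⟨y, hy⟩ := h
  exact ⟨y, by rw [hy]; ring⟩

theorem side_eq_true {t : ℕ} : side t = true ↔ Even t := by
  unfold side
  rw [decide_eq_true_iff, Nat.even_iff]

theorem side_eq_false {t : ℕ} : side t = false ↔ Odd t := by
  unfold side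
  rw [decide_eq_false_iff_not, Nat.odd_iff]
  omega

/-- The ray from the gadget vertex to a client. -/
theorem Cl.ray {t i e : ℕ} {s : Bool} {a : ℤ} (h : Cl k L t i e s a) :
    (i = 6 * ln L e ∧ s = side t ∧
      (2 * k : ℤ) ∣ a + k - (6 * ln L e + 1 - 1 + (if s then (0 : ℤ) else k))) ∨
    (i = 6 * ln L e + 3 ∧ s = (!side t) ∧
      (2 * k : ℤ) ∣ a + k - (6 * ln L e + 1 + 1 + (if s then (0 : ℤ) else k))) := by
  obtain ⟨he, ht, ⟨h1, h2, h3⟩ | ⟨h1, h2, h3⟩⟩ := h
  · left
    refine ⟨h1, h2, ?_⟩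
    cases hs : side t
    · have ho := side_eq_false.1 hs
      rw [h2, hs, h3, RR, h1]
      have : ((6 * ln L e : ℕ) : ℤ) * ((k : ℤ) + 1) + t * k + k + k -
        (6 * ln L e + 1 - 1 + (if false = true then 0 else (k : ℤ))) =
        (6 * ln L e + (t + 1)) * k := by
        simp only [Bool.false_eq_true, if_false]; push_cast; ring
      rw [this]
      refine dvd_two_k_mul ?_
      refine Even.add ⟨3 * ln L e, by ring⟩ ?_
      obtain ⟨u, hu⟩ := ho
      exact ⟨u + 1, by rw [hu]; push_cast; ring⟩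
    · have ho := side_eq_true.1 hs
      rw [h2, hs, h3, RR, h1]
      have : ((6 * ln L e : ℕ) : ℤ) * ((k : ℤ) + 1) + t * k + k + k -
        (6 * ln L e + 1 - 1 + (if true = true then 0 else (k : ℤ))) =
        (6 * ln L e + (t + 2)) * k := by
        simp only [if_true]; push_cast; ring
      rw [this]
      refine dvd_two_k_mul ?_
      refine Even.add ⟨3 * ln L e, by ring⟩ ?_
      obtain ⟨u, hu⟩ := ho
      exact ⟨u + 1, by rw [hu]; push_cast; ring⟩
  · right
    refine ⟨h1, h2, ?_⟩
    cases hs : side t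
    · have ho := side_eq_false.1 hs
      rw [h2, hs, h3, RR, h1]
      have : ((6 * ln L e + 3 : ℕ) : ℤ) * ((k : ℤ) + 1) + t * k + k - 1 + k -
        (6 * ln L e + 1 + 1 + (if (!false) = true then 0 else (k : ℤ))) =
        (6 * ln L e + (t + 5)) * k := by
        simp only [Bool.not_false, if_true]; push_cast; ring
      rw [this]
      refine dvd_two_k_mul ?_
      refine Even.add ⟨3 * ln L e, by ring⟩ ?_
      obtain ⟨u, hu⟩ := ho
      exact ⟨u + 3, by rw [hu]; push_cast; ring⟩
    · have ho := side_eq_true.1 hs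
      rw [h2, hs, h3, RR, h1]
      have : ((6 * ln L e + 3 : ℕ) : ℤ) * ((k : ℤ) + 1) + t * k + k - 1 + k -
        (6 * ln L e + 1 + 1 + (if (!true) = true then 0 else (k : ℤ))) =
        (6 * ln L e + (t + 4)) * k := by
        simp only [Bool.not_true, Bool.false_eq_true, if_false]; push_cast; ring
      rw [this]
      refine dvd_two_k_mul ?_
      refine Even.add ⟨3 * ln L e, by ring⟩ ?_
      obtain ⟨u, hu⟩ := ho
      exact ⟨u + 2, by rw [hu]; push_cast; ring⟩

theorem nb_star_cases (hodd : Odd k) {t i : ℕ} {Y : Vx} {a : ℤ}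
    (h : Nb k L (.star t i) Y a) :
    (Y = .star t (nx k i) ∧ a = RR k t i) ∨
    (∃ j, j < k ∧ nx k j = i ∧ Y = .star t j ∧ (2 * k : ℤ) ∣ a - (RR k t i - 1)) ∨
    ∃ m, m < 2 * k - 2 ∧ Y = .jA t i m ∧ a = RR k t i + m + 1 := by
  generalize hz : Vx.star t i = z at h
  cases h with
  | c _ _ _ h =>
    cases h with
    | s1 t' i' hi =>
      simp only [Vx.star.injEq] at hz
      obtain ⟨rfl, rfl⟩ := hz
      exact Or.inl ⟨rfl, rfl⟩
    | s2 t' i' hi =>
      simp only [Vx.star.injEq] at hz
      obtain ⟨rfl, rfl⟩ := hz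
      refine Or.inr (Or.inl ⟨i', hi, rfl, rfl, ?_⟩)
      have := RR_nx (t := t) hodd hi
      have e1 : RR k t i' + k - (RR k t (nx k i') - 1) =
        -(RR k t (nx k i') - (RR k t i' + k + 1)) + 2 * k - 2 * k := by ring
      rw [e1, add_sub_cancel_right]
      exact (dvd_neg).2 this
    | _ => simp at hz
  | u W h =>
    rcases h with ⟨t', i', m, ht, hi, hm, rfl⟩ | ⟨e, m, he, hm, rfl⟩
    · simp only [ownU, Vx.star.injEq] at hz
      obtain ⟨rfl, rfl⟩ := hz
      exact Or.inr (Or.inr ⟨m, hm, rfl, rfl⟩)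
    · simp [ownU] at hz
  | v W h =>
    rcases h with ⟨t', i', m, ht, hi, hm, rfl⟩ | ⟨e, m, he, hm, rfl⟩ <;> simp [ownV] at hz

theorem nb_part_cases {t i : ℕ} {Y : Vx} {a : ℤ} (h : Nb k L (.part t i) Y a) :
    (∃ e s, Y = .gad e s ∧ Cl k L t i e s a) ∨
    ∃ m, m < 2 * k - 2 ∧ Y = .jA t i m ∧ a = RR k t i + m + 1 + (if m + 1 < k then -1 else 1) := by
  generalize hz : Vx.part t i = z at h
  cases h with
  | c _ _ _ h =>
    cases h with
    | pg t' i' e s a h =>
      simp only [Vx.part.injEq] at hz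
      obtain ⟨rfl, rfl⟩ := hz
      exact Or.inl ⟨e, s, rfl, h⟩
    | _ => simp at hz
  | u W h =>
    rcases h with ⟨t', i', m, ht, hi, hm, rfl⟩ | ⟨e, m, he, hm, rfl⟩ <;> simp [ownU] at hz
  | v W h =>
    rcases h with ⟨t', i', m, ht, hi, hm, rfl⟩ | ⟨e, m, he, hm, rfl⟩
    · simp only [ownV, Vx.part.injEq] at hz
      obtain ⟨rfl, rfl⟩ := hz
      exact Or.inr ⟨m, hm, rfl, rfl⟩
    · simp [ownV] at hz

theorem nb_gad_cases {e : ℕ} {s : Bool} {Y : Vx} {a : ℤ} (h : Nb k L (.gad e s) Y a) :
    (Y = .gad e (!s) ∧ a = 6 * ln L e + 1 + (if s then (k : ℤ) else 0)) ∨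
    ((∃ h, Y = .hub h ∧ h = (if s then (lab L e).2.1 else (lab L e).1)) ∧
      a = 6 * ln L e + 1 + (if s then (0 : ℤ) else k)) ∨
    (∃ t i a', Y = .part t i ∧ Cl k L t i e s a' ∧ a = a' + k) ∨
    ∃ m, m < 2 * k - 4 ∧ Y = .jB e m ∧
      a = 6 * ln L e + 1 + yB k m + (if s then (if m < k - 2 then 1 else -1) else 0) := by
  generalize hz : Vx.gad e s = z at h
  cases h with
  | c _ _ _ h =>
    cases h with
    | gp t i e' s' a h =>
      simp only [Vx.gad.injEq] at hz
      obtain ⟨rfl, rfl⟩ := hz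
      exact Or.inr (Or.inr (Or.inl ⟨t, i, a, rfl, h, rfl⟩))
    | gg e' =>
      simp only [Vx.gad.injEq] at hz
      obtain ⟨rfl, rfl⟩ := hz
      exact Or.inl ⟨rfl, by simp⟩
    | gg' e' =>
      simp only [Vx.gad.injEq] at hz
      obtain ⟨rfl, rfl⟩ := hz
      exact Or.inl ⟨rfl, by simp⟩
    | gh e' =>
      simp only [Vx.gad.injEq] at hz
      obtain ⟨rfl, rfl⟩ := hz
      exact Or.inr (Or.inl ⟨⟨_, rfl, by simp⟩, by simp⟩)
    | gh' e' =>
      simp only [Vx.gad.injEq] at hz
      obtain ⟨rfl, rfl⟩ := hz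
      exact Or.inr (Or.inl ⟨⟨_, rfl, by simp⟩, by simp⟩)
    | _ => simp at hz
  | u W h =>
    rcases h with ⟨t', i', m, ht, hi, hm, rfl⟩ | ⟨e', m, he, hm, rfl⟩
    · simp [ownU] at hz
    · simp only [ownU, Vx.gad.injEq] at hz
      obtain ⟨rfl, rfl⟩ := hz
      exact Or.inr (Or.inr (Or.inr ⟨m, hm, rfl, by simp [rayU]⟩))
  | v W h =>
    rcases h with ⟨t', i', m, ht, hi, hm, rfl⟩ | ⟨e', m, he, hm, rfl⟩
    · simp [ownV] at hz
    · simp only [ownV, Vx.gad.injEq] at hz
      obtain ⟨rfl, rfl⟩ := hz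
      exact Or.inr (Or.inr (Or.inr ⟨m, hm, rfl, by simp [rayV]⟩))

theorem small_dvd2 {k : ℕ} {x : ℤ} (h : (2 * k : ℤ) ∣ x) (h1 : -(2 * k : ℤ) < x)
    (h2 : x < 2 * k) : x = 0 := small_dvd h h1 h2

/-- The offsets of the neighbours of a gadget vertex. -/
theorem nb_gad_key (hk9 : 9 ≤ k) {e : ℕ} {s : Bool} : ∀ {Y : Vx} {a : ℤ},
    Nb k L (.gad e s) Y a → ∃ o : ℕ, o < 2 * k ∧
    (2 * k : ℤ) ∣ a - (6 * ln L e + 1 + o) ∧
    ((o = (if s then k else 0) ∧ Y = .gad e (!s)) ∨
    (o = (if s then 0 else k) ∧ Y = .hub (if s then (lab L e).2.1 else (lab L e).1)) ∨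
    (o = (if s then 2 * k - 1 else k - 1) ∧ ∃ t, (t = e ∨ t = e + 1) ∧ s = side t ∧
      Y = .part t (6 * ln L e)) ∨
    (o = (if s then 1 else k + 1) ∧ ∃ t, (t = e ∨ t = e + 1) ∧ s = (!side t) ∧
      Y = .part t (6 * ln L e + 3)) ∨
    ∃ m, m < 2 * k - 4 ∧ Y = .jB e m ∧
      (o : ℤ) = yB k m + (if s then (if m < k - 2 then 1 else -1) else 0)) := by
  intro Y a h
  rcases nb_gad_cases h with ⟨h1, h2⟩ | ⟨⟨x, h1, hx⟩, h2⟩ | ⟨t, i, a', h1, h2, h3⟩ |
    ⟨m, hm, h1, h2⟩
  · refine ⟨if s then k else 0, by split_ifs <;> omega, ?_, Or.inl ⟨rfl, h1⟩⟩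
    rw [h2]
    cases s <;> simp
  · refine ⟨if s then 0 else k, by split_ifs <;> omega, ?_, Or.inr (Or.inl ⟨rfl, ?_⟩)⟩
    · rw [h2]
      cases s <;> simp
    · rw [h1, hx]
  · rcases h2.ray with ⟨h4, h5, h6⟩ | ⟨h4, h5, h6⟩
    · refine ⟨if s then 2 * k - 1 else k - 1, by split_ifs <;> omega, ?_,
        Or.inr (Or.inr (Or.inl ⟨rfl, t, h2.2.1, h5, by rw [h1, h4]⟩))⟩
      rw [h3]
      cases s
      · simp only [Bool.false_eq_true, if_false] at h6 ⊢
        have e1 : a' + k - (6 * (ln L e : ℤ) + 1 + ((k - 1 : ℕ) : ℤ)) =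
          a' + k - (6 * ln L e + 1 - 1 + k) := by
          have : ((k - 1 : ℕ) : ℤ) = (k : ℤ) - 1 := by omega
          rw [this]; ring
        rw [e1]; exact h6
      · simp only [if_true] at h6 ⊢
        have e1 : a' + k - (6 * (ln L e : ℤ) + 1 + ((2 * k - 1 : ℕ) : ℤ)) =
          (a' + k - (6 * ln L e + 1 - 1 + 0)) - 2 * k := by
          have : ((2 * k - 1 : ℕ) : ℤ) = 2 * (k : ℤ) - 1 := by omega
          rw [this]; ring
        rw [e1]; exact dvd_sub h6 (dvd_refl _)
    · refine ⟨if s then 1 else k + 1, by split_ifs <;> omega, ?_,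
        Or.inr (Or.inr (Or.inr (Or.inl ⟨rfl, t, h2.2.1, h5, by rw [h1, h4]⟩)))⟩
      rw [h3]
      cases s
      · simp only [Bool.false_eq_true, if_false] at h6 ⊢
        have e1 : a' + k - (6 * (ln L e : ℤ) + 1 + ((k + 1 : ℕ) : ℤ)) =
          a' + k - (6 * ln L e + 1 + 1 + k) := by
          push_cast; ring
        rw [e1]; exact h6
      · simp only [if_true] at h6 ⊢
        have e1 : a' + k - (6 * (ln L e : ℤ) + 1 + ((1 : ℕ) : ℤ)) =
          (a' + k - (6 * ln L e + 1 + 1 + 0)) := by
          push_cast; ring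
        rw [e1]; exact h6
  · have hy : 1 ≤ yB k m + (if s then (if m < k - 2 then 1 else -1) else 0) ∧
        yB k m + (if s then (if m < k - 2 then 1 else -1) else 0) < 2 * k := by
      unfold yB
      cases s <;> simp only [Bool.false_eq_true, if_false, if_true] <;> split_ifs <;> omega
    refine ⟨(yB k m + (if s then (if m < k - 2 then 1 else -1) else 0)).toNat, by omega, ?_,
      Or.inr (Or.inr (Or.inr (Or.inr ⟨m, hm, h1, by omega⟩)))⟩
    rw [h2]
    have : 6 * (ln L e : ℤ) + 1 + yB k m + (if s then (if m < k - 2 then 1 else -1) else 0) -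
      (6 * ln L e + 1 + ((yB k m + (if s then (if m < k - 2 then 1 else -1) else 0)).toNat :
        ℤ)) = 0 := by omega
    rw [this]; exact dvd_zero _

/-- Distinct neighbours are on distinct rays. -/
theorem nb_unique (hodd : Odd k) (hk9 : 9 ≤ k) (hch : Chain L) {z Y Y' : Vx} {a a' : ℤ}
    (hz : isZ k L z) (h : Nb k L z Y a) (h' : Nb k L z Y' a') (haa : (2 * k : ℤ) ∣ a - a') :
    Y = Y' := by
  rcases hz with ⟨t, i, ht, hi, rfl | rfl⟩ | ⟨e, s, he, rfl⟩
  · rcases nb_star_cases hodd h with ⟨h1, h2⟩ | ⟨j, hj, hji, h1, h2⟩ | ⟨m, hm, h1, h2⟩ <;>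
    rcases nb_star_cases hodd h' with ⟨h1', h2'⟩ | ⟨j', hj', hji', h1', h2'⟩ | ⟨m', hm', h1', h2'⟩
    · rw [h1, h1']
    · exfalso
      have : (2 * k : ℤ) ∣ 1 := by
        have e1 : (1 : ℤ) = (a - a') + (a' - (RR k t i - 1)) := by rw [h2]; ring
        rw [e1]; exact dvd_add haa h2'
      have := small_dvd2 this (by omega) (by omega)
      omega
    · exfalso
      rw [h2, h2'] at haa
      have e1 : RR k t i - (RR k t i + m' + 1) = -((m' : ℤ) + 1) := by ring
      rw [e1] at haa
      have := small_dvd2 haa (by omega) (by omega)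
      omega
    · exfalso
      have : (2 * k : ℤ) ∣ 1 := by
        have e1 : (1 : ℤ) = (a - (RR k t i - 1)) - (a - a') := by rw [h2']; ring
        rw [e1]; exact dvd_sub h2 haa
      have := small_dvd2 this (by omega) (by omega)
      omega
    · rw [h1, h1', nx_inj hj hj' (hji.trans hji'.symm)]
    · exfalso
      have : (2 * k : ℤ) ∣ (m' : ℤ) + 2 := by
        have e1 : (m' : ℤ) + 2 = (a - (RR k t i - 1)) - (a - a') := by rw [h2']; ring
        rw [e1]; exact dvd_sub h2 haa
      have := small_dvd2 this (by omega) (by omega)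
      omega
    · exfalso
      rw [h2, h2'] at haa
      have e1 : RR k t i + m + 1 - RR k t i = (m : ℤ) + 1 := by ring
      rw [e1] at haa
      have := small_dvd2 haa (by omega) (by omega)
      omega
    · exfalso
      have : (2 * k : ℤ) ∣ (m : ℤ) + 2 := by
        have e1 : (m : ℤ) + 2 = (a' - (RR k t i - 1)) + (a - a') := by rw [h2]; ring
        rw [e1]; exact dvd_add h2' haa
      have := small_dvd2 this (by omega) (by omega)
      omega
    · rw [h2, h2'] at haa
      have e1 : RR k t i + m + 1 - (RR k t i + m' + 1) = (m : ℤ) - m' := by ring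
      rw [e1] at haa
      have := small_dvd2 haa (by omega) (by omega)
      have : m = m' := by omega
      rw [h1, h1', this]
  · rcases nb_part_cases h with ⟨e, s, h1, h2⟩ | ⟨m, hm, h1, h2⟩ <;>
    rcases nb_part_cases h' with ⟨e', s', h1', h2'⟩ | ⟨m', hm', h1', h2'⟩
    · obtain ⟨rfl, rfl, _⟩ := h2.unique hch h2'
      rw [h1, h1']
    · exfalso
      have h3 : a = RR k t i + k ∨ a = RR k t i + k - 1 := by
        rcases h2.2.2 with h | h
        · exact Or.inl h.2.2
        · exact Or.inr h.2.2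
      rw [h2'] at haa
      rcases h3 with h3 | h3
      · rw [h3] at haa
        have e1 : RR k t i + k - (RR k t i + m' + 1 + (if m' + 1 < k then -1 else 1)) =
          (k : ℤ) - m' - 1 - (if m' + 1 < k then -1 else 1) := by ring
        rw [e1] at haa
        split_ifs at haa with h5
        · have := small_dvd2 haa (by omega) (by omega)
          omega
        · have := small_dvd2 haa (by omega) (by omega)
          omega
      · rw [h3] at haa
        have e1 : RR k t i + k - 1 - (RR k t i + m' + 1 + (if m' + 1 < k then -1 else 1)) =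
          (k : ℤ) - m' - 2 - (if m' + 1 < k then -1 else 1) := by ring
        rw [e1] at haa
        split_ifs at haa with h5
        · have := small_dvd2 haa (by omega) (by omega)
          omega
        · have := small_dvd2 haa (by omega) (by omega)
          omega
    · exfalso
      have h3 : a' = RR k t i + k ∨ a' = RR k t i + k - 1 := by
        rcases h2'.2.2 with h | h
        · exact Or.inl h.2.2
        · exact Or.inr h.2.2
      rw [h2] at haa
      rcases h3 with h3 | h3
      · rw [h3] at haa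
        have e1 : RR k t i + m + 1 + (if m + 1 < k then -1 else 1) - (RR k t i + k) =
          (m : ℤ) + 1 + (if m + 1 < k then -1 else 1) - k := by ring
        rw [e1] at haa
        split_ifs at haa with h5
        · have := small_dvd2 haa (by omega) (by omega)
          omega
        · have := small_dvd2 haa (by omega) (by omega)
          omega
      · rw [h3] at haa
        have e1 : RR k t i + m + 1 + (if m + 1 < k then -1 else 1) - (RR k t i + k - 1) =
          (m : ℤ) + 2 + (if m + 1 < k then -1 else 1) - k := by ring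
        rw [e1] at haa
        split_ifs at haa with h5
        · have := small_dvd2 haa (by omega) (by omega)
          omega
        · have := small_dvd2 haa (by omega) (by omega)
          omega
    · rw [h2, h2'] at haa
      have e1 : RR k t i + m + 1 + (if m + 1 < k then -1 else 1) -
        (RR k t i + m' + 1 + (if m' + 1 < k then -1 else 1)) =
        (m : ℤ) - m' + (if m + 1 < k then -1 else 1) - (if m' + 1 < k then -1 else 1) := by ring
      rw [e1] at haa
      have : m = m' := by
        split_ifs at haa with h5 h6 h6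
        · have := small_dvd2 haa (by omega) (by omega)
          omega
        · have := small_dvd2 haa (by omega) (by omega)
          omega
        · have := small_dvd2 haa (by omega) (by omega)
          omega
        · have := small_dvd2 haa (by omega) (by omega)
          omega
      rw [h1, h1', this]
  · -- gadget vertices
    obtain ⟨o, ho, hd, hY⟩ := nb_gad_key hk9 h
    obtain ⟨o', ho', hd', hY'⟩ := nb_gad_key hk9 h'
    have hoo : o = o' := by
      have h1 : (2 * k : ℤ) ∣ (o : ℤ) - o' := by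
        have e1 : (o : ℤ) - o' = (a - a') - (a - (6 * ln L e + 1 + o)) +
          (a' - (6 * ln L e + 1 + o')) := by ring
        rw [e1]; exact dvd_add (dvd_sub haa hd) hd'
      have := small_dvd2 h1 (by omega) (by omega)
      omega
    subst hoo
    have hside : ∀ t t' : ℕ, (t = e ∨ t = e + 1) → (t' = e ∨ t' = e + 1) → side t = side t' →
        t = t' := by
      intro t t' ht ht' hs
      rcases ht with rfl | rfl <;> rcases ht' with h2 | h2
      · exact h2.symm
      · subst h2
        rw [side_succ] at hs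
        cases h3 : side t <;> simp [h3] at hs
      · subst h2
        rw [side_succ] at hs
        cases h3 : side t' <;> simp [h3] at hs
      · exact h2.symm
    have hyB : ∀ m, m < 2 * k - 4 → 1 ≤ yB k m ∧ yB k m < 2 * k ∧ yB k m ≠ k - 1 ∧ yB k m ≠ k ∧
        yB k m ≠ k + 1 := by
      intro m hm
      unfold yB
      split_ifs <;> omega
    rcases hY with ⟨h1, h2⟩ | ⟨h1, h2⟩ | ⟨h1, t, ht, hs, h2⟩ | ⟨h1, t, ht, hs, h2⟩ |
      ⟨m, hm, h2, h1⟩ <;>
    rcases hY' with ⟨h1', h2'⟩ | ⟨h1', h2'⟩ | ⟨h1', t', ht', hs', h2'⟩ |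
      ⟨h1', t', ht', hs', h2'⟩ | ⟨m', hm', h2', h1'⟩
    · rw [h2, h2']
    · exfalso; split_ifs at h1 h1' <;> omega
    · exfalso; split_ifs at h1 h1' <;> omega
    · exfalso; split_ifs at h1 h1' <;> omega
    · exfalso; unfold yB at h1'; split_ifs at h1 h1' <;> omega
    · exfalso; split_ifs at h1 h1' <;> omega
    · rw [h2, h2']
    · exfalso; split_ifs at h1 h1' <;> omega
    · exfalso; split_ifs at h1 h1' <;> omega
    · exfalso; unfold yB at h1'; split_ifs at h1 h1' <;> omega
    · exfalso; split_ifs at h1 h1' <;> omega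
    · exfalso; split_ifs at h1 h1' <;> omega
    · rw [h2, h2', hside t t' ht ht' (hs.symm.trans hs')]
    · exfalso; split_ifs at h1 h1' <;> omega
    · exfalso; unfold yB at h1'; split_ifs at h1 h1' <;> omega
    · exfalso; split_ifs at h1 h1' <;> omega
    · exfalso; split_ifs at h1 h1' <;> omega
    · exfalso; split_ifs at h1 h1' <;> omega
    · have : side t = side t' := by
        have := hs.symm.trans hs'
        cases h5 : side t <;> cases h6 : side t' <;> simp_all
      rw [h2, h2', hside t t' ht ht' this]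
    · exfalso; unfold yB at h1'; split_ifs at h1 h1' <;> omega
    · exfalso; unfold yB at h1; split_ifs at h1 h1' <;> omega
    · exfalso; unfold yB at h1; split_ifs at h1 h1' <;> omega
    · exfalso; unfold yB at h1; split_ifs at h1 h1' <;> omega
    · exfalso; unfold yB at h1; split_ifs at h1 h1' <;> omega
    · have : m = m' := by
        unfold yB at h1 h1'
        split_ifs at h1 h1' <;> omega
      rw [h2, h2', this]

end

end Pool.Agent.Slope
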