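import Pool.Agent.Slope.Verify2

set_option autoImplicit false

/-!
# The full drawing: no vertex lies in the interior of an edge
-/

namespace Pool.Agent.Slope

section

variable {k : ℕ} {L : List LE} {r : ℤ → ℝ × ℝ} {H : ℕ → ℝ × ℝ} {p : Vx → ℝ × ℝ}

/-- The vertices of the graph. -/
def isV (k : ℕ) (L : List LE) (W : Vx) : Prop := isC k L W ∨ isJ k L W

theorem not_isZ_jA {t i m : ℕ} : ¬ isZ k L (.jA t i m) := by
  rintro (⟨t, i, _, _, h | h⟩ | ⟨e, s, _, h⟩) <;> simp at h

theorem not_isZ_jB {e m : ℕ} : ¬ isZ k L (.jB e m) := by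
  rintro (⟨t, i, _, _, h | h⟩ | ⟨e, s, _, h⟩) <;> simp at h

theorem not_isZ_hub {h : ℕ} : ¬ isZ k L (.hub h) := by
  rintro (⟨t, i, _, _, h | h⟩ | ⟨e, s, _, h⟩) <;> simp at h

theorem not_isZ_of_isJ {W : Vx} (h : isJ k L W) : ¬ isZ k L W := by
  rcases h with ⟨t, i, m, _, _, _, rfl⟩ | ⟨e, m, _, _, rfl⟩
  · exact not_isZ_jA
  · exact not_isZ_jB

theorem yB_dvd {k m : ℕ} (hk : 9 ≤ k) (hm : m < 2 * k - 4) : ¬ (k : ℤ) ∣ yB k m := by
  intro h
  unfold yB at h
  split_ifs at h with h1
  · have := small_dvd h (by omega) (by omega)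
    omega
  · have h2 : (k : ℤ) ∣ (m : ℤ) + 4 - k := dvd_sub h (dvd_refl _)
    have := small_dvd h2 (by omega) (by omega)
    omega

theorem yB_dvd' {k m : ℕ} (hk : 9 ≤ k) (hm : m < 2 * k - 4) :
    ¬ (k : ℤ) ∣ yB k m + (if m < k - 2 then 1 else -1) := by
  intro h
  unfold yB at h
  split_ifs at h with h1
  · have := small_dvd h (by omega) (by omega)
    omega
  · have h2 : (k : ℤ) ∣ (m : ℤ) + 4 + -1 - k := dvd_sub h (dvd_refl _)
    have := small_dvd h2 (by omega) (by omega)
    omega

theorem dvd_cases {k a b : ℤ} (h : k ∣ a - b) : 2 * k ∣ a - b ∨ 2 * k ∣ a - (b + k) := by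
  obtain ⟨q, hq⟩ := h
  rcases Int.even_or_odd' q with ⟨u, rfl | rfl⟩
  · left; exact ⟨u, by rw [hq]; ring⟩
  · right; exact ⟨u, by
      have : a - (b + k) = (a - b) - k := by ring
      rw [this, hq]; ring⟩

theorem nb_symm {z u : Vx} {a : ℤ} (h : Nb k L z u a) (hu : isZ k L u) :
    ∃ a', Nb k L u z a' ∧ (2 * k : ℤ) ∣ a' - (a + k) := by
  cases h with
  | c _ _ _ h =>
    cases h with
    | s1 t i hi => exact ⟨_, .c _ _ _ (.s2 t i hi), by rw [sub_self]; exact dvd_zero _⟩
    | s2 t i hi => exact ⟨_, .c _ _ _ (.s1 t i hi), ⟨-1, by ring⟩⟩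
    | pg t i e s a h => exact ⟨_, .c _ _ _ (.gp _ _ _ _ _ h), by rw [sub_self]; exact dvd_zero _⟩
    | gp t i e s a h => exact ⟨_, .c _ _ _ (.pg _ _ _ _ _ h), ⟨-1, by ring⟩⟩
    | gg e => exact ⟨_, .c _ _ _ (.gg' e), by rw [sub_self]; exact dvd_zero _⟩
    | gg' e => exact ⟨_, .c _ _ _ (.gg e), ⟨-1, by ring⟩⟩
    | gh e => exact absurd hu not_isZ_hub
    | gh' e => exact absurd hu not_isZ_hub
  | u W h => exact absurd hu (not_isZ_of_isJ h)
  | v W h => exact absurd hu (not_isZ_of_isJ h)

namespace Gen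

/-- The possible coincidences. -/
theorem coin (g : Gen k L r H p) {z W : Vx} (hz : isZ k L z) (hW : isV k L W) (hne : W ≠ z)
    {i : ℤ} (h : cr (r i) (posn k L r p W - posn k L r p z) = 0) :
    (∃ a, Nb k L z W a ∧ (k : ℤ) ∣ a - i) ∨
    (∃ u a a', isZ k L u ∧ Nb k L z u a ∧ Nb k L u W a' ∧ (k : ℤ) ∣ a - i ∧ (k : ℤ) ∣ a' - i) ∨
    ∃ e s, z = .gad e s ∧ (k : ℤ) ∣ 6 * ln L e + 1 - i := by
  have hk9 := g.k9
  have hr := g.rays
  have hk2 : 2 ≤ k := by omega
  rcases hW with hW | hW
  · rw [posn_of_isC hW, posn_of_isZ hz] at h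
    have h' : cr (r i) (p z - p W) = 0 := by
      have : p z - p W = -(p W - p z) := by abel
      rw [this, cr_neg_right, h, neg_zero]
    rcases g.g1 z W hz hW hne i h' with ⟨a, h1, h2⟩ | h1
    · exact Or.inl ⟨a, .c _ _ _ h1, h2⟩
    · exact Or.inr (Or.inr h1)
  · obtain ⟨⟨c, hc, hcu⟩, ⟨c', hc', hcv⟩⟩ := g.junk_pos hW
    have key : ∀ (X : Vx) (ρ : ℤ) (c : ℝ), isZ k L X → X ≠ z → Nb k L X W ρ →
        posn k L r p W - p X = c • r ρ → (k : ℤ) ∣ ρ - i →
        (∃ u a a', isZ k L u ∧ Nb k L z u a ∧ Nb k L u W a' ∧ (k : ℤ) ∣ a - i ∧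
          (k : ℤ) ∣ a' - i) ∨ ∃ e s, z = .gad e s ∧ (k : ℤ) ∣ 6 * ln L e + 1 - i := by
      intro X ρ c hX hXz hnb hWX hρ
      have h1 : cr (r i) (p z - p X) = 0 := by
        have e1 : p z - p X = (posn k L r p W - p X) - (posn k L r p W - posn k L r p z) := by
          rw [posn_of_isZ hz]; abel
        rw [e1, cr_sub_right, h, hWX, cr_smul_right, hr.cr_of_dvd hρ, mul_zero, sub_zero]
      rcases g.g1 z X hz (Or.inl hX) hXz i h1 with ⟨a, h2, h3⟩ | h2
      · exact Or.inl ⟨X, a, ρ, hX, .c _ _ _ h2, hnb, h3, hρ⟩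
      · exact Or.inr h2
    by_cases hzu : z = ownU W
    · left
      refine ⟨rayU k L W, by rw [hzu]; exact .u W hW, ?_⟩
      rw [posn_of_isZ hz, hzu, hcu, cr_smul_right] at h
      rcases mul_eq_zero.1 h with h | h
      · exact absurd h hc.ne'
      · exact hr.cr_eq_zero hk2 h
    by_cases hzv : z = ownV W
    · left
      refine ⟨rayV k L W, by rw [hzv]; exact .v W hW, ?_⟩
      rw [posn_of_isZ hz, hzv, hcv, cr_smul_right] at h
      rcases mul_eq_zero.1 h with h | h
      · exact absurd h hc'.ne'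
      · exact hr.cr_eq_zero hk2 h
    right
    have h2 : cr (r i) (p z) - cr (r i) (Jp (r (rayU k L W)) (r (rayV k L W))
          (p (ownU W)) (p (ownV W))) = 0 := by
      rw [← posn_junk hW, ← cr_sub_right]
      have : p z - posn k L r p W = -(posn k L r p W - posn k L r p z) := by
        rw [posn_of_isZ hz]; abel
      rw [this, cr_neg_right, h, neg_zero]
    rcases g.g2 z W hz hW hzu hzv i h2 with h3 | h3
    · exact key _ _ c (isZ_ownU hW) (Ne.symm hzu) (.u W hW) hcu h3
    · exact key _ _ c' (isZ_ownV hW) (Ne.symm hzv) (.v W hW) hcv h3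

theorem smul_r_ne (g : Gen k L r H p) {c : ℝ} (hc : 0 < c) (a : ℤ) : c • r a ≠ 0 := by
  intro h
  rcases smul_eq_zero.1 h with h | h
  · exact hc.ne' h
  · exact g.rays.ne_zero (by have := g.k9; omega) a h

/-- Two positive multiples of rays on a common line. -/
theorem same_ray (g : Gen k L r H p) {c c' : ℝ} {a a' : ℤ} (hc : 0 < c) (hc' : 0 < c')
    (h : c • r a = c' • r a') : (2 * k : ℤ) ∣ a - a' := by
  have hk9 := g.k9
  have h1 : (k : ℤ) ∣ a - a' := by
    apply g.rays.cr_eq_zero (by omega)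
    have : cr (c' • r a') (c • r a) = 0 := by rw [h, cr_self]
    rw [cr_smul_left, cr_smul_right] at this
    rcases mul_eq_zero.1 this with h2 | h2
    · exact absurd h2 hc'.ne'
    · rcases mul_eq_zero.1 h2 with h3 | h3
      · exact absurd h3 hc.ne'
      · exact h3
  rcases dvd_cases h1 with h2 | h2
  · exact h2
  · exfalso
    have h3 : r a = - r a' := by rw [g.rays.eq_of_dvd h2, g.rays.anti]
    rw [h3, smul_neg] at h
    have h4 : (c + c') • r a' = 0 := by rw [add_smul, ← h]; abel
    exact g.smul_r_ne (by linarith) a' h4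

/-- Junk of a neighbour on the same line is beyond the neighbour. -/
theorem beyond (g : Gen k L r H p) {z u W : Vx} {a a' : ℤ} (hz : isZ k L z) (hu : isZ k L u)
    (hne : W ≠ z) (h1 : Nb k L z u a) (h2 : Nb k L u W a') (h : (k : ℤ) ∣ a' - a) :
    ∃ c₁ c₂ : ℝ, 0 < c₁ ∧ 0 < c₂ ∧ posn k L r p u - posn k L r p z = c₁ • r a ∧
      posn k L r p W - posn k L r p u = c₂ • r a := by
  obtain ⟨c₁, hc₁, h3⟩ := g.nb_pos h1 hz
  obtain ⟨c₂, hc₂, h4⟩ := g.nb_pos h2 hu
  refine ⟨c₁, c₂, hc₁, hc₂, h3, ?_⟩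
  rcases dvd_cases h with h5 | h5
  · rw [h4, g.rays.eq_of_dvd h5]
  · exfalso
    obtain ⟨a'', h6, h7⟩ := nb_symm h1 hu
    apply hne
    refine nb_unique g.odd g.k9 g.chain hu h2 h6 ?_
    have : a' - a'' = (a' - (a + k)) - (a'' - (a + k)) := by ring
    rw [this]; exact dvd_sub h5 h7

/-- Vertices on the line of a labelled edge. -/
theorem main_char (g : Gen k L r H p) {e : ℕ} (he : e < L.length) {W : Vx} (hW : isV k L W)
    (h : cr (r (6 * ln L e + 1)) (posn k L r p W - posn k L r p (.gad e false)) = 0) :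
    (∃ x ∈ hubs L, W = .hub x) ∨ ∃ e' s', e' < L.length ∧ W = .gad e' s' ∧ ln L e' = ln L e := by
  have hk9 := g.k9
  have hr := g.rays
  have hk2 : 2 ≤ k := by omega
  have hge : isZ k L (.gad e false) := Or.inr ⟨e, false, he, rfl⟩
  -- who sees a gadget vertex along the main line
  have who : ∀ {u : Vx} {s : Bool} {a : ℤ}, isZ k L u → Nb k L u (.gad e s) a →
      (k : ℤ) ∣ a - (6 * ln L e + 1) → u = .gad e (!s) := by
    intro u s a hu h1 h2
    rcases hu with ⟨t, i, ht, hi, rfl | rfl⟩ | ⟨e', s', he', rfl⟩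
    · rcases nb_star_cases g.odd h1 with ⟨h3, _⟩ | ⟨j, _, _, h3, _⟩ | ⟨m, _, h3, _⟩ <;>
        simp at h3
    · rcases nb_part_cases h1 with ⟨e', s', h3, h4⟩ | ⟨m, _, h3, _⟩
      · simp only [Vx.gad.injEq] at h3
        obtain ⟨rfl, rfl⟩ := h3
        exfalso
        refine h4.ne_main (by omega) ?_
        have : 6 * (ln L e : ℤ) + 1 - a = -(a - (6 * ln L e + 1)) := by ring
        rw [this]; exact (dvd_neg).2 h2
      · simp at h3
    · rcases nb_gad_cases h1 with ⟨h3, _⟩ | ⟨⟨x, h3, _⟩, _⟩ | ⟨t, i, a', h3, _⟩ | ⟨m, _, h3, _⟩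
      · simp only [Vx.gad.injEq] at h3
        obtain ⟨rfl, rfl⟩ := h3
        simp
      · simp at h3
      · simp at h3
      · simp at h3
  have zcase : ∀ {X : Vx}, isZ k L X →
      cr (r (6 * ln L e + 1)) (posn k L r p X - posn k L r p (.gad e false)) = 0 →
      ∃ e' s', e' < L.length ∧ X = .gad e' s' ∧ ln L e' = ln L e := by
    intro X hX hcr
    by_cases hXe : X = .gad e false
    · exact ⟨e, false, he, hXe, rfl⟩
    have hcr' : cr (r (6 * ln L e + 1)) (posn k L r p (.gad e false) - posn k L r p X) = 0 := by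
      have : posn k L r p (.gad e false) - posn k L r p X =
        -(posn k L r p X - posn k L r p (.gad e false)) := by abel
      rw [this, cr_neg_right, hcr, neg_zero]
    rcases g.coin hX (Or.inl (Or.inl hge)) (Ne.symm hXe) hcr' with ⟨a, h1, h2⟩ |
      ⟨u, a, a', h1, h2, h3, h4, h5⟩ | ⟨e', s', h1, h2⟩
    · have := who hX h1 h2
      exact ⟨e, _, he, this, rfl⟩
    · have hu := who h1 h3 h5
      rw [hu] at h2
      have := who hX h2 h4
      exact ⟨e, _, he, this, rfl⟩
    · have he' : e' < L.length := by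
        rcases hX with ⟨t, i, _, _, h | h⟩ | ⟨e'', s'', h', h⟩
        · rw [h1] at h; simp at h
        · rw [h1] at h; simp at h
        · rw [h1] at h
          simp only [Vx.gad.injEq] at h
          rw [h.1]; exact h'
      refine ⟨e', s', he', h1, ?_⟩
      have hlt := g.lt e he
      have hlt' := g.lt e' he'
      have := small_dvd h2 (by omega) (by omega)
      omega
  rcases hW with (hW | ⟨x, hx, hW⟩) | hW
  · exact Or.inr (zcase hW h)
  · exact Or.inl ⟨x, hx, hW⟩
  · exfalso
    obtain ⟨⟨c, hc, hcu⟩, ⟨c', hc', hcv⟩⟩ := g.junk_pos hW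
    -- the owners are not on the main line with the slope of the junk
    have hU : ¬ ((k : ℤ) ∣ rayU k L W - (6 * ln L e + 1)) := by
      intro hd
      have h1 : cr (r (6 * ln L e + 1)) (posn k L r p (ownU W) - posn k L r p (.gad e false)) =
          0 := by
        have e1 : posn k L r p (ownU W) - posn k L r p (.gad e false) =
          (posn k L r p W - posn k L r p (.gad e false)) - (posn k L r p W - p (ownU W)) := by
          rw [posn_of_isZ (isZ_ownU hW)]; abel
        rw [e1, cr_sub_right, h, hcu, cr_smul_right, hr.cr_of_dvd hd, mul_zero, sub_zero]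
      obtain ⟨e', s', he', h2, h3⟩ := zcase (isZ_ownU hW) h1
      rcases hW with ⟨t, i, m, ht, hi, hm, rfl⟩ | ⟨e'', m, he'', hm, rfl⟩
      · simp [ownU] at h2
      · simp only [ownU, Vx.gad.injEq] at h2
        rw [← h2.1] at h3
        refine yB_dvd hk9 hm ?_
        simp only [rayU, h3] at hd
        have : yB k m = 6 * (ln L e : ℤ) + 1 + yB k m - (6 * ln L e + 1) := by ring
        rw [this]; exact hd
    have hV : ¬ ((k : ℤ) ∣ rayV k L W - (6 * ln L e + 1)) := by
      intro hd
      have h1 : cr (r (6 * ln L e + 1)) (posn k L r p (ownV W) - posn k L r p (.gad e false)) =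
          0 := by
        have e1 : posn k L r p (ownV W) - posn k L r p (.gad e false) =
          (posn k L r p W - posn k L r p (.gad e false)) - (posn k L r p W - p (ownV W)) := by
          rw [posn_of_isZ (isZ_ownV hW)]; abel
        rw [e1, cr_sub_right, h, hcv, cr_smul_right, hr.cr_of_dvd hd, mul_zero, sub_zero]
      obtain ⟨e', s', he', h2, h3⟩ := zcase (isZ_ownV hW) h1
      rcases hW with ⟨t, i, m, ht, hi, hm, rfl⟩ | ⟨e'', m, he'', hm, rfl⟩
      · simp [ownV] at h2
      · simp only [ownV, Vx.gad.injEq] at h2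
        rw [← h2.1] at h3
        refine yB_dvd' hk9 hm ?_
        simp only [rayV, h3] at hd
        have : yB k m + (if m < k - 2 then 1 else -1) = 6 * (ln L e : ℤ) + 1 + yB k m +
          (if m < k - 2 then 1 else -1) - (6 * ln L e + 1) := by ring
        rw [this]; exact hd
    by_cases hzu : Vx.gad e false = ownU W
    · apply hU
      rw [posn_of_isZ hge, hzu, hcu, cr_smul_right] at h
      rcases mul_eq_zero.1 h with h | h
      · exact absurd h hc.ne'
      · exact hr.cr_eq_zero hk2 h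
    by_cases hzv : Vx.gad e false = ownV W
    · rcases hW with ⟨t, i, m, ht, hi, hm, rfl⟩ | ⟨e'', m, he'', hm, rfl⟩ <;>
        simp [ownV] at hzv
    have h2 : cr (r (6 * ln L e + 1)) (p (.gad e false)) -
        cr (r (6 * ln L e + 1)) (Jp (r (rayU k L W)) (r (rayV k L W))
          (p (ownU W)) (p (ownV W))) = 0 := by
      rw [← posn_junk hW, ← cr_sub_right]
      have : p (.gad e false) - posn k L r p W =
          -(posn k L r p W - posn k L r p (.gad e false)) := by
        rw [posn_of_isZ hge]; abel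
      rw [this, cr_neg_right, h, neg_zero]
    rcases g.g2 _ W hge hW hzu hzv _ h2 with h3 | h3
    · exact hU h3
    · exact hV h3

theorem lab_mem {e : ℕ} (he : e < L.length) : lab L e ∈ L := by
  have : lab L e = L[e] := by simp [lab, he]
  rw [this]
  exact List.getElem_mem he

theorem seg_of_param {P d : ℝ × ℝ} {x y : ℝ} (h0 : 0 < y) (h1 : y < x) :
    P + y • d ∈ openSegment ℝ P (P + x • d) := by
  refine ⟨1 - y / x, y / x, ?_, div_pos h0 (by linarith), by ring, ?_⟩
  · rw [sub_pos, div_lt_one (by linarith)]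
    exact h1
  · have hx : x ≠ 0 := by linarith
    rw [smul_add, smul_smul, div_mul_cancel₀ _ hx, ← add_assoc, ← add_smul]
    simp

/-- No vertex except the two gadget vertices is strictly between the two hubs. -/
theorem main_ok (g : Gen k L r H p) {e : ℕ} (he : e < L.length) {W : Vx} (hW : isV k L W)
    {x₁ x₂ x₃ y : ℝ}
    (h4 : p (.gad e false) = H (lab L e).1 + x₁ • r (6 * ln L e + 1))
    (h5 : p (.gad e true) = H (lab L e).1 + x₂ • r (6 * ln L e + 1))
    (h6 : H (lab L e).2.1 = H (lab L e).1 + x₃ • r (6 * ln L e + 1))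
    (hy : posn k L r p W = H (lab L e).1 + y • r (6 * ln L e + 1))
    (hy0 : 0 < y) (hy3 : y < x₃) : y = x₁ ∨ y = x₂ := by
  have hk9 := g.k9
  obtain ⟨d, hd⟩ : ∃ d, d = r (6 * ln L e + 1) := ⟨_, rfl⟩
  have hd0 : d ≠ 0 := by rw [hd]; exact g.rays.ne_zero (by omega) _
  have hcr : cr (r (6 * ln L e + 1)) (posn k L r p W - posn k L r p (.gad e false)) = 0 := by
    rw [hy, posn_of_isZ (Or.inr ⟨e, false, he, rfl⟩), h4, add_sub_add_left_eq_sub, ← sub_smul,
      cr_smul_right, cr_self, mul_zero]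
  have inj : ∀ {a b : ℝ} {P : ℝ × ℝ}, P + a • d = P + b • d → a = b := by
    intro a b P h
    have h1 : a • d = b • d := add_left_cancel h
    have h2 : (a - b) • d = 0 := by rw [sub_smul, h1, sub_self]
    rcases smul_eq_zero.1 h2 with h3 | h3
    · linarith
    · exact absurd h3 hd0
  rw [← hd] at h4 h5 h6 hy
  rcases g.main_char he hW hcr with ⟨x, hx, rfl⟩ | ⟨e', s', he', rfl, hln⟩
  · exfalso
    have h7 : posn k L r p (.hub x) = H x := by
      change p (.hub x) = H x
      exact g.eqs.hub x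
    rw [h7] at hy
    refine g.havoid e he x hx ?_
    rw [hy, h6]
    exact seg_of_param hy0 hy3
  · have h7 : posn k L r p (.gad e' s') = p (.gad e' s') := rfl
    rw [h7] at hy
    by_cases hee : e' = e
    · subst hee
      cases s'
      · left
        rw [h4] at hy
        exact (inj hy).symm
      · right
        rw [h5] at hy
        exact (inj hy).symm
    · exfalso
      obtain ⟨z₁, z₂, z₃, g1, g2, g3, g4, g5, g6⟩ := g.main_line he'
      rw [hln, ← hd] at g4 g5 g6
      -- the parameter of the gadget vertex on its own edge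
      obtain ⟨w, hw0, hw3, hw⟩ : ∃ w, 0 < w ∧ w < z₃ ∧
          p (.gad e' s') = H (lab L e').1 + w • d := by
        cases s'
        · exact ⟨z₁, g1, by linarith, g4⟩
        · exact ⟨z₂, by linarith, g3, g5⟩
      have hP : H (lab L e').1 = H (lab L e).1 + (y - w) • d := by
        rw [hw] at hy
        rw [sub_smul, ← add_sub_assoc, ← hy]
        abel
      have hQ : H (lab L e').2.1 = H (lab L e).1 + (y - w + z₃) • d := by
        rw [g6, hP, add_assoc, ← add_smul]
      have hP' : H (lab L e).1 = H (lab L e').1 + (w - y) • d := by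
        rw [hP, add_assoc, ← add_smul]
        simp
      have hQ' : H (lab L e).2.1 = H (lab L e').1 + (w - y + x₃) • d := by
        rw [h6]
        nth_rewrite 1 [hP']
        rw [add_assoc, ← add_smul]
      have m1 : (lab L e).1 ∈ hubs L := ⟨_, lab_mem he, Or.inl rfl⟩
      have m2 : (lab L e).2.1 ∈ hubs L := ⟨_, lab_mem he, Or.inr rfl⟩
      have m1' : (lab L e').1 ∈ hubs L := ⟨_, lab_mem he', Or.inl rfl⟩
      have m2' : (lab L e').2.1 ∈ hubs L := ⟨_, lab_mem he', Or.inr rfl⟩
      have c1 : ¬ (0 < y - w ∧ y - w < x₃) := by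
        rintro ⟨a, b⟩
        refine g.havoid e he _ m1' ?_
        rw [hP, h6]
        exact seg_of_param a b
      have c2 : ¬ (0 < y - w + z₃ ∧ y - w + z₃ < x₃) := by
        rintro ⟨a, b⟩
        refine g.havoid e he _ m2' ?_
        rw [hQ, h6]
        exact seg_of_param a b
      have c3 : ¬ (0 < w - y ∧ w - y < z₃) := by
        rintro ⟨a, b⟩
        refine g.havoid e' he' _ m1 ?_
        rw [hP', g6]
        exact seg_of_param a b
      have c4 : ¬ (0 < w - y + x₃ ∧ w - y + x₃ < z₃) := by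
        rintro ⟨a, b⟩
        refine g.havoid e' he' _ m2 ?_
        rw [hQ', g6]
        exact seg_of_param a b
      have e1 : y - w = 0 := by
        by_contra h0
        rcases lt_or_gt_of_ne h0 with h0 | h0
        · exact c3 ⟨by linarith, by linarith⟩
        · exact c1 ⟨h0, by linarith⟩
      have e2 : z₃ = x₃ := by
        by_contra h0
        rcases lt_or_gt_of_ne h0 with h0 | h0
        · exact c2 ⟨by linarith, by linarith⟩
        · exact c4 ⟨by linarith, by linarith⟩
      have f1 : (lab L e').1 = (lab L e).1 := g.hinj m1' m1 (by rw [hP, e1]; simp)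
      have f2 : (lab L e').2.1 = (lab L e).2.1 := g.hinj m2' m2 (by rw [hQ, h6, e1, e2]; simp)
      have f3 : lab L e' = lab L e := Prod.ext f1 (Prod.ext f2 hln)
      have h8 : lab L e' = L[e'] := by simp [lab, he']
      have h9 : lab L e = L[e] := by simp [lab, he]
      rw [h8, h9] at f3
      exact hee ((List.Nodup.getElem_inj_iff g.nodup).1 f3)

/-- No vertex lies in the interior of an edge. -/
theorem edge_ok (g : Gen k L r H p) {z Y W : Vx} {a : ℤ} (hz : isZ k L z) (h : Nb k L z Y a)
    (hW : isV k L W) :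
    posn k L r p W ∉ openSegment ℝ (posn k L r p z) (posn k L r p Y) := by
  rintro ⟨u, v, hu, hv, huv, hseg⟩
  have hk9 := g.k9
  have hr := g.rays
  obtain ⟨c, hc, hY⟩ := g.nb_pos h hz
  have hWz : posn k L r p W - posn k L r p z = (v * c) • r a := by
    rw [← smul_smul, ← hY, ← hseg]
    have : u = 1 - v := by linarith
    rw [this, sub_smul, one_smul, smul_sub]
    abel
  have hvc : 0 < v * c := by positivity
  have hv1 : v < 1 := by linarith
  have hWz' : W ≠ z := by
    rintro rfl
    rw [sub_self] at hWz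
    exact g.smul_r_ne hvc a hWz.symm
  have hWY : W ≠ Y := by
    rintro rfl
    rw [hWz] at hY
    have h1 : (c - v * c) • r a = 0 := by rw [sub_smul, hY, sub_self]
    refine g.smul_r_ne ?_ a h1
    nlinarith
  have hcr : cr (r a) (posn k L r p W - posn k L r p z) = 0 := by
    rw [hWz, cr_smul_right, cr_self, mul_zero]
  rcases g.coin hz hW hWz' hcr with ⟨a', h1, _⟩ | ⟨w, a₁, a₂, h1, h2, h3, h4, h5⟩ |
    ⟨e, s, rfl, h1⟩
  · obtain ⟨c', hc', h3⟩ := g.nb_pos h1 hz
    rw [hWz] at h3
    exact hWY (nb_unique g.odd g.k9 g.chain hz h1 h (by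
      have := g.same_ray hvc hc' h3
      have e1 : a' - a = -(a - a') := by ring
      rw [e1]; exact (dvd_neg).2 this))
  · obtain ⟨c₁, c₂, hc₁, hc₂, h6, h7⟩ := g.beyond hz h1 hWz' h2 h3 (by
      have : a₂ - a₁ = (a₂ - a) - (a₁ - a) := by ring
      rw [this]; exact dvd_sub h5 h4)
    have h8 : posn k L r p W - posn k L r p z = (c₁ + c₂) • r a₁ := by
      rw [add_smul, ← h6, ← h7]; abel
    have h9 := g.same_ray hvc (by positivity : 0 < c₁ + c₂) (hWz.symm.trans h8)
    have h10 : w = Y := nb_unique g.odd g.k9 g.chain hz h2 h (by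
      have e1 : a₁ - a = -(a - a₁) := by ring
      rw [e1]; exact (dvd_neg).2 h9)
    subst h10
    have h11 : r a = r a₁ := hr.eq_of_dvd h9
    rw [h11] at hY hWz
    have h12 : (c - c₁) • r a₁ = 0 := by rw [sub_smul, ← hY, ← h6, sub_self]
    have h13 : (c₁ + c₂ - v * c) • r a₁ = 0 := by rw [sub_smul, ← h8, ← hWz, sub_self]
    have h14 : c - c₁ = 0 := by
      rcases smul_eq_zero.1 h12 with h | h
      · exact h
      · exact absurd h (hr.ne_zero (by omega) _)
    have h15 : c₁ + c₂ - v * c = 0 := by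
      rcases smul_eq_zero.1 h13 with h | h
      · exact h
      · exact absurd h (hr.ne_zero (by omega) _)
    nlinarith
  · -- the main line
    have he : e < L.length := by
      rcases hz with ⟨t, i, _, _, h | h⟩ | ⟨e'', s'', h', h⟩
      · simp at h
      · simp at h
      · simp only [Vx.gad.injEq] at h
        rw [h.1]; exact h'
    obtain ⟨x₁, x₂, x₃, g1, g2, g3, g4, g5, g6⟩ := g.main_line he
    -- all points are on the line
    have hpar : ∃ x : ℝ, r a = x • r (6 * ln L e + 1) := by
      refine parallel_of_cr (hr.ne_zero (by omega) _) (hr.cr_of_dvd ?_)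
      have : a - (6 * (ln L e : ℤ) + 1) = -(6 * ln L e + 1 - a) := by ring
      rw [this]; exact (dvd_neg).2 h1
    obtain ⟨x, hx⟩ := hpar
    have fin : ∀ {y₀ y₁ : ℝ}, posn k L r p (.gad e s) = H (lab L e).1 + y₀ • r (6 * ln L e + 1) →
        posn k L r p Y = H (lab L e).1 + y₁ • r (6 * ln L e + 1) →
        0 < u * y₀ + v * y₁ → u * y₀ + v * y₁ < x₃ → u * y₀ + v * y₁ ≠ x₁ →
        u * y₀ + v * y₁ ≠ x₂ → False := by
      intro y₀ y₁ e0 e1 a1 a2 a3 a4
      have e3 : posn k L r p W = H (lab L e).1 + (u * y₀ + v * y₁) • r (6 * ln L e + 1) := by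
        rw [← hseg, e0, e1, smul_add, smul_add, smul_smul, smul_smul, add_smul]
        have : H (lab L e).1 = u • H (lab L e).1 + v • H (lab L e).1 := by
          rw [← add_smul, huv, one_smul]
        nth_rewrite 3 [this]
        abel
      rcases g.main_ok he hW g4 g5 g6 e3 a1 a2 with h | h
      · exact a3 h
      · exact a4 h
    rcases nb_gad_cases h with ⟨h2, _⟩ | ⟨⟨y, h2, h3⟩, _⟩ | ⟨t, i, a', _, h2, h3⟩ |
      ⟨m, hm, _, h2⟩
    · subst h2
      cases s
      · refine fin (y₀ := x₁) (y₁ := x₂) g4 g5 ?_ ?_ ?_ ?_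
        · have := mul_pos hu g1
          have := mul_pos hv (g1.trans g2)
          linarith
        · nlinarith
        · nlinarith
        · nlinarith
      · refine fin (y₀ := x₂) (y₁ := x₁) g5 g4 ?_ ?_ ?_ ?_
        · have := mul_pos hv g1
          have := mul_pos hu (g1.trans g2)
          linarith
        · nlinarith
        · nlinarith
        · nlinarith
    · subst h2
      have hhub : posn k L r p (.hub y) = H y := by
        change p (.hub y) = H y
        exact g.eqs.hub y
      cases s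
      · rw [if_neg (by simp)] at h3
        subst h3
        refine fin (y₀ := x₁) (y₁ := 0) g4 (by rw [hhub]; simp) ?_ ?_ ?_ ?_
        · have := mul_pos hu g1
          linarith
        · nlinarith
        · nlinarith
        · nlinarith
      · rw [if_pos rfl] at h3
        subst h3
        refine fin (y₀ := x₂) (y₁ := x₃) g5 (by rw [hhub]; exact g6) ?_ ?_ ?_ ?_
        · have := mul_pos hu (g1.trans g2)
          have := mul_pos hv ((g1.trans g2).trans g3)
          linarith
        · nlinarith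
        · nlinarith
        · nlinarith
    · refine h2.ne_main (by omega) ?_
      have : 6 * (ln L e : ℤ) + 1 - a' = (6 * ln L e + 1 - a) + k := by rw [h3]; ring
      rw [this]; exact dvd_add h1 (dvd_refl _)
    · cases s
      · simp only [Bool.false_eq_true, if_false, add_zero] at h2
        refine yB_dvd hk9 hm ?_
        have : yB k m = -(6 * (ln L e : ℤ) + 1 - a) := by rw [h2]; ring
        rw [this]; exact (dvd_neg).2 h1
      · simp only [if_true] at h2
        refine yB_dvd' hk9 hm ?_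
        have : yB k m + (if m < k - 2 then 1 else -1) = -(6 * (ln L e : ℤ) + 1 - a) := by
          rw [h2]; ring
        rw [this]; exact (dvd_neg).2 h1

end Gen

end

end Pool.Agent.Slope
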