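import Pool.Agent.Slope.Verify3

set_option autoImplicit false

/-!
# The full drawing: the vertices are at distinct points; the edges
-/

namespace Pool.Agent.Slope

section

variable {k : ℕ} {L : List LE} {r : ℤ → ℝ × ℝ} {H : ℕ → ℝ × ℝ} {p : Vx → ℝ × ℝ}

namespace Gen

/-- A non-hub core vertex is not at the position of another vertex. -/
theorem pos_ne (g : Gen k L r H p) {z W : Vx} (hz : isZ k L z) (hW : isV k L W) (hne : W ≠ z) :
    posn k L r p W ≠ posn k L r p z := by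
  intro heq
  have hk9 := g.k9
  obtain ⟨i, hi⟩ : ∃ i : ℤ, ∀ e s, z = .gad e s → ¬ (k : ℤ) ∣ 6 * ln L e + 1 - i := by
    rcases hz with ⟨t, i, _, _, rfl | rfl⟩ | ⟨e, s, _, rfl⟩
    · exact ⟨0, fun e s h => by simp at h⟩
    · exact ⟨0, fun e s h => by simp at h⟩
    · refine ⟨6 * ln L e + 2, fun e' s' h => ?_⟩
      simp only [Vx.gad.injEq] at h
      rw [← h.1]
      intro hd
      have e1 : 6 * (ln L e : ℤ) + 1 - (6 * ln L e + 2) = -1 := by ring
      rw [e1] at hd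
      have := small_dvd hd (by omega) (by omega)
      omega
  have h0 : posn k L r p W - posn k L r p z = 0 := by rw [heq, sub_self]
  have hcr : cr (r i) (posn k L r p W - posn k L r p z) = 0 := by rw [h0, cr_zero_right]
  rcases g.coin hz hW hne hcr with ⟨a, h1, _⟩ | ⟨u, a, a', h1, h2, h3, h4, h5⟩ | ⟨e, s, h1, h2⟩
  · obtain ⟨c, hc, h3⟩ := g.nb_pos h1 hz
    rw [h0] at h3
    exact g.smul_r_ne hc a h3.symm
  · obtain ⟨c₁, c₂, hc₁, hc₂, h6, h7⟩ := g.beyond hz h1 hne h2 h3 (by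
      have : a' - a = (a' - i) - (a - i) := by ring
      rw [this]; exact dvd_sub h5 h4)
    have h8 : posn k L r p W - posn k L r p z = (c₁ + c₂) • r a := by
      rw [add_smul, ← h6, ← h7]; abel
    rw [h0] at h8
    exact g.smul_r_ne (by positivity) a h8.symm
  · exact hi e s h1 h2

theorem hub_ne_junk (g : Gen k L r H p) {x : ℕ} (hx : x ∈ hubs L) {W : Vx} (hW : isJ k L W) :
    posn k L r p W ≠ posn k L r p (.hub x) := by
  intro heq
  have hk9 := g.k9
  obtain ⟨⟨c, hc, hcu⟩, _⟩ := g.junk_pos hW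
  have hu := isZ_ownU hW
  have h1 : cr (r (rayU k L W)) (p (ownU W) - p (.hub x)) = 0 := by
    have e1 : p (ownU W) - p (.hub x) = -(posn k L r p W - p (ownU W)) := by
      rw [heq]
      change _ = -(p (.hub x) - _)
      abel
    rw [e1, hcu, cr_neg_right, cr_smul_right, cr_self, mul_zero, neg_zero]
  have h2 := g.g1 (ownU W) (.hub x) hu (Or.inr ⟨x, hx, rfl⟩) (by
    intro h
    rw [← h] at hu
    exact not_isZ_hub hu) _ h1
  rcases hW with ⟨t, i, m, ht, hi, hm, rfl⟩ | ⟨e, m, he, hm, rfl⟩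
  · rcases h2 with ⟨a, h3, _⟩ | ⟨e, s, h3, _⟩
    · simp only [ownU] at h3
      cases h3
    · simp [ownU] at h3
  · simp only [ownU, rayU] at h2
    apply yB_dvd hk9 hm
    rcases h2 with ⟨a, h3, h4⟩ | ⟨e', s, h3, h4⟩
    · generalize hG : Vx.gad e false = z at h3
      generalize hY : Vx.hub x = Y at h3
      cases h3 with
      | gh e' =>
        simp only [Vx.gad.injEq] at hG
        obtain ⟨rfl, _⟩ := hG
        have e1 : yB k m = -((6 * (ln L e : ℤ) + 1 + k) - (6 * ln L e + 1 + yB k m)) + k := by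
          ring
        rw [e1]
        exact dvd_add ((dvd_neg).2 h4) (dvd_refl _)
      | gh' e' => simp at hG
      | _ => simp at hY
    · simp only [Vx.gad.injEq] at h3
      obtain ⟨rfl, _⟩ := h3
      have e1 : yB k m = -(6 * (ln L e : ℤ) + 1 - (6 * ln L e + 1 + yB k m)) := by ring
      rw [e1]
      exact (dvd_neg).2 h4

/-- If two junk vertices coincide, the second is seen from the first owner of the first one. -/
theorem junk_u (g : Gen k L r H p) {W W' : Vx} (hW : isJ k L W) (hW' : isJ k L W')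
    (hne : W ≠ W') (heq : posn k L r p W = posn k L r p W') :
    (∃ u a a', isZ k L u ∧ Nb k L (ownU W) u a ∧ Nb k L u W' a' ∧ (k : ℤ) ∣ a - rayU k L W) ∨
    ∃ e s, ownU W = .gad e s ∧ (k : ℤ) ∣ 6 * ln L e + 1 - rayU k L W := by
  obtain ⟨⟨c, hc, hcu⟩, _⟩ := g.junk_pos hW
  have hu := isZ_ownU hW
  have hWu : W' ≠ ownU W := by
    intro h
    rw [← h] at hu
    exact not_isZ_of_isJ hW' hu
  have hcr : cr (r (rayU k L W)) (posn k L r p W' - posn k L r p (ownU W)) = 0 := by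
    rw [← heq, posn_of_isZ hu, hcu, cr_smul_right, cr_self, mul_zero]
  rcases g.coin hu (Or.inr hW') hWu hcr with ⟨a, h1, _⟩ | ⟨u, a, a', h1, h2, h3, h4, _⟩ | h1
  · exfalso
    obtain ⟨c', hc', h3⟩ := g.nb_pos h1 hu
    rw [← heq, posn_of_isZ hu, hcu] at h3
    have h4 := g.same_ray hc hc' h3
    exact hne (nb_unique g.odd g.k9 g.chain hu (.u W hW) h1 h4)
  · exact Or.inl ⟨u, a, a', h1, h2, h3, h4⟩
  · exact Or.inr h1

/-- If two junk vertices coincide, the second is seen from the second owner of the first one. -/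
theorem junk_v (g : Gen k L r H p) {W W' : Vx} (hW : isJ k L W) (hW' : isJ k L W')
    (hne : W ≠ W') (heq : posn k L r p W = posn k L r p W') :
    (∃ u a a', isZ k L u ∧ Nb k L (ownV W) u a ∧ Nb k L u W' a' ∧ (k : ℤ) ∣ a - rayV k L W) ∨
    ∃ e s, ownV W = .gad e s ∧ (k : ℤ) ∣ 6 * ln L e + 1 - rayV k L W := by
  obtain ⟨_, ⟨c, hc, hcu⟩⟩ := g.junk_pos hW
  have hu := isZ_ownV hW
  have hWu : W' ≠ ownV W := by
    intro h
    rw [← h] at hu
    exact not_isZ_of_isJ hW' hu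
  have hcr : cr (r (rayV k L W)) (posn k L r p W' - posn k L r p (ownV W)) = 0 := by
    rw [← heq, posn_of_isZ hu, hcu, cr_smul_right, cr_self, mul_zero]
  rcases g.coin hu (Or.inr hW') hWu hcr with ⟨a, h1, _⟩ | ⟨u, a, a', h1, h2, h3, h4, _⟩ | h1
  · exfalso
    obtain ⟨c', hc', h3⟩ := g.nb_pos h1 hu
    rw [← heq, posn_of_isZ hu, hcu] at h3
    have h4 := g.same_ray hc hc' h3
    exact hne (nb_unique g.odd g.k9 g.chain hu (.v W hW) h1 h4)
  · exact Or.inl ⟨u, a, a', h1, h2, h3, h4⟩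
  · exact Or.inr h1

theorem junk_ne (g : Gen k L r H p) {W W' : Vx} (hW : isJ k L W) (hW' : isJ k L W')
    (hne : W ≠ W') : posn k L r p W ≠ posn k L r p W' := by
  intro heq
  have hk9 := g.k9
  have hU := g.junk_u hW hW' hne heq
  have hV := g.junk_v hW hW' hne heq
  -- the junk neighbours
  have jnb : ∀ {u : Vx} {a : ℤ}, Nb k L u W' a → (∀ t i, u = .star t i → ∃ m, W' = .jA t i m) ∧
      (∀ t i, u = .part t i → ∃ m, W' = .jA t i m) ∧
      (∀ e s, u = .gad e s → ∃ m, W' = .jB e m) := by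
    intro u a h
    refine ⟨fun t i hu => ?_, fun t i hu => ?_, fun e s hu => ?_⟩
    · subst hu
      rcases nb_star_cases g.odd h with ⟨h1, _⟩ | ⟨j, _, _, h1, _⟩ | ⟨m, _, h1, _⟩
      · exfalso; rw [h1] at hW'
        rcases hW' with ⟨_, _, _, _, _, _, h⟩ | ⟨_, _, _, _, h⟩ <;> simp at h
      · exfalso; rw [h1] at hW'
        rcases hW' with ⟨_, _, _, _, _, _, h⟩ | ⟨_, _, _, _, h⟩ <;> simp at h
      · exact ⟨m, h1⟩
    · subst hu
      rcases nb_part_cases h with ⟨e, s, h1, _⟩ | ⟨m, _, h1, _⟩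
      · exfalso; rw [h1] at hW'
        rcases hW' with ⟨_, _, _, _, _, _, h⟩ | ⟨_, _, _, _, h⟩ <;> simp at h
      · exact ⟨m, h1⟩
    · subst hu
      rcases nb_gad_cases h with ⟨h1, _⟩ | ⟨⟨x, h1, _⟩, _⟩ | ⟨t, i, a', h1, _⟩ | ⟨m, _, h1, _⟩
      · exfalso; rw [h1] at hW'
        rcases hW' with ⟨_, _, _, _, _, _, h⟩ | ⟨_, _, _, _, h⟩ <;> simp at h
      · exfalso; rw [h1] at hW'
        rcases hW' with ⟨_, _, _, _, _, _, h⟩ | ⟨_, _, _, _, h⟩ <;> simp at h
      · exfalso; rw [h1] at hW'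
        rcases hW' with ⟨_, _, _, _, _, _, h⟩ | ⟨_, _, _, _, h⟩ <;> simp at h
      · exact ⟨m, h1⟩
  rcases hW with ⟨t, i, m, ht, hi, hm, rfl⟩ | ⟨e, m, he, hm, rfl⟩
  · simp only [ownU, ownV] at hU hV
    rcases hU with ⟨u, a, a', h1, h2, h3, h4⟩ | ⟨e, s, h1, _⟩
    · obtain ⟨t', i', hW1⟩ : ∃ t' i', ∃ m', W' = .jA t' i' m' := by
        rcases nb_star_cases g.odd h2 with ⟨h5, _⟩ | ⟨j, _, _, h5, _⟩ | ⟨m, _, h5, _⟩
        · exact ⟨_, _, (jnb h3).1 _ _ h5⟩
        · exact ⟨_, _, (jnb h3).1 _ _ h5⟩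
        · rw [h5] at h1; exact absurd h1 not_isZ_jA
      obtain ⟨m', hW1⟩ := hW1
      rcases hV with ⟨v, b, b', h1', h2', h3', h4'⟩ | ⟨e, s, h1', _⟩
      · rcases nb_part_cases h2' with ⟨e, s, h5, _⟩ | ⟨m, _, h5, _⟩
        · obtain ⟨m'', h6⟩ := (jnb h3').2.2 _ _ h5
          rw [h6] at hW1
          simp at hW1
        · rw [h5] at h1'; exact absurd h1' not_isZ_jA
      · simp at h1'
    · simp at h1
  · simp only [ownU, ownV, rayU, rayV] at hU hV
    -- the first owner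
    obtain ⟨t, i, b, hb, m₁, hm₁⟩ : ∃ t i a, Cl k L t i e false a ∧ ∃ m', W' = .jA t i m' := by
      rcases hU with ⟨u, a, a', h1, h2, h3, h4⟩ | ⟨e', s, h1, h2⟩
      · rcases nb_gad_cases h2 with ⟨h5, h6⟩ | ⟨⟨x, h5, _⟩, _⟩ | ⟨t, i, a'', h5, h6, _⟩ |
          ⟨m, _, h5, _⟩
        · exfalso
          refine yB_dvd hk9 hm ?_
          simp only [Bool.false_eq_true, if_false, add_zero] at h6
          have e1 : yB k m = -(a - (6 * (ln L e : ℤ) + 1 + yB k m)) := by rw [h6]; ring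
          rw [e1]; exact (dvd_neg).2 h4
        · rw [h5] at h1; exact absurd h1 not_isZ_hub
        · exact ⟨t, i, a'', h6, (jnb h3).2.1 _ _ h5⟩
        · rw [h5] at h1; exact absurd h1 not_isZ_jB
      · exfalso
        simp only [Vx.gad.injEq] at h1
        obtain ⟨rfl, _⟩ := h1
        refine yB_dvd hk9 hm ?_
        have e1 : yB k m = -(6 * (ln L e : ℤ) + 1 - (6 * ln L e + 1 + yB k m)) := by ring
        rw [e1]; exact (dvd_neg).2 h2
    obtain ⟨t', i', b', hb', m₂, hm₂⟩ : ∃ t i a, Cl k L t i e true a ∧ ∃ m', W' = .jA t i m' := by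
      rcases hV with ⟨u, a, a', h1, h2, h3, h4⟩ | ⟨e', s, h1, h2⟩
      · rcases nb_gad_cases h2 with ⟨h5, h6⟩ | ⟨⟨x, h5, _⟩, _⟩ | ⟨t, i, a'', h5, h6, _⟩ |
          ⟨m, _, h5, _⟩
        · exfalso
          refine yB_dvd' hk9 hm ?_
          simp only [if_true] at h6
          have e1 : yB k m + (if m < k - 2 then 1 else -1) =
            -(a - (6 * (ln L e : ℤ) + 1 + yB k m + (if m < k - 2 then 1 else -1))) + k := by
            rw [h6]; ring
          rw [e1]; exact dvd_add ((dvd_neg).2 h4) (dvd_refl _)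
        · rw [h5] at h1; exact absurd h1 not_isZ_hub
        · exact ⟨t, i, a'', h6, (jnb h3).2.1 _ _ h5⟩
        · rw [h5] at h1; exact absurd h1 not_isZ_jB
      · exfalso
        simp only [Vx.gad.injEq] at h1
        obtain ⟨rfl, _⟩ := h1
        refine yB_dvd' hk9 hm ?_
        have e1 : yB k m + (if m < k - 2 then 1 else -1) =
          -(6 * (ln L e : ℤ) + 1 - (6 * ln L e + 1 + yB k m +
            (if m < k - 2 then 1 else -1))) := by ring
        rw [e1]; exact (dvd_neg).2 h2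
    rw [hm₁] at hm₂
    simp only [Vx.jA.injEq] at hm₂
    obtain ⟨rfl, rfl, _⟩ := hm₂
    have := (hb.unique g.chain hb').2.1
    simp at this

/-- All vertices are at distinct points. -/
theorem posn_inj (g : Gen k L r H p) {W W' : Vx} (hW : isV k L W) (hW' : isV k L W')
    (h : posn k L r p W = posn k L r p W') : W = W' := by
  by_contra hne
  rcases hW with (hZ | ⟨x, hx, rfl⟩) | hJ
  · exact g.pos_ne hZ hW' (Ne.symm hne) h.symm
  · rcases hW' with (hZ' | ⟨x', hx', rfl⟩) | hJ'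
    · exact g.pos_ne hZ' (Or.inl (Or.inr ⟨x, hx, rfl⟩)) hne h
    · apply hne
      have h1 : p (.hub x) = p (.hub x') := h
      rw [g.eqs.hub, g.eqs.hub] at h1
      rw [g.hinj hx hx' h1]
    · exact g.hub_ne_junk hx hJ' h.symm
  · rcases hW' with (hZ' | ⟨x', hx', rfl⟩) | hJ'
    · exact g.pos_ne hZ' (Or.inr hJ) hne h
    · exact g.hub_ne_junk hx' hJ h
    · exact g.junk_ne hJ hJ' hne h

end Gen

/-- Every edge joins a core vertex to one of its neighbours. -/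
theorem nb_of_edge {N : ℕ} (hlt : ∀ e, e < L.length → ln L e < N) {u v : Vx}
    (h : GEdge N L u v) : ∃ a, (isZ (6 * N + 3) L u ∧ Nb (6 * N + 3) L u v a) ∨
      (isZ (6 * N + 3) L v ∧ Nb (6 * N + 3) L v u a) := by
  cases h with
  | ss t i ht hi => exact ⟨_, Or.inl ⟨Or.inl ⟨t, i, ht, hi, Or.inl rfl⟩, .c _ _ _ (.s1 t i hi)⟩⟩
  | sj t i m ht hi hm =>
    exact ⟨_, Or.inl ⟨Or.inl ⟨t, i, ht, hi, Or.inl rfl⟩,
      .u (.jA t i m) (Or.inl ⟨t, i, m, ht, hi, hm, rfl⟩)⟩⟩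
  | pj t i m ht hi hm =>
    exact ⟨_, Or.inl ⟨Or.inl ⟨t, i, ht, hi, Or.inr rfl⟩,
      .v (.jA t i m) (Or.inl ⟨t, i, m, ht, hi, hm, rfl⟩)⟩⟩
  | gg e he => exact ⟨_, Or.inl ⟨Or.inr ⟨e, false, he, rfl⟩, .c _ _ _ (.gg e)⟩⟩
  | hg e he => exact ⟨_, Or.inr ⟨Or.inr ⟨e, false, he, rfl⟩, .c _ _ _ (.gh e)⟩⟩
  | gh e he => exact ⟨_, Or.inl ⟨Or.inr ⟨e, true, he, rfl⟩, .c _ _ _ (.gh' e)⟩⟩
  | pg e t he ht =>
    have hln : (lab L e).2.2 = ln L e := rfl
    have h1 := hlt e he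
    rw [hln]
    exact ⟨_, Or.inl ⟨Or.inl ⟨t, 6 * ln L e, by omega, by omega, Or.inr rfl⟩,
      .c _ _ _ (.pg t _ e _ _ ⟨he, ht, Or.inl ⟨rfl, rfl, rfl⟩⟩)⟩⟩
  | pg' e t he ht =>
    have hln : (lab L e).2.2 = ln L e := rfl
    have h1 := hlt e he
    rw [hln]
    exact ⟨_, Or.inl ⟨Or.inl ⟨t, 6 * ln L e + 3, by omega, by omega, Or.inr rfl⟩,
      .c _ _ _ (.pg t _ e _ _ ⟨he, ht, Or.inr ⟨rfl, rfl, rfl⟩⟩)⟩⟩
  | gj e s m he hm =>
    cases s
    · exact ⟨_, Or.inl ⟨Or.inr ⟨e, false, he, rfl⟩, .u (.jB e m) (Or.inr ⟨e, m, he, hm, rfl⟩)⟩⟩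
    · exact ⟨_, Or.inl ⟨Or.inr ⟨e, true, he, rfl⟩, .v (.jB e m) (Or.inr ⟨e, m, he, hm, rfl⟩)⟩⟩

theorem isV_nb (hlt : ∀ e, e < L.length → 6 * ln L e + 3 < k) {z Y : Vx} {a : ℤ}
    (hz : isZ k L z) (h : Nb k L z Y a) : isV k L Y := by
  cases h with
  | c _ _ _ h =>
    cases h with
    | s1 t i hi =>
      rcases hz with ⟨t', i', ht', _, h | h⟩ | ⟨e, s, _, h⟩
      · simp only [Vx.star.injEq] at h
        exact Or.inl (Or.inl (Or.inl ⟨t, nx k i, by omega, nx_lt (by omega), Or.inl rfl⟩))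
      · simp at h
      · simp at h
    | s2 t i hi =>
      rcases hz with ⟨t', i', ht', _, h | h⟩ | ⟨e, s, _, h⟩
      · simp only [Vx.star.injEq] at h
        exact Or.inl (Or.inl (Or.inl ⟨t, i, by omega, hi, Or.inl rfl⟩))
      · simp at h
      · simp at h
    | pg t i e s a h => exact Or.inl (Or.inl (Or.inr ⟨e, s, h.1, rfl⟩))
    | gp t i e s a h =>
      have h1 := hlt e h.1
      have h2 := h.1
      refine Or.inl (Or.inl (Or.inl ⟨t, i, ?_, ?_, Or.inr rfl⟩))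
      · rcases h.2.1 with h | h <;> omega
      · rcases h.2.2 with h | h <;> omega
    | gg e =>
      rcases hz with ⟨t', i', ht', _, h | h⟩ | ⟨e', s, he', h⟩
      · simp at h
      · simp at h
      · simp only [Vx.gad.injEq] at h
        exact Or.inl (Or.inl (Or.inr ⟨e, true, by omega, rfl⟩))
    | gg' e =>
      rcases hz with ⟨t', i', ht', _, h | h⟩ | ⟨e', s, he', h⟩
      · simp at h
      · simp at h
      · simp only [Vx.gad.injEq] at h
        exact Or.inl (Or.inl (Or.inr ⟨e, false, by omega, rfl⟩))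
    | gh e =>
      rcases hz with ⟨t', i', ht', _, h | h⟩ | ⟨e', s, he', h⟩
      · simp at h
      · simp at h
      · simp only [Vx.gad.injEq] at h
        exact Or.inl (Or.inr ⟨_, ⟨_, Gen.lab_mem (by omega : e < L.length), Or.inl rfl⟩, rfl⟩)
    | gh' e =>
      rcases hz with ⟨t', i', ht', _, h | h⟩ | ⟨e', s, he', h⟩
      · simp at h
      · simp at h
      · simp only [Vx.gad.injEq] at h
        exact Or.inl (Or.inr ⟨_, ⟨_, Gen.lab_mem (by omega : e < L.length), Or.inr rfl⟩, rfl⟩)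
  | u W h => exact Or.inr h
  | v W h => exact Or.inr h

end

end Pool.Agent.Slope
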